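import Mathlib

/-!
# MP_b197b4_nt: the ring of correspondences of a power of a variety
-/

namespace MPb197b4

variable {κ A E : Type*} [DecidableEq κ] [Ring A] [Algebra ℚ A] [Ring E] [Algebra ℚ E]

/-- The subalgebra generated by the correspondences of the factors `≠ j` and by the permutations
which fix `j`. -/
def away (perm : Equiv.Perm κ →* E) (c : κ → A →ₐ[ℚ] E) (j : κ) : Subalgebra ℚ E :=
  Algebra.adjoin ℚ ({x | ∃ i a, i ≠ j ∧ x = c i a} ∪ {x | ∃ σ : Equiv.Perm κ, σ j = j ∧ x = perm σ})

/-- `E` behaves as the ring of correspondences of a power `X^κ` of a variety `X`, whose ring of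
correspondences is `A`: `perm σ` is the graph of the permutation `σ` of the factors, `c j` puts a
correspondence of `X` on the factor `j`, `ptr j` is the partial trace in the factor `j`, and `tr`
is the intersection number with the diagonal of `X × X`. -/
structure IsPower (tr : A →ₗ[ℚ] ℚ) (perm : Equiv.Perm κ →* E) (c : κ → A →ₐ[ℚ] E)
    (ptr : κ → E →ₗ[ℚ] E) : Prop where
  comm : ∀ i j, i ≠ j → ∀ x y, c i x * c j y = c j y * c i x
  conj : ∀ σ j x, perm σ * c j x = c (σ j) x * perm σ
  inj : ∀ j, Function.Injective (c j)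
  ptr_mul : ∀ j x, ∀ a ∈ away perm c j, ∀ b ∈ away perm c j, ptr j (a * x * b) = a * ptr j x * b
  ptr_at : ∀ j x, ptr j (c j x) = algebraMap ℚ E (tr x)
  ptr_swap : ∀ i j, i ≠ j → ptr j (perm (Equiv.swap i j)) = 1

end MPb197b4
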