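import Mathlib

/-!
# MP_b197b4_nt: the inequality `(tr A)² ≤ rank A · ‖A‖²` for real square matrices
-/

namespace MPb197b4

open Matrix Module

theorem trace_sq_le {n : Type*} [Fintype n] [DecidableEq n] (A : Matrix n n ℝ) :
    A.trace ^ 2 ≤ A.rank * ∑ i, ∑ j, A i j ^ 2 := by
  classical
  set T : EuclideanSpace ℝ n →ₗ[ℝ] EuclideanSpace ℝ n := Matrix.toEuclideanLin A with hT
  set W := LinearMap.range T with hW
  set r := finrank ℝ W with hr
  have hrank : A.rank = r := by
    rw [hr, hW, hT, Matrix.rank_eq_finrank_range_toLin A (EuclideanSpace.basisFun n ℝ).toBasis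
      (EuclideanSpace.basisFun n ℝ).toBasis]
    rfl
  let u := stdOrthonormalBasis ℝ W
  let e : n → EuclideanSpace ℝ n := fun i => EuclideanSpace.single i 1
  have hTe : ∀ i j, (T (e i)) j = A j i := by
    intro i j
    simp [hT, e, Matrix.toLpLin_apply]
  -- expansion of `T e_i` in the basis
  have h1 : ∀ i, T (e i) = ∑ a, inner ℝ ((u a : W) : EuclideanSpace ℝ n) (T (e i)) •
      ((u a : W) : EuclideanSpace ℝ n) := by
    intro i
    have hmem : T (e i) ∈ W := ⟨e i, rfl⟩
    have h2 := u.sum_repr' ⟨T (e i), hmem⟩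
    have h3 := congrArg (fun w : W => (w : EuclideanSpace ℝ n)) h2
    simp only [Submodule.coe_sum, Submodule.coe_smul, Submodule.coe_inner] at h3
    exact h3.symm
  have h4 : A.trace = ∑ i, ∑ a, inner ℝ ((u a : W) : EuclideanSpace ℝ n) (T (e i)) *
      ((u a : W) : EuclideanSpace ℝ n) i := by
    rw [Matrix.trace]
    refine Finset.sum_congr rfl fun i _ => ?_
    rw [Matrix.diag_apply, ← hTe i i]
    conv_lhs => rw [h1 i]
    simp
  have h5 : A.trace ^ 2 ≤ (∑ p : n × Fin r, inner ℝ ((u p.2 : W) : EuclideanSpace ℝ n) (T (e p.1)) ^ 2) *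
      ∑ p : n × Fin r, (((u p.2 : W) : EuclideanSpace ℝ n) p.1) ^ 2 := by
    rw [h4, ← Fintype.sum_prod_type']
    exact Finset.sum_mul_sq_le_sq_mul_sq _ _ _
  have h6 : ∑ p : n × Fin r, (((u p.2 : W) : EuclideanSpace ℝ n) p.1) ^ 2 = r := by
    rw [Fintype.sum_prod_type_right]
    have : ∀ a : Fin r, ∑ i, (((u a : W) : EuclideanSpace ℝ n) i) ^ 2 = 1 := by
      intro a
      have h7 : ‖((u a : W) : EuclideanSpace ℝ n)‖ = 1 := by
        rw [← Submodule.coe_norm]
        exact u.norm_eq_one a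
      have h8 := EuclideanSpace.norm_sq_eq ((u a : W) : EuclideanSpace ℝ n)
      rw [h7] at h8
      simp only [Real.norm_eq_abs, sq_abs] at h8
      rw [← h8]; norm_num
    rw [Finset.sum_congr rfl fun a _ => this a]
    simp
  have h9 : ∑ p : n × Fin r, inner ℝ ((u p.2 : W) : EuclideanSpace ℝ n) (T (e p.1)) ^ 2 =
      ∑ i, ∑ j, A i j ^ 2 := by
    rw [Fintype.sum_prod_type, Finset.sum_comm' (s := Finset.univ) (t := fun _ => Finset.univ)
      (t' := Finset.univ) (s' := fun _ => Finset.univ) (by simp)]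
    rw [Finset.sum_comm]
    rw [Finset.sum_comm (s := Finset.univ) (t := Finset.univ) (f := fun i j => A i j ^ 2)]
    refine Finset.sum_congr rfl fun i _ => ?_
    have hmem : T (e i) ∈ W := ⟨e i, rfl⟩
    have h10 := u.sum_sq_norm_inner_right ⟨T (e i), hmem⟩
    have h11 : ‖(⟨T (e i), hmem⟩ : W)‖ ^ 2 = ∑ j, A j i ^ 2 := by
      rw [Submodule.coe_norm]
      rw [EuclideanSpace.norm_sq_eq]
      refine Finset.sum_congr rfl fun j _ => ?_
      rw [Real.norm_eq_abs, sq_abs]
      congr 1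
      exact hTe i j
    rw [← h11, ← h10]
    refine Finset.sum_congr rfl fun a _ => ?_
    rw [Real.norm_eq_abs, sq_abs]
    rfl
  rw [h6, h9] at h5
  rw [hrank]
  calc A.trace ^ 2 ≤ _ := h5
    _ = _ := by ring

end MPb197b4
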