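import Pool.Agent.Lib.MP_b197b4_nt.Burnside
import Pool.Agent.Lib.MP_b197b4_nt.RankIneq

/-!
# MP_b197b4_nt: the dimension of one block
-/

namespace MPb197b4

open Finset Module

set_option linter.unusedSectionVars false

/-- the rank does not change under an extension of fields -/
theorem rank_map' {K L : Type*} [Field K] [Field L] {n : Type*} [Fintype n] [DecidableEq n]
    (φ : K →+* L) (A : Matrix n n K) : (A.map φ).rank = A.rank := by
  classical
  obtain ⟨l, l', D, h⟩ := Matrix.Pivot.exists_list_transvec_mul_diagonal_mul_list_transvec A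
  set P := (l.map Matrix.TransvectionStruct.toMatrix).prod with hP
  set Q := (l'.map Matrix.TransvectionStruct.toMatrix).prod with hQ
  have hPd : P.det = 1 := Matrix.TransvectionStruct.det_toMatrix_prod l
  have hQd : Q.det = 1 := Matrix.TransvectionStruct.det_toMatrix_prod l'
  have h1 : A.map φ = P.map φ * Matrix.diagonal (fun i => φ (D i)) * Q.map φ := by
    rw [h, Matrix.map_mul, Matrix.map_mul]
    congr 2
    rw [Matrix.diagonal_map (map_zero φ)]
  have hP1 : IsUnit (P.map φ).det := by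
    have : (P.map φ).det = φ P.det := (RingHom.map_det φ P).symm
    rw [this, hPd, map_one]
    exact isUnit_one
  have hQ1 : IsUnit (Q.map φ).det := by
    have : (Q.map φ).det = φ Q.det := (RingHom.map_det φ Q).symm
    rw [this, hQd, map_one]
    exact isUnit_one
  rw [h1, Matrix.rank_mul_eq_left_of_isUnit_det _ _ hQ1,
    Matrix.rank_mul_eq_right_of_isUnit_det _ _ hP1, h,
    Matrix.rank_mul_eq_left_of_isUnit_det _ _ (by rw [hQd]; exact isUnit_one),
    Matrix.rank_mul_eq_right_of_isUnit_det _ _ (by rw [hPd]; exact isUnit_one),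
    Matrix.rank_diagonal, Matrix.rank_diagonal]
  refine Fintype.card_congr (Equiv.subtypeEquivRight fun i => ?_)
  rw [ne_eq, ne_eq, map_eq_zero]

theorem num_step {N v r r' S K : ℝ} (hN : 0 < N) (hr : r ≤ r') (hS : S ≤ K * N) (hr0 : 0 ≤ r)
    (hS0 : 0 ≤ S) (h : (N * v) ^ 2 ≤ r * (N * S)) : v ^ 2 ≤ r' * K := by
  have h1 : (N * v) ^ 2 ≤ r' * (N * (K * N)) :=
    h.trans (mul_le_mul hr (mul_le_mul_of_nonneg_left hS hN.le) (by positivity) (hr0.trans hr))
  have h2 : N ^ 2 * v ^ 2 ≤ N ^ 2 * (r' * K) := by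
    calc _ = (N * v) ^ 2 := by ring
      _ ≤ _ := h1
      _ = _ := by ring
  exact le_of_mul_le_mul_left h2 (by positivity)

variable {κ A E : Type*} [DecidableEq κ] [Fintype κ] [Ring A] [Algebra ℚ A] [Ring E] [Algebra ℚ E]
variable {tr : A →ₗ[ℚ] ℚ} {perm : Equiv.Perm κ →* E} {c : κ → A →ₐ[ℚ] E} {ptr : κ → E →ₗ[ℚ] E}

/-- the tensor of idempotents `q (g j)` -/
noncomputable def eg (h : IsPower tr perm c ptr) (q : Fin 3 → A) (g : κ → Fin 3) : E :=
  tens h univ (fun j => q (g j))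

theorem eg_mul_perm (h : IsPower tr perm c ptr) (q : Fin 3 → A) (g : κ → Fin 3)
    (σ : Equiv.Perm κ) : perm σ * eg h q g = eg h q (fun j => g (σ.symm j)) * perm σ := by
  unfold eg
  rw [conj_tens, map_univ_equiv]

theorem block_bound [Nontrivial E] (h : IsPower tr perm c ptr) {q : Fin 3 → A}
    (hq : ∀ a, q a * q a = q a) (hq2 : q 2 ≠ 0) {b : Fin 3 → ℕ}
    (hb : ∀ a, a ≠ 2 → (tr (q a)) ^ 2 = ((b a : ℕ) : ℚ) ^ 2) (g : κ → Fin 3)
    (σ₀ : Equiv.Perm κ) (W : Submodule ℚ E) [FiniteDimensional ℚ W]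
    (hW : ∀ ρ ∈ Good (low g) g, eg h q g * perm ρ * perm σ₀ ∈ W) :
    ∏ j ∈ low g, (b (g j)) ^ 2 ≤
      finrank ℚ W * (Fintype.card κ + 1) ^ (b 0 * b 0 + b 1 * b 1) := by
  classical
  set C : Finset κ := (low g)ᶜ with hC
  have hTC : Disjoint (low g) C := disjoint_compl_right
  obtain ⟨Φ, v, h1, h2, h3⟩ := exists_trace h hq (b := b) (g := g) (low g) C hTC
    (fun j hj => hb _ (mem_low.mp hj))
  have hu : low g ∪ C = univ := union_compl _
  rw [hu] at h1
  -- the tensor on `C`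
  have hCne : tens h C (fun j => q (g j)) ≠ 0 := by
    have : tens h C (fun j => q (g j)) = tens h C (fun _ => q 2) := by
      refine tens_congr h fun j hj => ?_
      have : j ∉ low g := by rwa [hC, mem_compl] at hj
      rw [mem_low, not_not] at this
      rw [this]
    rw [this]
    exact tens_ne_zero h (hq 2) hq2 C
  obtain ⟨ℓ, hℓ⟩ : ∃ ℓ : E →ₗ[ℚ] ℚ, ℓ (tens h C (fun j => q (g j))) = 1 := by
    obtain ⟨f, hf⟩ : ∃ f : Module.Dual ℚ E, f (tens h C (fun j => q (g j))) ≠ 0 := by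
      by_contra hcon
      push Not at hcon
      exact hCne ((Module.forall_dual_apply_eq_zero_iff ℚ _).mp hcon)
    refine ⟨(f (tens h C (fun j => q (g j))))⁻¹ • f, ?_⟩
    rw [LinearMap.smul_apply, smul_eq_mul, inv_mul_cancel₀ hf]
  set Γ := Good (low g) g with hΓ
  let X : Γ → W := fun ρ => ⟨eg h q g * perm ρ.1 * perm σ₀, hW ρ.1 ρ.2⟩
  let L : (Γ → ℚ) →ₗ[ℚ] W := ∑ s : Γ, (LinearMap.proj s).smulRight (X s)
  let M : W →ₗ[ℚ] (Γ → ℚ) := LinearMap.pi fun t =>
    ℓ ∘ₗ Φ ∘ₗ (LinearMap.mulRight ℚ (perm σ₀⁻¹ * perm (t.1)⁻¹)) ∘ₗ W.subtype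
  let G : Matrix Γ Γ ℚ := Matrix.of fun t s => v (s.1 * t.1⁻¹)
  have hG : ∀ t s : Γ, G t s = v (s.1 * t.1⁻¹) := fun _ _ => rfl
  have hML : G.mulVecLin = M ∘ₗ L := by
    refine LinearMap.ext fun x => funext fun t => ?_
    rw [Matrix.mulVecLin_apply, Matrix.mulVec, dotProduct]
    simp only [L, M, LinearMap.comp_apply, LinearMap.pi_apply, LinearMap.sum_apply,
      LinearMap.smulRight_apply, LinearMap.proj_apply, map_sum, map_smul]
    refine sum_congr rfl fun s _ => ?_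
    rw [smul_eq_mul, mul_comm]
    congr 1
    have h4 : eg h q g * perm s.1 * perm σ₀ * (perm σ₀⁻¹ * perm (t.1)⁻¹) =
        eg h q g * perm (s.1 * (t.1)⁻¹) := by
      simp only [mul_assoc, ← map_mul]
      congr 2
      group
    have h5 : s.1 * (t.1)⁻¹ ∈ Γ := Γ.mul_mem s.2 (Γ.inv_mem t.2)
    have h6 := h1 _ h5
    show v _ = ℓ (Φ (eg h q g * perm s.1 * perm σ₀ * (perm σ₀⁻¹ * perm (t.1)⁻¹)))
    rw [h4]
    unfold eg
    rw [h6, map_smul, hℓ, smul_eq_mul, mul_one]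
  have hrank : G.rank ≤ finrank ℚ W := by
    rw [Matrix.rank, hML]
    calc finrank ℚ (LinearMap.range (M ∘ₗ L)) ≤ finrank ℚ (LinearMap.range M) := by
          refine Submodule.finrank_mono ?_
          exact LinearMap.range_comp_le_range L M
      _ ≤ finrank ℚ W := LinearMap.finrank_range_le M
  set R : Matrix Γ Γ ℝ := G.map (algebraMap ℚ ℝ) with hR
  have hRr : R.rank = G.rank := rank_map' _ _
  have h7 := trace_sq_le R
  have h8 : R.trace = (Fintype.card Γ : ℝ) * (v 1 : ℝ) := by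
    rw [Matrix.trace]
    have : ∀ t : Γ, R.diag t = (v 1 : ℝ) := by
      intro t
      rw [Matrix.diag_apply, hR, Matrix.map_apply, hG, mul_inv_cancel]
      rfl
    rw [sum_congr rfl fun t _ => this t, sum_const, card_univ, nsmul_eq_mul]
  have h9 : ∑ t, ∑ s, R t s ^ 2 = (Fintype.card Γ : ℝ) *
      ∑ ρ : Γ, (((fixSet b (low g) g ρ.1).card : ℕ) : ℝ) ^ 2 := by
    have : ∀ t : Γ, ∑ s, R t s ^ 2 = ∑ ρ : Γ, (((fixSet b (low g) g ρ.1).card : ℕ) : ℝ) ^ 2 := by
      intro t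
      refine Fintype.sum_equiv (Equiv.mulRight t⁻¹) _ _ fun s => ?_
      rw [hR, Matrix.map_apply, hG]
      have h10 : s.1 * (t.1)⁻¹ ∈ Γ := Γ.mul_mem s.2 (Γ.inv_mem t.2)
      have h11 := h2 _ h10
      show ((v (s.1 * t.1⁻¹) : ℚ) : ℝ) ^ 2 = (((fixSet b (low g) g (s.1 * t.1⁻¹)).card : ℕ) : ℝ) ^ 2
      exact_mod_cast h11
    rw [sum_congr rfl fun t _ => this t, sum_const, card_univ, nsmul_eq_mul]
  have h12 := burnside b g
  have h12' : ∑ ρ : Γ, (((fixSet b (low g) g ρ.1).card : ℕ) : ℝ) ^ 2 ≤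
      ((Fintype.card κ + 1 : ℕ) : ℝ) ^ (b 0 * b 0 + b 1 * b 1) * (Fintype.card Γ : ℝ) := by
    exact_mod_cast h12
  have hΓpos : 0 < (Fintype.card Γ : ℝ) := by
    exact_mod_cast Fintype.card_pos
  rw [h8, h9, hRr] at h7
  have h13 : (v 1 : ℝ) ^ 2 ≤ (finrank ℚ W : ℝ) *
      ((Fintype.card κ + 1 : ℕ) : ℝ) ^ (b 0 * b 0 + b 1 * b 1) :=
    num_step hΓpos (Nat.cast_le.mpr hrank) h12' (Nat.cast_nonneg _)
      (Finset.sum_nonneg fun ρ _ => sq_nonneg _) h7
  have h16 : ((v 1 : ℚ) : ℝ) ^ 2 = ((∏ j ∈ low g, (b (g j)) ^ 2 : ℕ) : ℝ) := by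
    have := h3
    exact_mod_cast this
  rw [h16] at h13
  exact_mod_cast h13

end MPb197b4
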