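import Pool.Agent.Lib.MP_b197b4_nt.Phantom

/-!
# MP_b197b4_nt: hooks on a tensor power of an idempotent of trace zero
-/

namespace MPb197b4

open Finset

variable {κ A E : Type*} [DecidableEq κ] [Fintype κ] [Ring A] [Algebra ℚ A] [Ring E] [Algebra ℚ E]
variable {tr : A →ₗ[ℚ] ℚ} {perm : Equiv.Perm κ →* E} {c : κ → A →ₐ[ℚ] E} {ptr : κ → E →ₗ[ℚ] E}

/-- the sign with rational values -/
def sgnQ (κ : Type*) [DecidableEq κ] [Fintype κ] : Equiv.Perm κ →* ℚ where
  toFun σ := ((Equiv.Perm.sign σ : ℤ) : ℚ)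
  map_one' := by simp
  map_mul' := by intro x y; simp

theorem sgnQ_swap {a b : κ} (h : a ≠ b) : sgnQ κ (Equiv.swap a b) = -1 := by
  show ((Equiv.Perm.sign (Equiv.swap a b) : ℤ) : ℚ) = -1
  rw [Equiv.Perm.sign_swap h]
  simp

theorem sgnQ_sq (σ : Equiv.Perm κ) : sgnQ κ σ ^ 2 = 1 := by
  show ((Equiv.Perm.sign σ : ℤ) : ℚ) ^ 2 = 1
  rcases Int.units_eq_one_or (Equiv.Perm.sign σ) with h | h <;> rw [h] <;> norm_num

/-- a permutation which maps no point of `E'` into `O` is a product. -/
theorem exists_split {O E' : Finset κ} {ρ : Equiv.Perm κ}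
    (hρ : ρ ∈ fixF (O ∪ E')) (hn : ¬ ∃ e ∈ E', ρ e ∈ O) :
    ∃ ρO ∈ fixF O, ∃ ρE ∈ fixF E', ρ = ρO * ρE := by
  push Not at hn
  have hE : ∀ e ∈ E', ρ e ∈ E' := by
    intro e he
    have := fixF_apply_mem hρ (mem_union_right O he)
    rw [mem_union] at this
    exact this.resolve_left (hn e he)
  have hEmap : E'.map ρ.toEmbedding = E' := by
    refine eq_of_subset_of_card_le ?_ (by rw [card_map])
    intro x hx
    rw [mem_map] at hx
    obtain ⟨a, ha, rfl⟩ := hx
    exact hE a ha
  have hE' : ∀ x, ρ x ∈ E' ↔ x ∈ E' := by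
    intro x
    constructor
    · intro hx
      rw [← hEmap, mem_map] at hx
      obtain ⟨a, ha, hax⟩ := hx
      have : a = x := ρ.injective hax
      exact this ▸ ha
    · exact hE x
  set ρE : Equiv.Perm κ := Equiv.Perm.ofSubtype (ρ.subtypePerm (p := fun x => x ∈ E') (fun x => (hE' x))) with hρE
  have h1 : ∀ x ∈ E', ρE x = ρ x := by
    intro x hx
    rw [hρE, Equiv.Perm.ofSubtype_apply_of_mem _ hx]
    rfl
  have h2 : ∀ x, x ∉ E' → ρE x = x := by
    intro x hx
    rw [hρE, Equiv.Perm.ofSubtype_apply_of_not_mem _ hx]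
  refine ⟨ρ * ρE⁻¹, ?_, ρE, mem_fixF.mpr h2, by group⟩
  rw [mem_fixF]
  intro a ha
  rw [Equiv.Perm.mul_apply]
  by_cases haE : a ∈ E'
  · obtain ⟨b, hb, hba⟩ : ∃ b ∈ E', ρ b = a := by
      rw [← hEmap, mem_map] at haE
      obtain ⟨b, hb, hba⟩ := haE
      exact ⟨b, hb, hba⟩
    have h3 : ρE⁻¹ a = b := by
      rw [Equiv.Perm.inv_eq_iff_eq, h1 b hb, hba]
    rw [h3, hba]
  · have h3 : ρE⁻¹ a = a := by
      rw [Equiv.Perm.inv_eq_iff_eq, h2 a haE]
    rw [h3]
    exact (mem_fixF.mp hρ) a (by rw [mem_union]; tauto)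

/-- **Double cosets.** -/
theorem exists_coset (perm : Equiv.Perm κ →* E) {O E' : Finset κ} (hd : Disjoint O E') {o : κ}
    (hoO : o ∉ O) (hoE : o ∉ E') :
    ∃ φ : Equiv.Perm κ → ℚ, φ 1 = 1 ∧ (∀ ρ ∈ fixF (O ∪ E'),
      symS perm (sgnQ κ) (insert o O) * perm ρ * symS perm 1 (insert o E') =
        φ ρ • (symS perm (sgnQ κ) (insert o O) * symS perm 1 (insert o E'))) ∧
      (∀ ρ ∈ fixF (O ∪ E'), |φ ρ| ≤ if ∀ a, ρ a ∈ O ↔ a ∈ O then 1 else 0) := by
  classical
  have key : ∀ ρ : Equiv.Perm κ, ∃ v : ℚ, (ρ = 1 → v = 1) ∧ (ρ ∈ fixF (O ∪ E') →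
      symS perm (sgnQ κ) (insert o O) * perm ρ * symS perm 1 (insert o E') =
        v • (symS perm (sgnQ κ) (insert o O) * symS perm 1 (insert o E')) ∧
      |v| ≤ if ∀ a, ρ a ∈ O ↔ a ∈ O then 1 else 0) := by
    intro ρ
    by_cases hρ : ρ ∈ fixF (O ∪ E')
    swap
    · refine ⟨1, fun _ => rfl, fun h => absurd h hρ⟩
    by_cases hn : ∃ e ∈ E', ρ e ∈ O
    · obtain ⟨e, he, hx⟩ := hn
      refine ⟨0, ?_, fun _ => ⟨?_, ?_⟩⟩
      · rintro rfl
        exact absurd he (disjoint_left.mp hd hx)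
      · have ho : ρ o = o := (mem_fixF.mp hρ) o (by rw [mem_union]; tauto)
        have h1 : perm (Equiv.swap o e) * symS perm 1 (insert o E') = symS perm 1 (insert o E') := by
          have := perm_mul_symS (perm := perm) 1 (swap_mem_fixF (U := insert o E') (mem_insert_self o _)
            (mem_insert_of_mem he))
          rwa [MonoidHom.one_apply, one_smul] at this
        have hox : o ≠ ρ e := fun h' => hoO (h' ▸ hx)
        have h2 : symS perm (sgnQ κ) (insert o O) * perm (Equiv.swap o (ρ e)) =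
            -symS perm (sgnQ κ) (insert o O) := by
          have := symS_mul_perm (perm := perm) (sgnQ κ) (swap_mem_fixF (U := insert o O)
            (mem_insert_self o _) (mem_insert_of_mem hx))
          rw [this, Equiv.swap_inv, sgnQ_swap hox, neg_one_smul]
        have h3 : perm ρ * perm (Equiv.swap o e) = perm (Equiv.swap o (ρ e)) * perm ρ := by
          rw [← map_mul, ← map_mul]
          congr 1
          rw [Equiv.mul_swap_eq_swap_mul, ho]
        have h4 : symS perm (sgnQ κ) (insert o O) * perm ρ * symS perm 1 (insert o E') =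
            -(symS perm (sgnQ κ) (insert o O) * perm ρ * symS perm 1 (insert o E')) := by
          calc _ = symS perm (sgnQ κ) (insert o O) * perm ρ *
                (perm (Equiv.swap o e) * symS perm 1 (insert o E')) := by rw [h1]
            _ = symS perm (sgnQ κ) (insert o O) * (perm ρ * perm (Equiv.swap o e)) *
                symS perm 1 (insert o E') := by simp only [mul_assoc]
            _ = (symS perm (sgnQ κ) (insert o O) * perm (Equiv.swap o (ρ e))) * perm ρ *
                symS perm 1 (insert o E') := by rw [h3]; simp only [mul_assoc]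
            _ = _ := by rw [h2]; simp only [neg_mul]
        have h5 : (2 : ℚ) • (symS perm (sgnQ κ) (insert o O) * perm ρ *
            symS perm 1 (insert o E')) = 0 := by
          rw [two_smul]
          nth_rewrite 1 [h4]
          exact neg_add_cancel _
        rw [zero_smul]
        exact (smul_eq_zero.mp h5).resolve_left (by norm_num)
      · rw [abs_zero]
        split_ifs <;> norm_num
    · obtain ⟨ρO, hρO, ρE, hρE, rfl⟩ := exists_split hρ hn
      refine ⟨sgnQ κ ρO⁻¹, ?_, fun _ => ⟨?_, ?_⟩⟩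
      · intro h1
        have h2 : ρO = 1 := by
          ext a
          rw [Equiv.Perm.one_apply]
          by_cases ha : a ∈ O
          · have h3 : ρE a = a := (mem_fixF.mp hρE) a (disjoint_left.mp hd ha)
            have h4 : (ρO * ρE) a = a := by rw [h1]; rfl
            rwa [Equiv.Perm.mul_apply, h3] at h4
          · exact (mem_fixF.mp hρO) a ha
        rw [h2, inv_one, map_one]
      · have h1 : symS perm (sgnQ κ) (insert o O) * perm ρO =
            sgnQ κ ρO⁻¹ • symS perm (sgnQ κ) (insert o O) :=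
          symS_mul_perm _ (fixF_mono (subset_insert _ _) hρO)
        have h2 : perm ρE * symS perm 1 (insert o E') = symS perm 1 (insert o E') := by
          have := perm_mul_symS (perm := perm) 1 (fixF_mono (subset_insert o _) hρE)
          rwa [MonoidHom.one_apply, one_smul] at this
        calc _ = (symS perm (sgnQ κ) (insert o O) * perm ρO) *
              (perm ρE * symS perm 1 (insert o E')) := by rw [map_mul]; simp only [mul_assoc]
          _ = _ := by rw [h1, h2, smul_mul_assoc]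
      · have h6 : |sgnQ κ ρO⁻¹| ≤ 1 := by
          rw [← sq_le_one_iff_abs_le_one, sgnQ_sq]
        rw [if_pos]
        · exact h6
        · intro a
          rw [Equiv.Perm.mul_apply]
          by_cases ha : a ∈ O
          · have h3 : ρE a = a := (mem_fixF.mp hρE) a (disjoint_left.mp hd ha)
            rw [h3]
            exact ⟨fun _ => ha, fun _ => fixF_apply_mem hρO ha⟩
          · refine ⟨fun h7 => ?_, fun h7 => absurd h7 ha⟩
            by_cases haE : a ∈ E'
            · have h8 : ρE a ∈ E' := fixF_apply_mem hρE haE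
              have h9 : ρO (ρE a) = ρE a := (mem_fixF.mp hρO) _ (disjoint_right.mp hd h8)
              rw [h9] at h7
              exact absurd h8 (disjoint_left.mp hd h7)
            · have h8 : ρE a = a := (mem_fixF.mp hρE) a haE
              have h9 : ρO a = a := (mem_fixF.mp hρO) _ ha
              rw [h8, h9] at h7
              exact h7
  choose φ hφ using key
  exact ⟨φ, (hφ 1).1 rfl, fun ρ hρ => ((hφ ρ).2 hρ).1, fun ρ hρ => ((hφ ρ).2 hρ).2⟩

/-- One subset. -/
theorem exists_functional (h : IsPower tr perm c ptr) {p : A} (hp : p * p = p) (htr : tr p = 0)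
    {O E' : Finset κ} (hd : Disjoint O E') {o : κ} (hoO : o ∉ O) (hoE : o ∉ E') :
    ∃ Φ : E →ₗ[ℚ] E, ∃ φ : Equiv.Perm κ → ℚ, φ 1 = 1 ∧
      (∀ ρ ∈ fixF (O ∪ E'), Φ (tens h (insert o (O ∪ E')) (fun _ => p) * perm ρ) = φ ρ • c o p) ∧
      (∀ ρ ∈ fixF (O ∪ E'), |φ ρ| ≤ if ∀ a, ρ a ∈ O ↔ a ∈ O then 1 else 0) := by
  obtain ⟨φ, h1, h2, h3⟩ := exists_coset perm hd hoO hoE
  -- traces over `E'`
  obtain ⟨Θ1, r1, hr1, hΘ1⟩ := exists_ptr h hp htr 1 (ε := 1) one_ne_zero (fun _ _ _ => rfl)
    (o := o) (insert o O) (insert o O) (subset_refl _) (mem_insert_self _ _) E'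
    (by rw [disjoint_insert_right]; exact ⟨hoE, hd.symm⟩) (sgnQ κ)
  -- traces over `O`
  obtain ⟨Θ2, r2, hr2, hΘ2⟩ := exists_ptr h hp htr (sgnQ κ) (ε := -1) (by norm_num)
    (fun _ _ hab => sgnQ_swap hab) (o := o) {o} {o} (subset_refl _) (mem_singleton_self _) O
    (by rw [disjoint_singleton_right]; exact hoO) 1
  rw [symS_singleton, mul_one, mul_one] at hΘ2
  have hto : tens h {o} (fun _ => p) = c o p := by
    have := tens_insert h (notMem_empty o) (fun _ => p)
    rw [insert_empty_eq] at this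
    rw [this, tens_empty, mul_one]
  rw [hto] at hΘ2
  have hO : O ∪ {o} = insert o O := by
    rw [union_comm]; rfl
  rw [hO] at hΘ2
  set Al := symS perm (sgnQ κ) (insert o O) with hAl
  set Sy := symS perm 1 (insert o E') with hSy
  have hOE : E' ∪ insert o O = insert o (O ∪ E') := by
    rw [union_insert, union_comm]
  rw [hOE] at hΘ1
  refine ⟨(r1 * r2)⁻¹ • (Θ2 ∘ₗ Θ1 ∘ₗ (LinearMap.mulLeft ℚ Al) ∘ₗ (LinearMap.mulRight ℚ Sy)), φ, h1,
    ?_, h3⟩
  intro ρ hρ
  rw [LinearMap.smul_apply, LinearMap.comp_apply, LinearMap.comp_apply, LinearMap.comp_apply,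
    LinearMap.mulLeft_apply, LinearMap.mulRight_apply]
  have h4 : Al * (tens h (insert o (O ∪ E')) (fun _ => p) * perm ρ * Sy) =
      φ ρ • (tens h (insert o (O ∪ E')) (fun _ => p) * Al * Sy) := by
    have h5 : Al * tens h (insert o (O ∪ E')) (fun _ => p) =
        tens h (insert o (O ∪ E')) (fun _ => p) * Al :=
      symS_comm_tens h _ (insert_subset_insert _ subset_union_left) p
    calc _ = (Al * tens h (insert o (O ∪ E')) (fun _ => p)) * perm ρ * Sy := by
          simp only [mul_assoc]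
      _ = tens h (insert o (O ∪ E')) (fun _ => p) * (Al * perm ρ * Sy) := by
          rw [h5]; simp only [mul_assoc]
      _ = _ := by rw [h2 ρ hρ, mul_smul_comm, mul_assoc]
  rw [h4, map_smul, hΘ1, map_smul, map_smul, hΘ2, smul_smul, smul_smul, smul_smul]
  congr 1
  field_simp

/-- the letters -/
def gC (C : Finset κ) (j : κ) : Fin 3 := if j ∈ C then 0 else 2

/-- **The permutations on a tensor power of an idempotent of trace zero.** -/
theorem exists_phantom (h : IsPower tr perm c ptr) {p : A} (hp : p * p = p) (htr : tr p = 0)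
    {C : Finset κ} {o : κ} (ho : o ∉ C) :
    ∃ Φ : E →ₗ[ℚ] E, ∃ ψ : Equiv.Perm κ → ℚ,
      (∀ ρ ∈ fixF C, Φ (tens h (insert o C) (fun _ => p) * perm ρ) = ψ ρ • c o p) ∧
      (∀ ρ ∈ fixF C, (ψ ρ) ^ 2 ≤ (((fixSet ![2, 0, 0] C (gC C) ρ).card : ℕ) : ℚ) ^ 2) ∧
      ψ 1 = 2 ^ C.card := by
  classical
  have key : ∀ O : Finset κ, ∃ Φ : E →ₗ[ℚ] E, ∃ φ : Equiv.Perm κ → ℚ, O ⊆ C → φ 1 = 1 ∧
      (∀ ρ ∈ fixF C, Φ (tens h (insert o C) (fun _ => p) * perm ρ) = φ ρ • c o p) ∧
      (∀ ρ ∈ fixF C, |φ ρ| ≤ if ∀ a, ρ a ∈ O ↔ a ∈ O then 1 else 0) := by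
    intro O
    by_cases hO : O ⊆ C
    swap
    · exact ⟨0, 0, fun h' => absurd h' hO⟩
    obtain ⟨Φ, φ, h1, h2, h3⟩ := exists_functional h hp htr (O := O) (E' := C \ O) (o := o)
      disjoint_sdiff (fun h' => ho (hO h')) (fun h' => ho (mem_sdiff.mp h').1)
    rw [union_sdiff_of_subset hO] at h2 h3
    exact ⟨Φ, φ, fun _ => ⟨h1, h2, h3⟩⟩
  choose Φ φ hφ using key
  refine ⟨∑ O ∈ C.powerset, Φ O, fun ρ => ∑ O ∈ C.powerset, φ O ρ, ?_, ?_, ?_⟩
  · intro ρ hρ
    rw [LinearMap.sum_apply, sum_smul]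
    exact sum_congr rfl fun O hO => (hφ O (mem_powerset.mp hO)).2.1 ρ hρ
  · intro ρ hρ
    rw [sq_le_sq, Nat.abs_cast]
    refine (abs_sum_le_sum_abs _ _).trans ?_
    have h1 : ∑ O ∈ C.powerset, |φ O ρ| ≤
        ∑ O ∈ C.powerset, (if ∀ a, ρ a ∈ O ↔ a ∈ O then (1 : ℚ) else 0) :=
      sum_le_sum fun O hO => (hφ O (mem_powerset.mp hO)).2.2 ρ hρ
    refine h1.trans ?_
    rw [← sum_filter, sum_const, nsmul_eq_mul, mul_one]
    norm_cast
    refine card_le_card_of_injOn (fun O => fun j => if j ∈ O then 1 else 0) ?_ ?_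
    · intro O hO
      rw [mem_coe, mem_filter, mem_powerset] at hO
      rw [mem_coe, mem_fixSet]
      refine ⟨fun j => ?_, fun j => ?_⟩
      · dsimp only
        by_cases hj : j ∈ C
        · rw [wt_mem _ _ hj]
          have : (![2, 0, 0] : Fin 3 → ℕ) (gC C j) = 2 := by simp [gC, hj]
          rw [this]
          split_ifs <;> norm_num
        · rw [wt_notMem _ _ hj, if_neg fun h' => hj (hO.1 h')]
          exact Nat.zero_lt_one
      · dsimp only
        by_cases hj : j ∈ O
        · rw [if_pos hj, if_pos ((hO.2 j).mpr hj)]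
        · rw [if_neg hj, if_neg fun h' => hj ((hO.2 j).mp h')]
    · intro O _ O' _ hOO
      ext j
      have := congrFun hOO j
      dsimp only at this
      by_cases hj : j ∈ O
      · rw [if_pos hj] at this
        by_cases hj' : j ∈ O'
        · exact ⟨fun _ => hj', fun _ => hj⟩
        · rw [if_neg hj'] at this
          exact absurd this one_ne_zero
      · rw [if_neg hj] at this
        by_cases hj' : j ∈ O'
        · rw [if_pos hj'] at this
          exact absurd this.symm one_ne_zero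
        · exact ⟨fun h' => absurd h' hj, fun h' => absurd h' hj'⟩
  · dsimp only
    rw [sum_congr rfl fun O hO => (hφ O (mem_powerset.mp hO)).1, sum_const, card_powerset,
      nsmul_eq_mul, mul_one]
    push_cast
    rfl

end MPb197b4
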