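import Pool.Agent.Lib.MP_b197b4_nt.Block
import Pool.Agent.Lib.MP_b197b4_nt.Phantom2

/-!
# MP_b197b4_nt: the dimension of one block, with the permutations of the places of trace zero
-/

namespace MPb197b4

open Finset Module

set_option linter.unusedSectionVars false

variable {κ A E : Type*} [DecidableEq κ] [Fintype κ] [Ring A] [Algebra ℚ A] [Ring E] [Algebra ℚ E]
variable {tr : A →ₗ[ℚ] ℚ} {perm : Equiv.Perm κ →* E} {c : κ → A →ₐ[ℚ] E} {ptr : κ → E →ₗ[ℚ] E}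

/-- **The iterated partial trace**, linear over the permutations of the other places. -/
theorem exists_trace2 (h : IsPower tr perm c ptr) {q : Fin 3 → A} (hq : ∀ a, q a * q a = q a)
    {b : Fin 3 → ℕ} {g : κ → Fin 3} (T C : Finset κ) (hTC : Disjoint T C)
    (hb : ∀ j ∈ T, (tr (q (g j))) ^ 2 = ((b (g j) : ℕ) : ℚ) ^ 2) :
    ∃ Φ : E →ₗ[ℚ] E, ∃ v : Equiv.Perm κ → ℚ,
      (∀ ρ ∈ Good T g, Φ (tens h (T ∪ C) (fun j => q (g j)) * perm ρ) =
        v ρ • tens h C (fun j => q (g j))) ∧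
      (∀ ρ ∈ Good T g, (v ρ) ^ 2 = (((fixSet b T g ρ).card : ℕ) : ℚ) ^ 2) ∧
      (v 1) ^ 2 = ∏ j ∈ T, ((b (g j) : ℕ) : ℚ) ^ 2 ∧
      (∀ x, ∀ ρ : Equiv.Perm κ, (∀ j ∈ T, ρ j = j) → Φ (x * perm ρ) = Φ x * perm ρ) := by
  induction T using Finset.induction_on with
  | empty =>
    refine ⟨LinearMap.id, fun _ => 1, ?_, ?_, ?_, ?_⟩
    · intro ρ hρ
      have : ρ = 1 := by
        ext a
        exact hρ.1 a (notMem_empty a)
      rw [this, map_one, mul_one, empty_union, one_smul]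
      rfl
    · intro ρ _
      rw [fix_empty]
      norm_num
    · simp
    · intro x ρ _
      rfl
  | insert j T hj ih =>
    rw [disjoint_insert_left] at hTC
    obtain ⟨Φ, v, h1, h2, h3, h4'⟩ := ih hTC.2 fun i hi => hb i (mem_insert_of_mem hi)
    refine ⟨Φ ∘ₗ ptr j, fun ρ => if ρ j = j then tr (q (g j)) * v ρ else
      v (Equiv.swap (ρ j) j * ρ), ?_, ?_, ?_, ?_⟩
    · intro ρ hρ
      have hj' : j ∉ T ∪ C := by simp [hj, hTC.1]
      rw [insert_union, LinearMap.comp_apply]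
      show _ = (if ρ j = j then tr (q (g j)) * v ρ else v (Equiv.swap (ρ j) j * ρ)) • _
      by_cases hf : ρ j = j
      · rw [if_pos hf, ptr_fixed h hj' _ hf, map_smul, mul_smul]
        congr 1
        apply h1
        refine ⟨fun a ha => ?_, hρ.2⟩
        by_cases haj : a = j
        · rw [haj, hf]
        · exact hρ.1 a (by simp [haj, ha])
      · have hT : ρ j ∈ T := by
          by_contra hcon
          have h4 : ρ (ρ j) = ρ j := by
            apply hρ.1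
            simp [hf, hcon]
          exact hf (ρ.injective h4)
        rw [if_neg hf, ptr_moved h hj' hf (mem_union_left _ hT) (by rw [hρ.2 j, hq]),
          h1 _ (good_swap hj hρ)]
    · intro ρ hρ
      dsimp only
      by_cases hf : ρ j = j
      · have hρ' : ρ ∈ Good T g := by
          refine ⟨fun a ha => ?_, hρ.2⟩
          by_cases haj : a = j
          · rw [haj, hf]
          · exact hρ.1 a (by simp [haj, ha])
        rw [if_pos hf, mul_pow, hb j (mem_insert_self _ _), h2 ρ hρ', fix_fixed b g hj hf]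
        push_cast
        ring
      · have hT : ρ j ∈ T := by
          by_contra hcon
          have h4 : ρ (ρ j) = ρ j := by
            apply hρ.1
            simp [hf, hcon]
          exact hf (ρ.injective h4)
        rw [if_neg hf, h2 _ (good_swap hj hρ), fix_moved b g hj hf hT (hρ.2 j)]
    · dsimp only
      rw [prod_insert hj, Equiv.Perm.one_apply, if_pos rfl, mul_pow, hb j (mem_insert_self _ _), h3]
    · intro x ρ hρ
      rw [LinearMap.comp_apply, LinearMap.comp_apply]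
      have h5 := h.ptr_mul j x 1 (one_mem _) (perm ρ) (perm_mem_away (hρ j (mem_insert_self _ _)))
      rw [one_mul, one_mul] at h5
      rw [h5, h4' _ _ fun i hi => hρ i (mem_insert_of_mem hi)]

theorem block_bound2 [Nontrivial E] (h : IsPower tr perm c ptr) {q : Fin 3 → A}
    (hq : ∀ a, q a * q a = q a) (hq2 : q 2 ≠ 0) (htr2 : tr (q 2) = 0) {b : Fin 3 → ℕ}
    (hb : ∀ a, a ≠ 2 → (tr (q a)) ^ 2 = ((b a : ℕ) : ℚ) ^ 2) (g : κ → Fin 3)
    (σ₀ : Equiv.Perm κ) (W : Submodule ℚ E) [FiniteDimensional ℚ W]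
    (hW : ∀ ρ : Equiv.Perm κ, (∀ a, g (ρ a) = g a) → eg h q g * perm ρ * perm σ₀ ∈ W) :
    (∏ j ∈ low g, (b (g j)) ^ 2) * 4 ^ ((low g)ᶜ).card ≤
      finrank ℚ W * (4 * (Fintype.card κ + 1) ^ (b 0 * b 0 + b 1 * b 1 + 4)) := by
  classical
  set C : Finset κ := (low g)ᶜ with hC
  rcases C.eq_empty_or_nonempty with hCe | ⟨o, ho⟩
  · have h1 := block_bound h hq hq2 hb g σ₀ W fun ρ hρ => hW ρ hρ.2
    rw [hCe, card_empty, pow_zero, mul_one]
    refine h1.trans (Nat.mul_le_mul_left _ ?_)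
    calc (Fintype.card κ + 1) ^ (b 0 * b 0 + b 1 * b 1) ≤
          (Fintype.card κ + 1) ^ (b 0 * b 0 + b 1 * b 1 + 4) :=
          Nat.pow_le_pow_right (Nat.succ_pos _) (by omega)
      _ ≤ _ := Nat.le_mul_of_pos_left _ (by norm_num)
  set C' : Finset κ := C.erase o with hC'
  have hoC' : o ∉ C' := notMem_erase _ _
  have hins : insert o C' = C := insert_erase ho
  have hCmem : ∀ j, j ∈ C ↔ g j = 2 := by
    intro j
    rw [hC, mem_compl, mem_low, not_not]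
  have hTC : Disjoint (low g) C := disjoint_compl_right
  obtain ⟨Φ1, v, h1, h2, h3, h3'⟩ := exists_trace2 h hq (b := b) (g := g) (low g) C hTC
    (fun j hj => hb _ (mem_low.mp hj))
  obtain ⟨Φ2, ψ, hψ1, hψ2, hψ3⟩ := exists_phantom h (hq 2) htr2 hoC'
  have hu : low g ∪ C = univ := union_compl _
  rw [hu] at h1
  have htC : tens h C (fun j => q (g j)) = tens h (insert o C') (fun _ => q 2) := by
    rw [hins]
    exact tens_congr h fun j hj => by rw [(hCmem j).mp hj]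
  have hcne : c o (q 2) ≠ 0 := by
    intro h0
    exact hq2 (h.inj o (by rw [h0, map_zero]))
  obtain ⟨ℓ, hℓ⟩ : ∃ ℓ : E →ₗ[ℚ] ℚ, ℓ (c o (q 2)) = 1 := by
    obtain ⟨f, hf⟩ : ∃ f : Module.Dual ℚ E, f (c o (q 2)) ≠ 0 := by
      by_contra hcon
      push Not at hcon
      exact hcne ((Module.forall_dual_apply_eq_zero_iff ℚ _).mp hcon)
    refine ⟨(f (c o (q 2)))⁻¹ • f, ?_⟩
    rw [LinearMap.smul_apply, smul_eq_mul, inv_mul_cancel₀ hf]
  -- the second group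
  have hlow : low (gC C') = C' := by
    ext j
    rw [mem_low]
    unfold gC
    by_cases hj : j ∈ C' <;> simp [hj]
  set Γ1 := Good (low g) g with hΓ1
  set Γ2 := Good (low (gC C')) (gC C') with hΓ2
  have hΓ2f : ∀ ρ ∈ Γ2, ρ ∈ fixF C' := by
    intro ρ hρ
    rw [mem_fixF]
    intro a ha
    exact hρ.1 a (by rwa [hlow])
  have hcomm : ∀ a ∈ Γ1, ∀ d ∈ Γ2, a * d = d * a := by
    intro a ha d hd
    refine (Equiv.Perm.Disjoint.commute (fun x => ?_)).eq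
    by_cases hx : x ∈ low g
    · right
      refine (mem_fixF.mp (hΓ2f d hd)) x fun hx' => ?_
      have : x ∈ C := mem_of_mem_erase hx'
      rw [hC, mem_compl] at this
      exact this hx
    · left
      exact ha.1 x hx
  have hgood : ∀ a ∈ Γ1, ∀ d ∈ Γ2, ∀ x, g ((a * d) x) = g x := by
    intro a ha d hd x
    rw [Equiv.Perm.mul_apply, ha.2]
    by_cases hx : x ∈ C'
    · have h4 := fixF_apply_mem (hΓ2f d hd) hx
      rw [(hCmem _).mp (mem_of_mem_erase h4), (hCmem _).mp (mem_of_mem_erase hx)]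
    · rw [(mem_fixF.mp (hΓ2f d hd)) x hx]
  have hval : ∀ a ∈ Γ1, ∀ d ∈ Γ2, ℓ (Φ2 (Φ1 (eg h q g * perm (a * d)))) = v a * ψ d := by
    intro a ha d hd
    rw [map_mul perm, ← mul_assoc, h3' _ _ fun j hj => ?_]
    · unfold eg
      rw [h1 a ha, smul_mul_assoc, htC, map_smul, hψ1 d (hΓ2f d hd), map_smul, map_smul, hℓ,
        smul_eq_mul, smul_eq_mul, mul_one]
    · refine (mem_fixF.mp (hΓ2f d hd)) j fun hx' => ?_
      have : j ∈ C := mem_of_mem_erase hx'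
      rw [hC, mem_compl] at this
      exact this hj
  let X : Γ1 × Γ2 → W := fun ρ => ⟨eg h q g * perm (ρ.1.1 * ρ.2.1) * perm σ₀,
    hW _ (hgood _ ρ.1.2 _ ρ.2.2)⟩
  let L : (Γ1 × Γ2 → ℚ) →ₗ[ℚ] W := ∑ s : Γ1 × Γ2, (LinearMap.proj s).smulRight (X s)
  let M : W →ₗ[ℚ] (Γ1 × Γ2 → ℚ) := LinearMap.pi fun t =>
    ℓ ∘ₗ Φ2 ∘ₗ Φ1 ∘ₗ (LinearMap.mulRight ℚ (perm σ₀⁻¹ * perm (t.1.1 * t.2.1)⁻¹)) ∘ₗ W.subtype
  let G : Matrix (Γ1 × Γ2) (Γ1 × Γ2) ℚ :=
    Matrix.of fun t s => v (s.1.1 * t.1.1⁻¹) * ψ (s.2.1 * t.2.1⁻¹)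
  have hG : ∀ t s, G t s = v (s.1.1 * t.1.1⁻¹) * ψ (s.2.1 * t.2.1⁻¹) := fun _ _ => rfl
  have hML : G.mulVecLin = M ∘ₗ L := by
    refine LinearMap.ext fun x => funext fun t => ?_
    rw [Matrix.mulVecLin_apply, Matrix.mulVec, dotProduct]
    simp only [L, M, LinearMap.comp_apply, LinearMap.pi_apply, LinearMap.sum_apply,
      LinearMap.smulRight_apply, LinearMap.proj_apply, map_sum, map_smul]
    refine sum_congr rfl fun s _ => ?_
    rw [smul_eq_mul, mul_comm]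
    congr 1
    have h4 : eg h q g * perm (s.1.1 * s.2.1) * perm σ₀ * (perm σ₀⁻¹ * perm (t.1.1 * t.2.1)⁻¹) =
        eg h q g * perm ((s.1.1 * t.1.1⁻¹) * (s.2.1 * t.2.1⁻¹)) := by
      simp only [mul_assoc, ← map_mul]
      congr 2
      have h5 := hcomm t.1.1⁻¹ (Γ1.inv_mem t.1.2) (s.2.1 * t.2.1⁻¹)
        (Γ2.mul_mem s.2.2 (Γ2.inv_mem t.2.2))
      rw [h5]
      group
    show _ = ℓ (Φ2 (Φ1 (eg h q g * perm (s.1.1 * s.2.1) * perm σ₀ *
      (perm σ₀⁻¹ * perm (t.1.1 * t.2.1)⁻¹))))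
    rw [h4, hval _ (Γ1.mul_mem s.1.2 (Γ1.inv_mem t.1.2)) _ (Γ2.mul_mem s.2.2 (Γ2.inv_mem t.2.2))]
    exact hG t s
  have hrank : G.rank ≤ finrank ℚ W := by
    rw [Matrix.rank, hML]
    calc finrank ℚ (LinearMap.range (M ∘ₗ L)) ≤ finrank ℚ (LinearMap.range M) := by
          refine Submodule.finrank_mono ?_
          exact LinearMap.range_comp_le_range L M
      _ ≤ finrank ℚ W := LinearMap.finrank_range_le M
  set R : Matrix (Γ1 × Γ2) (Γ1 × Γ2) ℝ := G.map (algebraMap ℚ ℝ) with hR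
  have hRr : R.rank = G.rank := rank_map' _ _
  have h7 := trace_sq_le R
  have h8 : R.trace = (Fintype.card (Γ1 × Γ2) : ℝ) * ((v 1 * ψ 1 : ℚ) : ℝ) := by
    rw [Matrix.trace]
    have : ∀ t : Γ1 × Γ2, R.diag t = ((v 1 * ψ 1 : ℚ) : ℝ) := by
      intro t
      rw [Matrix.diag_apply, hR, Matrix.map_apply, hG, mul_inv_cancel, mul_inv_cancel]
      rfl
    rw [sum_congr rfl fun t _ => this t, sum_const, card_univ, nsmul_eq_mul]
  have h9 : ∑ t, ∑ s, R t s ^ 2 = (Fintype.card (Γ1 × Γ2) : ℝ) *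
      ∑ ρ : Γ1 × Γ2, ((v ρ.1.1 * ψ ρ.2.1 : ℚ) : ℝ) ^ 2 := by
    have : ∀ t : Γ1 × Γ2, ∑ s, R t s ^ 2 = ∑ ρ : Γ1 × Γ2, ((v ρ.1.1 * ψ ρ.2.1 : ℚ) : ℝ) ^ 2 := by
      intro t
      refine Fintype.sum_equiv (Equiv.mulRight t⁻¹) _ _ fun s => ?_
      rw [hR, Matrix.map_apply, hG]
      rfl
    rw [sum_congr rfl fun t _ => this t, sum_const, card_univ, nsmul_eq_mul]
  -- Burnside
  have hb1 := burnside b g
  have hb2 := burnside ![2, 0, 0] (gC C')
  have hK2 : (![2, 0, 0] : Fin 3 → ℕ) 0 * (![2, 0, 0] : Fin 3 → ℕ) 0 +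
      (![2, 0, 0] : Fin 3 → ℕ) 1 * (![2, 0, 0] : Fin 3 → ℕ) 1 = 4 := by simp
  rw [hK2] at hb2
  have h12 : ∑ ρ : Γ1 × Γ2, ((v ρ.1.1 * ψ ρ.2.1 : ℚ) : ℝ) ^ 2 ≤
      ((Fintype.card κ + 1 : ℕ) : ℝ) ^ (b 0 * b 0 + b 1 * b 1 + 4) *
        (Fintype.card (Γ1 × Γ2) : ℝ) := by
    have h13 : ∀ ρ : Γ1 × Γ2, ((v ρ.1.1 * ψ ρ.2.1 : ℚ) : ℝ) ^ 2 ≤
        (((fixSet b (low g) g ρ.1.1).card : ℕ) : ℝ) ^ 2 *
          (((fixSet ![2, 0, 0] (low (gC C')) (gC C') ρ.2.1).card : ℕ) : ℝ) ^ 2 := by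
      intro ρ
      have e1 := h2 ρ.1.1 ρ.1.2
      have e2 := hψ2 ρ.2.1 (hΓ2f _ ρ.2.2)
      rw [hlow]
      have e3 : (v ρ.1.1 * ψ ρ.2.1 : ℚ) ^ 2 ≤ (((fixSet b (low g) g ρ.1.1).card : ℕ) : ℚ) ^ 2 *
          (((fixSet ![2, 0, 0] C' (gC C') ρ.2.1).card : ℕ) : ℚ) ^ 2 := by
        rw [mul_pow, e1]
        exact mul_le_mul_of_nonneg_left e2 (sq_nonneg _)
      exact_mod_cast e3
    calc _ ≤ ∑ ρ : Γ1 × Γ2, (((fixSet b (low g) g ρ.1.1).card : ℕ) : ℝ) ^ 2 *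
          (((fixSet ![2, 0, 0] (low (gC C')) (gC C') ρ.2.1).card : ℕ) : ℝ) ^ 2 :=
          sum_le_sum fun ρ _ => h13 ρ
      _ = (∑ ρ : Γ1, (((fixSet b (low g) g ρ.1).card : ℕ) : ℝ) ^ 2) *
          ∑ ρ : Γ2, (((fixSet ![2, 0, 0] (low (gC C')) (gC C') ρ.1).card : ℕ) : ℝ) ^ 2 := by
          rw [sum_mul_sum, Fintype.sum_prod_type]
      _ ≤ (((Fintype.card κ + 1 : ℕ) : ℝ) ^ (b 0 * b 0 + b 1 * b 1) * (Fintype.card Γ1 : ℝ)) *
          (((Fintype.card κ + 1 : ℕ) : ℝ) ^ 4 * (Fintype.card Γ2 : ℝ)) := by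
          refine mul_le_mul ?_ ?_ (sum_nonneg fun _ _ => sq_nonneg _) (by positivity)
          · exact_mod_cast hb1
          · exact_mod_cast hb2
      _ = _ := by
          rw [Fintype.card_prod]
          push_cast
          ring
  have hΓpos : 0 < (Fintype.card (Γ1 × Γ2) : ℝ) := by
    exact_mod_cast Fintype.card_pos
  rw [h8, h9, hRr] at h7
  have h13 : ((v 1 * ψ 1 : ℚ) : ℝ) ^ 2 ≤ (finrank ℚ W : ℝ) *
      ((Fintype.card κ + 1 : ℕ) : ℝ) ^ (b 0 * b 0 + b 1 * b 1 + 4) :=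
    num_step hΓpos (Nat.cast_le.mpr hrank) h12 (Nat.cast_nonneg _)
      (Finset.sum_nonneg fun ρ _ => sq_nonneg _) h7
  have h16 : ((v 1 * ψ 1 : ℚ) : ℝ) ^ 2 =
      ((((∏ j ∈ low g, (b (g j)) ^ 2) * 4 ^ C'.card : ℕ)) : ℝ) := by
    have e1 : (v 1 * ψ 1) ^ 2 = ((((∏ j ∈ low g, (b (g j)) ^ 2) * 4 ^ C'.card : ℕ)) : ℚ) := by
      rw [mul_pow, h3, hψ3, ← pow_mul, mul_comm C'.card 2, pow_mul]
      push_cast
      norm_num
    exact_mod_cast e1
  rw [h16] at h13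
  have h17 : (∏ j ∈ low g, (b (g j)) ^ 2) * 4 ^ C'.card ≤
      finrank ℚ W * (Fintype.card κ + 1) ^ (b 0 * b 0 + b 1 * b 1 + 4) := by
    exact_mod_cast h13
  have h18 : C.card = C'.card + 1 := by
    rw [← hins, card_insert_of_notMem hoC']
  calc (∏ j ∈ low g, (b (g j)) ^ 2) * 4 ^ C.card =
        4 * ((∏ j ∈ low g, (b (g j)) ^ 2) * 4 ^ C'.card) := by rw [h18, pow_succ]; ring
    _ ≤ 4 * (finrank ℚ W * (Fintype.card κ + 1) ^ (b 0 * b 0 + b 1 * b 1 + 4)) :=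
        Nat.mul_le_mul_left _ h17
    _ = _ := by ring

end MPb197b4
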