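import Pool.Agent.Lib.MP_b197b4_nt.Trace

/-!
# MP_b197b4_nt: the number of orbits of pairs of words
-/

namespace MPb197b4

open Finset

variable {κ : Type*} [DecidableEq κ] [Fintype κ]

set_option linter.unusedSectionVars false

/-- the places where `g ≠ 2` -/
def low (g : κ → Fin 3) : Finset κ := univ.filter fun j => g j ≠ 2

theorem mem_low {g : κ → Fin 3} {j : κ} : j ∈ low g ↔ g j ≠ 2 := by simp [low]

/-- words -/
abbrev Wd (b : Fin 3 → ℕ) (g : κ → Fin 3) : Type _ :=
  {x : κ → ℕ // x ∈ Fintype.piFinset fun j => range (wt b (low g) g j)}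

theorem wd_lt {b : Fin 3 → ℕ} {g : κ → Fin 3} (x : Wd b g) (j : κ) : x.1 j < wt b (low g) g j := by
  have := (Fintype.mem_piFinset.mp x.2) j
  rwa [mem_range] at this

theorem wt_good {b : Fin 3 → ℕ} {g : κ → Fin 3} {ρ : Equiv.Perm κ} (hρ : ρ ∈ Good (low g) g)
    (j : κ) : wt b (low g) g (ρ j) = wt b (low g) g j := by
  unfold wt
  simp only [mem_low, hρ.2 j]

/-- the action on words -/
def moveWd {b : Fin 3 → ℕ} {g : κ → Fin 3} (ρ : Good (low g) g) (x : Wd b g) : Wd b g :=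
  ⟨fun j => x.1 ((ρ⁻¹ : Good (low g) g).1 j), by
    rw [Fintype.mem_piFinset]
    intro j
    rw [mem_range, ← wt_good (b := b) (ρ⁻¹ : Good (low g) g).2 j]
    exact wd_lt x _⟩

theorem moveWd_mul {b : Fin 3 → ℕ} {g : κ → Fin 3} (ρ τ : Good (low g) g) (x : Wd b g) :
    moveWd (ρ * τ) x = moveWd ρ (moveWd τ x) := by
  refine Subtype.ext (funext fun j => ?_)
  show x.1 (((ρ * τ)⁻¹ : Good (low g) g).1 j) =
    x.1 ((τ⁻¹ : Good (low g) g).1 ((ρ⁻¹ : Good (low g) g).1 j))
  rw [mul_inv_rev]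
  rfl

/-- the action on pairs of words -/
@[reducible] def pairAction (b : Fin 3 → ℕ) (g : κ → Fin 3) :
    MulAction (Good (low g) g) (Wd b g × Wd b g) where
  smul ρ p := (moveWd ρ p.1, moveWd ρ p.2)
  one_smul p := by
    refine Prod.ext (Subtype.ext ?_) (Subtype.ext ?_) <;> rfl
  mul_smul ρ τ p := Prod.ext (moveWd_mul ρ τ p.1) (moveWd_mul ρ τ p.2)

/-- the colour of a place -/
def col {b : Fin 3 → ℕ} {g : κ → Fin 3} (p : Wd b g × Wd b g) (j : κ) : Fin 3 × ℕ × ℕ × Option κ :=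
  (g j, p.1.1 j, p.2.1 j, if g j = 2 then some j else none)

/-- the numbers of places with given letters -/
def cnt {b : Fin 3 → ℕ} {g : κ → Fin 3} (p : Wd b g × Wd b g)
    (s : (Fin (b 0) × Fin (b 0)) ⊕ (Fin (b 1) × Fin (b 1))) : Fin (Fintype.card κ + 1) :=
  ⟨(univ.filter fun j => col p j = Sum.elim (fun s => ((0 : Fin 3), s.1.val, s.2.val, none))
    (fun s => ((1 : Fin 3), s.1.val, s.2.val, none)) s).card,
    Nat.lt_succ_of_le (card_le_univ _)⟩

theorem fiber_card {b : Fin 3 → ℕ} {g : κ → Fin 3} {p p' : Wd b g × Wd b g} (h : cnt p = cnt p')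
    (γ : Fin 3 × ℕ × ℕ × Option κ) :
    (univ.filter fun j => col p j = γ).card = (univ.filter fun j => col p' j = γ).card := by
  obtain ⟨a, s, t, o⟩ := γ
  have key : ∀ (r : Wd b g × Wd b g) (j : κ), col r j = (a, s, t, o) → g j = a := by
    intro r j hj
    exact congrArg Prod.fst hj
  have hl : ∀ (r : Wd b g × Wd b g) (j : κ), g j ≠ 2 → r.1.1 j < b (g j) ∧ r.2.1 j < b (g j) := by
    intro r j hj
    have h1 := wd_lt r.1 j
    have h2 := wd_lt r.2 j
    rw [wt_mem b g (mem_low.mpr hj)] at h1 h2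
    exact ⟨h1, h2⟩
  by_cases ha : a = 2
  · -- the places with `g j = 2`
    subst ha
    congr 1
    refine filter_congr fun j _ => ?_
    have h0 : ∀ r : Wd b g × Wd b g, g j = 2 → r.1.1 j = 0 ∧ r.2.1 j = 0 := by
      intro r hj
      have h1 := wd_lt r.1 j
      have h2 := wd_lt r.2 j
      rw [wt_notMem b g (by rw [mem_low]; simp [hj])] at h1 h2
      exact ⟨by omega, by omega⟩
    constructor
    · intro hj
      have h1 := key p j hj
      rw [← hj]
      unfold col
      rw [(h0 p h1).1, (h0 p h1).2, (h0 p' h1).1, (h0 p' h1).2]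
    · intro hj
      have h1 := key p' j hj
      rw [← hj]
      unfold col
      rw [(h0 p h1).1, (h0 p h1).2, (h0 p' h1).1, (h0 p' h1).2]
  · by_cases ho : o = none
    swap
    · -- empty fibres
      have hE : ∀ r : Wd b g × Wd b g, (univ.filter fun j => col r j = (a, s, t, o)) = ∅ := by
        intro r
        refine filter_eq_empty_iff.mpr fun j _ hj => ?_
        have h1 := key r j hj
        have h2 : (if g j = 2 then some j else none) = o := congrArg (fun x => x.2.2.2) hj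
        rw [if_neg (by rw [h1]; exact ha)] at h2
        exact ho h2.symm
      rw [hE, hE]
    subst ho
    by_cases hst : s < b a ∧ t < b a
    swap
    · have hE : ∀ r : Wd b g × Wd b g, (univ.filter fun j => col r j = (a, s, t, none)) = ∅ := by
        intro r
        refine filter_eq_empty_iff.mpr fun j _ hj => ?_
        have h1 := key r j hj
        have h2 := hl r j (by rw [h1]; exact ha)
        have h3 : r.1.1 j = s := congrArg (fun x => x.2.1) hj
        have h4 : r.2.1 j = t := congrArg (fun x => x.2.2.1) hj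
        rw [h1, h3, h4] at h2
        exact hst h2
      rw [hE, hE]
    have ha' : a = 0 ∨ a = 1 := by omega
    rcases ha' with rfl | rfl
    · exact congrArg Fin.val (congrFun h (Sum.inl (⟨s, hst.1⟩, ⟨t, hst.2⟩)))
    · exact congrArg Fin.val (congrFun h (Sum.inr (⟨s, hst.1⟩, ⟨t, hst.2⟩)))

theorem cnt_invariant {b : Fin 3 → ℕ} {g : κ → Fin 3} (ρ : Good (low g) g) (p : Wd b g × Wd b g) :
    cnt (moveWd ρ p.1, moveWd ρ p.2) = cnt p := by
  funext s
  refine Fin.ext ?_
  refine card_bij (fun j _ => (ρ⁻¹ : Good (low g) g).1 j) ?_ ?_ ?_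
  · intro j hj
    rw [mem_filter] at hj ⊢
    refine ⟨mem_univ _, ?_⟩
    rw [← hj.2]
    unfold col
    have h1 : g ((ρ⁻¹ : Good (low g) g).1 j) = g j := (ρ⁻¹ : Good (low g) g).2.2 j
    refine Prod.ext h1 (Prod.ext rfl (Prod.ext rfl ?_))
    show (if g ((ρ⁻¹ : Good (low g) g).1 j) = 2 then some ((ρ⁻¹ : Good (low g) g).1 j) else none) =
      if g j = 2 then some j else none
    rw [h1]
    by_cases h2 : g j = 2
    · rw [if_pos h2, if_pos h2, (ρ⁻¹ : Good (low g) g).2.1 j (by rw [mem_low]; simp [h2])]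
    · rw [if_neg h2, if_neg h2]
  · intro i _ j _ h
    exact (ρ⁻¹ : Good (low g) g).1.injective h
  · intro j hj
    have h3 : (ρ⁻¹ : Good (low g) g).1 (ρ.1 j) = j := ρ.1.symm_apply_apply j
    refine ⟨ρ.1 j, ?_, h3⟩
    rw [mem_filter] at hj ⊢
    refine ⟨mem_univ _, ?_⟩
    rw [← hj.2]
    unfold col
    have h1 : g (ρ.1 j) = g j := ρ.2.2 j
    refine Prod.ext h1 (Prod.ext ?_ (Prod.ext ?_ ?_))
    · show p.1.1 ((ρ⁻¹ : Good (low g) g).1 (ρ.1 j)) = _
      rw [h3]
    · show p.2.1 ((ρ⁻¹ : Good (low g) g).1 (ρ.1 j)) = _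
      rw [h3]
    · show (if g (ρ.1 j) = 2 then some (ρ.1 j) else none) = if g j = 2 then some j else none
      rw [h1]
      by_cases h2 : g j = 2
      · rw [if_pos h2, if_pos h2, ρ.2.1 j (by rw [mem_low]; simp [h2])]
      · rw [if_neg h2, if_neg h2]

theorem exists_move {b : Fin 3 → ℕ} {g : κ → Fin 3} {p p' : Wd b g × Wd b g}
    (h : cnt p = cnt p') : ∃ ρ : Good (low g) g, (moveWd ρ p'.1, moveWd ρ p'.2) = p := by
  have h4 : ∀ γ, Nonempty ({i // col p i = γ} ≃ {i // col p' i = γ}) := by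
    intro γ
    refine ⟨Fintype.equivOfCardEq ?_⟩
    rw [Fintype.card_subtype, Fintype.card_subtype, fiber_card h γ]
  let e : ∀ γ, {i // col p i = γ} ≃ {i // col p' i = γ} := fun γ => Classical.choice (h4 γ)
  set τ : Equiv.Perm κ := Equiv.ofFiberEquiv (fun γ => e γ) with hτ
  have h6 : ∀ i, col p' (τ i) = col p i := fun i => Equiv.ofFiberEquiv_map _ i
  have hg : ∀ i, g (τ i) = g i := fun i => congrArg Prod.fst (h6 i)
  have hτ' : τ ∈ Good (low g) g := by
    refine ⟨fun i hi => ?_, hg⟩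
    rw [mem_low, not_not] at hi
    have h7 : (if g (τ i) = 2 then some (τ i) else none) = if g i = 2 then some i else none :=
      congrArg (fun x => x.2.2.2) (h6 i)
    rw [if_pos (by rw [hg, hi]), if_pos hi] at h7
    exact Option.some_injective _ h7
  refine ⟨⟨τ, hτ'⟩⁻¹, ?_⟩
  refine Prod.ext (Subtype.ext (funext fun j => ?_)) (Subtype.ext (funext fun j => ?_))
  · show p'.1.1 (((⟨τ, hτ'⟩⁻¹ : Good (low g) g)⁻¹ : Good (low g) g).1 j) = _
    rw [inv_inv]
    exact congrArg (fun x => x.2.1) (h6 j)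
  · show p'.2.1 (((⟨τ, hτ'⟩⁻¹ : Good (low g) g)⁻¹ : Good (low g) g).1 j) = _
    rw [inv_inv]
    exact congrArg (fun x => x.2.2.1) (h6 j)

/-- **Burnside bound.** -/
theorem burnside (b : Fin 3 → ℕ) (g : κ → Fin 3) [Fintype (Good (low g) g)] :
    ∑ ρ : Good (low g) g, (fixSet b (low g) g ρ.1).card ^ 2 ≤
      (Fintype.card κ + 1) ^ (b 0 * b 0 + b 1 * b 1) * Fintype.card (Good (low g) g) := by
  classical
  let _ : MulAction (Good (low g) g) (Wd b g × Wd b g) := pairAction b g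
  have h1 := MulAction.sum_card_fixedBy_eq_card_orbits_mul_card_group (Good (low g) g)
    (Wd b g × Wd b g)
  have h2 : ∀ ρ : Good (low g) g, (fixSet b (low g) g ρ.1).card ^ 2 =
      Fintype.card (MulAction.fixedBy (Wd b g × Wd b g) ρ) := by
    intro ρ
    rw [sq, ← card_product, ← Fintype.card_coe]
    have hfix : ∀ x : Wd b g, x.1 ∈ fixSet b (low g) g ρ.1 ↔ moveWd ρ x = x := by
      intro x
      rw [mem_fixSet]
      constructor
      · intro hx
        refine Subtype.ext (funext fun j => ?_)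
        show x.1 ((ρ⁻¹ : Good (low g) g).1 j) = x.1 j
        rw [← hx.2 ((ρ⁻¹ : Good (low g) g).1 j)]
        exact congrArg x.1 (ρ.1.apply_symm_apply j)
      · intro hx
        refine ⟨wd_lt x, fun j => ?_⟩
        have h3 := congrArg (fun y : Wd b g => y.1 (ρ.1 j)) hx
        have h4 : x.1 ((ρ⁻¹ : Good (low g) g).1 (ρ.1 j)) = x.1 (ρ.1 j) := h3
        rw [← h4]
        exact congrArg x.1 (ρ.1.symm_apply_apply j)
    have hmem : ∀ x : κ → ℕ, x ∈ fixSet b (low g) g ρ.1 →
        x ∈ Fintype.piFinset fun j => range (wt b (low g) g j) := by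
      intro x hx
      rw [Fintype.mem_piFinset]
      exact fun j => mem_range.mpr ((mem_fixSet.mp hx).1 j)
    refine Fintype.card_congr ⟨fun y => ⟨(⟨y.1.1, hmem _ (mem_product.mp y.2).1⟩,
      ⟨y.1.2, hmem _ (mem_product.mp y.2).2⟩), ?_⟩, fun y => ⟨(y.1.1.1, y.1.2.1), ?_⟩, ?_, ?_⟩
    · have h5 := mem_product.mp y.2
      exact Prod.ext ((hfix ⟨y.1.1, hmem _ h5.1⟩).mp h5.1) ((hfix ⟨y.1.2, hmem _ h5.2⟩).mp h5.2)
    · have h5 : (moveWd ρ y.1.1, moveWd ρ y.1.2) = y.1 := y.2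
      exact mem_product.mpr ⟨(hfix y.1.1).mpr (congrArg Prod.fst h5),
        (hfix y.1.2).mpr (congrArg Prod.snd h5)⟩
    · intro y; rfl
    · intro y; rfl
  rw [Finset.sum_congr rfl fun ρ _ => h2 ρ, h1]
  refine Nat.mul_le_mul_right _ ?_
  have h3 : Fintype.card ((Fin (b 0) × Fin (b 0)) ⊕ (Fin (b 1) × Fin (b 1)) →
      Fin (Fintype.card κ + 1)) = (Fintype.card κ + 1) ^ (b 0 * b 0 + b 1 * b 1) := by
    rw [Fintype.card_fun, Fintype.card_fin, Fintype.card_sum, Fintype.card_prod, Fintype.card_prod,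
      Fintype.card_fin, Fintype.card_fin]
  rw [← h3]
  have hc : ∀ x y : Wd b g × Wd b g,
      (MulAction.orbitRel (Good (low g) g) (Wd b g × Wd b g)) x y → cnt x = cnt y := by
    rintro x y ⟨ρ, hρ⟩
    have h5 : (moveWd ρ y.1, moveWd ρ y.2) = x := hρ
    rw [← h5, cnt_invariant]
  refine Fintype.card_le_of_injective (Quotient.lift cnt hc) ?_
  intro x y
  refine Quotient.inductionOn₂ x y fun x y hxy => ?_
  refine Quotient.sound ?_
  obtain ⟨ρ, hρ⟩ := exists_move (p := x) (p' := y) hxy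
  exact ⟨ρ, hρ⟩

end MPb197b4
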