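import Mathlib

/-!
# MP_b197b4_nt: every finitely generated commutative ring is the ring of coordinates of a plane
configuration of points, with determinants as relations
-/

set_option autoImplicit false

namespace Pool.Agent.Lib.MP_b197b4_nt

open MvPolynomial

/-- The five fixed points `(1 : 0 : 0)`, `(0 : 1 : 0)`, `(0 : 0 : 1)`, `(1 : 1 : 1)`, `(1 : 1 : 0)`. -/
def fixedPoint (R : Type) [CommRing R] : Fin 5 → Fin 3 → R :=
  ![![1, 0, 0], ![0, 1, 0], ![0, 0, 1], ![1, 1, 1], ![1, 1, 0]]

/-- The points of a configuration: the points `(c i 0 : c i 1 : 1)` and the five fixed points. -/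
def point {R : Type} [CommRing R] {ι : Type} (c : ι → Fin 2 → R) : ι ⊕ Fin 5 → Fin 3 → R
  | .inl i => ![c i 0, c i 1, 1]
  | .inr k => fixedPoint R k

/-- The determinant of a triple of points of a configuration. -/
def tripleDet {R : Type} [CommRing R] {ι : Type} (c : ι → Fin 2 → R) (t : Fin 3 → ι ⊕ Fin 5) : R :=
  Matrix.det (Matrix.of fun a => point c (t a))

theorem tripleDet_eq {R : Type} [CommRing R] {ι : Type} (c : ι → Fin 2 → R) (p q r : ι ⊕ Fin 5) :
    tripleDet c ![p, q, r] = point c p 0 * point c q 1 * point c r 2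
      - point c p 0 * point c q 2 * point c r 1 - point c p 1 * point c q 0 * point c r 2
      + point c p 1 * point c q 2 * point c r 0 + point c p 2 * point c q 0 * point c r 1
      - point c p 2 * point c q 1 * point c r 0 := by
  unfold tripleDet
  rw [Matrix.det_fin_three]
  rfl

theorem map_tripleDet {R R' : Type} [CommRing R] [CommRing R'] {ι : Type} (f : R →+* R')
    (c : ι → Fin 2 → R) (t : Fin 3 → ι ⊕ Fin 5) :
    f (tripleDet c t) = tripleDet (fun i j => f (c i j)) t := by
  unfold tripleDet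
  rw [RingHom.map_det]
  congr 1
  ext a b
  simp only [RingHom.mapMatrix_apply, Matrix.map_apply, Matrix.of_apply]
  rcases t a with i | k
  · fin_cases b <;> simp [point]
  · fin_cases k <;> fin_cases b <;> simp [point, fixedPoint]

/-! ## Partial homomorphisms -/

structure PHom {B R : Type} [CommRing B] [CommRing R] (L : Set B) (h : B → R) : Prop where
  zero : 0 ∈ L → h 0 = 0
  one : 1 ∈ L → h 1 = 1
  add : ∀ a ∈ L, ∀ b ∈ L, a + b ∈ L → h (a + b) = h a + h b
  mul : ∀ a ∈ L, ∀ b ∈ L, a * b ∈ L → h (a * b) = h a * h b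

theorem PHom.mono {B R : Type} [CommRing B] [CommRing R] {L L' : Set B} {h : B → R}
    (H : PHom L' h) (hL : L ⊆ L') : PHom L h where
  zero h0 := H.zero (hL h0)
  one h1 := H.one (hL h1)
  add a ha b hb hab := H.add a (hL ha) b (hL hb) (hL hab)
  mul a ha b hb hab := H.mul a (hL ha) b (hL hb) (hL hab)

section cl

variable {m : ℕ} {B : Type} [CommRing B] (π : MvPolynomial (Fin m) ℤ →+* B)

/-- On the image of `L` partial homomorphisms are evaluations. -/
def Cl (L : Set (MvPolynomial (Fin m) ℤ)) : Prop :=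
  ∀ (R : Type) [CommRing R] (h : B → R), PHom (π '' L) h →
    ∀ p ∈ L, h (π p) = eval₂Hom (Int.castRingHom R) (fun i => h (π (X i))) p

variable {π}

theorem Cl.union {L L' : Set (MvPolynomial (Fin m) ℤ)} (h1 : Cl π L) (h2 : Cl π L') :
    Cl π (L ∪ L') := by
  intro R _ h hh p hp
  rcases hp with hp | hp
  · exact h1 R h (hh.mono (Set.image_mono Set.subset_union_left)) p hp
  · exact h2 R h (hh.mono (Set.image_mono Set.subset_union_right)) p hp

theorem Cl.insert_add {L : Set (MvPolynomial (Fin m) ℤ)} (h1 : Cl π L)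
    {a b : MvPolynomial (Fin m) ℤ} (ha : a ∈ L) (hb : b ∈ L) : Cl π (insert (a + b) L) := by
  intro R _ h hh p hp
  have hm := fun q hq => h1 R h (hh.mono (Set.image_mono (Set.subset_insert _ _))) q hq
  rcases hp with rfl | hp
  · rw [map_add, map_add, hh.add _ ⟨a, Or.inr ha, rfl⟩ _ ⟨b, Or.inr hb, rfl⟩
      ⟨a + b, Or.inl rfl, map_add _ _ _⟩, hm a ha, hm b hb]
  · exact hm p hp

theorem Cl.insert_mul {L : Set (MvPolynomial (Fin m) ℤ)} (h1 : Cl π L)
    {a b : MvPolynomial (Fin m) ℤ} (ha : a ∈ L) (hb : b ∈ L) : Cl π (insert (a * b) L) := by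
  intro R _ h hh p hp
  have hm := fun q hq => h1 R h (hh.mono (Set.image_mono (Set.subset_insert _ _))) q hq
  rcases hp with rfl | hp
  · rw [map_mul, map_mul, hh.mul _ ⟨a, Or.inr ha, rfl⟩ _ ⟨b, Or.inr hb, rfl⟩
      ⟨a * b, Or.inl rfl, map_mul _ _ _⟩, hm a ha, hm b hb]
  · exact hm p hp

theorem Cl.insert_sub {L : Set (MvPolynomial (Fin m) ℤ)} (h1 : Cl π L)
    {a b : MvPolynomial (Fin m) ℤ} (ha : a + b ∈ L) (hb : b ∈ L) : Cl π (insert a L) := by
  intro R _ h hh p hp
  have hm := fun q hq => h1 R h (hh.mono (Set.image_mono (Set.subset_insert _ _))) q hq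
  rcases hp with rfl | hp
  · have h2 := hh.add _ ⟨p, Or.inl rfl, rfl⟩ _ ⟨b, Or.inr hb, rfl⟩
      ⟨p + b, Or.inr ha, map_add _ _ _⟩
    rw [← map_add, hm _ ha, hm b hb, map_add] at h2
    exact (add_right_cancel h2).symm
  · exact hm p hp

theorem cl_X (i : Fin m) : Cl π {X i} := by
  intro R _ h _ p hp
  rw [Set.mem_singleton_iff.1 hp, coe_eval₂Hom, eval₂_X]

theorem cl_zero : Cl π {0} := by
  intro R _ h hh p hp
  rw [Set.mem_singleton_iff.1 hp, map_zero, map_zero]
  exact hh.zero ⟨0, rfl, map_zero _⟩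

theorem cl_one : Cl π {1} := by
  intro R _ h hh p hp
  rw [Set.mem_singleton_iff.1 hp, map_one, map_one]
  exact hh.one ⟨1, rfl, map_one _⟩

theorem exists_cl_C (a : ℤ) : ∃ L : Set (MvPolynomial (Fin m) ℤ), L.Finite ∧ C a ∈ L ∧ Cl π L := by
  induction a using Int.induction_on with
  | zero => exact ⟨{0}, Set.finite_singleton _, by simp, cl_zero⟩
  | succ i ih =>
    obtain ⟨L, hf, hi, hL⟩ := ih
    refine ⟨insert (C (i : ℤ) + 1) (L ∪ {1}), (hf.union (Set.finite_singleton _)).insert _,
      Or.inl (by rw [C_add, C_1]), (hL.union cl_one).insert_add (Or.inl hi) (Or.inr rfl)⟩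
  | pred i ih =>
    obtain ⟨L, hf, hi, hL⟩ := ih
    refine ⟨insert (C (-(i : ℤ) - 1)) (L ∪ {1}), (hf.union (Set.finite_singleton _)).insert _,
      Or.inl rfl, (hL.union cl_one).insert_sub (b := 1) (Or.inl ?_) (Or.inr rfl)⟩
    have : (C (-(i : ℤ) - 1) + 1 : MvPolynomial (Fin m) ℤ) = C (-(i : ℤ)) := by
      rw [← C_1, ← C_add]
      congr 1
      ring
    rw [this]
    exact hi

theorem exists_cl (g : MvPolynomial (Fin m) ℤ) :
    ∃ L : Set (MvPolynomial (Fin m) ℤ), L.Finite ∧ g ∈ L ∧ Cl π L := by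
  induction g using MvPolynomial.induction_on with
  | C a => exact exists_cl_C a
  | add p q hp hq =>
    obtain ⟨L, hf, hi, hL⟩ := hp
    obtain ⟨L', hf', hi', hL'⟩ := hq
    exact ⟨insert (p + q) (L ∪ L'), (hf.union hf').insert _, Or.inl rfl,
      (hL.union hL').insert_add (Or.inl hi) (Or.inr hi')⟩
  | mul_X p i hp =>
    obtain ⟨L, hf, hi, hL⟩ := hp
    exact ⟨insert (p * X i) (L ∪ {X i}), (hf.union (Set.finite_singleton _)).insert _, Or.inl rfl,
      (hL.union (cl_X i)).insert_mul (Or.inl hi) (Or.inr rfl)⟩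

end cl

theorem cl_empty {m : ℕ} {B : Type} [CommRing B] {π : MvPolynomial (Fin m) ℤ →+* B} : Cl π ∅ :=
  fun _ _ _ _ _ hp => hp.elim

/-- A finite set of polynomials is contained in a finite closed set. -/
theorem exists_cl_finset {m : ℕ} {B : Type} [CommRing B] (π : MvPolynomial (Fin m) ℤ →+* B)
    (G : Finset (MvPolynomial (Fin m) ℤ)) :
    ∃ L : Set (MvPolynomial (Fin m) ℤ), L.Finite ∧ (G : Set _) ⊆ L ∧ Cl π L := by
  classical
  induction G using Finset.induction_on with
  | empty => exact ⟨∅, Set.finite_empty, by simp, cl_empty⟩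
  | insert g G _ ih =>
    obtain ⟨L, hf, hi, hL⟩ := ih
    obtain ⟨L', hf', hi', hL'⟩ := exists_cl (π := π) g
    refine ⟨L ∪ L', hf.union hf', ?_, hL.union hL'⟩
    intro x hx
    rw [Finset.coe_insert] at hx
    rcases hx with rfl | hx
    · exact Or.inr hi'
    · exact Or.inl (hi hx)

/-- Partial homomorphisms on a suitable finite set extend. -/
theorem exists_finite_set (B : Type) [CommRing B] [Algebra.FiniteType ℤ B] :
    ∃ L : Set B, L.Finite ∧ Subring.closure L = ⊤ ∧
      ∀ (R : Type) [CommRing R] (h : B → R), PHom L h → ∃ f : B →+* R, ∀ a ∈ L, f a = h a := by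
  obtain ⟨m, π₀, hπ⟩ := Algebra.FiniteType.iff_quotient_mvPolynomial''.1
    (inferInstance : Algebra.FiniteType ℤ B)
  set π : MvPolynomial (Fin m) ℤ →+* B := π₀.toRingHom with hπd
  have hs : Function.Surjective π := hπ
  obtain ⟨G, hG⟩ := (isNoetherianRing_iff_ideal_fg _).1
    (inferInstanceAs (IsNoetherianRing (MvPolynomial (Fin m) ℤ))) (RingHom.ker π)
  classical
  obtain ⟨L, hf, hi, hL⟩ := exists_cl_finset π (insert 0 (G ∪ Finset.univ.image X))
  refine ⟨π '' L, hf.image _, ?_, fun R _ h hh => ?_⟩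
  · suffices h : ∀ p, π p ∈ Subring.closure (π '' L) by
      rw [eq_top_iff]
      intro b _
      obtain ⟨p, rfl⟩ := hs b
      exact h p
    intro p
    induction p using MvPolynomial.induction_on with
    | C a => rw [show (C a : MvPolynomial (Fin m) ℤ) = ((a : ℤ) : MvPolynomial (Fin m) ℤ) from by
        simp, map_intCast]; exact intCast_mem _ a
    | add p q hp hq => rw [map_add]; exact add_mem hp hq
    | mul_X p i hp =>
      rw [map_mul]
      refine mul_mem hp (Subring.subset_closure ⟨X i, hi ?_, rfl⟩)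
      simp
  · have h1 := hL R h hh
    have h0 : h 0 = 0 := hh.zero ⟨0, hi (by simp), map_zero _⟩
    set e := eval₂Hom (Int.castRingHom R) (fun i => h (π (X i))) with he
    have hk : RingHom.ker π ≤ RingHom.ker e := by
      rw [← hG]
      refine Ideal.span_le.2 fun g hg => ?_
      have h2 : g ∈ RingHom.ker π := by rw [← hG]; exact Ideal.subset_span hg
      have h3 := h1 g (hi (by
        rw [Finset.coe_insert, Finset.coe_union]
        exact Or.inr (Or.inl hg)))
      rw [RingHom.mem_ker] at h2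
      rw [h2, h0] at h3
      exact h3.symm
    refine ⟨RingHom.liftOfSurjective π hs ⟨e, fun x hx => hk hx⟩, ?_⟩
    rintro _ ⟨p, hp, rfl⟩
    rw [RingHom.liftOfRightInverse_comp_apply, h1 p hp]

end Pool.Agent.Lib.MP_b197b4_nt
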