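import Mathlib

/-!
# MP_b197b4_nt: the hypersurfaces `∑ y_j q_j = 1`: local structure of the coordinate rings
-/

set_option autoImplicit false

namespace Pool.Agent.Lib.MP_b197b4_nt

open MvPolynomial

section

variable {P : Type} [CommRing P] {m : ℕ} (q : Fin m → P)

/-- The polynomial `∑ y_j q_j - 1`. -/
noncomputable def dualPoly : MvPolynomial (Fin m) P := ∑ j, X j * C (q j) - 1

/-- The coordinate ring of the hypersurface `∑ y_j q_j = 1`. -/
abbrev DualRing : Type := MvPolynomial (Fin m) P ⧸ Ideal.span {dualPoly q}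

/-- The structure map. -/
noncomputable def dualC : P →+* DualRing q := (Ideal.Quotient.mk _).comp C

theorem dual_rel : ∑ j, Ideal.Quotient.mk (Ideal.span {dualPoly q}) (X j) * dualC q (q j) = 1 := by
  have h : Ideal.Quotient.mk (Ideal.span {dualPoly q}) (∑ j, X j * C (q j) - 1) = 0 :=
    Ideal.Quotient.eq_zero_iff_mem.2 (Ideal.mem_span_singleton_self _)
  have h' := sub_eq_zero.1 ((map_sub _ _ _).symm.trans h)
  refine Eq.trans ?_ (h'.trans (map_one _))
  rw [map_sum]
  exact Finset.sum_congr rfl fun j _ => by rw [map_mul]; rfl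

variable (P' R' : Type) [CommRing P'] [CommRing R'] [Algebra P P'] [Algebra (DualRing q) R']
  (i : Fin m) [IsLocalization.Away (q i) P'] [IsLocalization.Away (dualC q (q i)) R']

/-- The values of the variables. -/
noncomputable def dualVal (j : Fin m) : MvPolynomial {j : Fin m // j ≠ i} P' :=
  if h : j = i then
    C (IsLocalization.Away.invSelf (q i)) *
      (1 - ∑ k : {j : Fin m // j ≠ i}, X k * C (algebraMap P P' (q k)))
  else X ⟨j, h⟩

theorem dualVal_rel :
    ∑ j, dualVal q P' i j * C (algebraMap P P' (q j)) = 1 := by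
  classical
  rw [← Finset.add_sum_erase _ _ (Finset.mem_univ i)]
  have h1 : dualVal q P' i i = C (IsLocalization.Away.invSelf (q i)) *
      (1 - ∑ k : {j : Fin m // j ≠ i}, X k * C (algebraMap P P' (q k))) := by
    simp [dualVal]
  have h2 : ∑ j ∈ Finset.univ.erase i, dualVal q P' i j * C (algebraMap P P' (q j)) =
      ∑ k : {j : Fin m // j ≠ i}, X k * C (algebraMap P P' (q k)) := by
    rw [Finset.sum_subtype (p := fun j => j ≠ i) (Finset.univ.erase i) (by simp)]
    refine Finset.sum_congr rfl fun k _ => ?_
    rw [dualVal, dif_neg k.2]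
  rw [h1, h2]
  have h3 : (C (IsLocalization.Away.invSelf (S := P') (q i)) : MvPolynomial {j : Fin m // j ≠ i} P') *
      C (algebraMap P P' (q i)) = 1 := by
    rw [← C_mul, mul_comm, IsLocalization.Away.mul_invSelf, C_1]
  linear_combination
    (1 - ∑ k : {j : Fin m // j ≠ i}, X k * C (algebraMap P P' (q k))) * h3

/-- The map back, before localisation. -/
noncomputable def dualBack₀ : DualRing q →+* MvPolynomial {j : Fin m // j ≠ i} P' :=
  Ideal.Quotient.lift _ (eval₂Hom (C.comp (algebraMap P P')) (dualVal q P' i)) (by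
    intro F hF
    have h : Ideal.span {dualPoly q} ≤
        RingHom.ker (eval₂Hom (C.comp (algebraMap P P')) (dualVal q P' i)) := by
      rw [Ideal.span_singleton_le_iff_mem, RingHom.mem_ker, dualPoly, map_sub, map_one, map_sum,
        sub_eq_zero, ← dualVal_rel q P' i]
      refine Finset.sum_congr rfl fun j _ => ?_
      rw [map_mul, eval₂Hom_X', coe_eval₂Hom, eval₂_C]
      rfl
    exact h hF)

theorem dualBack₀_C (a : P) : dualBack₀ q P' i (dualC q a) = C (algebraMap P P' a) := by
  simp [dualBack₀, dualC]

theorem dualBack₀_X (j : Fin m) :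
    dualBack₀ q P' i (Ideal.Quotient.mk _ (X j)) = dualVal q P' i j := by
  simp [dualBack₀]

/-- The map back. -/
noncomputable def dualBack : R' →+* MvPolynomial {j : Fin m // j ≠ i} P' :=
  IsLocalization.Away.lift (dualC q (q i)) (g := dualBack₀ q P' i) (by
    rw [dualBack₀_C]
    exact (IsLocalization.Away.algebraMap_isUnit (q i)).map C)

theorem dualBack_algebraMap (z : DualRing q) :
    dualBack q P' R' i (algebraMap _ R' z) = dualBack₀ q P' i z :=
  IsLocalization.Away.lift_eq _ _ _

/-- The local structure. -/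
theorem exists_dualEquiv (φ : P' →+* R')
    (hφ : ∀ a, φ (algebraMap P P' a) = algebraMap (DualRing q) R' (dualC q a)) :
    ∃ e : MvPolynomial {j : Fin m // j ≠ i} P' ≃+* R', ∀ a, e (C a) = φ a := by
  classical
  let E : MvPolynomial {j : Fin m // j ≠ i} P' →+* R' :=
    eval₂Hom φ fun k => algebraMap (DualRing q) R' (Ideal.Quotient.mk _ (X k.1))
  have hE1 (a : P') : E (C a) = φ a := by simp [E]
  have hE2 (k : {j : Fin m // j ≠ i}) :
      E (X k) = algebraMap (DualRing q) R' (Ideal.Quotient.mk _ (X k.1)) := by simp [E]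
  have hr : ∑ j, algebraMap (DualRing q) R' (Ideal.Quotient.mk _ (X j)) *
      φ (algebraMap P P' (q j)) = 1 := by
    rw [← map_one (algebraMap (DualRing q) R'), ← dual_rel q, map_sum]
    exact Finset.sum_congr rfl fun j _ => by rw [map_mul, hφ]
  have h1 : (dualBack q P' R' i).comp E = RingHom.id _ := by
    refine MvPolynomial.ringHom_ext' ?_ fun k => ?_
    · refine IsLocalization.ringHom_ext (Submonoid.powers (q i)) (RingHom.ext fun a => ?_)
      simp only [RingHom.comp_apply, RingHom.id_apply]
      rw [hE1, hφ, dualBack_algebraMap, dualBack₀_C]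
    · rw [RingHom.comp_apply, hE2, dualBack_algebraMap, dualBack₀_X, RingHom.id_apply, dualVal,
        dif_neg k.2]
  have h2 : E.comp (dualBack q P' R' i) = RingHom.id _ := by
    refine IsLocalization.ringHom_ext (Submonoid.powers (dualC q (q i))) ?_
    refine Ideal.Quotient.ringHom_ext (MvPolynomial.ringHom_ext' (RingHom.ext fun a => ?_)
      fun j => ?_)
    · simp only [RingHom.comp_apply, RingHom.id_apply]
      rw [dualBack_algebraMap]
      exact (congrArg E (dualBack₀_C q P' i a)).trans ((hE1 _).trans (hφ a))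
    · simp only [RingHom.comp_apply, RingHom.id_apply]
      rw [dualBack_algebraMap, dualBack₀_X, dualVal]
      split_ifs with hj
      · subst hj
        rw [map_mul, map_sub, map_one, map_sum, hE1]
        have h3 : φ (IsLocalization.Away.invSelf (q j)) * φ (algebraMap P P' (q j)) = 1 := by
          rw [← map_mul, mul_comm, IsLocalization.Away.mul_invSelf, map_one]
        have h4 : ∑ k : {k : Fin m // k ≠ j}, E (X k * C (algebraMap P P' (q k))) =
            ∑ k ∈ Finset.univ.erase j, algebraMap (DualRing q) R' (Ideal.Quotient.mk _ (X k)) *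
              φ (algebraMap P P' (q k)) := by
          rw [Finset.sum_subtype (p := fun k => k ≠ j) (Finset.univ.erase j) (by simp)]
          exact Finset.sum_congr rfl fun k _ => by rw [map_mul, hE1, hE2]
        rw [← Finset.add_sum_erase _ _ (Finset.mem_univ j)] at hr
        rw [h4]
        linear_combination (-(φ (IsLocalization.Away.invSelf (q j)))) * hr +
          algebraMap (DualRing q) R' (Ideal.Quotient.mk _ (X j)) * h3
      · rw [hE2]
  exact ⟨RingEquiv.ofRingHom E (dualBack q P' R' i) h2 h1, hE1⟩

end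

/-- The local structure, with localisation maps. -/
theorem exists_dualEquiv' {P P' R' : Type} [CommRing P] [CommRing P'] [CommRing R'] {m : ℕ}
    (q : Fin m → P) (i : Fin m) (cP : P →+* P') (cR : DualRing q →+* R')
    (hP : (Submonoid.powers (q i)).IsLocalizationMap cP)
    (hR : (Submonoid.powers (dualC q (q i))).IsLocalizationMap cR) (φ : P' →+* R')
    (hφ : ∀ a, φ (cP a) = cR (dualC q a)) :
    ∃ e : MvPolynomial {j : Fin m // j ≠ i} P' ≃+* R', ∀ a, e (C a) = φ a := by
  let := cP.toAlgebra
  let := cR.toAlgebra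
  have h1 : IsLocalization.Away (q i) P' := ⟨hP⟩
  have h2 : IsLocalization.Away (dualC q (q i)) R' := ⟨hR⟩
  exact exists_dualEquiv q P' R' i φ hφ

end Pool.Agent.Lib.MP_b197b4_nt
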