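import Pool.Agent.Lib.MP_b197b4_nt.Sch

/-!
# MP_b197b4_nt: classes with the two out of three property and arrangements of elementary quadrics
-/

set_option autoImplicit false

namespace Pool.Agent.Lib.MP_b197b4_nt

open MvPolynomial

/-- The polynomials `X a * X b - X c`, `X a + X b - X c`, `X a` and `X a - 1` in `n` variables. -/
def Elementary (n : ℕ) : Set (MvPolynomial (Fin n) ℤ) :=
  {p | (∃ a b c, p = X a * X b - X c) ∨ (∃ a b c, p = X a + X b - X c) ∨ (∃ a, p = X a) ∨
    ∃ a, p = X a - 1}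

theorem finite_elementary (n : ℕ) : (Elementary n).Finite := by
  have h1 : (Set.range fun t : Fin n × Fin n × Fin n =>
      (X t.1 * X t.2.1 - X t.2.2 : MvPolynomial (Fin n) ℤ)).Finite := Set.finite_range _
  have h2 : (Set.range fun t : Fin n × Fin n × Fin n =>
      (X t.1 + X t.2.1 - X t.2.2 : MvPolynomial (Fin n) ℤ)).Finite := Set.finite_range _
  have h3 : (Set.range fun t : Fin n => (X t : MvPolynomial (Fin n) ℤ)).Finite :=
    Set.finite_range _
  have h4 : (Set.range fun t : Fin n => (X t - 1 : MvPolynomial (Fin n) ℤ)).Finite :=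
    Set.finite_range _
  refine (h1.union (h2.union (h3.union h4))).subset ?_
  rintro p (⟨a, b, c, rfl⟩ | ⟨a, b, c, rfl⟩ | ⟨a, rfl⟩ | ⟨a, rfl⟩)
  · exact Or.inl ⟨(a, b, c), rfl⟩
  · exact Or.inr (Or.inl ⟨(a, b, c), rfl⟩)
  · exact Or.inr (Or.inr (Or.inl ⟨a, rfl⟩))
  · exact Or.inr (Or.inr (Or.inr ⟨a, rfl⟩))

/-- Every finitely generated commutative ring has an elementary presentation. -/
theorem exists_presentation (B : Type) [CommRing B] [Algebra.FiniteType ℤ B] :
    ∃ (n : ℕ) (s : Finset (MvPolynomial (Fin n) ℤ)), (s : Set _) ⊆ Elementary n ∧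
      Nonempty ((MvPolynomial (Fin n) ℤ ⧸ Ideal.span (s : Set (MvPolynomial (Fin n) ℤ))) ≃+* B) := by
  classical
  obtain ⟨L, hf, hg, hL⟩ := exists_finite_set B
  have : Finite L := hf
  obtain ⟨n, ⟨e⟩⟩ := Finite.exists_equiv_fin L
  let Φ : MvPolynomial (Fin n) ℤ →+* B := eval₂Hom (Int.castRingHom B) (fun i => (e.symm i : B))
  have hΦ (a : L) : Φ (X (e a)) = a := by simp [Φ]
  have hΦ' (i : Fin n) : Φ (X i) = (e.symm i : B) := by simp [Φ]
  have hfin : ({p | p ∈ Elementary n ∧ Φ p = 0} : Set (MvPolynomial (Fin n) ℤ)).Finite :=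
    (finite_elementary n).subset fun p hp => hp.1
  refine ⟨n, hfin.toFinset, fun p hp => ?_, ?_⟩
  · rw [Finset.mem_coe, Set.Finite.mem_toFinset] at hp
    exact hp.1
  rw [Set.Finite.coe_toFinset]
  set I : Ideal (MvPolynomial (Fin n) ℤ) :=
    Ideal.span {p | p ∈ Elementary n ∧ Φ p = 0} with hI
  have hsurj : Function.Surjective Φ := by
    rw [← RingHom.range_eq_top, eq_top_iff, ← hg, Subring.closure_le]
    intro a ha
    exact ⟨X (e ⟨a, ha⟩), hΦ _⟩
  have hmem : ∀ p, p ∈ Elementary n → Φ p = 0 → Ideal.Quotient.mk I p = 0 := fun p h1 h2 =>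
    Ideal.Quotient.eq_zero_iff_mem.2 (Ideal.subset_span ⟨h1, h2⟩)
  set h : B → MvPolynomial (Fin n) ℤ ⧸ I := fun b =>
    if hb : b ∈ L then Ideal.Quotient.mk I (X (e ⟨b, hb⟩)) else 0 with hh
  have hh' (b : B) (hb : b ∈ L) : h b = Ideal.Quotient.mk I (X (e ⟨b, hb⟩)) := by
    rw [hh]; simp [hb]
  have hph : PHom L h := by
    refine ⟨fun h0 => ?_, fun h1 => ?_, fun a ha b hb hab => ?_, fun a ha b hb hab => ?_⟩
    · rw [hh' 0 h0]
      exact hmem _ (Or.inr (Or.inr (Or.inl ⟨_, rfl⟩))) (hΦ _)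
    · rw [hh' 1 h1, ← sub_eq_zero, ← map_one (Ideal.Quotient.mk I), ← map_sub]
      exact hmem _ (Or.inr (Or.inr (Or.inr ⟨_, rfl⟩))) (by rw [map_sub, hΦ, map_one, sub_self])
    · rw [hh' _ hab, hh' a ha, hh' b hb, eq_comm, ← sub_eq_zero, ← map_add, ← map_sub]
      exact hmem _ (Or.inr (Or.inl ⟨_, _, _, rfl⟩)) (by rw [map_sub, map_add, hΦ, hΦ, hΦ, sub_self])
    · rw [hh' _ hab, hh' a ha, hh' b hb, eq_comm, ← sub_eq_zero, ← map_mul, ← map_sub]
      exact hmem _ (Or.inl ⟨_, _, _, rfl⟩) (by rw [map_sub, map_mul, hΦ, hΦ, hΦ, sub_self])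
  obtain ⟨f, hf'⟩ := hL _ h hph
  have h1 : f.comp Φ = Ideal.Quotient.mk I := by
    refine MvPolynomial.ringHom_ext (fun z => ?_) fun i => ?_
    · simp
    · rw [RingHom.comp_apply, hΦ', hf' _ (e.symm i).2, hh' _ (e.symm i).2]
      simp
  have hker : I = RingHom.ker Φ := by
    refine le_antisymm (Ideal.span_le.2 fun p hp => hp.2) fun p hp => ?_
    rw [← Ideal.Quotient.eq_zero_iff_mem, ← h1, RingHom.comp_apply, hp, map_zero]
  exact ⟨(Ideal.quotEquivOfEq hker).trans (RingHom.quotientKerEquivOfSurjective hsurj)⟩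

/-- The standard piece. -/
theorem Piece.std {A : Type} [CommRing A] (I : Ideal A) (h : A) :
    Piece ((algebraMap (A ⧸ I) (Localization.Away (Ideal.Quotient.mk I h))).comp
      (Ideal.Quotient.mk I)) I h where
  unit := IsLocalization.Away.algebraMap_isUnit (Ideal.Quotient.mk I h)
  surj b := by
    obtain ⟨m, y, hy⟩ := IsLocalization.Away.surj (Ideal.Quotient.mk I h) b
    obtain ⟨a, rfl⟩ := Ideal.Quotient.mk_surjective y
    exact ⟨a, m, hy⟩
  ker a := by
    rw [RingHom.comp_apply, IsLocalization.map_eq_zero_iff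
      (Submonoid.powers (Ideal.Quotient.mk I h))]
    constructor
    · rintro ⟨⟨_, m, rfl⟩, hm⟩
      refine ⟨m, ?_⟩
      rw [← Ideal.Quotient.eq_zero_iff_mem, map_mul, map_pow]
      exact hm
    · rintro ⟨m, hm⟩
      refine ⟨⟨_, m, rfl⟩, ?_⟩
      rw [← Ideal.Quotient.eq_zero_iff_mem, map_mul, map_pow] at hm
      exact hm

theorem Piece.exists {A : Type} [CommRing A] (I : Ideal A) (h : A) :
    ∃ (B : Type) (_ : CommRing B) (ρ : A →+* B), Piece ρ I h :=
  ⟨_, _, _, Piece.std I h⟩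

theorem Piece.unique {A B B' : Type} [CommRing A] [CommRing B] [CommRing B'] {ρ : A →+* B}
    {ρ' : A →+* B'} {I : Ideal A} {h : A} (H : Piece ρ I h) (H' : Piece ρ' I h) :
    Nonempty (B ≃+* B') := by
  obtain ⟨e⟩ := H.nonempty_equiv
  obtain ⟨e'⟩ := H'.nonempty_equiv
  exact ⟨e.trans e'.symm⟩

theorem Piece.mk_one {A : Type} [CommRing A] (I : Ideal A) :
    Piece (Ideal.Quotient.mk I) I 1 where
  unit := by rw [map_one]; exact isUnit_one
  surj b := by
    obtain ⟨a, rfl⟩ := Ideal.Quotient.mk_surjective b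
    exact ⟨a, 0, by simp⟩
  ker a := by simp [Ideal.Quotient.eq_zero_iff_mem]

/-- Two out of three. -/
theorem two_of_three (C : ∀ (R : Type) [CommRing R], Prop)
    (hC : ∀ (R S : Type) [CommRing R] [CommRing S], (R ≃+* S) → C R → C S)
    (h23 : ∀ (R : Type) [CommRing R] (f : R), C R → C (Localization.Away f) →
      C (R ⧸ Ideal.span {f}))
    (A : Type) [CommRing A] (G : Set A)
    (hG : ∀ T : Finset A, (T : Set A) ⊆ G → C (Localization.Away (∏ p ∈ T, p))) (s : Finset A) :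
    (s : Set A) ⊆ G → ∀ T : Finset A, (T : Set A) ⊆ G → Disjoint T s →
      ∀ (B : Type) [CommRing B] (ρ : A →+* B), Piece ρ (Ideal.span (s : Set A)) (∏ p ∈ T, p) →
        C B := by
  classical
  induction s using Finset.induction_on with
  | empty =>
    intro _ T hT _ B _ ρ H
    rw [Finset.coe_empty, Ideal.span_empty] at H
    have H' := (Piece.self A).away (b := ∏ p ∈ T, p) (a := ∏ p ∈ T, p) (k := 0) (by simp)
    rw [one_mul] at H'
    obtain ⟨e⟩ := H'.unique H
    exact hC _ _ e (hG T hT)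
  | insert g s hgs ih =>
    intro hs T hT hd B _ ρ H
    have hs' : (s : Set A) ⊆ G := fun x hx => hs (by simp [Finset.mem_coe.1 hx])
    have hg : g ∈ G := hs (by simp)
    have hgT : g ∉ T := fun h => (Finset.disjoint_left.1 hd h) (Finset.mem_insert_self g s)
    have hd' : Disjoint T s := hd.mono_right (Finset.subset_insert g s)
    obtain ⟨B₁, _, ρ₁, H1⟩ := Piece.exists (Ideal.span (s : Set A)) (∏ p ∈ T, p)
    have hb : ρ₁ g * ρ₁ (∏ p ∈ T, p) ^ 0 = ρ₁ g := by rw [pow_zero, mul_one]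
    have c1 := ih hs' T hT hd' _ _ H1
    have H2 := H1.away hb
    have hp : (∏ p ∈ T, p) * g = ∏ p ∈ insert g T, p := by
      rw [Finset.prod_insert hgT, mul_comm]
    rw [hp] at H2
    have c2 := ih hs' (insert g T) (by
      rw [Finset.coe_insert]
      exact Set.insert_subset hg hT) (Finset.disjoint_insert_left.2 ⟨hgs, hd'⟩) _ _ H2
    have H3 := H1.quot hb
    have hI : Ideal.span ((insert g s : Finset A) : Set A) =
        Ideal.span (s : Set A) ⊔ Ideal.span {g} := by
      rw [Finset.coe_insert, Ideal.span_insert, sup_comm]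
    rw [hI] at H
    obtain ⟨e⟩ := H3.unique H
    exact hC _ _ e (h23 _ _ c1 c2)

open CategoryTheory AlgebraicGeometry TopologicalSpace

theorem main_two (C : Scheme.{0} → Prop) (h0 : ∀ X : Scheme.{0}, IsEmpty X → C X)
    (hglue : ∀ (X Z U : Scheme.{0}) (i : Z ⟶ X) (j : U ⟶ X) [IsClosedImmersion i]
      [IsOpenImmersion j], Arithmetic X → Set.range j = (Set.range i)ᶜ → C Z → C U → C X)
    (hclosed : ∀ (X Z U : Scheme.{0}) (i : Z ⟶ X) (j : U ⟶ X) [IsClosedImmersion i]
      [IsOpenImmersion j], Arithmetic X → Set.range j = (Set.range i)ᶜ → C X → C U → C Z)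
    (harr : ∀ (n : ℕ) (T : Finset (MvPolynomial (Fin n) ℤ)), (T : Set _) ⊆ Elementary n →
      C (Spec (CommRingCat.of (Localization.Away (∏ p ∈ T, p)))))
    (X : Scheme.{0}) (hX : Arithmetic X) : C X := by
  refine glue_affine C h0 hglue X hX fun B _ hB _ => ?_
  obtain ⟨n, s, hs, ⟨e⟩⟩ := exists_presentation B
  have key := two_of_three (fun R _ => Algebra.FiniteType ℤ R ∧ C (Spec (CommRingCat.of R)))
    (fun R S _ _ e hR => ?_) (fun R _ f hR hU => ?_) (MvPolynomial (Fin n) ℤ) (Elementary n)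
    (fun T hT => ⟨?_, harr n T hT⟩) s hs ∅ (by simp) (by simp) _ (Ideal.Quotient.mk _)
    (by rw [Finset.prod_empty]; exact Piece.mk_one _)
  · exact of_ring C h0 hglue e key.2
  · have := Algebra.FiniteType.equiv hR.1 (AlgEquiv.ofRingEquiv (f := e) fun z => by simp)
    exact ⟨this, of_ring C h0 hglue e hR.2⟩
  · have := isClosedImmersion_quot f
    have h1 : Algebra.FiniteType ℤ R := hR.1
    exact ⟨finiteType_quot _, hclosed (Spec (CommRingCat.of R))
      (Spec (CommRingCat.of (R ⧸ Ideal.span {f}))) (Spec (CommRingCat.of (Localization.Away f)))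
      (Spec.map (CommRingCat.ofHom (Ideal.Quotient.mk (Ideal.span {f}))))
      (Spec.map (CommRingCat.ofHom (algebraMap R (Localization.Away f)))) (arithmetic_spec R)
      (range_away f) hR.2 hU.2⟩
  · have := finiteType_mvPolynomial n
    exact finiteType_away _

end Pool.Agent.Lib.MP_b197b4_nt
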