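import Pool.Agent.Lib.MP_b197b4_nt.CubA
import Pool.Agent.Lib.MP_b197b4_nt.Two

/-!
# MP_b197b4_nt: the hypersurfaces `∑ y_j q_j = 1` are affine bundles over quasi-affine schemes
-/

set_option autoImplicit false

namespace Pool.Agent.Lib.MP_b197b4_nt

open CategoryTheory AlgebraicGeometry TopologicalSpace MvPolynomial

/-- An affine bundle of rank `r`: the base is covered by affine open subschemes `V` whose preimage is
affine with a polynomial ring in `r` variables over `Γ(B, V)` as coordinate ring. -/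
def IsAffineBundle (r : ℕ) {E B : Scheme.{0}} (π : E ⟶ B) : Prop :=
  ∀ b : B, ∃ V : B.Opens, b ∈ V ∧ IsAffineOpen V ∧ IsAffineOpen (π ⁻¹ᵁ V) ∧
    ∃ e : MvPolynomial (Fin r) Γ(B, V) ≃+* Γ(E, π ⁻¹ᵁ V), ∀ a, e (C a) = (π.app V).hom a

theorem IsAffineBundle.iso_comp {r : ℕ} {E E' B : Scheme.{0}} {π : E ⟶ B}
    (h : IsAffineBundle r π) (f : E' ⟶ E) [IsIso f] : IsAffineBundle r (f ≫ π) := by
  intro b
  obtain ⟨V, hb, hV, hW, e, he⟩ := h b
  refine ⟨V, hb, hV, hW.preimage_of_isIso f,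
    e.trans (asIso (f.app (π ⁻¹ᵁ V))).commRingCatIsoToRingEquiv, fun a => ?_⟩
  rw [RingEquiv.trans_apply, he]
  rfl

/-- Sections over an open subset of the spectrum. -/
noncomputable def secMap (R : CommRingCat.{0}) (W : (Spec R).Opens) : R →+* Γ(Spec R, W) :=
  algebraMap R Γ(Spec R, W)

theorem app_secMap {R S : CommRingCat.{0}} (f : R ⟶ S) (D : (Spec R).Opens) :
    (secMap S ((Spec.map f) ⁻¹ᵁ D)).comp f.hom = ((Spec.map f).app D).hom.comp (secMap R D) := by
  rw [secMap, secMap, IsAffineOpen.algebraMap_Spec_obj, IsAffineOpen.algebraMap_Spec_obj,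
    ← CommRingCat.hom_comp, ← CommRingCat.hom_comp, Scheme.ΓSpecIso_inv_naturality_assoc,
    Category.assoc, Scheme.Hom.naturality]
  rfl

theorem secMap_loc {R : CommRingCat.{0}} {W : (Spec R).Opens} (f : R)
    (h : W = PrimeSpectrum.basicOpen f) :
    (Submonoid.powers f).IsLocalizationMap (secMap R W) := by
  subst h
  have h1 : IsLocalization.Away f Γ(Spec R, PrimeSpectrum.basicOpen f) := inferInstance
  exact (isLocalization_iff_isLocalizationMap _ _).1 h1

theorem secMap_congr {R : CommRingCat.{0}} {X : Scheme.{0}} (g g' : Spec R ⟶ X) (D : X.Opens)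
    (h : g = g') (s : Γ(X, D)) (a : R)
    (hs : (g'.app D).hom s = secMap R (g' ⁻¹ᵁ D) a) :
    (g.app D).hom s = secMap R (g ⁻¹ᵁ D) a := by
  subst h
  exact hs

theorem dual_bundle {P : Type} [CommRing P] {k : ℕ} (q : Fin (k + 1) → P) {U : Scheme.{0}}
    (j : U ⟶ Spec (CommRingCat.of P)) [IsOpenImmersion j]
    (hj : ∀ x : Spec (CommRingCat.of P), x ∈ Set.range j ↔
      ∃ i, x ∈ (PrimeSpectrum.basicOpen (q i) : Set (PrimeSpectrum P)))
    (π : Spec (CommRingCat.of (DualRing q)) ⟶ U)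
    (hπ : π ≫ j = Spec.map (CommRingCat.ofHom (dualC q))) : IsAffineBundle k π := by
  intro b
  obtain ⟨i, hi⟩ := (hj (j b)).1 ⟨b, rfl⟩
  let D : (Spec (CommRingCat.of P)).Opens := PrimeSpectrum.basicOpen (q i)
  have hD : D ≤ j.opensRange := fun x hx => (hj x).2 ⟨i, hx⟩
  have hDa : IsAffineOpen D := IsAffineOpen.Spec_basicOpen (R := .of P) (q i)
  have hW : π ⁻¹ᵁ (j ⁻¹ᵁ D) = PrimeSpectrum.basicOpen (dualC q (q i)) := by
    change (π ≫ j) ⁻¹ᵁ D = _
    rw [hπ]
    rfl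
  refine ⟨j ⁻¹ᵁ D, hi, hDa.preimage_of_isOpenImmersion j hD, ?_, ?_⟩
  · rw [hW]
    exact IsAffineOpen.Spec_basicOpen (R := .of (DualRing q)) _
  · have hiso : IsIso (j.app D) := j.isIso_app D hD
    have h1 : (Submonoid.powers (q i)).IsLocalizationMap (secMap (CommRingCat.of P) D) :=
      secMap_loc (R := .of P) (q i) rfl
    have h2 := h1.mulEquiv_comp (asIso (j.app D)).commRingCatIsoToRingEquiv
    have h3 := secMap_loc (R := .of (DualRing q)) (dualC q (q i)) hW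
    have h4 (a : P) : (π.app (j ⁻¹ᵁ D)).hom (((j.app D).hom.comp
        (secMap (CommRingCat.of P) D)) a) =
        secMap (CommRingCat.of (DualRing q)) (π ⁻¹ᵁ (j ⁻¹ᵁ D)) (dualC q a) :=
      secMap_congr (π ≫ j) _ D hπ (secMap (CommRingCat.of P) D a) (dualC q a)
        (RingHom.congr_fun (app_secMap (CommRingCat.ofHom (dualC q)) D) a).symm
    obtain ⟨e, he⟩ := exists_dualEquiv' q i ((j.app D).hom.comp (secMap (CommRingCat.of P) D))
      (secMap (CommRingCat.of (DualRing q)) (π ⁻¹ᵁ (j ⁻¹ᵁ D))) h2 h3 (π.app (j ⁻¹ᵁ D)).hom h4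
    have e2 : Fin k ≃ {l : Fin (k + 1) // l ≠ i} := finSuccAboveEquiv i
    refine ⟨(renameEquiv _ e2).toRingEquiv.trans e, fun a => ?_⟩
    have h5 : (renameEquiv Γ(U, j ⁻¹ᵁ D) e2).toRingEquiv (C a) = C a := by simp
    rw [RingEquiv.trans_apply, h5, he]

end Pool.Agent.Lib.MP_b197b4_nt
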