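import Pool.Agent.Lib.MP_b197b4_nt.CubA

/-!
# MP_b197b4_nt: the hypersurfaces `∑ y_j q_j = 1`: smoothness, integrality
-/

set_option autoImplicit false

namespace Pool.Agent.Lib.MP_b197b4_nt

open MvPolynomial

section

variable {P : Type} [CommRing P] {m : ℕ} (q : Fin m → P)

theorem smooth_C {A : Type} [CommRing A] (σ : Type) [Finite σ] :
    RingHom.Smooth (C : A →+* MvPolynomial σ A) := by
  have h : Algebra.Smooth A (MvPolynomial σ A) := ⟨inferInstance, inferInstance⟩
  exact RingHom.smooth_algebraMap.2 h

theorem dual_span : Ideal.span (Set.range fun i => dualC q (q i)) = ⊤ := by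
  rw [Ideal.eq_top_iff_one, ← dual_rel q]
  exact Ideal.sum_mem _ fun i _ => Ideal.mul_mem_left _ _ (Ideal.subset_span ⟨i, rfl⟩)

theorem exists_dualLoc (i : Fin m) :
    ∃ e : MvPolynomial {j : Fin m // j ≠ i} (Localization.Away (q i)) ≃+*
        Localization.Away (dualC q (q i)), ∀ a : P,
      e (C (algebraMap P (Localization.Away (q i)) a)) =
        algebraMap (DualRing q) (Localization.Away (dualC q (q i))) (dualC q a) := by
  let φ : Localization.Away (q i) →+* Localization.Away (dualC q (q i)) :=
    IsLocalization.Away.map (Localization.Away (q i)) (Localization.Away (dualC q (q i)))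
      (dualC q) (q i)
  have hφ (a : P) : φ (algebraMap P (Localization.Away (q i)) a) =
      algebraMap (DualRing q) (Localization.Away (dualC q (q i))) (dualC q a) :=
    IsLocalization.map_eq _ _
  obtain ⟨e, he⟩ := exists_dualEquiv q (Localization.Away (q i))
    (Localization.Away (dualC q (q i))) i φ hφ
  exact ⟨e, fun a => (he _).trans (hφ a)⟩

theorem dual_smooth : RingHom.Smooth (dualC q) := by
  refine RingHom.Smooth.ofLocalizationSpanTarget (dualC q) (Set.range fun i => dualC q (q i))
    (dual_span q) ?_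
  rintro ⟨_, i, rfl⟩
  obtain ⟨e, he⟩ := exists_dualLoc q i
  have h1 : (algebraMap (DualRing q) (Localization.Away (dualC q (q i)))).comp (dualC q) =
      (e : MvPolynomial {j : Fin m // j ≠ i} (Localization.Away (q i)) →+*
        Localization.Away (dualC q (q i))).comp
        (C.comp (algebraMap P (Localization.Away (q i)))) :=
    RingHom.ext fun a => (he a).symm
  change RingHom.Smooth ((algebraMap (DualRing q) (Localization.Away (dualC q (q i)))).comp
    (dualC q))
  rw [h1]
  exact ((RingHom.Smooth.holdsForLocalizationAway _ (q i)).comp (smooth_C _)).comp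
    (RingHom.Smooth.of_bijective e.bijective)

/-- A polynomial with constant coefficient `-1` is not a zero divisor. -/
theorem eq_zero_of_mul {A : Type} [CommRing A] {σ : Type} (F G : MvPolynomial σ A)
    (hF : constantCoeff F = -1) (h : F * G = 0) : G = 0 := by
  have h1 : IsUnit (F : MvPowerSeries σ A) := by
    rw [MvPowerSeries.isUnit_iff_constantCoeff]
    have : MvPowerSeries.constantCoeff (F : MvPowerSeries σ A) = -1 := by
      rw [← hF]
      rfl
    rw [this]
    exact isUnit_one.neg
  have h2 : (F : MvPowerSeries σ A) * (G : MvPowerSeries σ A) = 0 := by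
    rw [← MvPolynomial.coe_mul, h, MvPolynomial.coe_zero]
  have h3 : (G : MvPowerSeries σ A) = 0 := (h1.mul_right_eq_zero).1 h2
  exact MvPolynomial.coe_injective σ A (by rw [h3, MvPolynomial.coe_zero])

theorem dual_torsionfree [IsDomain P] (a : P) (ha : a ≠ 0) (z : DualRing q)
    (h : dualC q a * z = 0) : z = 0 := by
  obtain ⟨G, rfl⟩ := Ideal.Quotient.mk_surjective z
  have h1 : Ideal.Quotient.mk (Ideal.span {dualPoly q}) (C a * G) = 0 := by
    rw [map_mul]
    exact h
  rw [Ideal.Quotient.eq_zero_iff_mem, Ideal.mem_span_singleton] at h1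
  obtain ⟨H, hH⟩ := h1
  let ρ : MvPolynomial (Fin m) P →+* MvPolynomial (Fin m) (P ⧸ Ideal.span {a}) :=
    map (Ideal.Quotient.mk (Ideal.span {a}))
  have h2 : ρ (dualPoly q) * ρ H = 0 := by
    rw [← map_mul, ← hH, map_mul]
    have : ρ (C a) = 0 := by
      simp only [ρ, map_C]
      rw [Ideal.Quotient.eq_zero_iff_mem.2 (Ideal.mem_span_singleton_self a), C_0]
    rw [this, zero_mul]
  have h3 : constantCoeff (ρ (dualPoly q)) = -1 := by
    simp [ρ, dualPoly]
  have h4 := eq_zero_of_mul _ _ h3 h2
  have h5 : C a ∣ H := by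
    rw [C_dvd_iff_dvd_coeff]
    intro s
    have h6 := congrArg (coeff s) h4
    simp only [ρ, coeff_map, coeff_zero] at h6
    exact Ideal.mem_span_singleton.1 (Ideal.Quotient.eq_zero_iff_mem.1 h6)
  obtain ⟨K, rfl⟩ := h5
  rw [Ideal.Quotient.eq_zero_iff_mem, Ideal.mem_span_singleton]
  refine ⟨K, ?_⟩
  have h7 : (C a : MvPolynomial (Fin m) P) ≠ 0 := by simpa using ha
  refine mul_left_cancel₀ h7 ?_
  rw [hH]
  ring

theorem dual_domain [IsDomain P] (i : Fin m) (hi : q i ≠ 0) : IsDomain (DualRing q) := by
  obtain ⟨e, he⟩ := exists_dualLoc q i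
  have h1 : IsDomain (Localization.Away (q i)) :=
    IsLocalization.isDomain_localization (powers_le_nonZeroDivisors_of_noZeroDivisors hi)
  have h2 : IsDomain (Localization.Away (dualC q (q i))) := e.symm.toMulEquiv.isDomain _
  have h3 : Function.Injective
      (algebraMap (DualRing q) (Localization.Away (dualC q (q i)))) := by
    refine IsLocalization.injective _ (M := Submonoid.powers (dualC q (q i))) ?_
    rintro _ ⟨n, rfl⟩
    refine mem_nonZeroDivisors_iff_right.2 fun z hz => ?_
    refine dual_torsionfree q (q i ^ n) (pow_ne_zero n hi) z ?_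
    rw [map_pow, mul_comm]
    exact hz
  exact h3.isDomain _

theorem dual_subsingleton (h : ∀ i, q i = 0) : Subsingleton (DualRing q) := by
  refine ⟨fun x y => ?_⟩
  have h1 : (0 : DualRing q) = 1 := by
    rw [← dual_rel q]
    refine (Finset.sum_eq_zero fun i _ => ?_).symm
    rw [h i, map_zero, mul_zero]
  rw [← one_mul x, ← one_mul y, ← h1, zero_mul, zero_mul]

end

end Pool.Agent.Lib.MP_b197b4_nt
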