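import Pool.Agent.Lib.MP_b197b4_nt.CubB
import Pool.Agent.Lib.MP_b197b4_nt.CubC

/-!
# MP_b197b4_nt: localisation, affine bundles and smooth affine cubic hypersurfaces
-/

set_option autoImplicit false

namespace Pool.Agent.Lib.MP_b197b4_nt

open CategoryTheory AlgebraicGeometry TopologicalSpace MvPolynomial

/-- The polynomial `y_1 q_1(x) + ... + y_m q_m(x) - 1`; the variables are `y_i = X (Sum.inl i)` and
`x_j = X (Sum.inr j)`. -/
noncomputable def cubicPoly {m n : ℕ} (q : Fin m → MvPolynomial (Fin n) ℤ) :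
    MvPolynomial (Fin m ⊕ Fin n) ℤ :=
  ∑ i, X (Sum.inl i) * rename Sum.inr (q i) - 1

/-- The affine hypersurface `y_1 q_1(x) + ... + y_m q_m(x) = 1` over the integers. -/
noncomputable def cubicHypersurface {m n : ℕ} (q : Fin m → MvPolynomial (Fin n) ℤ) : Scheme.{0} :=
  Spec (CommRingCat.of (MvPolynomial (Fin m ⊕ Fin n) ℤ ⧸ Ideal.span {cubicPoly q}))

/-- Smooth over the spectrum of the integers. -/
def SmoothOverZ (Y : Scheme.{0}) : Prop := ∃ f : Y ⟶ Spec (CommRingCat.of ℤ), Smooth f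

theorem exists_cubicEquiv {m n : ℕ} (q : Fin m → MvPolynomial (Fin n) ℤ) :
    Nonempty ((MvPolynomial (Fin m ⊕ Fin n) ℤ ⧸ Ideal.span {cubicPoly q}) ≃+* DualRing q) := by
  refine ⟨Ideal.quotientEquiv _ _ (sumAlgEquiv ℤ (Fin m) (Fin n)).toRingEquiv ?_⟩
  rw [Ideal.map_span, Set.image_singleton]
  congr 2
  have h1 (p : MvPolynomial (Fin n) ℤ) :
      sumAlgEquiv ℤ (Fin m) (Fin n) (rename Sum.inr p) = C p :=
    AlgHom.congr_fun (sumAlgEquiv_comp_rename_inr ℤ (Fin m) (Fin n)) p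
  change dualPoly q = sumAlgEquiv ℤ (Fin m) (Fin n) (cubicPoly q)
  rw [cubicPoly, dualPoly, map_sub, map_one, map_sum]
  congr 1
  exact Finset.sum_congr rfl fun i _ => by rw [map_mul, h1, sumAlgEquiv_X_inl]

theorem cubic_integral {m n : ℕ} (q : Fin m → MvPolynomial (Fin n) ℤ) (i : Fin m) (hi : q i ≠ 0) :
    IsIntegral (cubicHypersurface q) := by
  obtain ⟨e⟩ := exists_cubicEquiv q
  have h1 := dual_domain q i hi
  have h2 : IsDomain (MvPolynomial (Fin m ⊕ Fin n) ℤ ⧸ Ideal.span {cubicPoly q}) :=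
    e.toMulEquiv.isDomain _
  exact @instIsIntegralSpecOfIsDomainCarrier (CommRingCat.of _) h2

theorem cubic_smooth {m n : ℕ} (q : Fin m → MvPolynomial (Fin n) ℤ) :
    SmoothOverZ (cubicHypersurface q) := by
  obtain ⟨e⟩ := exists_cubicEquiv q
  let f : ℤ →+* MvPolynomial (Fin m ⊕ Fin n) ℤ ⧸ Ideal.span {cubicPoly q} :=
    (e.symm : DualRing q →+* _).comp ((dualC q).comp C)
  have h1 : Smooth (Spec.map (CommRingCat.ofHom f)) := by
    rw [HasRingHomProperty.Spec_iff (P := @Smooth), CommRingCat.hom_ofHom]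
    exact ((smooth_C (A := ℤ) (Fin n)).comp (dual_smooth q)).comp
      (RingHom.Smooth.of_bijective e.symm.bijective)
  exact ⟨Spec.map (CommRingCat.ofHom f), h1⟩

theorem exists_cubicIso {m n : ℕ} (q : Fin m → MvPolynomial (Fin n) ℤ) :
    ∃ f : cubicHypersurface q ⟶ Spec (CommRingCat.of (DualRing q)), IsIso f := by
  obtain ⟨e⟩ := exists_cubicEquiv q
  exact ⟨(Scheme.Spec.mapIso (e.symm.toCommRingCatIso).op).hom, inferInstance⟩

/-- Open subschemes of affine spaces. -/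
theorem base_mem (C : ℕ → Scheme.{0} → Prop) (h0 : ∀ X : Scheme.{0}, IsEmpty X → C 0 X)
    (hbundle : ∀ (r : ℕ) (E B : Scheme.{0}) (π : E ⟶ B), Arithmetic B → IsAffineBundle r π →
      C r E → C 0 B) {k n : ℕ} (q : Fin (k + 1) → MvPolynomial (Fin n) ℤ)
    (h : IsIntegral (cubicHypersurface q) → SmoothOverZ (cubicHypersurface q) →
      C k (cubicHypersurface q)) (U : (Spec (CommRingCat.of (MvPolynomial (Fin n) ℤ))).Opens)
    (hU : ∀ x : Spec (CommRingCat.of (MvPolynomial (Fin n) ℤ)), x ∈ U ↔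
      ∃ i, x ∈ (PrimeSpectrum.basicOpen (q i) : Set (PrimeSpectrum (MvPolynomial (Fin n) ℤ)))) :
    C 0 U := by
  classical
  by_cases hq : ∃ i, q i ≠ 0
  · obtain ⟨i, hi⟩ := hq
    have hr : Set.range (Spec.map (CommRingCat.ofHom (dualC q))) ⊆ Set.range U.ι := by
      rintro _ ⟨x, rfl⟩
      rw [Scheme.Opens.range_ι]
      refine (hU _).2 ?_
      by_contra hc
      push Not at hc
      have h1 (i : Fin (k + 1)) : dualC q (q i) ∈ x.asIdeal := by
        by_contra h2
        exact hc i h2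
      apply x.isPrime.ne_top
      rw [Ideal.eq_top_iff_one, ← dual_rel q]
      exact Ideal.sum_mem _ fun i _ => Ideal.mul_mem_left _ _ (h1 i)
    have hb : IsAffineBundle k
        (IsOpenImmersion.lift U.ι (Spec.map (CommRingCat.ofHom (dualC q))) hr) :=
      dual_bundle q U.ι (fun x => by rw [Scheme.Opens.range_ι]; exact hU x) _
        (IsOpenImmersion.lift_fac _ _ _)
    obtain ⟨f, hf⟩ := exists_cubicIso q
    refine hbundle k _ _ _ ?_ (hb.iso_comp f) (h (cubic_integral q i hi) (cubic_smooth q))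
    have h2 := finiteType_mvPolynomial n
    obtain ⟨π, h3, h4, h5⟩ := arithmetic_spec (MvPolynomial (Fin n) ℤ)
    have h6 : NoetherianSpace U := by
      have h7 : NoetherianSpace (Spec (CommRingCat.of (MvPolynomial (Fin n) ℤ))) :=
        inferInstanceAs (NoetherianSpace (PrimeSpectrum (MvPolynomial (Fin n) ℤ)))
      exact NoetherianSpace.set (U : Set (Spec (CommRingCat.of (MvPolynomial (Fin n) ℤ))))
    exact ⟨U.ι ≫ π, inferInstance, inferInstance, inferInstance⟩
  · push Not at hq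
    refine h0 _ ⟨fun x => ?_⟩
    obtain ⟨i, hi⟩ := (hU x.1).1 x.2
    rw [hq i, PrimeSpectrum.basicOpen_zero] at hi
    exact hi

/-- The main theorem. -/
theorem main_cubic (C : ℕ → Scheme.{0} → Prop) (h0 : ∀ X : Scheme.{0}, IsEmpty X → C 0 X)
    (hglue : ∀ (X Z U : Scheme.{0}) (i : Z ⟶ X) (j : U ⟶ X), Arithmetic X → ClosedOpen i j →
      C 0 Z → C 0 U → C 0 X)
    (hclosed : ∀ (X Z U : Scheme.{0}) (i : Z ⟶ X) (j : U ⟶ X), Arithmetic X → ClosedOpen i j →
      C 0 X → C 0 U → C 0 Z)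
    (hbundle : ∀ (r : ℕ) (E B : Scheme.{0}) (π : E ⟶ B), Arithmetic B → IsAffineBundle r π →
      C r E → C 0 B)
    (hcubic : ∀ (k n : ℕ) (q : Fin (k + 1) → MvPolynomial (Fin n) ℤ),
      (∀ i, q i ∈ Elementary n ∨ q i = 1) → IsIntegral (cubicHypersurface q) →
      SmoothOverZ (cubicHypersurface q) → C k (cubicHypersurface q))
    (X : Scheme.{0}) (hX : Arithmetic X) : C 0 X := by
  classical
  have hglue' : ∀ (X Z U : Scheme.{0}) (i : Z ⟶ X) (j : U ⟶ X) [IsClosedImmersion i]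
      [IsOpenImmersion j], Arithmetic X → Set.range j = (Set.range i)ᶜ → C 0 Z → C 0 U → C 0 X :=
    fun X Z U i j _ _ h1 h2 => hglue X Z U i j h1 ⟨inferInstance, inferInstance, h2⟩
  refine glue_affine (C 0) h0 hglue' X hX fun B _ hB _ => ?_
  obtain ⟨n, s, hs, ⟨e⟩⟩ := exists_presentation B
  refine of_ring (C 0) h0 hglue' e ?_
  have hft := finiteType_mvPolynomial n
  -- affine space
  have hA : C 0 (Spec (CommRingCat.of (MvPolynomial (Fin n) ℤ))) := by
    have h1 := base_mem C h0 hbundle (k := 0) (fun _ => (1 : MvPolynomial (Fin n) ℤ))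
      (hcubic 0 n _ fun _ => Or.inr rfl) ⊤ (fun x => ⟨fun _ => ⟨0, by
        rw [PrimeSpectrum.basicOpen_one]
        trivial⟩, fun _ => trivial⟩)
    exact of_iso (C 0) h0 hglue' (Scheme.topIso _) (arithmetic_spec _) h1
  -- the open complement
  let U : (Spec (CommRingCat.of (MvPolynomial (Fin n) ℤ))).Opens :=
    ⟨(PrimeSpectrum.zeroLocus (s : Set (MvPolynomial (Fin n) ℤ)))ᶜ,
      (PrimeSpectrum.isClosed_zeroLocus _).isOpen_compl⟩
  have hU : C 0 U := by
    obtain ⟨m, ⟨f⟩⟩ := Finite.exists_equiv_fin s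
    rcases m with _ | k
    · refine h0 _ ⟨fun x => x.2 fun g hg => ((f ⟨g, hg⟩).elim0 : _)⟩
    · refine base_mem C h0 hbundle (fun i => ((f.symm i : s) : MvPolynomial (Fin n) ℤ))
        (hcubic k n _ fun i => Or.inl (hs (f.symm i).2)) U fun x => ?_
      constructor
      · intro hx
        have hx' : ¬ (s : Set (MvPolynomial (Fin n) ℤ)) ⊆ x.asIdeal := hx
        obtain ⟨g, hg, hg'⟩ := Set.not_subset.1 hx'
        refine ⟨f ⟨g, hg⟩, ?_⟩
        rw [Equiv.symm_apply_apply]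
        exact hg'
      · rintro ⟨i, hi⟩ hx
        exact hi (hx (f.symm i).2)
  have hc : IsClosedImmersion (Spec.map (CommRingCat.ofHom
      (Ideal.Quotient.mk (Ideal.span (s : Set (MvPolynomial (Fin n) ℤ)))))) :=
    IsClosedImmersion.spec_of_quotient_mk (R := .of (MvPolynomial (Fin n) ℤ)) _
  refine hclosed _ _ _ (Spec.map (CommRingCat.ofHom
      (Ideal.Quotient.mk (Ideal.span (s : Set (MvPolynomial (Fin n) ℤ)))))) U.ι
    (arithmetic_spec _) ⟨hc, inferInstance, ?_⟩ hA hU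
  rw [Scheme.Opens.range_ι]
  have h2 := range_comap_of_surjective _
    (Ideal.Quotient.mk (Ideal.span (s : Set (MvPolynomial (Fin n) ℤ))))
    Ideal.Quotient.mk_surjective
  rw [Ideal.mk_ker, PrimeSpectrum.zeroLocus_span] at h2
  exact congrArg compl h2.symm

end Pool.Agent.Lib.MP_b197b4_nt
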