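import Pool.Agent.Lib.MP_b197b4_nt.Base

/-!
# MP_b197b4_nt: the structures used in the statement
-/

namespace MPb197b4

open Polynomial

/-- A smooth proper geometrically connected variety `X` over the field with `q` elements, its ring
of correspondences and its `ℓ`-adic homology. -/
structure Variety (q : ℕ) where
  /-- the dimension of `X` -/
  d : ℕ
  /-- the ring `CH^d(X × X) ⊗ ℚ` of correspondences, the product is the composition -/
  E : Type
  [ringE : Ring E]
  [algE : Algebra ℚ E]
  /-- the graph of the Frobenius endomorphism -/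
  F : E
  /-- the class of `X × z`, `z` a zero-cycle of degree one with rational coefficients -/
  e : E
  /-- the intersection number with the diagonal -/
  tr : E →ₗ[ℚ] ℚ
  F_e : F * e = e
  e_F : e * F = e
  e_e : e * e = e
  tr_e : tr e = 1
  /-- the field of coefficients of `ℓ`-adic homology -/
  L : Type
  [fieldL : Field L]
  [charL : CharZero L]
  /-- the homology groups (duals of the cohomology groups) -/
  H : ℕ → Type
  [addH : ∀ i, AddCommGroup (H i)]
  [modH : ∀ i, Module L (H i)]
  [finH : ∀ i, FiniteDimensional L (H i)]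
  /-- the action of the correspondences -/
  act : ∀ i, E →+* Module.End L (H i)
  /-- the Lefschetz trace formula -/
  trace_eq : ∀ x, ((tr x : ℚ) : L) =
    ∑ i ∈ Finset.range (2 * d + 1), (-1) ^ i * LinearMap.trace L (H i) (act i x)
  /-- the characteristic polynomial of the Frobenius endomorphism on the `i`-th group -/
  P : ℕ → ℚ[X]
  charpoly_F : ∀ i, (act i F).charpoly = (P i).map (algebraMap ℚ L)
  /-- Deligne -/
  weight : ∀ i (α : ℂ), aeval α (P i) = 0 → ‖α‖ = Real.sqrt q ^ i
  /-- `X` is geometrically connected -/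
  P_zero : P 0 = X - 1

attribute [instance] Variety.ringE Variety.algE Variety.fieldL Variety.charL Variety.addH
  Variety.modH Variety.finH

/-- The sum of the Betti numbers. -/
noncomputable def Variety.betti {q : ℕ} (X : Variety q) : ℕ :=
  ∑ i ∈ Finset.range (2 * X.d + 1), Module.finrank X.L (X.H i)

/-- The sum of the even Betti numbers. -/
noncomputable def Variety.bp {q : ℕ} (X : Variety q) : ℕ :=
  ∑ i ∈ (Finset.range (2 * X.d + 1)).filter Even, Module.finrank X.L (X.H i)

/-- The sum of the odd Betti numbers. -/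
noncomputable def Variety.bm {q : ℕ} (X : Variety q) : ℕ :=
  ∑ i ∈ (Finset.range (2 * X.d + 1)).filter (fun i => ¬ Even i), Module.finrank X.L (X.H i)

/-- The ring of correspondences of the power `X^k`. -/
structure Power {q : ℕ} (X : Variety q) (k : ℕ) where
  /-- the ring `CH^{kd}(X^k × X^k) ⊗ ℚ` -/
  E : Type
  [ringE : Ring E]
  [algE : Algebra ℚ E]
  /-- the graphs of the permutations of the factors -/
  perm : Equiv.Perm (Fin k) →* E
  /-- a correspondence of `X` on the factor `j` -/
  place : Fin k → X.E →ₐ[ℚ] E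
  /-- the partial traces -/
  ptr : Fin k → E →ₗ[ℚ] E
  isPower : IsPower X.tr perm place ptr

attribute [instance] Power.ringE Power.algE

/-- The dimension of the span of the graphs of the `k!` permutations of the factors of `X^k` in
`CH^{kd}(X^k × X^k) ⊗ ℚ`. -/
noncomputable def Power.T {q : ℕ} {X : Variety q} {k : ℕ} (W : Power X k) : ℕ :=
  Module.finrank ℚ (Submodule.span ℚ (Set.range W.perm))

/-- All powers of `X`. -/
structure Powers {q : ℕ} (X : Variety q) where
  /-- the power `X^k` -/
  pow : ∀ k, Power X k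
  /-- `a ↦ a × Δ`, `Δ` the diagonal of the last factor -/
  incl : ∀ k, (pow k).E →ₐ[ℚ] (pow (k + 1)).E
  incl_inj : ∀ k, Function.Injective (incl k)
  incl_place : ∀ k j a, incl k ((pow k).place j a) = (pow (k + 1)).place j.castSucc a
  incl_perm : ∀ k (σ : Equiv.Perm (Fin k)) (τ : Equiv.Perm (Fin (k + 1))),
    (∀ j, τ j.castSucc = (σ j).castSucc) → incl k ((pow k).perm σ) = (pow (k + 1)).perm τ

/-- `u` on every factor. -/
def Power.all {q : ℕ} {X : Variety q} {k : ℕ} (W : Power X k) (u : X.E) : W.E :=
  (List.ofFn fun j => W.place j u).prod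

/-- The exterior power `k` of the part `u` of the motive of `X` is zero. -/
def Power.ExtZero {q : ℕ} {X : Variety q} {k : ℕ} (W : Power X k) (u : X.E) : Prop :=
  W.all u * ∑ σ, ((Equiv.Perm.sign σ : ℤ) : ℚ) • W.perm σ = 0

/-- The symmetric power `k` of the part `v` of the motive of `X` is zero. -/
def Power.SymZero {q : ℕ} {X : Variety q} {k : ℕ} (W : Power X k) (v : X.E) : Prop :=
  W.all v * ∑ σ, W.perm σ = 0

/-- The motive of `X` is finite-dimensional in the sense of Kimura and O'Sullivan: the diagonal is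
the sum of two orthogonal idempotents `u` and `v`, `u` acts as one on the even homology and as zero
on the odd homology, the exterior power `b⁺ + 1` of `u` and the symmetric power `b⁻ + 1` of `v` are
zero, `b⁺` and `b⁻` the sums of the even and odd Betti numbers. -/
def Powers.Kimura {q : ℕ} {X : Variety q} (W : Powers X) : Prop :=
  ∃ u v : X.E, u * u = u ∧ v * v = v ∧ u * v = 0 ∧ v * u = 0 ∧ u + v = 1 ∧
    (∀ i ≤ 2 * X.d, X.act i u = if Even i then 1 else 0) ∧
    (W.pow (X.bp + 1)).ExtZero u ∧ (W.pow (X.bm + 1)).SymZero v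

/-- The motivic cohomology of the product `Y = X_1 × ⋯ × X_r`, of dimension `D`, in the weights
`D + m`, `m ≥ 0`. -/
structure Cohomology {q r : ℕ} (X : Fin r → Variety q) where
  /-- `H^i(Y_et, ℤ(D + m))` -/
  A : ℕ → ℤ → Type
  [addA : ∀ m i, AddCommGroup (A m i)]
  /-- `H^i(Y, ℚ(D + m))` -/
  V : ℕ → ℤ → Type
  [addV : ∀ m i, AddCommGroup (V m i)]
  [modV : ∀ m i, Module ℚ (V m i)]
  /-- the action of the correspondences of the factor `j` (push-forward) -/
  act : ∀ m i (j : Fin r), (X j).E →ₐ[ℚ] Module.End ℚ (V m i)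
  act_comm : ∀ m i (j j' : Fin r), j ≠ j' → ∀ x y, Commute (act m i j x) (act m i j' y)
  /-- the push-forward by the Frobenius endomorphism of `Y` is the multiplication by `q^{-m}` -/
  frob : ∀ (m : ℕ) (i : ℤ), (List.ofFn fun j => act m i j (X j).F).prod =
    algebraMap ℚ (Module.End ℚ (V m i)) (((q : ℚ) ^ m)⁻¹)
  /-- the class `Y × z` factors through `H^{i - 2D}` of the finite field in the weight `m` -/
  point : ∀ (m : ℕ) (i : ℤ), (m, i) ≠ (0, 2 * ∑ j, ((X j).d : ℤ)) →
    (List.ofFn fun j => act m i j (X j).e).prod = 0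
  /-- Gabber, Deligne, Geisser -/
  split : ∀ (m : ℕ) (i : ℤ), (m, i) ≠ (0, 2 * ∑ j, ((X j).d : ℤ)) →
    i ≤ 2 * (∑ j, ((X j).d : ℤ) + (m : ℤ)) →
    ∃ T : Type, ∃ _ : AddCommGroup T, Finite T ∧ Nonempty (A m i ≃+ T × V m i)
  /-- the group of zero-cycles -/
  top : AddGroup.FG (A 0 (2 * ∑ j, ((X j).d : ℤ)))

attribute [instance] Cohomology.addA Cohomology.addV Cohomology.modV

end MPb197b4
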