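import Mathlib

/-!
# Commuting algebraic operators with roots of absolute value at least one

`V` is a vector space over a field `K` contained in the complex numbers, not
assumed of finite dimension.  `F j` are pairwise commuting endomorphisms, each
killed by a polynomial all of whose complex roots `α` have `1 ≤ |α|`, with
`α = 1` when `|α| = 1`.  If the product of the `F j` is a scalar of absolute
value at most one, and if the product of `(f j)(F j)` is zero for polynomials
`f j` with value `1` at `1`, then `V = 0`.
-/

namespace MPb197b4.EigB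

open Polynomial

/-- A commutative integral algebra which is not zero has a homomorphism to an
algebraically closed field. -/
theorem exists_char {K L A : Type*} [Field K] [Field L] [IsAlgClosed L] [Algebra K L]
    [CommRing A] [Nontrivial A] [Algebra K A] [Algebra.IsIntegral K A] :
    Nonempty (A →ₐ[K] L) := by
  obtain ⟨m, hm⟩ := Ideal.exists_maximal A
  let _ : Field (A ⧸ m) := Ideal.Quotient.field m
  have : Algebra.IsIntegral K (A ⧸ m) := inferInstance
  have : Algebra.IsAlgebraic K (A ⧸ m) := Algebra.IsIntegral.isAlgebraic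
  exact ⟨(IsAlgClosed.lift : (A ⧸ m) →ₐ[K] L).comp (Ideal.Quotient.mkₐ K m)⟩

open scoped IsMulCommutative in
/-- Commuting elements of an algebra, each integral over the field, have a
common character if the algebra is not zero: the values `β j` of the `F j`
satisfy every equation `p(F) = 0` in the form used below. -/
theorem exists_common {K L B : Type*} [Field K] [Field L] [IsAlgClosed L] [Algebra K L]
    [Ring B] [Nontrivial B] [Algebra K B] {r : ℕ} (F : Fin r → B)
    (hc : ∀ i j, Commute (F i) (F j)) (hint : ∀ j, IsIntegral K (F j)) :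
    ∃ β : Fin r → L, ∀ (p : Fin r → K[X]) (c : K),
      (List.ofFn fun j => aeval (F j) (p j)).prod = algebraMap K B c →
        ∏ j, aeval (β j) (p j) = algebraMap K L c := by
  classical
  have hcomm : IsMulCommutative (Algebra.adjoin K (Set.range F)) :=
    Algebra.isMulCommutative_adjoin K (by
      rintro _ ⟨i, rfl⟩ _ ⟨j, rfl⟩
      exact hc i j)
  let F' : Fin r → Algebra.adjoin K (Set.range F) := fun j =>
    ⟨F j, Algebra.subset_adjoin (Set.mem_range_self j)⟩
  have hI : Algebra.IsIntegral K (Algebra.adjoin K (Set.range F)) := by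
    constructor
    rintro ⟨y, hy⟩
    induction hy using Algebra.adjoin_induction with
    | mem x hx =>
      obtain ⟨j, rfl⟩ := hx
      have h := hint j
      exact (isIntegral_algHom_iff (Algebra.adjoin K (Set.range F)).val
        Subtype.val_injective (x := F' j)).1 h
    | algebraMap a => exact isIntegral_algebraMap (x := a)
    | add x y hx hy h1 h2 => exact h1.add h2
    | mul x y hx hy h1 h2 => exact h1.mul h2
  obtain ⟨χ⟩ := exists_char (K := K) (L := L) (A := Algebra.adjoin K (Set.range F))
  refine ⟨fun j => χ (F' j), fun p c h => ?_⟩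
  have h1 : (List.ofFn fun j => aeval (F' j) (p j)).prod =
      algebraMap K (Algebra.adjoin K (Set.range F)) c := by
    apply Subtype.val_injective
    have h2 : ((Algebra.adjoin K (Set.range F)).val
        (List.ofFn fun j => aeval (F' j) (p j)).prod) = algebraMap K B c := by
      rw [map_list_prod, List.map_ofFn, ← h]
      congr 2
      funext j
      simp only [Function.comp]
      rw [← Polynomial.aeval_algHom_apply]
      rfl
    exact h2
  have h3 := congrArg χ h1
  rw [map_list_prod, List.map_ofFn, List.prod_ofFn, AlgHom.commutes] at h3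
  rw [← h3]
  refine Finset.prod_congr rfl fun j _ => ?_
  rw [Polynomial.aeval_algHom_apply]
  rfl

/-- **The vanishing lemma.** -/
theorem subsingleton {K V : Type*} [Field K] [Algebra K ℂ] [AddCommGroup V] [Module K V]
    {r : ℕ} (F : Fin r → Module.End K V) (hc : ∀ i j, Commute (F i) (F j))
    (P f : Fin r → K[X]) (hP : ∀ j, P j ≠ 0) (hPF : ∀ j, aeval (F j) (P j) = 0)
    (hroot : ∀ j (α : ℂ), aeval α (P j) = 0 → 1 ≤ ‖α‖ ∧ (‖α‖ = 1 → α = 1))
    (hf : ∀ j, (f j).eval 1 = 1)
    {c : K} (hc1 : ‖(algebraMap K ℂ c)‖ ≤ 1)
    (hprod : (List.ofFn F).prod = algebraMap K (Module.End K V) c)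
    (hzero : (List.ofFn fun j => aeval (F j) (f j)).prod = 0) :
    Subsingleton V := by
  classical
  by_contra hV
  rw [not_subsingleton_iff_nontrivial] at hV
  have hint : ∀ j, IsIntegral K (F j) := fun j =>
    isAlgebraic_iff_isIntegral.1 ⟨P j, hP j, hPF j⟩
  obtain ⟨β, hβ⟩ := exists_common (L := ℂ) F hc hint
  have hroots : ∀ j, aeval (β j) (P j) = 0 := by
    intro j
    have h1 : (List.ofFn fun i => aeval (F i) ((Function.update (fun _ => (1 : K[X])) j (P j)) i)).prod
        = algebraMap K (Module.End K V) 0 := by
      rw [map_zero]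
      refine List.prod_eq_zero ?_
      rw [List.mem_ofFn]
      exact ⟨j, by rw [Function.update_self, hPF j]⟩
    have h2 := hβ _ 0 h1
    rw [map_zero, Finset.prod_eq_zero_iff] at h2
    obtain ⟨i, _, hi⟩ := h2
    by_cases hij : i = j
    · subst hij
      rwa [Function.update_self] at hi
    · rw [Function.update_of_ne hij, map_one] at hi
      exact absurd hi one_ne_zero
  have hpr : ∏ j, β j = algebraMap K ℂ c := by
    have := hβ (fun _ => X) c (by simpa using hprod)
    simpa using this
  have hge : ∀ j, 1 ≤ ‖β j‖ := fun j => (hroot j _ (hroots j)).1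
  have hle : ∏ j, ‖β j‖ ≤ 1 := by
    rw [← norm_prod, hpr]
    exact hc1
  have hone : ∀ j, ‖β j‖ = 1 := by
    intro j
    refine le_antisymm ?_ (hge j)
    calc ‖β j‖ ≤ ∏ i, ‖β i‖ := by
          rw [← Finset.mul_prod_erase _ _ (Finset.mem_univ j)]
          have : (1 : ℝ) ≤ ∏ i ∈ Finset.univ.erase j, ‖β i‖ := by
            calc (1 : ℝ) = ∏ _i ∈ Finset.univ.erase j, (1 : ℝ) := by simp
              _ ≤ _ := Finset.prod_le_prod (fun _ _ => zero_le_one) fun i _ => hge i
          nlinarith [norm_nonneg (β j)]
      _ ≤ 1 := hle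
  have hb : ∀ j, β j = 1 := fun j => (hroot j _ (hroots j)).2 (hone j)
  have h5 := hβ f 0 (by rw [hzero, map_zero])
  rw [map_zero, Finset.prod_eq_zero_iff] at h5
  obtain ⟨j, _, hj⟩ := h5
  rw [hb j] at hj
  have : aeval (1 : ℂ) (f j) = algebraMap K ℂ ((f j).eval 1) := by
    rw [← map_one (algebraMap K ℂ), Polynomial.aeval_algebraMap_apply, Polynomial.coe_aeval_eq_eval]
  rw [this, hf j, map_one] at hj
  exact one_ne_zero hj

end MPb197b4.EigB
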