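import Pool.Agent.Lib.MP_b197b4_nt.Stein

/-!
# MP_b197b4_nt: the main theorem for a general family and for equations between units
-/

set_option autoImplicit false

namespace Pool.Agent.Lib.MP_b197b4_nt

open CategoryTheory AlgebraicGeometry

theorem main_family (C : ∀ (R : Type) [CommRing R], Prop)
    (hC : ∀ (R S : Type) [CommRing R] [CommRing S], (R ≃+* S) → C R → C S)
    (h0 : C PUnit)
    (hloc : ∀ (R : Type) [CommRing R] (f : R), C (R ⧸ Ideal.span {f}) →
      C (Localization.Away f) → C R)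
    (Q : ∀ (R : Type) [CommRing R], Prop)
    (hQ : ∀ (B : Type) [CommRing B] [IsDomain B] [Algebra.FiniteType ℤ B],
      ∃ F : B, F ≠ 0 ∧ Q (Localization.Away F))
    (A : Type) [CommRing A] [Algebra.FiniteType ℤ A]
    (hreal : ∀ (R : Type) [CommRing R], Q R → Algebra.FiniteType ℤ R → IsDomain R →
      ArithSmooth R → (∃ (I : Ideal A) (h : A ⧸ I), Nonempty (R ≃+* Localization.Away h)) →
      C R) :
    C A := by
  have : IsNoetherianRing A := Algebra.FiniteType.isNoetherianRing ℤ A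
  refine noeth C hC h0 hloc A (fun R _ => ArithSmooth R) (fun B _ _ ρ I h H => ?_)
    (fun B _ _ ρ I h H hG => ?_) ⊥ A (RingHom.id A) 1 (Piece.self A)
  · have := H.finiteType
    exact exists_smooth B
  · have := H.finiteType
    obtain ⟨F, hF, hQF⟩ := hQ B
    refine ⟨F, hF, ?_⟩
    obtain ⟨a, k, hk⟩ := H.surj F
    obtain ⟨e'⟩ := (H.away hk).nonempty_equiv
    have : IsDomain (Localization.Away F) :=
      IsLocalization.isDomain_localization (powers_le_nonZeroDivisors_of_noZeroDivisors hF)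
    exact hreal _ hQF (finiteType_away F) this (hG.away F) ⟨I, Ideal.Quotient.mk I (h * a), ⟨e'⟩⟩

theorem family_scheme (C : Scheme.{0} → Prop) (h0 : ∀ X : Scheme.{0}, IsEmpty X → C X)
    (hloc : ∀ (X Z U : Scheme.{0}) (i : Z ⟶ X) (j : U ⟶ X) [IsClosedImmersion i]
      [IsOpenImmersion j], Arithmetic X → Set.range j = (Set.range i)ᶜ → C Z → C U → C X)
    (Q : ∀ (R : Type) [CommRing R], Prop)
    (hQ : ∀ (B : Type) [CommRing B] [IsDomain B] [Algebra.FiniteType ℤ B],
      ∃ F : B, F ≠ 0 ∧ Q (Localization.Away F))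
    (X : Scheme.{0}) (hX : Arithmetic X)
    (hreal : ∀ (R : Type) [CommRing R], Q R → Algebra.FiniteType ℤ R → IsDomain R →
      ArithSmooth R → (∃ j : Spec (CommRingCat.of R) ⟶ X, IsImmersion j) →
      C (Spec (CommRingCat.of R))) : C X := by
  refine glue_affine C h0 hloc X hX fun A _ hA hj => ?_
  obtain ⟨j, hj⟩ := hj
  refine main_family (fun R _ => Algebra.FiniteType ℤ R → C (Spec (CommRingCat.of R)))
    (fun R S _ _ e hR hS => ?_) (fun _ => h0 _ (isEmpty_spec _)) (fun R _ f hZ hU hR => ?_) Q hQ A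
    (fun R _ h1 h2 h3 h4 h5 _ => hreal R h1 h2 h3 h4 ?_) inferInstance
  · have : Algebra.FiniteType ℤ R := Algebra.FiniteType.equiv hS
      (AlgEquiv.ofRingEquiv (f := e.symm) fun n => by simp)
    exact of_ring C h0 hloc e (hR this)
  · have := isClosedImmersion_quot f
    exact hloc (Spec (CommRingCat.of R)) (Spec (CommRingCat.of (R ⧸ Ideal.span {f})))
      (Spec (CommRingCat.of (Localization.Away f)))
      (Spec.map (CommRingCat.ofHom (Ideal.Quotient.mk (Ideal.span {f}))))
      (Spec.map (CommRingCat.ofHom (algebraMap R (Localization.Away f)))) (arithmetic_spec R)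
      (range_away f) (hZ (finiteType_quot _)) (hU (finiteType_away f))
  · obtain ⟨I, h, ⟨e⟩⟩ := h5
    have e1 : IsClosedImmersion (Spec.map (CommRingCat.ofHom (Ideal.Quotient.mk I))) :=
      IsClosedImmersion.spec_of_quotient_mk (R := .of A) _
    exact ⟨Spec.map e.symm.toCommRingCatIso.hom ≫
      Spec.map (CommRingCat.ofHom (algebraMap (A ⧸ I) (Localization.Away h))) ≫
      Spec.map (CommRingCat.ofHom (Ideal.Quotient.mk I)) ≫ j, inferInstance⟩

/-- The closed subscheme of `(ℙ¹ - {0, 1, ∞})ᵏ` over `ℤ` defined by the equations `u = 1`. -/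
noncomputable def unitScheme (k : ℕ) (U : Set (Tripod k)ˣ) : Scheme.{0} :=
  Spec (CommRingCat.of (Tripod k ⧸ unitIdeal k U))

theorem main_units (C : Scheme.{0} → Prop) (h0 : ∀ X : Scheme.{0}, IsEmpty X → C X)
    (hloc : ∀ (X Z U : Scheme.{0}) (i : Z ⟶ X) (j : U ⟶ X),
      Arithmetic X → ClosedOpen i j → C Z → C U → C X)
    (X : Scheme.{0}) (hX : Arithmetic X)
    (hunits : ∀ (k : ℕ) (U : Set (Tripod k)ˣ), IsIntegral (unitScheme k U) →
      SmoothArith (unitScheme k U) → (∃ j : unitScheme k U ⟶ X, IsImmersion j) →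
      C (unitScheme k U)) : C X := by
  have hloc' : ∀ (X Z U : Scheme.{0}) (i : Z ⟶ X) (j : U ⟶ X) [IsClosedImmersion i]
      [IsOpenImmersion j], Arithmetic X → Set.range j = (Set.range i)ᶜ → C Z → C U → C X :=
    fun X Z U i j _ _ h1 h2 h3 h4 => hloc X Z U i j h1 ⟨inferInstance, inferInstance, h2⟩ h3 h4
  refine family_scheme C h0 hloc'
    (fun R _ => ∃ (k : ℕ) (U : Set (Tripod k)ˣ), Nonempty (R ≃+* (Tripod k ⧸ unitIdeal k U)))
    (fun B _ _ _ => exists_stein B) X hX fun R _ hQ hft hd hs hj => ?_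
  obtain ⟨k, U, ⟨e⟩⟩ := hQ
  obtain ⟨j, hj⟩ := hj
  have h1 : IsDomain (Tripod k ⧸ unitIdeal k U) := e.symm.toMulEquiv.isDomain _
  have h4 : IsIntegral (Spec (CommRingCat.of (Tripod k ⧸ unitIdeal k U))) :=
    @instIsIntegralSpecOfIsDomainCarrier (CommRingCat.of (Tripod k ⧸ unitIdeal k U)) h1
  have h6 : IsImmersion (Spec.map e.toCommRingCatIso.hom ≫ j) := inferInstance
  have h5 := hunits k U h4 (smoothArith_spec (hs.of_equiv e)) ⟨_, h6⟩
  exact of_ring C h0 hloc' e.symm h5

end Pool.Agent.Lib.MP_b197b4_nt
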