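import Mathlib

/-!
# MP_b197b4_nt: words fixed by a permutation
-/

namespace MPb197b4

open Finset

variable {κ : Type*} [DecidableEq κ] [Fintype κ]

set_option linter.unusedSectionVars false

/-- number of letters allowed at the place `j` -/
def wt (b : Fin 3 → ℕ) (T : Finset κ) (g : κ → Fin 3) (j : κ) : ℕ := if j ∈ T then b (g j) else 1

/-- the words with `wt b T g j` letters at the place `j` which are fixed by `ρ`. -/
def fixSet (b : Fin 3 → ℕ) (T : Finset κ) (g : κ → Fin 3) (ρ : Equiv.Perm κ) : Finset (κ → ℕ) :=
  (Fintype.piFinset fun j => range (wt b T g j)).filter fun x => x ∘ ρ = x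

theorem mem_fixSet {b : Fin 3 → ℕ} {T : Finset κ} {g : κ → Fin 3} {ρ : Equiv.Perm κ} {x : κ → ℕ} :
    x ∈ fixSet b T g ρ ↔ (∀ j, x j < wt b T g j) ∧ ∀ j, x (ρ j) = x j := by
  unfold fixSet
  rw [mem_filter, Fintype.mem_piFinset]
  simp only [mem_range]
  exact and_congr_right fun _ => ⟨fun h j => congrFun h j, fun h => funext h⟩

theorem wt_insert_self (b : Fin 3 → ℕ) (T : Finset κ) (g : κ → Fin 3) (j : κ) :
    wt b (insert j T) g j = b (g j) := by simp [wt]

theorem wt_insert_ne (b : Fin 3 → ℕ) (T : Finset κ) (g : κ → Fin 3) {j a : κ} (h : a ≠ j) :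
    wt b (insert j T) g a = wt b T g a := by simp [wt, h]

theorem wt_notMem (b : Fin 3 → ℕ) {T : Finset κ} (g : κ → Fin 3) {j : κ} (h : j ∉ T) :
    wt b T g j = 1 := by simp [wt, h]

theorem wt_mem (b : Fin 3 → ℕ) {T : Finset κ} (g : κ → Fin 3) {j : κ} (h : j ∈ T) :
    wt b T g j = b (g j) := by simp [wt, h]

theorem fix_fixed (b : Fin 3 → ℕ) {T : Finset κ} (g : κ → Fin 3) {ρ : Equiv.Perm κ} {j : κ}
    (hj : j ∉ T) (hρ : ρ j = j) :
    (fixSet b (insert j T) g ρ).card = b (g j) * (fixSet b T g ρ).card := by
  rw [← card_range (b (g j)), ← card_product]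
  have hρa : ∀ a, a ≠ j → ρ a ≠ j := fun a ha h => ha (ρ.injective (h.trans hρ.symm))
  refine card_nbij' (fun x => (x j, Function.update x j 0))
    (fun p => Function.update p.2 j p.1) ?_ ?_ ?_ ?_
  · intro x hx
    rw [mem_coe, mem_fixSet] at hx
    rw [mem_coe, mem_product, mem_range, mem_fixSet]
    refine ⟨?_, ?_, ?_⟩
    · have := hx.1 j
      rwa [wt_insert_self] at this
    · intro a
      by_cases ha : a = j
      · subst ha; simp [wt_notMem b g hj]
      · have := hx.1 a
        rw [wt_insert_ne b T g ha] at this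
        simpa [Function.update_of_ne ha] using this
    · intro a
      by_cases ha : a = j
      · subst ha; simp [hρ]
      · simp only [Function.update_of_ne ha, Function.update_of_ne (hρa a ha)]
        exact hx.2 a
  · rintro ⟨n, y⟩ hp
    rw [mem_coe, mem_product, mem_range, mem_fixSet] at hp
    rw [mem_coe, mem_fixSet]
    refine ⟨?_, ?_⟩
    · intro a
      by_cases ha : a = j
      · subst ha; simpa [wt_insert_self] using hp.1
      · rw [wt_insert_ne b T g ha]
        simpa [Function.update_of_ne ha] using hp.2.1 a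
    · intro a
      by_cases ha : a = j
      · subst ha; simp [hρ]
      · simp only [Function.update_of_ne ha, Function.update_of_ne (hρa a ha)]
        exact hp.2.2 a
  · intro x _
    simp
  · rintro ⟨n, y⟩ hp
    rw [mem_coe, mem_product, mem_range, mem_fixSet] at hp
    have h0 : y j = 0 := by
      have : y j < wt b T g j := hp.2.1 j
      rw [wt_notMem b g hj] at this
      omega
    have h1 : Function.update y j 0 = y := by rw [← h0]; exact Function.update_eq_self j y
    simp [h1]

theorem fix_moved (b : Fin 3 → ℕ) {T : Finset κ} (g : κ → Fin 3) {ρ : Equiv.Perm κ} {j : κ}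
    (hj : j ∉ T) (hρ : ρ j ≠ j) (hT : ρ j ∈ T) (hg : g (ρ j) = g j) :
    (fixSet b (insert j T) g ρ).card = (fixSet b T g (Equiv.swap (ρ j) j * ρ)).card := by
  set i := ρ j with hi
  have hs : ∀ a, a ≠ j → ρ a ≠ i := fun a ha h => ha (ρ.injective h)
  have h1 : (Equiv.swap i j * ρ) j = j := by
    rw [Equiv.Perm.mul_apply, ← hi, Equiv.swap_apply_left]
  have h2 : ∀ a, a ≠ j → ρ a = j → (Equiv.swap i j * ρ) a = i := fun a _ h => by
    rw [Equiv.Perm.mul_apply, h, Equiv.swap_apply_right]
  have h3 : ∀ a, a ≠ j → ρ a ≠ j → (Equiv.swap i j * ρ) a = ρ a := fun a ha h => by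
    rw [Equiv.Perm.mul_apply, Equiv.swap_apply_of_ne_of_ne (hs a ha) h]
  refine card_nbij' (fun x => Function.update x j 0) (fun y => Function.update y j (y i)) ?_ ?_ ?_ ?_
  · intro x hx
    rw [mem_coe, mem_fixSet] at hx
    rw [mem_coe, mem_fixSet]
    dsimp only
    refine ⟨?_, ?_⟩
    · intro a
      by_cases ha : a = j
      · subst ha; simp [wt_notMem b g hj]
      · have := hx.1 a
        rw [wt_insert_ne b T g ha] at this
        simpa [Function.update_of_ne ha] using this
    · intro a
      by_cases ha : a = j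
      · subst ha; rw [h1]
      · by_cases hb : ρ a = j
        · rw [h2 a ha hb, Function.update_of_ne hρ, Function.update_of_ne ha]
          rw [hi, hx.2 j, ← hb, hx.2 a]
        · rw [h3 a ha hb, Function.update_of_ne hb, Function.update_of_ne ha]
          exact hx.2 a
  · intro y hy
    rw [mem_coe, mem_fixSet] at hy
    rw [mem_coe, mem_fixSet]
    dsimp only
    refine ⟨?_, ?_⟩
    · intro a
      by_cases ha : a = j
      · subst ha
        rw [wt_insert_self, Function.update_self]
        have := hy.1 i
        rwa [wt_mem b g hT, hg] at this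
      · rw [wt_insert_ne b T g ha]
        simpa [Function.update_of_ne ha] using hy.1 a
    · intro a
      by_cases ha : a = j
      · subst ha
        rw [← hi, Function.update_of_ne hρ, Function.update_self]
      · by_cases hb : ρ a = j
        · rw [hb, Function.update_self, Function.update_of_ne ha, ← h2 a ha hb, hy.2 a]
        · rw [Function.update_of_ne hb, Function.update_of_ne ha, ← h3 a ha hb, hy.2 a]
  · intro x hx
    rw [mem_coe, mem_fixSet] at hx
    simp only [Function.update_idem, Function.update_of_ne hρ]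
    rw [hi, hx.2 j]
    exact Function.update_eq_self j x
  · intro y hy
    rw [mem_coe, mem_fixSet] at hy
    have h0 : y j = 0 := by
      have := hy.1 j
      rw [wt_notMem b g hj] at this
      omega
    simp only [Function.update_idem]
    rw [← h0]
    exact Function.update_eq_self j y

theorem fix_empty (b : Fin 3 → ℕ) (g : κ → Fin 3) (ρ : Equiv.Perm κ) :
    (fixSet b (∅ : Finset κ) g ρ).card = 1 := by
  rw [card_eq_one]
  refine ⟨fun _ => 0, ?_⟩
  ext x
  rw [mem_fixSet, mem_singleton]
  constructor
  · rintro ⟨h, _⟩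
    funext j
    have := h j
    rw [wt_notMem b g (notMem_empty j)] at this
    omega
  · rintro rfl
    exact ⟨fun j => by rw [wt_notMem b g (notMem_empty j)]; exact Nat.zero_lt_one, fun _ => rfl⟩

end MPb197b4
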