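import Pool.Agent.Lib.MP_b197b4_nt.KPerm

/-!
# MP_b197b4_nt: the lower bound for the span of the graphs of the permutations
-/

namespace MPb197b4

open Finset Module

set_option linter.unusedSectionVars false

variable {κ A E : Type*} [DecidableEq κ] [Fintype κ] [Ring A] [Algebra ℚ A] [Ring E] [Algebra ℚ E]
variable {tr : A →ₗ[ℚ] ℚ} {perm : Equiv.Perm κ →* E} {c : κ → A →ₐ[ℚ] E} {ptr : κ → E →ₗ[ℚ] E}

/-- the functional of a word without the third letter -/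
theorem exists_wordL0 [Nontrivial E] (h : IsPower tr perm c ptr) {q : Fin 3 → A}
    (hq : ∀ a, q a * q a = q a) (hq' : ∀ a a', a ≠ a' → q a * q a' = 0)
    {b : Fin 3 → ℕ} (hb : ∀ a, a ≠ 2 → (tr (q a)) ^ 2 = ((b a : ℕ) : ℚ) ^ 2) (hb2 : b 2 = 0)
    (g : κ → Fin 3) :
    ∃ L : E →ₗ[ℚ] ℚ, L (perm 1) = ((∏ j ∈ (∅ : Finset κ)ᶜ, b (g j) : ℕ) : ℚ) ∧
      ∀ ρ ∈ fixF (∅ : Finset κ)ᶜ, |L (perm ρ)| ≤
        if ∀ j, g (ρ j) = g j then ((fixSet b (∅ : Finset κ)ᶜ g ρ).card : ℚ) else 0 := by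
  classical
  by_cases h2g : ∃ j, g j = 2
  · obtain ⟨j, hj⟩ := h2g
    refine ⟨0, ?_, fun ρ _ => ?_⟩
    · rw [LinearMap.zero_apply, prod_eq_zero (i := j) (mem_compl.mpr (notMem_empty j))
        (by rw [hj, hb2]), Nat.cast_zero]
    · rw [LinearMap.zero_apply, abs_zero]
      split_ifs
      · exact Nat.cast_nonneg _
      · exact le_rfl
  push Not at h2g
  have hlow : low g = univ := by
    ext j
    rw [mem_low]
    simp [h2g j]
  have hcl : (∅ : Finset κ)ᶜ = univ := compl_empty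
  obtain ⟨Φ1, v, h1, h2, h3, -⟩ := exists_trace2 h hq (b := b) (g := g) univ ∅
    (disjoint_empty_right _) (fun j _ => hb _ (h2g j))
  rw [union_empty] at h1
  obtain ⟨ℓ, hℓ⟩ : ∃ ℓ : E →ₗ[ℚ] ℚ, ℓ 1 = 1 := by
    obtain ⟨f, hf⟩ : ∃ f : Module.Dual ℚ E, f 1 ≠ 0 := by
      by_contra hcon
      push Not at hcon
      exact one_ne_zero ((Module.forall_dual_apply_eq_zero_iff ℚ (1 : E)).mp hcon)
    refine ⟨(f 1)⁻¹ • f, ?_⟩
    rw [LinearMap.smul_apply, smul_eq_mul, inv_mul_cancel₀ hf]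
  have hval : ∀ a ∈ Good univ g, ℓ (Φ1 (eg h q g * perm a)) = v a := by
    intro a ha
    unfold eg
    rw [h1 a ha, tens_empty, map_smul, hℓ, smul_eq_mul, mul_one]
  set L0 : E →ₗ[ℚ] ℚ := ℓ ∘ₗ Φ1 ∘ₗ (LinearMap.mulRight ℚ (eg h q g)) ∘ₗ
    (LinearMap.mulLeft ℚ (eg h q g)) with hL0
  have hL0a : ∀ x, L0 x = ℓ (Φ1 (eg h q g * x * eg h q g)) := fun x => rfl
  have hgood : ∀ ρ : Equiv.Perm κ, (∀ j, g (ρ j) = g j) →
      eg h q g * perm ρ * eg h q g = eg h q g * perm ρ := by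
    intro ρ hρ
    have h8 : perm ρ * eg h q g = eg h q g * perm ρ := by
      rw [eg_mul_perm]
      congr 2
      funext j
      have := hρ (ρ.symm j)
      rw [Equiv.apply_symm_apply] at this
      exact this.symm
    rw [mul_assoc, h8, ← mul_assoc, eg_mul_self h hq]
  have hbad : ∀ ρ : Equiv.Perm κ, ¬ (∀ j, g (ρ j) = g j) →
      eg h q g * perm ρ * eg h q g = 0 := by
    intro ρ hρ
    rw [mul_assoc, eg_mul_perm, ← mul_assoc, eg_mul_ne h hq' ?_, zero_mul]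
    intro h'
    refine hρ fun j => ?_
    have := congrFun h' (ρ j)
    rw [Equiv.symm_apply_apply] at this
    exact this
  have hmemG : ∀ ρ : Equiv.Perm κ, (∀ j, g (ρ j) = g j) → ρ ∈ Good univ g := by
    intro ρ hρ
    rw [mem_Good]
    exact ⟨fun a ha => absurd (mem_univ a) ha, hρ⟩
  have hone : L0 (perm 1) = v 1 := by
    rw [hL0a, hgood 1 (fun _ => rfl)]
    exact hval 1 (one_mem _)
  have hbd : ∀ ρ ∈ fixF (∅ : Finset κ)ᶜ, |L0 (perm ρ)| ≤
      if ∀ j, g (ρ j) = g j then ((fixSet b (∅ : Finset κ)ᶜ g ρ).card : ℚ) else 0 := by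
    intro ρ hρ
    split_ifs with hgρ
    swap
    · rw [hL0a, hbad ρ hgρ, map_zero, map_zero, abs_zero]
    rw [hL0a, hgood ρ hgρ, hval ρ (hmemG ρ hgρ), hcl,
      ← abs_of_nonneg (Nat.cast_nonneg (α := ℚ) (fixSet b univ g ρ).card)]
    exact ((sq_eq_sq_iff_abs_eq_abs _ _).mp (h2 ρ (hmemG ρ hgρ))).le
  have habs : |v 1| = ((∏ j ∈ (∅ : Finset κ)ᶜ, b (g j) : ℕ) : ℚ) := by
    rw [hcl, ← abs_of_nonneg (Nat.cast_nonneg (α := ℚ) (∏ j, b (g j)))]
    refine (sq_eq_sq_iff_abs_eq_abs _ _).mp ?_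
    rw [h3]
    push_cast
    rw [prod_pow]
  rcases le_or_gt 0 (v 1) with hs | hs
  · refine ⟨L0, ?_, hbd⟩
    rw [hone, ← habs, abs_of_nonneg hs]
  · refine ⟨-L0, ?_, fun ρ hρ => ?_⟩
    · rw [LinearMap.neg_apply, hone, ← habs, abs_of_neg hs]
    · rw [LinearMap.neg_apply, abs_neg]
      exact hbd ρ hρ

/-- **The lower bound.** -/
theorem perm_lower [Nontrivial E] (h : IsPower tr perm c ptr) {u v : A}
    (hu : u * u = u) (hv : v * v = v) (huv : u * v = 0) (hvu : v * u = 0)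
    {b0 b1 : ℕ} (hb0 : tr u ^ 2 = (b0 : ℚ) ^ 2) (hb1 : tr v ^ 2 = (b1 : ℚ) ^ 2) :
    (b0 + b1) ^ (2 * Fintype.card κ) ≤
      finrank ℚ (permSpan perm) * (Fintype.card κ + 1) ^ ((b0 + b1) ^ 2) := by
  classical
  set n := b0 + b1 with hn
  set q : Fin 3 → A := ![u, v, 0] with hq0
  have hq : ∀ a, q a * q a = q a := by
    intro a
    fin_cases a
    · exact hu
    · exact hv
    · exact mul_zero 0
  have hq' : ∀ a a', a ≠ a' → q a * q a' = 0 := by
    intro a a' haa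
    fin_cases a <;> fin_cases a' <;>
      first | exact absurd rfl haa | exact zero_mul _ | exact mul_zero _ | assumption
  set b : Fin 3 → ℕ := ![b0, b1, 0] with hb
  have hb' : ∀ a, a ≠ 2 → (tr (q a)) ^ 2 = ((b a : ℕ) : ℚ) ^ 2 := by
    intro a ha
    have ha' : a = 0 ∨ a = 1 := by omega
    rcases ha' with rfl | rfl
    · exact hb0
    · exact hb1
  have hbn : b 0 + b 1 + b 2 = n := by simp [hb, hn]
  set 𝒢 := Fintype.piFinset
    (fun j : κ => if j ∈ (∅ : Finset κ) then ({2} : Finset (Fin 3)) else univ) with h𝒢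
  choose L hL using exists_wordL0 h hq hq' hb' (show b 2 = 0 by simp [hb])
  have hcl : (∅ : Finset κ)ᶜ = univ := compl_empty
  have h5 := span_bound (perm := perm) (Z := (∅ : Finset κ)) (n := n) (∑ g ∈ 𝒢, L g) ?_ ?_
  · rwa [hcl, card_univ] at h5
  · rw [LinearMap.sum_apply, sum_congr rfl fun g _ => (hL g).1, ← Nat.cast_sum]
    congr 1
    have h6 := prod_univ_sum
      (fun j : κ => if j ∈ (∅ : Finset κ) then ({2} : Finset (Fin 3)) else univ)
      (fun _ a => b a)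
    rw [hcl, ← h6, ← prod_const]
    refine prod_congr rfl fun j _ => ?_
    rw [if_neg (notMem_empty j), Fin.sum_univ_three, hbn]
  · intro ρ hρ
    rw [LinearMap.sum_apply]
    refine (abs_sum_le_sum_abs _ _).trans ?_
    refine (sum_le_sum fun g _ => (hL g).2 ρ hρ).trans ?_
    have h6 := sum_fixSet_le b (∅ : Finset κ) hρ
    rw [hbn] at h6
    exact_mod_cast h6

end MPb197b4
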