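import Pool.Agent.Lib.MP_b197b4_nt.Phantom

/-!
# MP_b197b4_nt: the permutations modulo the (anti)symmetrizations of `b + 1` places

They are spanned by the permutations without decreasing subsequences of length `b + 1` (Latyshev), and
there are at most `b ^ (2 n)` of these.
-/

namespace MPb197b4.Lat

open Finset Module

variable {κ R : Type*} [DecidableEq κ] [Fintype κ] [Ring R] [Algebra ℚ R]

section

variable {n : ℕ} (e : κ ≃ Fin n) (U : Finset κ)

/-- `σ` is decreasing on `Z` -/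
def Decr (σ : Equiv.Perm κ) (Z : Finset κ) : Prop :=
  ∀ a ∈ Z, ∀ a' ∈ Z, e a < e a' → e (σ a') < e (σ a)

/-- `σ` has no decreasing subsequence of length `b + 1` with places in `U` -/
def Good (b : ℕ) (σ : Equiv.Perm κ) : Prop :=
  ∀ Z : Finset κ, Z ⊆ U → Decr e σ Z → Z.card ≤ b

/-- the sequence of the values, ordered lexicographically -/
def key (σ : Equiv.Perm κ) : Lex (Fin n → Fin n) := toLex fun i => e (σ (e.symm i))

omit [DecidableEq κ] [Fintype κ] in
theorem exists_min {σ τ : Equiv.Perm κ} (h : σ ≠ τ) :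
    ∃ i, σ (e.symm i) ≠ τ (e.symm i) ∧ ∀ j, j < i → σ (e.symm j) = τ (e.symm j) := by
  classical
  have h1 : ∃ i, σ (e.symm i) ≠ τ (e.symm i) := by
    by_contra hcon
    push Not at hcon
    apply h
    ext a
    have := hcon (e a)
    rwa [Equiv.symm_apply_apply] at this
  let M : Finset (Fin n) := univ.filter fun i => σ (e.symm i) ≠ τ (e.symm i)
  have hM : M.Nonempty := by
    obtain ⟨i, hi⟩ := h1
    exact ⟨i, mem_filter.mpr ⟨mem_univ _, hi⟩⟩
  refine ⟨M.min' hM, (mem_filter.mp (M.min'_mem hM)).2, fun j hj => ?_⟩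
  by_contra hcon
  exact absurd (M.min'_le j (mem_filter.mpr ⟨mem_univ _, hcon⟩)) (not_le.mpr hj)

omit [DecidableEq κ] [Fintype κ] in
theorem key_lt {σ s : Equiv.Perm κ} {Z : Finset κ} (hZ : Decr e σ Z)
    (hs : ∀ a, a ∉ Z → s a = a) (hs1 : s ≠ 1) : key e (σ * s) < key e σ := by
  obtain ⟨i, hi, hmin⟩ := exists_min e hs1
  rw [Equiv.Perm.one_apply] at hi
  set a := e.symm i with ha
  have hea : e a = i := e.apply_symm_apply i
  have hmin' : ∀ x, e x < e a → s x = x := by
    intro x hx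
    rw [hea] at hx
    have := hmin (e x) hx
    rwa [Equiv.symm_apply_apply] at this
  have haZ : a ∈ Z := by
    by_contra hcon
    exact hi (hs a hcon)
  have hsaZ : s a ∈ Z := by
    by_contra hcon
    exact hi (s.injective (hs _ hcon))
  have hlt : e a < e (s a) := by
    rcases lt_trichotomy (e a) (e (s a)) with h2 | h2 | h2
    · exact h2
    · exact absurd (e.injective h2).symm hi
    · exact absurd (s.injective (hmin' _ h2)) hi
  refine ⟨i, fun j hj => ?_, ?_⟩
  · change e ((σ * s) (e.symm j)) = e (σ (e.symm j))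
    rw [Equiv.Perm.mul_apply, hmin j hj, Equiv.Perm.one_apply]
  · change e ((σ * s) (e.symm i)) < e (σ (e.symm i))
    rw [Equiv.Perm.mul_apply]
    exact hZ a haZ (s a) hsaZ hlt

theorem straighten (π : Equiv.Perm κ →* R) (χ : Equiv.Perm κ →* ℚ) (w : R) {b : ℕ}
    (hw : ∀ Z : Finset κ, Z ⊆ U → Z.card = b + 1 → ∀ σ ∈ fixF U, w * π σ * symS π χ Z = 0)
    (σ : Equiv.Perm κ) (hσU : σ ∈ fixF U) :
    w * π σ ∈ Submodule.span ℚ ((fun σ => w * π σ) '' {σ | σ ∈ fixF U ∧ Good e U b σ}) := by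
  have hwf : WellFounded (fun σ τ : Equiv.Perm κ => key e σ < key e τ) :=
    InvImage.wf (key e) (wellFounded_lt (α := Lex (Fin n → Fin n)))
  induction σ using hwf.induction with
  | _ σ ih =>
    by_cases hσ : Good e U b σ
    · exact Submodule.subset_span ⟨σ, ⟨hσU, hσ⟩, rfl⟩
    · unfold Good at hσ
      push Not at hσ
      obtain ⟨Z', hZU', hZ', hcard⟩ := hσ
      obtain ⟨Z, hZZ', hZcard⟩ := exists_subset_card_eq (s := Z') (n := b + 1) (by omega)
      have hZ : Decr e σ Z := fun a ha a' ha' => hZ' a (hZZ' ha) a' (hZZ' ha')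
      have hZU : Z ⊆ U := hZZ'.trans hZU'
      have h1 := hw Z hZU hZcard σ hσU
      have h2 : (1 : Equiv.Perm κ) ∈ fixF Z := mem_fixF.mpr fun a _ => rfl
      unfold symS at h1
      rw [← add_sum_erase _ _ h2, map_one, map_one, one_smul, mul_add, mul_one, mul_sum,
        add_eq_zero_iff_eq_neg] at h1
      rw [h1]
      refine Submodule.neg_mem _ (Submodule.sum_mem _ fun s hs => ?_)
      rw [mul_smul_comm, mul_assoc, ← map_mul]
      rw [mem_erase] at hs
      refine Submodule.smul_mem _ _ (ih _ ?_ (fixF_mul hσU (fixF_mono hZU hs.2)))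
      exact key_lt e hZ (mem_fixF.mp hs.2) hs.1

/-- the length of the longest decreasing subsequence which ends at `a` -/
noncomputable def col (σ : Equiv.Perm κ) (a : κ) : ℕ := by
  classical
  exact (univ.filter fun Z : Finset κ => Z ⊆ U ∧ a ∈ Z ∧ (∀ x ∈ Z, e x ≤ e a) ∧
    Decr e σ Z).sup card

theorem le_col {σ : Equiv.Perm κ} {a : κ} {Z : Finset κ} (hU : Z ⊆ U) (ha : a ∈ Z)
    (h1 : ∀ x ∈ Z, e x ≤ e a) (h2 : Decr e σ Z) : Z.card ≤ col e U σ a := by
  classical
  unfold col
  exact le_sup (f := card) (mem_filter.mpr ⟨mem_univ _, hU, ha, h1, h2⟩)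

theorem exists_col (σ : Equiv.Perm κ) {a : κ} (ha : a ∈ U) : ∃ Z : Finset κ, Z ⊆ U ∧ a ∈ Z ∧
    (∀ x ∈ Z, e x ≤ e a) ∧ Decr e σ Z ∧ Z.card = col e U σ a := by
  classical
  have hne : (univ.filter fun Z : Finset κ => Z ⊆ U ∧ a ∈ Z ∧ (∀ x ∈ Z, e x ≤ e a) ∧
      Decr e σ Z).Nonempty := by
    refine ⟨{a}, mem_filter.mpr ⟨mem_univ _, singleton_subset_iff.mpr ha, mem_singleton_self a,
      ?_, ?_⟩⟩
    · intro x hx
      rw [mem_singleton] at hx
      rw [hx]
    · intro x hx y hy hxy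
      rw [mem_singleton] at hx hy
      rw [hx, hy] at hxy
      exact absurd hxy (lt_irrefl _)
  obtain ⟨Z, hZ, hZ'⟩ := exists_mem_eq_sup _ hne card
  rw [mem_filter] at hZ
  refine ⟨Z, hZ.2.1, hZ.2.2.1, hZ.2.2.2.1, hZ.2.2.2.2, ?_⟩
  unfold col
  exact hZ'.symm

theorem col_pos (σ : Equiv.Perm κ) {a : κ} (ha : a ∈ U) : 0 < col e U σ a := by
  obtain ⟨Z, _, ha', _, _, hZ⟩ := exists_col e U σ ha
  rw [← hZ]
  exact card_pos.mpr ⟨a, ha'⟩

theorem col_le {b : ℕ} {σ : Equiv.Perm κ} (hσ : Good e U b σ) {a : κ} (ha : a ∈ U) :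
    col e U σ a ≤ b := by
  obtain ⟨Z, hU, _, _, h2, hZ⟩ := exists_col e U σ ha
  rw [← hZ]
  exact hσ Z hU h2

theorem col_lt {σ : Equiv.Perm κ} {a a' : κ} (haU : a ∈ U) (haU' : a' ∈ U) (h1 : e a < e a')
    (h2 : e (σ a') < e (σ a)) : col e U σ a < col e U σ a' := by
  obtain ⟨Z, hU, ha, hle, hZ, hcard⟩ := exists_col e U σ haU
  have ha' : a' ∉ Z := fun h' => absurd (hle a' h') (not_le.mpr h1)
  rw [← hcard, Nat.lt_iff_add_one_le, ← card_insert_of_notMem ha']
  refine le_col e U (insert_subset haU' hU) (mem_insert_self _ _) ?_ ?_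
  · intro x hx
    rw [mem_insert] at hx
    rcases hx with rfl | hx
    · exact le_rfl
    · exact (hle x hx).trans h1.le
  · intro x hx y hy hxy
    rw [mem_insert] at hx hy
    rcases hx with rfl | hx
    · rcases hy with rfl | hy
      · exact absurd hxy (lt_irrefl _)
      · exact absurd (hxy.trans_le ((hle y hy).trans h1.le)) (lt_irrefl _)
    · rcases hy with rfl | hy
      · rcases (hle x hx).lt_or_eq with h3 | h3
        · exact h2.trans (hZ x hx a ha h3)
        · rw [e.injective h3]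
          exact h2
      · exact hZ x hx y hy hxy

theorem increasing {σ : Equiv.Perm κ} {a a' : κ} (haU : a ∈ U) (haU' : a' ∈ U) (h1 : e a < e a')
    (h2 : col e U σ a = col e U σ a') : e (σ a) < e (σ a') := by
  rcases lt_trichotomy (e (σ a)) (e (σ a')) with h3 | h3 | h3
  · exact h3
  · have := σ.injective (e.injective h3)
    rw [this] at h1
    exact absurd h1 (lt_irrefl _)
  · exact absurd (col_lt e U haU haU' h1 h3) (by rw [h2]; exact lt_irrefl _)

/-- a permutation is determined by the colours of the places and of the values -/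
theorem perm_unique {σ τ : Equiv.Perm κ} (hσ : σ ∈ fixF U) (hτ : τ ∈ fixF U)
    (h1 : ∀ a ∈ U, col e U σ a = col e U τ a)
    (h2 : ∀ v ∈ U, col e U σ (σ⁻¹ v) = col e U τ (τ⁻¹ v)) : σ = τ := by
  by_contra hne
  obtain ⟨i, hi, hmin⟩ := exists_min e hne
  set a := e.symm i with ha
  have hea : e a = i := e.apply_symm_apply i
  have hmin' : ∀ x, e x < e a → σ x = τ x := by
    intro x hx
    rw [hea] at hx
    have := hmin (e x) hx
    rwa [Equiv.symm_apply_apply] at this
  have haU : a ∈ U := by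
    by_contra hcon
    exact hi (by rw [mem_fixF.mp hσ a hcon, mem_fixF.mp hτ a hcon])
  -- the general step, symmetric in `σ` and `τ`
  have key : ∀ σ τ : Equiv.Perm κ, σ ∈ fixF U → τ ∈ fixF U →
      (∀ a ∈ U, col e U σ a = col e U τ a) →
      (∀ v ∈ U, col e U σ (σ⁻¹ v) = col e U τ (τ⁻¹ v)) → σ a ≠ τ a →
      (∀ x, e x < e a → σ x = τ x) → ¬ e (σ a) < e (τ a) := by
    intro σ τ hσ hτ h1 h2 hi hmin hlt
    -- the place `x` with `τ x = σ a`
    set x := τ⁻¹ (σ a) with hx
    have hτx : τ x = σ a := τ.apply_symm_apply _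
    have hsU : σ a ∈ U := fixF_apply_mem hσ haU
    have hxU : x ∈ U := fixF_apply_mem (fixF_inv hτ) hsU
    have hcol : col e U τ x = col e U τ a := by
      have h5 : σ⁻¹ (σ a) = a := σ.symm_apply_apply a
      rw [hx, ← h2 _ hsU, h5, h1 a haU]
    rcases lt_trichotomy (e x) (e a) with h4 | h4 | h4
    · have h5 := hmin x h4
      rw [hτx] at h5
      rw [σ.injective h5] at h4
      exact absurd h4 (lt_irrefl _)
    · rw [e.injective h4] at hτx
      exact hi hτx.symm
    · have h5 := increasing e U haU hxU h4 hcol.symm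
      rw [hτx] at h5
      exact absurd (h5.trans hlt) (lt_irrefl _)
  rcases lt_trichotomy (e (σ a)) (e (τ a)) with h4 | h4 | h4
  · exact key σ τ hσ hτ h1 h2 hi hmin' h4
  · exact hi (e.injective h4)
  · exact key τ σ hτ hσ (fun a ha => (h1 a ha).symm) (fun v hv => (h2 v hv).symm) (Ne.symm hi)
      (fun x hx => (hmin' x hx).symm) h4

theorem card_good (b : ℕ) : Nat.card {σ : Equiv.Perm κ | σ ∈ fixF U ∧ Good e U b σ} ≤
    b ^ (2 * U.card) := by
  classical
  have hin : ∀ σ : {σ : Equiv.Perm κ | σ ∈ fixF U ∧ Good e U b σ}, ∀ v ∈ U, σ.1⁻¹ v ∈ U :=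
    fun σ v hv => fixF_apply_mem (fixF_inv σ.2.1) hv
  let φ : {σ : Equiv.Perm κ | σ ∈ fixF U ∧ Good e U b σ} → (U → Fin b) × (U → Fin b) := fun σ =>
    (fun a => ⟨col e U σ.1 a.1 - 1, by
        have := col_pos e U σ.1 a.2; have := col_le e U σ.2.2 a.2; omega⟩,
      fun v => ⟨col e U σ.1 (σ.1⁻¹ v.1) - 1, by
        have := col_pos e U σ.1 (hin σ v.1 v.2)
        have := col_le e U σ.2.2 (hin σ v.1 v.2)
        omega⟩)
  have hφ : Function.Injective φ := by
    intro σ τ h
    rw [Prod.mk.injEq] at h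
    apply Subtype.ext
    refine perm_unique e U σ.2.1 τ.2.1 ?_ ?_
    · intro a ha
      have h1 := congrArg Fin.val (congrFun h.1 ⟨a, ha⟩)
      have := col_pos e U σ.1 ha
      have := col_pos e U τ.1 ha
      dsimp only at h1
      omega
    · intro v hv
      have h1 := congrArg Fin.val (congrFun h.2 ⟨v, hv⟩)
      have := col_pos e U σ.1 (hin σ v hv)
      have := col_pos e U τ.1 (hin τ v hv)
      dsimp only at h1
      omega
  have h1 := Nat.card_le_card_of_injective φ hφ
  refine h1.trans (le_of_eq ?_)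
  rw [Nat.card_prod, Nat.card_eq_fintype_card, Fintype.card_fun, Fintype.card_fin,
    Fintype.card_coe, two_mul, pow_add]

end

/-- **The permutations of a set `U` of places modulo the (anti)symmetrizations of `b + 1` places
in `U`.** -/
theorem latyshev (π : Equiv.Perm κ →* R) (χ : Equiv.Perm κ →* ℚ) (w : R) (U : Finset κ) {b : ℕ}
    (hw : ∀ Z ⊆ U, Z.card = b + 1 → ∀ σ ∈ fixF U, w * π σ * symS π χ Z = 0) :
    finrank ℚ (Submodule.span ℚ ((fun σ => w * π σ) '' {σ | σ ∈ fixF U})) ≤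
      b ^ (2 * U.card) := by
  classical
  have e : κ ≃ Fin (Fintype.card κ) := Fintype.equivFin κ
  have h1 : Submodule.span ℚ ((fun σ => w * π σ) '' {σ | σ ∈ fixF U}) =
      Submodule.span ℚ ((fun σ => w * π σ) '' {σ | σ ∈ fixF U ∧ Good e U b σ}) := by
    refine le_antisymm (Submodule.span_le.mpr ?_) (Submodule.span_mono (Set.image_mono ?_))
    · rintro x ⟨σ, hσ, rfl⟩
      exact straighten e U π χ w (fun Z hZ hc σ hσ => hw Z hZ hc σ hσ) σ hσ
    · exact fun σ hσ => hσ.1
  rw [h1]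
  refine (le_trans ?_ (card_good e U b))
  have h3 := finrank_span_le_card (R := ℚ)
    ((fun σ => w * π σ) '' {σ | σ ∈ fixF U ∧ Good e U b σ})
  refine h3.trans ?_
  rw [Set.toFinset_card, ← Nat.card_eq_fintype_card]
  exact Nat.card_image_le (Set.toFinite _)

end MPb197b4.Lat
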