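import Pool.Agent.Lib.MP_b197b4_nt.KPerm
import Pool.Agent.Lib.MP_b197b4_nt.KLat

/-!
# MP_b197b4_nt: the graphs of the permutations on a power of a Kimura finite motive
-/

namespace MPb197b4

open Finset Module

set_option linter.unusedSectionVars false

variable {κ A E : Type*} [DecidableEq κ] [Fintype κ] [Ring A] [Algebra ℚ A] [Ring E] [Algebra ℚ E]
variable {tr : A →ₗ[ℚ] ℚ} {perm : Equiv.Perm κ →* E} {c : κ → A →ₐ[ℚ] E} {ptr : κ → E →ₗ[ℚ] E}

theorem finrank_finset_sup_le {ι V : Type*} [AddCommGroup V] [Module ℚ V] (s : Finset ι)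
    (f : ι → Submodule ℚ V) (hf : ∀ i ∈ s, FiniteDimensional ℚ (f i)) :
    FiniteDimensional ℚ (s.sup f : Submodule ℚ V) ∧
      finrank ℚ (s.sup f : Submodule ℚ V) ≤ ∑ i ∈ s, finrank ℚ (f i) := by
  classical
  induction s using Finset.induction_on with
  | empty =>
    rw [sup_empty]
    exact ⟨inferInstance, by simp⟩
  | insert a s ha ih =>
    obtain ⟨h1, h2⟩ := ih fun i hi => hf i (mem_insert_of_mem hi)
    have h3 := hf a (mem_insert_self _ _)
    rw [sup_insert, sum_insert ha]
    exact ⟨inferInstance, (Submodule.finrank_add_le_finrank_add_finrank _ _).trans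
      (Nat.add_le_add_left h2 _)⟩

theorem finrank_mul_le {M N : Submodule ℚ E} [FiniteDimensional ℚ M] [FiniteDimensional ℚ N] :
    FiniteDimensional ℚ (M * N : Submodule ℚ E) ∧
      finrank ℚ (M * N : Submodule ℚ E) ≤ finrank ℚ M * finrank ℚ N := by
  rw [← Submodule.mulMap_range, ← Module.finrank_tensorProduct (R := ℚ)]
  exact ⟨inferInstance, LinearMap.finrank_range_le _⟩

/-- the projection to the coloured word `P` -/
noncomputable def eP (h : IsPower tr perm c ptr) (u v : A) (P : Finset κ) : E :=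
  tens h univ (fun j => if j ∈ P then u else v)

theorem sum_tens (h : IsPower tr perm c ptr) (u v : A) (T : Finset κ) :
    ∑ P ∈ T.powerset, tens h T (fun j => if j ∈ P then u else v) = tens h T (fun _ => u + v) := by
  induction T using Finset.induction_on with
  | empty => simp [tens_empty]
  | insert j T hj ih =>
    rw [sum_powerset_insert hj, tens_insert h hj, ← ih, map_add, add_mul, add_comm, mul_sum, mul_sum]
    congr 1
    · refine sum_congr rfl fun P hP => ?_
      rw [tens_insert h hj, if_pos (mem_insert_self _ _)]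
      congr 1
      refine tens_congr h fun i hi => ?_
      have hij : i ≠ j := fun h' => hj (h' ▸ hi)
      by_cases hiP : i ∈ P
      · rw [if_pos (mem_insert_of_mem hiP), if_pos hiP]
      · rw [if_neg (fun h' => hiP (mem_of_mem_insert_of_ne h' hij)), if_neg hiP]
    · refine sum_congr rfl fun P hP => ?_
      have hjP : j ∉ P := fun h' => hj (mem_powerset.mp hP h')
      rw [tens_insert h hj, if_neg hjP]

theorem tens_ones (h : IsPower tr perm c ptr) (T : Finset κ) : tens h T (fun _ => 1) = 1 := by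
  induction T using Finset.induction_on with
  | empty => rw [tens_empty]
  | insert j T hj ih => rw [tens_insert h hj, ih, map_one, one_mul]

theorem sum_eP (h : IsPower tr perm c ptr) {u v : A} (huv : u + v = 1) :
    ∑ P ∈ (univ : Finset κ).powerset, eP h u v P = 1 := by
  unfold eP
  rw [sum_tens, huv, tens_ones]

theorem eP_mul_self (h : IsPower tr perm c ptr) {u v : A} (hu : u * u = u) (hv : v * v = v)
    (P : Finset κ) : eP h u v P * eP h u v P = eP h u v P := by
  unfold eP
  rw [tens_mul]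
  refine tens_congr h fun j _ => ?_
  split_ifs
  · exact hu
  · exact hv

theorem eP_comm (h : IsPower tr perm c ptr) (u v : A) {P : Finset κ} {σ : Equiv.Perm κ}
    (hσ : ∀ x, σ x ∈ P ↔ x ∈ P) : perm σ * eP h u v P = eP h u v P * perm σ := by
  unfold eP
  rw [conj_tens, map_univ_equiv]
  congr 2
  funext j
  have h1 := hσ (σ.symm j)
  rw [Equiv.apply_symm_apply] at h1
  by_cases hj : j ∈ P
  · rw [if_pos hj, if_pos (h1.mp hj)]
  · rw [if_neg hj, if_neg fun h' => hj (h1.mpr h')]

theorem mul_tens_absorb (h : IsPower tr perm c ptr) {e : E} {y : A} (Z : Finset κ)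
    (he : ∀ j ∈ Z, e * c j y = e) : e * tens h Z (fun _ => y) = e := by
  induction Z using Finset.induction_on with
  | empty => rw [tens_empty, mul_one]
  | insert j Z hj ih =>
    rw [tens_insert h hj, ← mul_assoc, he j (mem_insert_self _ _),
      ih fun i hi => he i (mem_insert_of_mem hi)]

theorem fixF_stable {P U : Finset κ} (hU : U ⊆ P ∨ Disjoint U P) {σ : Equiv.Perm κ}
    (hσ : σ ∈ fixF U) : ∀ x, σ x ∈ P ↔ x ∈ P := by
  intro x
  by_cases hx : x ∈ U
  · have h1 := fixF_apply_mem hσ hx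
    rcases hU with hU | hU
    · exact ⟨fun _ => hU hx, fun _ => hU h1⟩
    · exact ⟨fun h' => absurd h' (disjoint_left.mp hU h1), fun h' => absurd h' (disjoint_left.mp hU hx)⟩
  · rw [(mem_fixF.mp hσ) x hx]

/-- one block, one coset -/
theorem block_upper (h : IsPower tr perm c ptr) {u v : A} (hu : u * u = u) (hv : v * v = v)
    {β γ : ℕ}
    (hAlt : ∀ Z : Finset κ, Z.card = β + 1 → tens h Z (fun _ => u) * symS perm (sgnQ κ) Z = 0)
    (hSym : ∀ Z : Finset κ, Z.card = γ + 1 → tens h Z (fun _ => v) * symS perm 1 Z = 0)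
    (P : Finset κ) :
    ∃ M : Submodule ℚ E, FiniteDimensional ℚ M ∧ finrank ℚ M ≤ β ^ (2 * P.card) * γ ^ (2 * (Pᶜ).card) ∧
      ∀ σ : Equiv.Perm κ, (∀ x, σ x ∈ P ↔ x ∈ P) → eP h u v P * perm σ ∈ M := by
  classical
  set e := eP h u v P with he
  have hee : e * e = e := eP_mul_self h hu hv P
  set S1 : Submodule ℚ E := Submodule.span ℚ ((fun σ => e * perm σ) '' {σ | σ ∈ fixF P}) with hS1
  set S2 : Submodule ℚ E := Submodule.span ℚ ((fun σ => e * perm σ) '' {σ | σ ∈ fixF Pᶜ}) with hS2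
  have f1 : FiniteDimensional ℚ S1 :=
    FiniteDimensional.span_of_finite ℚ (Set.Finite.image _ (Set.toFinite _))
  have f2 : FiniteDimensional ℚ S2 :=
    FiniteDimensional.span_of_finite ℚ (Set.Finite.image _ (Set.toFinite _))
  have b1 : finrank ℚ S1 ≤ β ^ (2 * P.card) := by
    refine Lat.latyshev perm (sgnQ κ) e P fun Z hZP hZ σ hσ => ?_
    have h1 : e * tens h Z (fun _ => u) = e := mul_tens_absorb h Z fun j hj => by
      rw [he, eP]
      exact tens_mul_at h (mem_univ j) (by rw [if_pos (hZP hj), hu])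
    rw [← eP_comm h u v (fixF_stable (Or.inl (subset_refl P)) hσ), mul_assoc, ← he, ← h1,
      mul_assoc e, hAlt Z hZ, mul_zero, mul_zero]
  have b2 : finrank ℚ S2 ≤ γ ^ (2 * (Pᶜ).card) := by
    refine Lat.latyshev perm 1 e Pᶜ fun Z hZP hZ σ hσ => ?_
    have h1 : e * tens h Z (fun _ => v) = e := mul_tens_absorb h Z fun j hj => by
      rw [he, eP]
      exact tens_mul_at h (mem_univ j) (by rw [if_neg (mem_compl.mp (hZP hj)), hv])
    rw [← eP_comm h u v (fixF_stable (Or.inr disjoint_compl_left) hσ), mul_assoc, ← he, ← h1,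
      mul_assoc e, hSym Z hZ, mul_zero, mul_zero]
  obtain ⟨g1, g2⟩ := finrank_mul_le (M := S1) (N := S2)
  refine ⟨S1 * S2, g1, g2.trans (Nat.mul_le_mul b1 b2), fun σ hσ => ?_⟩
  obtain ⟨ρ1, ρ2, e0', e1, e2, e3, e4⟩ := exists_splitP σ P hσ
  have m1 : ρ1 ∈ fixF P := mem_fixF.mpr e2
  have m2 : ρ2 ∈ fixF Pᶜ := mem_fixF.mpr fun a ha => e3 a (by
    by_contra h'
    exact ha (mem_compl.mpr h'))
  have h5 : e * perm σ = (e * perm ρ1) * (e * perm ρ2) := by
    rw [e0', map_mul]
    calc e * (perm ρ1 * perm ρ2) = e * e * perm ρ1 * perm ρ2 := by rw [hee, mul_assoc]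
      _ = e * (perm ρ1 * e) * perm ρ2 := by
        rw [eP_comm h u v (fixF_stable (Or.inl (subset_refl P)) m1), ← mul_assoc]
      _ = _ := by simp only [mul_assoc]
  rw [h5]
  exact Submodule.mul_mem_mul (Submodule.subset_span ⟨ρ1, m1, rfl⟩)
    (Submodule.subset_span ⟨ρ2, m2, rfl⟩)

theorem exists_map_eq {P Q : Finset κ} (hc : Q.card = P.card) :
    ∃ τ : Equiv.Perm κ, ∀ x, τ x ∈ P ↔ x ∈ Q := by
  classical
  have e1 : Fintype.card {x // x ∈ Q} = Fintype.card {x // x ∈ P} := by
    rw [Fintype.card_coe, Fintype.card_coe, hc]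
  let e : {x // x ∈ Q} ≃ {x // x ∈ P} := Fintype.equivOfCardEq e1
  refine ⟨e.extendSubtype, fun x => ?_⟩
  by_cases hx : x ∈ Q
  · exact ⟨fun _ => hx, fun _ => e.extendSubtype_mem x hx⟩
  · exact ⟨fun h' => absurd h' (e.extendSubtype_not_mem x hx), fun h' => absurd h' hx⟩

/-- **The upper bound.** -/
theorem perm_upper (h : IsPower tr perm c ptr) {u v : A} (hu : u * u = u) (hv : v * v = v)
    (huv : u + v = 1) {β γ : ℕ}
    (hAlt : ∀ Z : Finset κ, Z.card = β + 1 → tens h Z (fun _ => u) * symS perm (sgnQ κ) Z = 0)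
    (hSym : ∀ Z : Finset κ, Z.card = γ + 1 → tens h Z (fun _ => v) * symS perm 1 Z = 0) :
    finrank ℚ (permSpan perm) ≤ (β + γ) ^ (2 * Fintype.card κ) := by
  classical
  set k := Fintype.card κ with hk
  choose M hM1 hM2 hM3 using block_upper h hu hv hAlt hSym
  have hτ : ∀ P Q : Finset κ, ∃ τ : Equiv.Perm κ, Q.card = P.card → ∀ x, τ x ∈ P ↔ x ∈ Q := by
    intro P Q
    by_cases hc : Q.card = P.card
    · obtain ⟨τ, hτ⟩ := exists_map_eq hc
      exact ⟨τ, fun _ => hτ⟩
    · exact ⟨1, fun h' => absurd h' hc⟩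
  choose τ hτ' using hτ
  set V : Finset κ → Submodule ℚ E := fun P => (powersetCard P.card (univ : Finset κ)).sup
    fun Q => (M P).map (LinearMap.mulRight ℚ (perm (τ P Q))) with hV
  have hVf : ∀ P, FiniteDimensional ℚ (V P) ∧ finrank ℚ (V P) ≤
      k.choose P.card * (β ^ (2 * P.card) * γ ^ (2 * (k - P.card))) := by
    intro P
    have hMf := hM1 P
    obtain ⟨g1, g2⟩ := finrank_finset_sup_le (powersetCard P.card (univ : Finset κ))
      (fun Q => (M P).map (LinearMap.mulRight ℚ (perm (τ P Q)))) (fun Q _ => inferInstance)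
    refine ⟨g1, g2.trans ?_⟩
    calc _ ≤ ∑ _Q ∈ powersetCard P.card (univ : Finset κ),
          (β ^ (2 * P.card) * γ ^ (2 * (Pᶜ).card)) :=
          sum_le_sum fun Q _ => (Submodule.finrank_map_le _ _).trans (hM2 P)
      _ = _ := by rw [sum_const, card_powersetCard, card_univ, smul_eq_mul, card_compl]
  have hmem : ∀ P σ, eP h u v P * perm σ ∈ V P := by
    intro P σ
    set Q : Finset κ := univ.filter fun x => σ x ∈ P with hQ
    have hQc : Q.card = P.card := by
      refine card_bij (fun x _ => σ x) (fun x hx => (mem_filter.mp hx).2)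
        (fun x _ y _ hxy => σ.injective hxy) (fun y hy => ⟨σ.symm y, ?_, σ.apply_symm_apply y⟩)
      rw [hQ, mem_filter, Equiv.apply_symm_apply]
      exact ⟨mem_univ _, hy⟩
    have h1 : ∀ x, (σ * (τ P Q)⁻¹) x ∈ P ↔ x ∈ P := by
      intro x
      have h2 := hτ' P Q hQc ((τ P Q)⁻¹ x)
      have h2' : τ P Q ((τ P Q)⁻¹ x) = x := by
        rw [← Equiv.Perm.mul_apply, mul_inv_cancel, Equiv.Perm.one_apply]
      rw [h2'] at h2
      rw [Equiv.Perm.mul_apply, h2, hQ, mem_filter]
      simp
    have h3 := hM3 P _ h1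
    have h4 : (M P).map (LinearMap.mulRight ℚ (perm (τ P Q))) ≤ V P :=
      Finset.le_sup (f := fun Q => (M P).map (LinearMap.mulRight ℚ (perm (τ P Q))))
        (mem_powersetCard.mpr ⟨subset_univ _, hQc⟩)
    refine h4 ⟨_, h3, ?_⟩
    rw [LinearMap.mulRight_apply, mul_assoc, ← map_mul, inv_mul_cancel_right]
  obtain ⟨g1, g2⟩ := finrank_finset_sup_le (univ : Finset κ).powerset V fun P _ => (hVf P).1
  have hle : permSpan perm ≤ (univ : Finset κ).powerset.sup V := by
    refine Submodule.span_le.mpr ?_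
    rintro _ ⟨σ, rfl⟩
    rw [SetLike.mem_coe, ← one_mul (perm σ), ← sum_eP h huv, sum_mul]
    exact sum_mem fun P hP => (Finset.le_sup (f := V) hP) (hmem P σ)
  have h6 : finrank ℚ (permSpan perm) ≤
      ∑ P ∈ (univ : Finset κ).powerset, k.choose P.card * (β ^ (2 * P.card) * γ ^ (2 * (k - P.card))) :=
    (Submodule.finrank_mono hle).trans (g2.trans (sum_le_sum fun P _ => (hVf P).2))
  refine h6.trans ?_
  rw [sum_powerset_apply_card (fun m => k.choose m * (β ^ (2 * m) * γ ^ (2 * (k - m)))), card_univ,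
    mul_comm 2 k, pow_mul, add_pow]
  set a : ℕ → ℕ := fun m => β ^ m * γ ^ (k - m) * k.choose m with ha
  calc ∑ m ∈ range (k + 1), k.choose m • (k.choose m * (β ^ (2 * m) * γ ^ (2 * (k - m)))) =
        ∑ m ∈ range (k + 1), a m * a m := by
        refine sum_congr rfl fun m _ => ?_
        rw [ha, smul_eq_mul]
        ring
    _ ≤ ∑ m ∈ range (k + 1), a m * ∑ m' ∈ range (k + 1), a m' :=
        sum_le_sum fun m hm => Nat.mul_le_mul_left _
          (single_le_sum (f := a) (fun _ _ => Nat.zero_le _) hm)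
    _ = _ := by
        rw [← sum_mul, sq]
        simp only [ha, Nat.cast_id]

end MPb197b4
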