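import Pool.Agent.Lib.MP_b197b4_nt.TMain
import Pool.Agent.Lib.MP_b197b4_nt.KUpper
import Pool.Agent.Lib.MP_b197b4_nt.KLower

/-!
# MP_b197b4_nt: the gap theorem
-/

namespace MPb197b4

open Polynomial Finset Module

theorem exists_restrict {α β : Type*} [Fintype α] [DecidableEq β] (f : α ↪ β)
    (τ : Equiv.Perm β) (hτ : ∀ b, b ∉ Set.range f → τ b = b) :
    ∃ σ : Equiv.Perm α, ∀ a, τ (f a) = f (σ a) := by
  have h1 : ∀ a, τ (f a) ∈ Set.range f := by
    intro a
    by_contra hcon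
    have h2 := hτ _ hcon
    have h3 : τ (f a) = f a := τ.injective h2
    exact hcon ⟨a, h3.symm⟩
  choose s hs using h1
  have hinj : Function.Injective s := by
    intro a b hab
    have h2 := hs a
    rw [hab, hs b] at h2
    exact (f.injective (τ.injective h2)).symm
  exact ⟨Equiv.ofBijective s (Finite.injective_iff_bijective.mp hinj), fun a => (hs a).symm⟩

section transfer

variable {κ κ' A E E' : Type*} [DecidableEq κ] [Fintype κ] [DecidableEq κ'] [Fintype κ']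
  [Ring A] [Algebra ℚ A] [Ring E] [Algebra ℚ E] [Ring E'] [Algebra ℚ E']
variable {tr : A →ₗ[ℚ] ℚ} {perm : Equiv.Perm κ →* E} {c : κ → A →ₐ[ℚ] E} {ptr : κ → E →ₗ[ℚ] E}
variable {perm' : Equiv.Perm κ' →* E'} {c' : κ' → A →ₐ[ℚ] E'} {ptr' : κ' → E' →ₗ[ℚ] E'}

omit [Fintype κ] [Fintype κ'] in
theorem incl_tens (h : IsPower tr perm c ptr) (h' : IsPower tr perm' c' ptr') (f : κ ↪ κ')
    (ι : E →ₐ[ℚ] E') (hc : ∀ j a, ι (c j a) = c' (f j) a) (Z : Finset κ) (x : A) :
    ι (tens h Z (fun _ => x)) = tens h' (Z.map f) (fun _ => x) := by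
  induction Z using Finset.induction_on with
  | empty => rw [tens_empty, map_one, map_empty, tens_empty]
  | insert j Z hj ih =>
    have hj' : f j ∉ Z.map f := by
      rw [mem_map' f]
      exact hj
    rw [tens_insert h hj, map_mul, hc, ih, map_insert, tens_insert h' hj']

theorem incl_symS (f : κ ↪ κ') (ι : E →ₐ[ℚ] E')
    (hp : ∀ σ τ, (∀ j, τ (f j) = f (σ j)) → (∀ b, b ∉ Set.range f → τ b = b) →
      ι (perm σ) = perm' τ)
    (χ : Equiv.Perm κ →* ℚ) (χ' : Equiv.Perm κ' →* ℚ)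
    (hχ : ∀ σ : Equiv.Perm κ, χ' (σ.viaFintypeEmbedding f) = χ σ) (Z : Finset κ) :
    ι (symS perm χ Z) = symS perm' χ' (Z.map f) := by
  unfold symS
  rw [map_sum]
  have e1 : ∀ (σ : Equiv.Perm κ) j, σ.viaFintypeEmbedding f (f j) = f (σ j) :=
    fun σ j => Equiv.Perm.viaFintypeEmbedding_apply_image σ f j
  have e2 : ∀ (σ : Equiv.Perm κ) b, b ∉ Set.range f → σ.viaFintypeEmbedding f b = b :=
    fun σ b hb => Equiv.Perm.viaFintypeEmbedding_apply_notMem_range σ f hb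
  refine sum_bij (fun σ _ => σ.viaFintypeEmbedding f) ?_ ?_ ?_ ?_
  · intro σ hσ
    rw [mem_fixF]
    intro b hb
    by_cases hr : b ∈ Set.range f
    · obtain ⟨j, rfl⟩ := hr
      rw [mem_map' f] at hb
      rw [e1, (mem_fixF.mp hσ) j hb]
    · exact e2 σ b hr
  · intro σ _ τ _ hστ
    ext j
    have h1 := congrArg (fun ρ : Equiv.Perm κ' => ρ (f j)) hστ
    simp only [e1] at h1
    exact f.injective h1
  · intro τ hτ
    have h1 : ∀ b, b ∉ Set.range f → τ b = b := by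
      intro b hb
      refine (mem_fixF.mp hτ) b fun h' => hb ?_
      obtain ⟨j, -, rfl⟩ := mem_map.mp h'
      exact ⟨j, rfl⟩
    obtain ⟨σ, hσ⟩ := exists_restrict f τ h1
    refine ⟨σ, ?_, ?_⟩
    · rw [mem_fixF]
      intro j hj
      have h2 := (mem_fixF.mp hτ) (f j) (by rw [mem_map' f]; exact hj)
      rw [hσ] at h2
      exact f.injective h2
    · ext b
      by_cases hr : b ∈ Set.range f
      · obtain ⟨j, rfl⟩ := hr
        rw [e1, hσ]
      · rw [e2 σ b hr, h1 b hr]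
  · intro σ _
    rw [map_smul, hχ, hp σ (σ.viaFintypeEmbedding f) (e1 σ) (e2 σ)]

end transfer

theorem sgnQ_via {κ κ' : Type*} [DecidableEq κ] [Fintype κ] [DecidableEq κ'] [Fintype κ']
    (f : κ ↪ κ') (σ : Equiv.Perm κ) : sgnQ κ' (σ.viaFintypeEmbedding f) = sgnQ κ σ := by
  show ((Equiv.Perm.sign (σ.viaFintypeEmbedding f) : ℤ) : ℚ) = ((Equiv.Perm.sign σ : ℤ) : ℚ)
  rw [Equiv.Perm.viaFintypeEmbedding_sign]

variable {q : ℕ} {X : Variety q}

/-- `x` on the factors in `Z` composed with the (alternating) sum of the permutations of `Z`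
vanishes on the power `k`, for all sets `Z` of `b + 1` factors -/
def Vanish (W : Powers X) (x : X.E) (χ : ∀ k, Equiv.Perm (Fin k) →* ℚ) (b k : ℕ) : Prop :=
  ∀ Z : Finset (Fin k), Z.card = b + 1 →
    tens (W.pow k).isPower Z (fun _ => x) * symS (W.pow k).perm (χ k) Z = 0

theorem incl_eq (W : Powers X) (x : X.E) {χ : ∀ k, Equiv.Perm (Fin k) →* ℚ}
    (hχ : ∀ k (σ : Equiv.Perm (Fin k)), χ (k + 1) (σ.viaFintypeEmbedding Fin.castSuccEmb) = χ k σ)
    (k : ℕ) (Z : Finset (Fin k)) :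
    W.incl k (tens (W.pow k).isPower Z (fun _ => x) * symS (W.pow k).perm (χ k) Z) =
      tens (W.pow (k + 1)).isPower (Z.map Fin.castSuccEmb) (fun _ => x) *
        symS (W.pow (k + 1)).perm (χ (k + 1)) (Z.map Fin.castSuccEmb) := by
  rw [map_mul, incl_tens (W.pow k).isPower (W.pow (k + 1)).isPower Fin.castSuccEmb (W.incl k)
    (W.incl_place k), incl_symS Fin.castSuccEmb (W.incl k)
    (fun σ τ h1 _ => W.incl_perm k σ τ h1) (χ k) (χ (k + 1)) (hχ k)]

theorem vanish_down (W : Powers X) (x : X.E) {χ : ∀ k, Equiv.Perm (Fin k) →* ℚ}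
    (hχ : ∀ k (σ : Equiv.Perm (Fin k)), χ (k + 1) (σ.viaFintypeEmbedding Fin.castSuccEmb) = χ k σ)
    {b k : ℕ} (h : Vanish W x χ b (k + 1)) : Vanish W x χ b k := by
  intro Z hZ
  apply W.incl_inj k
  rw [incl_eq W x hχ, map_zero]
  exact h _ (by rw [card_map, hZ])

theorem vanish_up (W : Powers X) (x : X.E) {χ : ∀ k, Equiv.Perm (Fin k) →* ℚ}
    (hχ : ∀ k (σ : Equiv.Perm (Fin k)), χ (k + 1) (σ.viaFintypeEmbedding Fin.castSuccEmb) = χ k σ)
    {b k : ℕ} (hbk : b + 1 ≤ k) (h : Vanish W x χ b k) : Vanish W x χ b (k + 1) := by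
  intro Z' hZ'
  obtain ⟨Z, -, hZ⟩ := exists_subset_card_eq (s := (univ : Finset (Fin k))) (n := b + 1)
    (by rw [card_univ, Fintype.card_fin]; exact hbk)
  have h1 := incl_eq W x hχ k Z
  rw [h Z hZ, map_zero] at h1
  exact alt_transport _ (χ (k + 1)) x (by rw [card_map, hZ, hZ']) h1.symm

theorem vanish_all (W : Powers X) (x : X.E) {χ : ∀ k, Equiv.Perm (Fin k) →* ℚ}
    (hχ : ∀ k (σ : Equiv.Perm (Fin k)), χ (k + 1) (σ.viaFintypeEmbedding Fin.castSuccEmb) = χ k σ)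
    {b k : ℕ} (hbk : b + 1 ≤ k) (h : Vanish W x χ b k) (k' : ℕ) : Vanish W x χ b k' := by
  have hdown : ∀ m k', Vanish W x χ b (k' + m) → Vanish W x χ b k' := by
    intro m
    induction m with
    | zero => exact fun _ h' => h'
    | succ m ih => exact fun k' h' => ih k' (vanish_down W x hχ h')
  have hup : ∀ m, Vanish W x χ b (k + m) := by
    intro m
    induction m with
    | zero => exact h
    | succ m ih => exact vanish_up W x hχ (hbk.trans (Nat.le_add_right k m)) ih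
  rcases le_total k k' with hle | hle
  · obtain ⟨m, rfl⟩ := Nat.exists_eq_add_of_le hle
    exact hup m
  · obtain ⟨m, rfl⟩ := Nat.exists_eq_add_of_le hle
    exact hdown m k' h

theorem fixF_univ {k : ℕ} : fixF (univ : Finset (Fin k)) = univ := by
  ext σ
  simp [mem_fixF]

theorem alt_univ {k : ℕ} (W : Power X k) :
    W.alt univ = ∑ σ, ((Equiv.Perm.sign σ : ℤ) : ℚ) • W.perm σ := by
  unfold Power.alt
  rw [fixF_univ]

theorem sym_univ {k : ℕ} (W : Power X k) : W.sym univ = ∑ σ, W.perm σ := by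
  unfold Power.sym
  rw [fixF_univ]

theorem tens_univ {k : ℕ} (W : Power X k) (x : X.E) :
    tens W.isPower univ (fun _ => x) = W.all x := by
  unfold tens Power.all
  rw [List.ofFn_eq_map, ← noncommProd_toFinset (List.finRange k) (fun j => W.place j x)
    (fun i _ j _ hij => W.isPower.comm i j hij x x) (List.nodup_finRange k)]
  exact noncommProd_congr (List.toFinset_finRange k).symm (fun _ _ => rfl) _

theorem vanish_of_univ (W : Powers X) (x : X.E) {χ : ∀ k, Equiv.Perm (Fin k) →* ℚ}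
    (hχ : ∀ k (σ : Equiv.Perm (Fin k)), χ (k + 1) (σ.viaFintypeEmbedding Fin.castSuccEmb) = χ k σ)
    {b : ℕ} (h : tens (W.pow (b + 1)).isPower univ (fun _ => x) *
      symS (W.pow (b + 1)).perm (χ (b + 1)) univ = 0) (k : ℕ) : Vanish W x χ b k := by
  refine vanish_all W x hχ (k := b + 1) le_rfl (fun Z hZ => ?_) k
  have : Z = univ := (card_eq_iff_eq_univ Z).mp (by rw [hZ, Fintype.card_fin])
  rw [this]
  exact h

theorem hχ_sgn : ∀ k (σ : Equiv.Perm (Fin k)),
    sgnQ (Fin (k + 1)) (σ.viaFintypeEmbedding Fin.castSuccEmb) = sgnQ (Fin k) σ :=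
  fun _ σ => sgnQ_via _ σ

theorem hχ_one : ∀ k (σ : Equiv.Perm (Fin k)),
    (1 : Equiv.Perm (Fin (k + 1)) →* ℚ) (σ.viaFintypeEmbedding Fin.castSuccEmb) =
      (1 : Equiv.Perm (Fin k) →* ℚ) σ := fun _ _ => rfl

/-- **The upper bound.** -/
theorem Powers.Kimura.le (W : Powers X) (h : W.Kimura) (k : ℕ) :
    finrank ℚ (permSpan (W.pow k).perm) ≤ X.betti ^ (2 * k) := by
  obtain ⟨u, v, hu, hv, -, -, huv, -, h1, h2⟩ := h
  unfold Power.ExtZero at h1
  unfold Power.SymZero at h2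
  rw [← tens_univ, ← alt_univ, alt_eq] at h1
  rw [← tens_univ, ← sym_univ, sym_eq] at h2
  have h3 := vanish_of_univ W u (χ := fun k => sgnQ (Fin k)) hχ_sgn h1 k
  have h4 := vanish_of_univ W v (χ := fun _ => 1) hχ_one h2 k
  have h5 := perm_upper (W.pow k).isPower hu hv huv h3 h4
  rwa [Fintype.card_fin, ← X.betti_eq] at h5

/-- **The lower bound.** -/
theorem Powers.Kimura.ge (W : Powers X) (h : W.Kimura) {k : ℕ} (hk : 1 ≤ k) :
    X.betti ^ (2 * k) ≤ finrank ℚ (permSpan (W.pow k).perm) * (k + 1) ^ (X.betti ^ 2) := by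
  obtain ⟨u, v, hu, hv, huv, hvu, hone, hact, -, -⟩ := h
  have hv1 : v = 1 - u := by rw [← hone]; abel
  have hev : ∀ i ∈ range (2 * X.d + 1), Even i → X.act i u = 1 ∧ X.act i v = 0 := by
    intro i hi hei
    have h1 := hact i (by rw [mem_range] at hi; omega)
    rw [if_pos hei] at h1
    exact ⟨h1, by rw [hv1, map_sub, map_one, h1, sub_self]⟩
  have hod : ∀ i ∈ range (2 * X.d + 1), ¬ Even i → X.act i u = 0 ∧ X.act i v = 1 := by
    intro i hi hei
    have h1 := hact i (by rw [mem_range] at hi; omega)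
    rw [if_neg hei] at h1
    exact ⟨h1, by rw [hv1, map_sub, map_one, h1, sub_zero]⟩
  have hnt : Nontrivial (W.pow k).E := ((W.pow k).isPower.inj ⟨0, hk⟩).nontrivial
  have tu : X.tr u = X.bp := by
    rw [X.tr_of (p := Even) (fun i hi hp => (hev i hi hp).1) (fun i hi hp => (hod i hi hp).1)]
    unfold Variety.bp
    push_cast
    refine sum_congr rfl fun i hi => ?_
    rw [(mem_filter.mp hi).2.neg_one_pow, one_mul]
  have tv : X.tr v = - X.bm := by
    rw [X.tr_of (p := fun i => ¬ Even i) (fun i hi hp => (hod i hi hp).2)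
      (fun i hi hp => (hev i hi (not_not.mp hp)).2)]
    unfold Variety.bm
    push_cast
    rw [← sum_neg_distrib]
    refine sum_congr rfl fun i hi => ?_
    rw [(Nat.not_even_iff_odd.mp (mem_filter.mp hi).2).neg_one_pow, neg_one_mul]
  have h1 := perm_lower (W.pow k).isPower hu hv huv hvu (b0 := X.bp) (b1 := X.bm)
    (by rw [tu]) (by rw [tv, neg_sq])
  rwa [Fintype.card_fin, ← X.betti_eq] at h1

/-- **The gap theorem.** -/
theorem gapT (hq : 2 ≤ q) (W : Powers X) :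
    (∀ k, 1 ≤ k → (X.betti + 2) ^ (2 * k) ≤ finrank ℚ (permSpan (W.pow k).perm) *
      ((X.betti + 2) ^ (2 * (X.betti + 1)) * (k + 1) ^ ((X.betti + 2) ^ 2))) ∨
    (W.Kimura ∧ ∀ k, 1 ≤ k → finrank ℚ (permSpan (W.pow k).perm) ≤ X.betti ^ (2 * k) ∧
      X.betti ^ (2 * k) ≤ finrank ℚ (permSpan (W.pow k).perm) * (k + 1) ^ (X.betti ^ 2)) := by
  rw [or_iff_not_imp_left]
  intro hcon
  push Not at hcon
  obtain ⟨k, hk, hb⟩ := hcon
  obtain ⟨hNk, u, v, hu, hv, huv, hvu, h1, hev, hod, h2, h3⟩ := kimuraT hq hk (W.pow k) hb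
  have hN := X.betti_eq
  have e1 : Vanish W u (fun k => sgnQ (Fin k)) X.bp k := fun Z hZ => by
    rw [← alt_eq]
    exact h2 Z hZ
  have e2 : Vanish W v (fun _ => 1) X.bm k := fun Z hZ => by
    rw [← sym_eq]
    exact h3 Z hZ
  have hK : W.Kimura := by
    refine ⟨u, v, hu, hv, huv, hvu, h1, fun i hi => ?_, ?_, ?_⟩
    · by_cases hei : Even i
      · rw [if_pos hei]
        exact (hev i (mem_range.mpr (by omega)) hei).1
      · rw [if_neg hei]
        exact (hod i (mem_range.mpr (by omega)) hei).1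
    · unfold Power.ExtZero
      rw [← tens_univ, ← alt_univ, alt_eq]
      exact vanish_all W u hχ_sgn (by omega) e1 (X.bp + 1) univ (by rw [card_univ, Fintype.card_fin])
    · unfold Power.SymZero
      rw [← tens_univ, ← sym_univ, sym_eq]
      exact vanish_all W v hχ_one (by omega) e2 (X.bm + 1) univ (by rw [card_univ, Fintype.card_fin])
  exact ⟨hK, fun k hk => ⟨hK.le W k, hK.ge W hk⟩⟩

/-- **The gap theorem for products.** -/
theorem permutation_gap {r : ℕ} (hq : 2 ≤ q) (X : Fin r → Variety q) (W : ∀ j, Powers (X j))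
    (C : Cohomology X) :
    (∃ j, ∀ k : ℕ, 1 ≤ k → ((X j).betti + 2) ^ (2 * k) ≤ ((W j).pow k).T *
      (((X j).betti + 2) ^ (2 * (X j).betti + 2) * (k + 1) ^ (((X j).betti + 2) ^ 2))) ∨
    ((∀ j, (W j).Kimura ∧ ∀ k : ℕ, 1 ≤ k → ((W j).pow k).T ≤ (X j).betti ^ (2 * k) ∧
        (X j).betti ^ (2 * k) ≤ ((W j).pow k).T * (k + 1) ^ ((X j).betti ^ 2)) ∧
      (∀ i : ℤ, i ≤ 2 * ∑ j, ((X j).d : ℤ) → AddGroup.FG (C.A 0 i)) ∧
      (∀ i : ℤ, i < 2 * ∑ j, ((X j).d : ℤ) → Finite (C.A 0 i)) ∧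
      ∀ m : ℕ, 1 ≤ m → ∀ i : ℤ, i ≤ 2 * (∑ j, ((X j).d : ℤ) + (m : ℤ)) → Finite (C.A m i)) := by
  rw [or_iff_not_imp_left]
  intro hcon
  refine ⟨fun j => (gapT hq (W j)).resolve_left fun h => hcon ⟨j, h⟩,
    (dichotomyT hq X (fun j => (W j).pow) C).resolve_left fun h => hcon ?_⟩
  obtain ⟨j, hj⟩ := h
  refine ⟨j, fun k hk => (hj k hk).trans (Nat.mul_le_mul_left _ (Nat.mul_le_mul_right _
    (Nat.pow_le_pow_right (by omega) (by omega))))⟩

end MPb197b4
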