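import Mathlib

/-!
# MP_b197b4_nt: locally closed pieces of an affine scheme and noetherian induction for classes of
commutative rings which are closed under gluing of a closed piece and its open complement
-/

set_option autoImplicit false

namespace Pool.Agent.Lib.MP_b197b4_nt

/-- `ρ : A → B` identifies `B` with `(A / I)[1 / h]`. -/
structure Piece {A B : Type} [CommRing A] [CommRing B] (ρ : A →+* B) (I : Ideal A) (h : A) :
    Prop where
  unit : IsUnit (ρ h)
  surj : ∀ b, ∃ a, ∃ k : ℕ, b * ρ h ^ k = ρ a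
  ker : ∀ a, ρ a = 0 ↔ ∃ k : ℕ, h ^ k * a ∈ I

namespace Piece

variable {A B : Type} [CommRing A] [CommRing B] {ρ : A →+* B} {I : Ideal A} {h : A}

theorem quot (H : Piece ρ I h) {b : B} {a : A} {k : ℕ} (hb : b * ρ h ^ k = ρ a) :
    Piece ((Ideal.Quotient.mk (Ideal.span {b})).comp ρ) (I ⊔ Ideal.span {a}) h where
  unit := H.unit.map (Ideal.Quotient.mk (Ideal.span {b}))
  surj := by
    intro x
    obtain ⟨y, rfl⟩ := Ideal.Quotient.mk_surjective x
    obtain ⟨c, m, hc⟩ := H.surj y
    exact ⟨c, m, by rw [RingHom.comp_apply, RingHom.comp_apply, ← map_pow, ← map_mul, hc]⟩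
  ker := by
    intro x
    rw [RingHom.comp_apply, Ideal.Quotient.eq_zero_iff_mem, Ideal.mem_span_singleton']
    constructor
    · rintro ⟨y, hy⟩
      obtain ⟨c, m, hc⟩ := H.surj y
      have h1 : ρ (h ^ (m + k) * x - c * a) = 0 := by
        rw [map_sub, map_mul, map_mul, map_pow, ← hc, ← hb, ← hy]
        ring
      obtain ⟨l, hl⟩ := (H.ker _).1 h1
      refine ⟨l + (m + k), ?_⟩
      have h2 : h ^ (l + (m + k)) * x = h ^ l * (h ^ (m + k) * x - c * a) + h ^ l * c * a := by
        ring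
      rw [h2]
      exact add_mem (Ideal.mem_sup_left hl) (Ideal.mem_sup_right
        (Ideal.mul_mem_left _ _ (Ideal.mem_span_singleton_self a)))
    · rintro ⟨l, hl⟩
      obtain ⟨y, hy, z, hz, hyz⟩ := Submodule.mem_sup.1 hl
      obtain ⟨w, rfl⟩ := Ideal.mem_span_singleton'.1 hz
      have h1 : ρ y = 0 := (H.ker y).2 ⟨0, by simpa using hy⟩
      obtain ⟨u, hu⟩ := H.unit.pow l
      refine ⟨↑u⁻¹ * ρ w * ρ h ^ k, ?_⟩
      have h2 : ρ h ^ l * ρ x = ρ w * ρ a := by
        rw [← map_pow, ← map_mul, ← hyz, map_add, h1, zero_add, map_mul]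
      calc ↑u⁻¹ * ρ w * ρ h ^ k * b = ↑u⁻¹ * (ρ w * (b * ρ h ^ k)) := by ring
        _ = ↑u⁻¹ * (ρ h ^ l * ρ x) := by rw [hb, h2]
        _ = ρ x := by rw [← hu, ← mul_assoc, Units.inv_mul, one_mul]

theorem away (H : Piece ρ I h) {b : B} {a : A} {k : ℕ} (hb : b * ρ h ^ k = ρ a) :
    Piece ((algebraMap B (Localization.Away b)).comp ρ) I (h * a) where
  unit := by
    rw [RingHom.comp_apply, map_mul, ← hb, map_mul, map_mul]
    exact (H.unit.map _).mul ((IsLocalization.Away.algebraMap_isUnit b).mul ((H.unit.pow k).map _))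
  surj := by
    intro x
    obtain ⟨m, y, hy⟩ := IsLocalization.Away.surj b x
    obtain ⟨c, l, hc⟩ := H.surj y
    refine ⟨c * a ^ l * h ^ m * h ^ (k * m), m + l, ?_⟩
    rw [RingHom.comp_apply, RingHom.comp_apply, map_mul ρ, ← hb]
    simp only [map_mul, map_pow]
    rw [← hc, ← hb]
    simp only [map_mul, map_pow]
    rw [← hy]
    ring
  ker := by
    intro x
    rw [RingHom.comp_apply]
    constructor
    · intro hx
      obtain ⟨⟨_, m, rfl⟩, hm⟩ := (IsLocalization.map_eq_zero_iff (Submonoid.powers b)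
        (Localization.Away b) (ρ x)).1 hx
      have h1 : ρ (a ^ m * x) = 0 := by
        rw [map_mul, map_pow, ← hb, mul_pow]
        have : b ^ m * ρ x = 0 := hm
        linear_combination (ρ h ^ k) ^ m * this
      obtain ⟨l, hl⟩ := (H.ker _).1 h1
      refine ⟨m + l, ?_⟩
      have h2 : (h * a) ^ (m + l) * x = h ^ m * a ^ l * (h ^ l * (a ^ m * x)) := by ring
      rw [h2]
      exact Ideal.mul_mem_left _ _ hl
    · rintro ⟨l, hl⟩
      have h1 : ρ ((h * a) ^ l * x) = 0 := (H.ker _).2 ⟨0, by simpa using hl⟩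
      have h2 : algebraMap B (Localization.Away b) (ρ ((h * a) ^ l * x)) = 0 := by
        rw [h1, map_zero]
      rw [map_mul, map_mul, map_pow] at h2
      have h3 : IsUnit (algebraMap B (Localization.Away b) (ρ (h * a)) ^ l) := by
        refine IsUnit.pow l ?_
        rw [map_mul, ← hb, map_mul, map_mul]
        exact (H.unit.map _).mul
          ((IsLocalization.Away.algebraMap_isUnit b).mul ((H.unit.pow k).map _))
      rw [map_pow] at h2
      exact (h3.mul_right_eq_zero).1 h2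

theorem change (H : Piece ρ I h) {c : A} {l : ℕ} (hc : h ^ l * c ∈ I) :
    Piece ρ (I ⊔ Ideal.span {c}) h where
  unit := H.unit
  surj := H.surj
  ker := by
    intro x
    rw [H.ker]
    constructor
    · rintro ⟨k, hk⟩
      exact ⟨k, Ideal.mem_sup_left hk⟩
    · rintro ⟨k, hk⟩
      obtain ⟨y, hy, z, hz, hyz⟩ := Submodule.mem_sup.1 hk
      obtain ⟨w, rfl⟩ := Ideal.mem_span_singleton'.1 hz
      refine ⟨l + k, ?_⟩
      rw [pow_add, mul_assoc, ← hyz, mul_add]
      refine add_mem (Ideal.mul_mem_left _ _ hy) ?_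
      have : h ^ l * (w * c) = w * (h ^ l * c) := by ring
      rw [this]
      exact Ideal.mul_mem_left _ _ hc

theorem finiteType [Algebra.FiniteType ℤ A] (H : Piece ρ I h) : Algebra.FiniteType ℤ B := by
  obtain ⟨u, hu⟩ := H.unit
  let φ : Polynomial A →+* B := Polynomial.eval₂RingHom ρ (↑u⁻¹ : B)
  have hφ : Function.Surjective φ := by
    intro b
    obtain ⟨a, k, hk⟩ := H.surj b
    refine ⟨Polynomial.C a * Polynomial.X ^ k, ?_⟩
    have : φ (Polynomial.C a * Polynomial.X ^ k) = ρ a * (↑u⁻¹ : B) ^ k := by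
      simp [φ]
    rw [this, ← hk, ← hu, mul_assoc, ← mul_pow, Units.mul_inv, one_pow, mul_one]
  have : Algebra.FiniteType ℤ (Polynomial A) :=
    Algebra.FiniteType.trans (S := A) inferInstance inferInstance
  exact Algebra.FiniteType.of_surjective
    ({ φ with commutes' := fun n => by simp } : Polynomial A →ₐ[ℤ] B) hφ

/-- A piece is a localization of a quotient. -/
theorem nonempty_equiv (H : Piece ρ I h) :
    Nonempty (B ≃+* Localization.Away (Ideal.Quotient.mk I h)) := by
  have hI : ∀ a ∈ I, ρ a = 0 := fun a ha => (H.ker a).2 ⟨0, by simpa using ha⟩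
  let _ : Algebra (A ⧸ I) B := (Ideal.Quotient.lift I ρ hI).toAlgebra
  have hal : ∀ a, algebraMap (A ⧸ I) B (Ideal.Quotient.mk I a) = ρ a := fun a =>
    Ideal.Quotient.lift_mk I ρ hI
  have : IsLocalization.Away (Ideal.Quotient.mk I h) B := by
    refine ⟨?_, ?_, ?_⟩
    · rintro ⟨_, k, rfl⟩
      change IsUnit (algebraMap (A ⧸ I) B ((Ideal.Quotient.mk I h) ^ k))
      rw [map_pow, hal]
      exact H.unit.pow k
    · intro b
      obtain ⟨a, k, hk⟩ := H.surj b
      refine ⟨(Ideal.Quotient.mk I a, ⟨_, k, rfl⟩), ?_⟩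
      change b * algebraMap (A ⧸ I) B ((Ideal.Quotient.mk I h) ^ k) = _
      rw [map_pow, hal, hal, hk]
    · intro x y hxy
      obtain ⟨a, rfl⟩ := Ideal.Quotient.mk_surjective x
      obtain ⟨a', rfl⟩ := Ideal.Quotient.mk_surjective y
      rw [hal, hal] at hxy
      obtain ⟨k, hk⟩ := (H.ker (a - a')).1 (by rw [map_sub, hxy, sub_self])
      refine ⟨⟨_, k, rfl⟩, ?_⟩
      change (Ideal.Quotient.mk I h) ^ k * _ = (Ideal.Quotient.mk I h) ^ k * _
      rw [← map_pow, ← map_mul, ← map_mul, Ideal.Quotient.mk_eq_mk_iff_sub_mem, ← mul_sub]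
      exact hk
  exact ⟨(IsLocalization.algEquiv (Submonoid.powers (Ideal.Quotient.mk I h)) B
    (Localization.Away (Ideal.Quotient.mk I h))).toRingEquiv⟩

theorem self (A : Type) [CommRing A] : Piece (RingHom.id A) ⊥ 1 where
  unit := isUnit_one
  surj b := ⟨b, 0, by simp⟩
  ker a := by simp

end Piece

theorem Piece.lt {A B : Type} [CommRing A] [CommRing B] {ρ : A →+* B} {I : Ideal A} {h : A}
    (H : Piece ρ I h) {b : B} {a : A} {k : ℕ} (hb : b * ρ h ^ k = ρ a) (hb0 : b ≠ 0) :
    I < I ⊔ Ideal.span {a} := by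
  have ha : ρ a ≠ 0 := by
    intro h1
    rw [h1] at hb
    exact hb0 (((H.unit.pow k).mul_left_eq_zero).1 hb)
  refine lt_of_le_of_ne le_sup_left fun h1 => ha ?_
  have h2 : a ∈ I := by
    rw [h1]
    exact Ideal.mem_sup_right (Ideal.mem_span_singleton_self a)
  exact (H.ker a).2 ⟨0, by simpa using h2⟩

/-- **Noetherian induction.** -/
theorem noeth (C : ∀ (R : Type) [CommRing R], Prop)
    (hC : ∀ (R S : Type) [CommRing R] [CommRing S], (R ≃+* S) → C R → C S)
    (h0 : C PUnit)
    (hloc : ∀ (R : Type) [CommRing R] (f : R), C (R ⧸ Ideal.span {f}) →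
      C (Localization.Away f) → C R)
    (A : Type) [CommRing A] [IsNoetherianRing A] (G : ∀ (R : Type) [CommRing R], Prop)
    (gen1 : ∀ (B : Type) [CommRing B] [IsDomain B] (ρ : A →+* B) (I : Ideal A) (h : A),
      Piece ρ I h → ∃ F : B, F ≠ 0 ∧ G (Localization.Away F))
    (gen2 : ∀ (B : Type) [CommRing B] [IsDomain B] (ρ : A →+* B) (I : Ideal A) (h : A),
      Piece ρ I h → G B → ∃ F : B, F ≠ 0 ∧ C (Localization.Away F)) (I : Ideal A) :
    ∀ (B : Type) [CommRing B] (ρ : A →+* B) (h : A), Piece ρ I h → C B := by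
  induction I using WellFoundedGT.induction with
  | ind I ih =>
  intro B _ ρ h H
  rcases subsingleton_or_nontrivial B with hs | hn
  · let _ : Unique B := uniqueOfSubsingleton 0
    exact hC PUnit B RingEquiv.ofUnique h0
  by_cases hd : ∃ f g : B, f ≠ 0 ∧ g ≠ 0 ∧ f * g = 0
  · obtain ⟨f, g, hf, hg, hfg⟩ := hd
    obtain ⟨a, k, hk⟩ := H.surj f
    obtain ⟨c, l, hl⟩ := H.surj g
    refine hloc B f ?_ ?_
    · exact ih _ (H.lt hk hf) _ _ _ (H.quot hk)
    · have h1 : ρ (a * c) = 0 := by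
        rw [map_mul, ← hk, ← hl]
        linear_combination ρ h ^ k * ρ h ^ l * hfg
      obtain ⟨m, hm⟩ := (H.ker _).1 h1
      refine ih _ (H.lt hl hg) _ _ _ ((H.away hk).change (l := m + 1) ?_)
      have h2 : (h * a) ^ (m + 1) * c = h * a ^ m * (h ^ m * (a * c)) := by ring
      rw [h2]
      exact Ideal.mul_mem_left _ _ hm
  · push Not at hd
    have : NoZeroDivisors B := ⟨fun {a b} hab => by
      by_contra hcon
      rw [not_or] at hcon
      exact hd a b hcon.1 hcon.2 hab⟩
    have : IsDomain B := NoZeroDivisors.to_isDomain B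
    obtain ⟨F, hF, hGF⟩ := gen1 B ρ I h H
    obtain ⟨a, k, hk⟩ := H.surj F
    have H1 := H.away hk
    have : IsDomain (Localization.Away F) :=
      IsLocalization.isDomain_localization (powers_le_nonZeroDivisors_of_noZeroDivisors hF)
    refine hloc B F (ih _ (H.lt hk hF) _ _ _ (H.quot hk)) ?_
    obtain ⟨F', hF', hCF'⟩ := gen2 _ _ _ _ H1 hGF
    obtain ⟨a', k', hk'⟩ := H1.surj F'
    exact hloc _ F' (ih _ (H1.lt hk' hF') _ _ _ (H1.quot hk')) hCF'

end Pool.Agent.Lib.MP_b197b4_nt
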