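import Pool.Agent.Lib.MP_b197b4_nt.Univ
import Pool.Agent.Lib.MP_b197b4_nt.Piece

/-!
# MP_b197b4_nt: realization rings of plane configurations and the main theorem
-/

set_option autoImplicit false

namespace Pool.Agent.Lib.MP_b197b4_nt

open MvPolynomial

/-- Polynomials in the coordinates of `n` points of the affine plane. -/
abbrev Coord (n : ℕ) : Type := MvPolynomial (Fin n × Fin 2) ℤ

/-- The generic points. -/
noncomputable def generic (n : ℕ) : Fin n → Fin 2 → Coord n := fun i j => X (i, j)

/-- The ideal of the determinants of the triples in `S`. -/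
noncomputable def collinearIdeal (n : ℕ) (S : Set (Fin 3 → Fin n ⊕ Fin 5)) : Ideal (Coord n) :=
  Ideal.span {g | ∃ t ∈ S, g = tripleDet (generic n) t}

open Classical in
/-- The realization ring: the determinants of the triples in `S` vanish, all others are inverted. -/
abbrev RealRing (n : ℕ) (S : Set (Fin 3 → Fin n ⊕ Fin 5)) : Type :=
  Localization.Away (∏ t ∈ Finset.univ.filter (fun t => t ∉ S),
    Ideal.Quotient.mk (collinearIdeal n S) (tripleDet (generic n) t))

/-- Smooth over `ℤ` or over a field with `p` elements. -/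
def ArithSmooth (R : Type) [CommRing R] : Prop :=
  Algebra.Smooth ℤ R ∨ ∃ p : ℕ, p.Prime ∧ ∃ _ : Algebra (ZMod p) R, Algebra.Smooth (ZMod p) R

theorem ArithSmooth.of_equiv {R S : Type} [CommRing R] [CommRing S] (e : R ≃+* S)
    (h : ArithSmooth R) : ArithSmooth S := by
  rcases h with h | ⟨p, hp, hA, h⟩
  · left
    exact Algebra.Smooth.of_equiv (AlgEquiv.ofRingEquiv (f := e) fun n => by simp)
  · right
    let _ : Algebra (ZMod p) S := (e.toRingHom.comp (algebraMap (ZMod p) R)).toAlgebra
    exact ⟨p, hp, inferInstance, Algebra.Smooth.of_equiv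
      (AlgEquiv.ofRingEquiv (f := e) fun n => rfl)⟩

theorem ArithSmooth.away {R : Type} [CommRing R] (h : ArithSmooth R) (f : R) :
    ArithSmooth (Localization.Away f) := by
  rcases h with h | ⟨p, hp, hA, h⟩
  · left
    have h2 := Algebra.Smooth.comp ℤ R (Localization.Away f)
    convert h2
    exact Subsingleton.elim _ _
  · right
    refine ⟨p, hp, inferInstance, ?_⟩
    exact Algebra.Smooth.comp (ZMod p) R (Localization.Away f)

theorem isFractionRing_of_eq {B K : Type} [CommRing B] [CommRing K] [Algebra B K]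
    {M : Submonoid B} (hM : M = nonZeroDivisors B) (h : IsLocalization M K) :
    IsFractionRing B K := by
  subst hM
  exact h

theorem formallySmooth_int (K : Type) [Field K] [CharZero K] [Algebra ℤ K]
    [Algebra.EssFiniteType ℤ K] : Algebra.FormallySmooth ℤ K := by
  have : @IsScalarTower ℤ ℚ K Algebra.toSMul Algebra.toSMul Algebra.toSMul :=
    IsScalarTower.of_algebraMap_eq' (RingHom.ext_int _ _)
  have : Algebra.EssFiniteType ℚ K := .of_comp ℤ ℚ _
  have h1 : Algebra.FormallySmooth ℚ K := Algebra.FormallySmooth.of_perfectField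
  have h2 : Algebra.FormallySmooth ℤ ℚ := .of_isLocalization (nonZeroDivisors ℤ)
  exact .comp ℤ ℚ K

/-- Generic smoothness. -/
theorem exists_smooth (B : Type) [CommRing B] [IsDomain B] [Algebra.FiniteType ℤ B] :
    ∃ f : B, f ≠ 0 ∧ ArithSmooth (Localization.Away f) := by
  have : IsFractionRing B (Localization.AtPrime (⊥ : Ideal B)) := by
    have h1 : (⊥ : Ideal B).primeCompl = nonZeroDivisors B := by
      ext x
      simp [Ideal.primeCompl]
    exact isFractionRing_of_eq h1 (inferInstanceAs (IsLocalization (⊥ : Ideal B).primeCompl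
      (Localization (⊥ : Ideal B).primeCompl)))
  let _ : Field (Localization.AtPrime (⊥ : Ideal B)) := IsFractionRing.toField B
  obtain ⟨p, hp⟩ := CharP.exists B
  rcases CharP.char_is_prime_or_zero B p with hpp | rfl
  · have : Fact p.Prime := ⟨hpp⟩
    let _ : Algebra (ZMod p) B := ZMod.algebra B p
    have : Algebra.FiniteType (ZMod p) B := Algebra.FiniteType.of_restrictScalars_finiteType ℤ _ _
    have : Algebra.FinitePresentation (ZMod p) B :=
      Algebra.FinitePresentation.of_finiteType.1 inferInstance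
    have : Algebra.EssFiniteType B (Localization.AtPrime (⊥ : Ideal B)) :=
      .of_isLocalization _ (⊥ : Ideal B).primeCompl
    have : Algebra.EssFiniteType (ZMod p) (Localization.AtPrime (⊥ : Ideal B)) := .comp _ B _
    have : Algebra.IsSmoothAt (ZMod p) (⊥ : Ideal B) := Algebra.FormallySmooth.of_perfectField
    obtain ⟨f, hf, h⟩ := Algebra.IsSmoothAt.exists_notMem_smooth (ZMod p) (⊥ : Ideal B)
    exact ⟨f, by simpa using hf, Or.inr ⟨p, hpp, inferInstance, h⟩⟩
  · have : CharZero B := CharP.charP_to_charZero B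
    have : CharZero (Localization.AtPrime (⊥ : Ideal B)) :=
      charZero_of_injective_algebraMap (IsFractionRing.injective B (Localization.AtPrime ⊥))
    have : Algebra.FinitePresentation ℤ B := Algebra.FinitePresentation.of_finiteType.1 inferInstance
    have : Algebra.EssFiniteType B (Localization.AtPrime (⊥ : Ideal B)) :=
      .of_isLocalization _ (⊥ : Ideal B).primeCompl
    have : Algebra.EssFiniteType ℤ (Localization.AtPrime (⊥ : Ideal B)) := .comp _ B _
    have : Algebra.IsSmoothAt ℤ (⊥ : Ideal B) := formallySmooth_int _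
    obtain ⟨f, hf, h⟩ := Algebra.IsSmoothAt.exists_notMem_smooth ℤ (⊥ : Ideal B)
    refine ⟨f, by simpa using hf, Or.inl ?_⟩
    convert h
    exact Subsingleton.elim _ _

theorem prod_ne_zero_of {B : Type} [CommRing B] [IsDomain B] {n : ℕ} (c : Fin n → Fin 2 → B)
    (s : Finset (Fin 3 → Fin n ⊕ Fin 5)) (hs : ∀ t ∈ s, tripleDet c t ≠ 0) :
    ∏ t ∈ s, tripleDet c t ≠ 0 := Finset.prod_ne_zero_iff.2 hs

open Classical in
/-- A finitely generated domain has an open piece which is a realization ring. -/
theorem exists_realRing (B : Type) [CommRing B] [IsDomain B] [Algebra.FiniteType ℤ B] :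
    ∃ F : B, F ≠ 0 ∧ ∃ (n : ℕ) (S : Set (Fin 3 → Fin n ⊕ Fin 5)),
      Nonempty (Localization.Away F ≃+* RealRing n S) := by
  obtain ⟨n, c, hgen, huniv⟩ := exists_config B
  set S : Set (Fin 3 → Fin n ⊕ Fin 5) := {t | tripleDet c t = 0} with hS
  let Φ : Coord n →+* B := eval₂Hom (Int.castRingHom B) (fun x => c x.1 x.2)
  have hΦ (i : Fin n) (j : Fin 2) : Φ (generic n i j) = c i j := by
    simp [Φ, generic]
  have hsurj : Function.Surjective Φ := by
    rw [← RingHom.range_eq_top, eq_top_iff, ← hgen, Subring.closure_le]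
    rintro _ ⟨x, rfl⟩
    exact ⟨generic n x.1 x.2, hΦ _ _⟩
  have hdet (t : Fin 3 → Fin n ⊕ Fin 5) : Φ (tripleDet (generic n) t) = tripleDet c t := by
    rw [map_tripleDet]
    congr 1
    ext i j
    exact hΦ i j
  have hker : collinearIdeal n S = RingHom.ker Φ := by
    refine le_antisymm (Ideal.span_le.2 ?_) fun p hp => ?_
    · rintro _ ⟨t, ht, rfl⟩
      exact (hdet t).trans ht
    · obtain ⟨f, hf⟩ := huniv (Coord n ⧸ collinearIdeal n S)
        (fun i j => Ideal.Quotient.mk _ (generic n i j)) fun t ht => by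
          rw [← map_tripleDet, Ideal.Quotient.eq_zero_iff_mem]
          exact Ideal.subset_span ⟨t, ht, rfl⟩
      have h1 : f.comp Φ = Ideal.Quotient.mk (collinearIdeal n S) := by
        refine MvPolynomial.ringHom_ext (fun z => ?_) fun x => ?_
        · simp
        · rw [RingHom.comp_apply]
          exact (congrArg f (hΦ x.1 x.2)).trans (hf x.1 x.2)
      rw [← Ideal.Quotient.eq_zero_iff_mem, ← h1, RingHom.comp_apply, hp, map_zero]
  let e : (Coord n ⧸ collinearIdeal n S) ≃+* B :=
    (Ideal.quotEquivOfEq hker).trans (RingHom.quotientKerEquivOfSurjective hsurj)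
  have he (p : Coord n) : e (Ideal.Quotient.mk _ p) = Φ p := rfl
  refine ⟨∏ t ∈ Finset.univ.filter (fun t => t ∉ S), tripleDet c t,
    prod_ne_zero_of c _ fun t ht => (Finset.mem_filter.1 ht).2, n, S, ⟨?_⟩⟩
  refine (IsLocalization.ringEquivOfRingEquiv (M := Submonoid.powers (∏ t ∈ Finset.univ.filter
    (fun t => t ∉ S), Ideal.Quotient.mk (collinearIdeal n S) (tripleDet (generic n) t)))
    (T := Submonoid.powers (∏ t ∈ Finset.univ.filter (fun t => t ∉ S), tripleDet c t))
    (RealRing n S) (Localization.Away _) e ?_).symm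
  rw [Submonoid.map_powers]
  congr 1
  change e (∏ t ∈ Finset.univ.filter (fun t => t ∉ S), _) = _
  rw [map_prod]
  refine Finset.prod_congr rfl fun t _ => ?_
  rw [he, hdet]

/-- **Main theorem.** -/
theorem main (C : ∀ (R : Type) [CommRing R], Prop)
    (hC : ∀ (R S : Type) [CommRing R] [CommRing S], (R ≃+* S) → C R → C S)
    (h0 : C PUnit)
    (hloc : ∀ (R : Type) [CommRing R] (f : R), C (R ⧸ Ideal.span {f}) →
      C (Localization.Away f) → C R)
    (A : Type) [CommRing A] [Algebra.FiniteType ℤ A]
    (hreal : ∀ (n : ℕ) (S : Set (Fin 3 → Fin n ⊕ Fin 5)), IsDomain (RealRing n S) →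
      ArithSmooth (RealRing n S) →
      (∃ (I : Ideal A) (h : A ⧸ I), Nonempty (RealRing n S ≃+* Localization.Away h)) →
      C (RealRing n S)) :
    C A := by
  have : IsNoetherianRing A := Algebra.FiniteType.isNoetherianRing ℤ A
  refine noeth C hC h0 hloc A (fun R _ => ArithSmooth R) (fun B _ _ ρ I h H => ?_)
    (fun B _ _ ρ I h H hG => ?_) ⊥ A (RingHom.id A) 1 (Piece.self A)
  · have := H.finiteType
    exact exists_smooth B
  · have := H.finiteType
    obtain ⟨F, hF, n, S, ⟨e⟩⟩ := exists_realRing B
    refine ⟨F, hF, hC _ _ e.symm ?_⟩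
    obtain ⟨a, k, hk⟩ := H.surj F
    obtain ⟨e'⟩ := (H.away hk).nonempty_equiv
    have : IsDomain (Localization.Away F) :=
      IsLocalization.isDomain_localization (powers_le_nonZeroDivisors_of_noZeroDivisors hF)
    exact hreal n S (e.symm.toMulEquiv.isDomain _) ((hG.away F).of_equiv e)
      ⟨I, Ideal.Quotient.mk I (h * a), ⟨e.symm.trans e'⟩⟩

end Pool.Agent.Lib.MP_b197b4_nt
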