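import Mathlib

/-!
# MP_b197b4_nt: the Fitting idempotents of an algebraic element
-/

namespace MPb197b4

open Polynomial

/-- A polynomial is the product of a divisor of a power of `Q` and of a polynomial prime to `Q`. -/
theorem exists_factor (Q : ℚ[X]) : ∀ (n : ℕ) (χ : ℚ[X]), χ ≠ 0 → χ.natDegree ≤ n →
    ∃ (χ₁ χ₂ : ℚ[X]) (N : ℕ), χ = χ₁ * χ₂ ∧ χ₁ ∣ Q ^ N ∧ IsCoprime χ₂ Q := by
  classical
  intro n
  induction n with
  | zero =>
    intro χ hχ hn
    refine ⟨1, χ, 0, by rw [one_mul], one_dvd _, ?_⟩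
    have : IsUnit χ := by
      rw [Polynomial.isUnit_iff_degree_eq_zero, Polynomial.degree_eq_natDegree hχ,
        Nat.le_zero.mp hn]
      rfl
    obtain ⟨v, hv⟩ := this.exists_left_inv
    exact ⟨v, 0, by rw [hv, zero_mul, add_zero]⟩
  | succ n ih =>
    intro χ hχ hn
    by_cases hco : IsCoprime χ Q
    · exact ⟨1, χ, 0, by rw [one_mul], one_dvd _, hco⟩
    obtain ⟨y, hy⟩ := EuclideanDomain.gcd_dvd_left χ Q
    set g := EuclideanDomain.gcd χ Q with hg
    have hgQ : g ∣ Q := EuclideanDomain.gcd_dvd_right χ Q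
    have hgu : ¬ IsUnit g := fun h => hco (EuclideanDomain.gcd_isUnit_iff.mp h)
    have hg0 : g ≠ 0 := fun h => hχ (by rw [hy, h, zero_mul])
    have hy0 : y ≠ 0 := fun h => hχ (by rw [hy, h, mul_zero])
    have hgd : 0 < g.natDegree := by
      rw [Nat.pos_iff_ne_zero]
      intro h
      exact hgu (Polynomial.isUnit_iff_degree_eq_zero.mpr
        (by rw [Polynomial.degree_eq_natDegree hg0, h]; rfl))
    have hyd : y.natDegree ≤ n := by
      have := congrArg natDegree hy
      rw [Polynomial.natDegree_mul hg0 hy0] at this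
      omega
    obtain ⟨χ₁, χ₂, N, h1, h2, h3⟩ := ih y hy0 hyd
    refine ⟨g * χ₁, χ₂, N + 1, ?_, ?_, h3⟩
    · rw [mul_assoc, ← h1]; exact hy
    · rw [pow_succ, mul_comm]
      exact mul_dvd_mul h2 hgQ

variable {A : Type*} [Ring A] [Algebra ℚ A]

/-- An element killed by two coprime polynomials in `φ` is zero. -/
theorem kill {φ : A} {p s : ℚ[X]} (h : IsCoprime p s) {x : A} (hp : aeval φ p * x = 0)
    (hs : aeval φ s * x = 0) : x = 0 := by
  obtain ⟨a, b, hab⟩ := h
  calc x = aeval φ (a * p + b * s) * x := by rw [hab, map_one, one_mul]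
    _ = aeval φ a * (aeval φ p * x) + aeval φ b * (aeval φ s * x) := by
      rw [map_add, map_mul, map_mul, add_mul, mul_assoc, mul_assoc]
    _ = 0 := by rw [hp, hs, mul_zero, mul_zero, add_zero]

/-- `u` is the projection to the part of `φ` on which `Q` is nilpotent. -/
structure Fit (φ : A) (Q : ℚ[X]) (w : ℚ[X]) : Prop where
  idem : aeval φ w * aeval φ w = aeval φ w
  nil : ∃ N : ℕ, aeval φ (Q ^ N) * aeval φ w = 0
  inv : ∃ s : ℚ[X], IsCoprime s Q ∧ aeval φ s * (1 - aeval φ w) = 0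

theorem exists_fit {φ : A} (hφ : IsIntegral ℚ φ) (Q : ℚ[X]) : ∃ w, Fit φ Q w := by
  obtain ⟨χ, hχm, hχ⟩ := hφ
  have hχ' : aeval φ χ = 0 := hχ
  obtain ⟨χ₁, χ₂, N, h1, ⟨y, hy⟩, h3⟩ := exists_factor Q χ.natDegree χ hχm.ne_zero le_rfl
  have hco : IsCoprime χ₁ χ₂ := by
    have h4 : IsCoprime χ₂ (Q ^ N) := h3.pow_right
    rw [hy] at h4
    exact (IsCoprime.of_mul_right_left h4).symm
  obtain ⟨a, b, hab⟩ := hco
  have h1w : (1 : ℚ[X]) - b * χ₂ = a * χ₁ := by rw [← hab]; ring
  refine ⟨b * χ₂, ?_, ⟨N, ?_⟩, ⟨χ₂, h3, ?_⟩⟩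
  · rw [← map_mul]
    have : b * χ₂ * (b * χ₂) = b * χ₂ - a * b * χ := by
      rw [h1]
      linear_combination (-(b * χ₂)) * h1w
    rw [this, map_sub, map_mul (aeval φ) (a * b), hχ', mul_zero, sub_zero]
  · rw [← map_mul]
    have : Q ^ N * (b * χ₂) = y * b * χ := by rw [hy, h1]; ring
    rw [this, map_mul, hχ', mul_zero]
  · have h5 : (1 : A) - aeval φ (b * χ₂) = aeval φ (a * χ₁) := by
      rw [← h1w, map_sub, map_one]
    have : χ₂ * (a * χ₁) = a * χ := by rw [h1]; ring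
    rw [h5, ← map_mul (aeval φ) χ₂, this, map_mul, hχ', mul_zero]

theorem Fit.mul_eq_zero {φ : A} {Q R w v : ℚ[X]} (h : Fit φ Q w) (h' : Fit φ R v)
    (hQR : IsCoprime Q R) : aeval φ w * aeval φ v = 0 := by
  obtain ⟨N, hN⟩ := h.nil
  obtain ⟨M, hM⟩ := h'.nil
  refine kill (φ := φ) (hQR.pow (m := N) (n := M)) ?_ ?_
  · rw [← mul_assoc, hN, zero_mul]
  · rw [← mul_assoc, ← map_mul, mul_comm, map_mul, mul_assoc, hM, mul_zero]

/-- the projection for `Q ∣ R` is smaller than the one for `R` -/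
theorem Fit.mul_eq_self {φ : A} {Q R w v : ℚ[X]} (h : Fit φ Q w) (h' : Fit φ R v)
    (hQR : Q ∣ R) : aeval φ w * aeval φ v = aeval φ w := by
  obtain ⟨N, hN⟩ := h.nil
  obtain ⟨s, hs, hs'⟩ := h'.inv
  have h1 : IsCoprime s Q := hs.of_isCoprime_of_dvd_right hQR
  have h2 : (1 - aeval φ v) * aeval φ w = 0 := by
    refine kill (φ := φ) (h1.pow_right (n := N)) ?_ ?_
    · rw [← mul_assoc, hs', zero_mul]
    · have h3 : Commute (aeval φ (Q ^ N)) (1 - aeval φ v) := by
        refine (Commute.one_right _).sub_right ?_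
        unfold Commute SemiconjBy
        rw [← map_mul, mul_comm, map_mul]
      rw [← mul_assoc, h3.eq, mul_assoc, hN, mul_zero]
  have h4 : aeval φ v * aeval φ w = aeval φ w := by
    rw [sub_mul, one_mul, sub_eq_zero] at h2
    exact h2.symm
  rw [← map_mul, mul_comm, map_mul, h4]

/-- an element `x` with `Q(φ) x = 0` is fixed by the projection for `Q` -/
theorem Fit.mul_fixed {φ : A} {Q w : ℚ[X]} (h : Fit φ Q w) {x : A} (hx : aeval φ Q * x = 0) :
    aeval φ w * x = x := by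
  obtain ⟨s, hs, hs'⟩ := h.inv
  have h2 : (1 - aeval φ w) * x = 0 := by
    refine kill (φ := φ) hs ?_ ?_
    · rw [← mul_assoc, hs', zero_mul]
    · have h3 : Commute (aeval φ Q) (1 - aeval φ w) := by
        refine (Commute.one_right _).sub_right ?_
        unfold Commute SemiconjBy
        rw [← map_mul, mul_comm, map_mul]
      rw [← mul_assoc, h3.eq, mul_assoc, hx, mul_zero]
  rw [sub_mul, one_mul, sub_eq_zero] at h2
  exact h2.symm

/-- ring homomorphisms of `ℚ`-algebras and values of polynomials -/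
theorem map_aeval' {L B : Type*} [Field L] [CharZero L] [Ring B] [Algebra L B] (ρ : A →+* B)
    (φ : A) (p : ℚ[X]) : ρ (aeval φ p) = aeval (ρ φ) (p.map (algebraMap ℚ L)) := by
  rw [aeval_def, aeval_def, Polynomial.hom_eval₂, Polynomial.eval₂_map]
  congr 1
  exact Subsingleton.elim _ _

/-- The projection for `Q` acts as the identity on `H` if the characteristic polynomial of `φ` on
`H` divides `Q`. -/
theorem Fit.act_one {φ : A} {Q w : ℚ[X]} (h : Fit φ Q w) {L H : Type*} [Field L] [CharZero L]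
    [AddCommGroup H] [Module L H] [FiniteDimensional L H] (ρ : A →+* Module.End L H) {P : ℚ[X]}
    (hP : (ρ φ).charpoly = P.map (algebraMap ℚ L)) (hPQ : P ∣ Q) : ρ (aeval φ w) = 1 := by
  obtain ⟨s, hs, hs'⟩ := h.inv
  have h1 : IsCoprime s P := hs.of_isCoprime_of_dvd_right hPQ
  obtain ⟨a, b, hab⟩ := h1
  have hCH : ρ (aeval φ P) = 0 := by
    rw [map_aeval' (L := L), ← hP]
    exact LinearMap.aeval_self_charpoly _
  have h2 : (1 : Module.End L H) - ρ (aeval φ w) = 0 := by
    calc (1 : Module.End L H) - ρ (aeval φ w)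
        = ρ (aeval φ (a * s + b * P)) * ((1 : Module.End L H) - ρ (aeval φ w)) := by
          rw [hab, map_one, map_one, one_mul]
      _ = ρ (aeval φ a) * ρ (aeval φ s * (1 - aeval φ w)) +
          ρ (aeval φ b) * (ρ (aeval φ P) * (1 - ρ (aeval φ w))) := by
          simp only [map_add, map_mul, map_sub, map_one, add_mul, mul_assoc]
      _ = 0 := by rw [hs', hCH, map_zero, zero_mul, mul_zero, mul_zero, add_zero]
  exact (sub_eq_zero.mp h2).symm

/-- The projection for `Q` acts as zero on `H` if the characteristic polynomial of `φ` on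
`H` is prime to `Q`. -/
theorem Fit.act_zero {φ : A} {Q w : ℚ[X]} (h : Fit φ Q w) {L H : Type*} [Field L] [CharZero L]
    [AddCommGroup H] [Module L H] [FiniteDimensional L H] (ρ : A →+* Module.End L H) {P : ℚ[X]}
    (hP : (ρ φ).charpoly = P.map (algebraMap ℚ L)) (hPQ : IsCoprime P Q) : ρ (aeval φ w) = 0 := by
  obtain ⟨N, hN⟩ := h.nil
  obtain ⟨a, b, hab⟩ := hPQ.pow_right (n := N)
  have hCH : ρ (aeval φ P) = 0 := by
    rw [map_aeval' (L := L), ← hP]
    exact LinearMap.aeval_self_charpoly _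
  calc ρ (aeval φ w) = ρ (aeval φ (a * P + b * Q ^ N)) * ρ (aeval φ w) := by
        rw [hab, map_one, map_one, one_mul]
    _ = ρ (aeval φ a) * (ρ (aeval φ P) * ρ (aeval φ w)) +
        ρ (aeval φ b) * ρ (aeval φ (Q ^ N) * aeval φ w) := by
        simp only [map_add, map_mul, add_mul, mul_assoc]
    _ = 0 := by rw [hN, hCH, map_zero, zero_mul, mul_zero, mul_zero, add_zero]

end MPb197b4
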