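import Pool.Agent.Lib.MP_b197b4_nt.KTrace

/-!
# MP_b197b4_nt: the functionals on the permutations of a tensor power of an idempotent of trace `b`
whose exterior power `b + 1` is not zero
-/

namespace MPb197b4

open Finset

variable {κ A E : Type*} [DecidableEq κ] [Fintype κ] [Ring A] [Algebra ℚ A] [Ring E] [Algebra ℚ E]
variable {tr : A →ₗ[ℚ] ℚ} {perm : Equiv.Perm κ →* E} {c : κ → A →ₐ[ℚ] E} {ptr : κ → E →ₗ[ℚ] E}

theorem wd_one (d : ℕ) (E' : Finset κ) : wd d E' 1 = d ^ E'.card := by
  induction E' using Finset.induction_on with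
  | empty => rw [wd_empty, card_empty, pow_zero]
  | insert e E' he ih =>
    rw [wd_fixed d he (mem_fixF.mpr fun _ _ => rfl), ih, card_insert_of_notMem he, pow_succ, mul_comm]

/-- words on `E'`, continued by a fixed word -/
theorem card_words (d : ℕ) (E' : Finset κ) (ζ : κ → Fin d) {x : Equiv.Perm κ}
    (hx : x ∈ fixF E') :
    (univ.filter fun v : κ → Fin d => (∀ j, j ∉ E' → v j = ζ j) ∧ v ∘ x = v).card = wd d E' x := by
  unfold wd
  refine card_bij' (fun v _ => fun j => if j ∈ E' then (v j : ℕ) else 0)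
    (fun w hw => fun j => if hj : j ∈ E' then ⟨w j, by
      have := (mem_fixSet.mp hw).1 j
      rwa [wt_mem _ _ hj] at this⟩ else ζ j) ?_ ?_ ?_ ?_
  · intro v hv
    rw [mem_filter] at hv
    rw [mem_fixSet]
    refine ⟨fun j => ?_, fun j => ?_⟩
    · by_cases hj : j ∈ E'
      · rw [wt_mem _ _ hj]; simp [hj]
      · rw [wt_notMem _ _ hj]; simp [hj]
    · by_cases hj : j ∈ E'
      · have h1 := fixF_apply_mem hx hj
        simp only [hj, h1, if_true]
        exact congrArg Fin.val (congrFun hv.2.2 j)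
      · rw [(mem_fixF.mp hx) j hj]
  · intro w hw
    rw [mem_filter]
    refine ⟨mem_univ _, fun j hj => ?_, ?_⟩
    · dsimp only
      rw [dif_neg hj]
    · funext j
      rw [Function.comp_apply]
      by_cases hj : j ∈ E'
      · have h1 := fixF_apply_mem hx hj
        rw [dif_pos h1, dif_pos hj]
        exact Fin.ext ((mem_fixSet.mp hw).2 j)
      · rw [(mem_fixF.mp hx) j hj]
  · intro v hv
    rw [mem_filter] at hv
    funext j
    dsimp only
    by_cases hj : j ∈ E'
    · rw [dif_pos hj]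
      exact Fin.ext (by simp [hj])
    · rw [dif_neg hj, hv.2.1 j hj]
  · intro w hw
    funext j
    dsimp only
    by_cases hj : j ∈ E'
    · rw [if_pos hj, dif_pos hj]
    · rw [if_neg hj]
      have := (mem_fixSet.mp hw).1 j
      rw [wt_notMem _ _ hj] at this
      omega

/-- diagonal coefficients over the words which agree with `ζ` outside `E'` -/
noncomputable def diagS (d : ℕ) (E' : Finset κ) (ζ : κ → Fin d) :
    Module.End ℚ (WFun κ d) →ₗ[ℚ] ℚ :=
  ∑ v ∈ univ.filter (fun v : κ → Fin d => ∀ j, j ∉ E' → v j = ζ j),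
    (LinearMap.proj v) ∘ₗ (LinearMap.applyₗ (Pi.single v (1 : ℚ)))

theorem diagS_apply (d : ℕ) (E' : Finset κ) (ζ : κ → Fin d) (X : Module.End ℚ (WFun κ d)) :
    diagS d E' ζ X = ∑ v ∈ univ.filter (fun v : κ → Fin d => ∀ j, j ∉ E' → v j = ζ j),
      (X (Pi.single v (1 : ℚ))) v := by
  unfold diagS
  rw [LinearMap.sum_apply]
  rfl

theorem diagS_symS {d : ℕ} {E' Z : Finset κ} (hd : Disjoint E' Z) {ζ : κ → Fin d}
    (hζ : Set.InjOn ζ Z) {x : Equiv.Perm κ} (hx : x ∈ fixF E') :
    diagS d E' ζ (symS (wAct κ d) (sgnQ κ) Z * wAct κ d x) = (wd d E' x : ℚ) := by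
  rw [diagS_apply]
  have h1 : ∀ v ∈ univ.filter (fun v : κ → Fin d => ∀ j, j ∉ E' → v j = ζ j),
      ((symS (wAct κ d) (sgnQ κ) Z * wAct κ d x) (Pi.single v (1 : ℚ))) v =
        if v ∘ x = v then 1 else 0 := by
    intro v hv
    rw [mem_filter] at hv
    have h2 : ((symS (wAct κ d) (sgnQ κ) Z * wAct κ d x) (Pi.single v (1 : ℚ))) v =
        ∑ s ∈ fixF Z, sgnQ κ s * (Pi.single v (1 : ℚ) : WFun κ d) (v ∘ ⇑(s * x)) := by
      unfold symS
      rw [sum_mul, LinearMap.sum_apply, Finset.sum_apply]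
      refine sum_congr rfl fun s _ => ?_
      rw [smul_mul_assoc, ← map_mul]
      rfl
    rw [h2]
    have h3 : ∀ s ∈ fixF Z, s ≠ 1 →
        sgnQ κ s * (Pi.single v (1 : ℚ) : WFun κ d) (v ∘ ⇑(s * x)) = 0 := by
      intro s hs hs1
      have h4 : v ∘ ⇑(s * x) ≠ v := by
        intro h5
        apply hs1
        ext z
        rw [Equiv.Perm.one_apply]
        by_cases hz : z ∈ Z
        · have hzE : z ∉ E' := disjoint_right.mp hd hz
          have hszE : s z ∉ E' := disjoint_right.mp hd (fixF_apply_mem hs hz)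
          have h6 := congrFun h5 z
          rw [Function.comp_apply, Equiv.Perm.mul_apply, (mem_fixF.mp hx) z hzE,
            hv.2 _ hszE, hv.2 _ hzE] at h6
          exact hζ (fixF_apply_mem hs hz) hz h6
        · exact (mem_fixF.mp hs) z hz
      rw [Pi.single_eq_of_ne h4, mul_zero]
    rw [sum_eq_single_of_mem 1 (mem_fixF.mpr fun _ _ => rfl) h3, map_one, one_mul, one_mul]
    by_cases h4 : v ∘ ⇑x = v
    · rw [h4, if_pos rfl, Pi.single_eq_same]
    · rw [if_neg h4, Pi.single_eq_of_ne h4]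
  rw [sum_congr rfl h1, ← sum_filter, sum_const, nsmul_eq_mul, mul_one, ← card_words d E' ζ hx,
    filter_filter]

theorem exists_fun (h : IsPower tr perm c ptr) {q : A} (hq : q * q = q) {b : ℕ}
    (htr : tr q = (b : ℚ)) {Z : Finset κ} (hZ : Z.card = b + 1) {E' : Finset κ}
    (hd : Disjoint E' Z) :
    ∃ Φ : E →ₗ[ℚ] E, ∃ y : E, (∀ o, o ∉ E' ∪ Z → y ∈ away perm c o) ∧
      (∀ e ∈ E', symS perm (sgnQ κ) (insert e Z) * y = 0) ∧
      (∀ x ∈ fixF E', Φ (tens h (E' ∪ Z) (fun _ => q) * symS perm (sgnQ κ) Z * (perm x * y)) =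
        (wd (b + 1) E' x : ℚ) • (tens h Z (fun _ => q) * symS perm (sgnQ κ) Z)) := by
  classical
  obtain ⟨Φ, τ, h1, h2⟩ := exists_words h hq htr hZ E' hd
  -- the inverse of the central element
  obtain ⟨X0, hX0⟩ : ∃ X0 : Module.End ℚ (WFun κ (b + 1)), X0 * cS κ (b + 1) E' = 1 := by
    have hinj : LinearMap.ker (cS κ (b + 1) E') = ⊥ := by
      rw [LinearMap.ker_eq_bot']
      exact fun f hf => cS_injective _ _ f hf
    obtain ⟨g, hg⟩ := LinearMap.exists_leftInverse_of_injective _ hinj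
    exact ⟨g, hg⟩
  obtain ⟨ζ, hζ⟩ : ∃ ζ : κ → Fin (b + 1), Set.InjOn ζ Z := by
    have e := Z.equivFin
    rw [hZ] at e
    refine ⟨fun j => if hj : j ∈ Z then e ⟨j, hj⟩ else 0, ?_⟩
    intro a ha a' ha' haa
    rw [mem_coe] at ha ha'
    dsimp only at haa
    rw [dif_pos ha, dif_pos ha'] at haa
    have := e.injective haa
    exact congrArg Subtype.val this
  let lam : Equiv.Perm κ → ℚ := fun g => diagS (b + 1) E' ζ (X0 * wAct κ (b + 1) g⁻¹)
  refine ⟨Φ, ∑ g ∈ fixF (E' ∪ Z), lam g • perm g, ?_, ?_, ?_⟩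
  · intro o ho
    exact sum_mem fun g hg => Subalgebra.smul_mem _ (perm_mem_away ((mem_fixF.mp hg) o ho)) _
  · intro e he
    have hU : insert e Z ⊆ E' ∪ Z := by
      intro x hx
      rw [mem_insert] at hx
      rcases hx with rfl | hx
      · exact mem_union_left _ he
      · exact mem_union_right _ hx
    have heZ : e ∉ Z := disjoint_left.mp hd he
    have h3 : symS perm (sgnQ κ) (insert e Z) * ∑ g ∈ fixF (E' ∪ Z), lam g • perm g =
        ∑ g ∈ fixF (E' ∪ Z), (∑ u ∈ fixF (insert e Z), sgnQ κ u * lam (u⁻¹ * g)) • perm g := by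
      unfold symS
      rw [sum_mul_sum]
      simp only [sum_smul]
      rw [sum_comm (s := fixF (E' ∪ Z))]
      refine sum_congr rfl fun u hu => ?_
      have hu' := fixF_mono hU hu
      refine sum_nbij' (fun g => u * g) (fun g => u⁻¹ * g) (fun g hg => fixF_mul hu' hg)
        (fun g hg => fixF_mul (fixF_inv hu') hg) (fun g _ => by group) (fun g _ => by group) ?_
      intro g _
      rw [smul_mul_smul_comm, ← map_mul]
      congr 3
      group
    rw [h3]
    refine sum_eq_zero fun g _ => ?_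
    have h4 : ∑ u ∈ fixF (insert e Z), sgnQ κ u * lam (u⁻¹ * g) =
        diagS (b + 1) E' ζ (X0 * wAct κ (b + 1) g⁻¹ *
          symS (wAct κ (b + 1)) (sgnQ κ) (insert e Z)) := by
      unfold symS
      rw [mul_sum, map_sum]
      refine sum_congr rfl fun u _ => ?_
      rw [mul_smul_comm, map_smul, smul_eq_mul, mul_assoc, ← map_mul]
      show _ * diagS (b + 1) E' ζ (X0 * wAct κ (b + 1) (u⁻¹ * g)⁻¹) = _
      rw [mul_inv_rev, inv_inv]
    rw [h4, symS_eq_zero (by rw [card_insert_of_notMem heZ, hZ]; omega), mul_zero, map_zero,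
      zero_smul]
  · intro x hx
    have hx' : x ∈ fixF (E' ∪ Z) := fixF_mono subset_union_left hx
    have h3 : Φ (tens h (E' ∪ Z) (fun _ => q) * symS perm (sgnQ κ) Z *
        (perm x * ∑ g ∈ fixF (E' ∪ Z), lam g • perm g)) =
        (∑ g ∈ fixF (E' ∪ Z), lam g * τ (x * g)) •
          (tens h Z (fun _ => q) * symS perm (sgnQ κ) Z) := by
      rw [mul_sum, mul_sum, map_sum, sum_smul]
      refine sum_congr rfl fun g hg => ?_
      rw [mul_smul_comm, ← map_mul, mul_smul_comm, map_smul, h1 _ (fixF_mul hx' hg), smul_smul]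
    rw [h3]
    congr 1
    have h4 : ∑ g ∈ fixF (E' ∪ Z), lam g * τ (x * g) =
        ∑ g ∈ fixF (E' ∪ Z), lam (x⁻¹ * g) * τ g := by
      refine sum_nbij' (fun g => x * g) (fun g => x⁻¹ * g) (fun g hg => fixF_mul hx' hg)
        (fun g hg => fixF_mul (fixF_inv hx') hg) (fun g _ => by group) (fun g _ => by group) ?_
      intro g _
      congr 2
      group
    rw [h4]
    have h5 : ∑ g ∈ fixF (E' ∪ Z), lam (x⁻¹ * g) * τ g =
        diagS (b + 1) E' ζ (X0 * (∑ g ∈ fixF (E' ∪ Z), τ g • wAct κ (b + 1) g⁻¹) *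
          wAct κ (b + 1) x) := by
      rw [mul_sum, sum_mul, map_sum]
      refine sum_congr rfl fun g _ => ?_
      rw [mul_smul_comm, smul_mul_assoc, map_smul, smul_eq_mul, mul_comm, mul_assoc, ← map_mul]
      show _ * diagS (b + 1) E' ζ (X0 * wAct κ (b + 1) (x⁻¹ * g)⁻¹) = _
      rw [mul_inv_rev, inv_inv]
    rw [h5, h2, ← mul_assoc, hX0, one_mul, diagS_symS hd hζ hx]

theorem conj_symS (perm : Equiv.Perm κ →* E) (χ : Equiv.Perm κ →* ℚ) (W : Finset κ)
    (ρ : Equiv.Perm κ) :
    perm ρ * symS perm χ W = symS perm χ (W.map ρ.toEmbedding) * perm ρ := by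
  unfold symS
  rw [mul_sum, sum_mul]
  refine sum_nbij' (fun s => ρ * s * ρ⁻¹) (fun s => ρ⁻¹ * s * ρ) ?_ ?_ (fun s _ => by group)
    (fun s _ => by group) ?_
  · intro s hs
    rw [mem_fixF]
    intro a ha
    rw [mem_map] at ha
    push Not at ha
    have h1 : ρ⁻¹ a ∉ W := fun h2 => ha (ρ⁻¹ a) h2 (ρ.apply_symm_apply a)
    rw [Equiv.Perm.mul_apply, Equiv.Perm.mul_apply, (mem_fixF.mp hs) _ h1]
    exact ρ.apply_symm_apply a
  · intro s hs
    rw [mem_fixF]
    intro a ha
    have h1 : ρ a ∉ W.map ρ.toEmbedding := by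
      rw [mem_map]
      rintro ⟨x, hx, hxa⟩
      have : x = a := ρ.injective hxa
      exact ha (this ▸ hx)
    rw [Equiv.Perm.mul_apply, Equiv.Perm.mul_apply, (mem_fixF.mp hs) _ h1]
    exact ρ.symm_apply_apply a
  · intro s _
    have h1 : χ (ρ * s * ρ⁻¹) = χ s := by
      rw [map_mul, map_mul, mul_comm (χ ρ), mul_assoc, ← map_mul, mul_inv_cancel, map_one, mul_one]
    rw [h1, mul_smul_comm, smul_mul_assoc, ← map_mul, ← map_mul]
    congr 2
    group

/-- **The functional of a pair of sets.** -/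
theorem exists_functionalK (h : IsPower tr perm c ptr) {q : A} (hq : q * q = q) {b : ℕ}
    (htr : tr q = (b : ℚ)) {Z : Finset κ} (hZ : Z.card = b + 1) {O E' : Finset κ}
    (hOE : Disjoint O E') (hOZ : Disjoint O Z) (hEZ : Disjoint E' Z) :
    ∃ Φ : E →ₗ[ℚ] E, ∃ φ : Equiv.Perm κ → ℚ, φ 1 = ((b + 1 : ℕ) : ℚ) ^ E'.card ∧
      (∀ ρ ∈ fixF (O ∪ E'), Φ (tens h ((O ∪ E') ∪ Z) (fun _ => q) * perm ρ) =
        φ ρ • (tens h Z (fun _ => q) * symS perm (sgnQ κ) Z)) ∧
      (∀ ρ ∈ fixF (O ∪ E'), |φ ρ| ≤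
        if ∀ a, ρ a ∈ O ↔ a ∈ O then (wd (b + 1) E' ρ : ℚ) else 0) := by
  classical
  obtain ⟨Φ, y, hy1, hy2, hy3⟩ := exists_fun h hq htr hZ hEZ
  have hOT : Disjoint O (E' ∪ Z) := by
    rw [disjoint_union_right]
    exact ⟨hOE, hOZ⟩
  obtain ⟨Θ, r, hr, hΘ⟩ := exists_ptrO h hq htr (Z := Z) (T := E' ∪ Z) (by omega)
    subset_union_right O hOT
  set Al := symS perm (sgnQ κ) (O ∪ Z) with hAl
  have hset : O ∪ (E' ∪ Z) = (O ∪ E') ∪ Z := (union_assoc _ _ _).symm
  rw [hset] at hΘ
  have hsub : O ∪ Z ⊆ (O ∪ E') ∪ Z := union_subset_union_left subset_union_left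
  -- the products with the antisymmetrization
  have key : ∀ ρ : Equiv.Perm κ, ∃ v : ℚ, (ρ = 1 → v = ((b + 1 : ℕ) : ℚ) ^ E'.card) ∧
      (ρ ∈ fixF (O ∪ E') → Φ (Θ (tens h ((O ∪ E') ∪ Z) (fun _ => q) * (Al * perm ρ * y))) =
        (r * v) • (tens h Z (fun _ => q) * symS perm (sgnQ κ) Z) ∧
      |v| ≤ if ∀ a, ρ a ∈ O ↔ a ∈ O then (wd (b + 1) E' ρ : ℚ) else 0) := by
    intro ρ
    by_cases hρ : ρ ∈ fixF (O ∪ E')
    swap
    · refine ⟨((b + 1 : ℕ) : ℚ) ^ E'.card, fun _ => rfl, fun h => absurd h hρ⟩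
    by_cases hn : ∃ e ∈ E', ρ e ∈ O
    · obtain ⟨e, he, hx⟩ := hn
      refine ⟨0, ?_, fun _ => ⟨?_, ?_⟩⟩
      · rintro rfl
        exact absurd hx (disjoint_right.mp hOE he)
      · have h1 : insert (ρ e) Z ⊆ O ∪ Z := by
          intro x hx'
          rw [mem_insert] at hx'
          rcases hx' with rfl | hx'
          · exact mem_union_left _ hx
          · exact mem_union_right _ hx'
        have h2 := symS_mul_symS (perm := perm) (sgnQ κ) h1
        have h3 : (insert e Z).map ρ.toEmbedding = insert (ρ e) Z := by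
          have h4 : Z.map ρ.toEmbedding = Z := by
            refine eq_of_subset_of_card_le ?_ (by rw [card_map])
            intro x hx'
            rw [mem_map] at hx'
            obtain ⟨a, ha, rfl⟩ := hx'
            have h5 : ρ a = a := (mem_fixF.mp hρ) a (by
              rw [mem_union]
              rintro (h6 | h6)
              · exact disjoint_left.mp hOZ h6 ha
              · exact disjoint_left.mp hEZ h6 ha)
            show ρ a ∈ Z
            rw [h5]
            exact ha
          rw [map_insert, h4]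
          rfl
        have h4 := conj_symS perm (sgnQ κ) (insert e Z) ρ
        rw [h3] at h4
        have h5 : ((fixF (insert (ρ e) Z)).card : ℚ) • (Al * perm ρ * y) = 0 := by
          calc _ = (((fixF (insert (ρ e) Z)).card : ℚ) • Al) * perm ρ * y := by
                rw [smul_mul_assoc, smul_mul_assoc]
            _ = Al * (symS perm (sgnQ κ) (insert (ρ e) Z) * perm ρ) * y := by
                rw [← h2]; simp only [mul_assoc]; rfl
            _ = Al * perm ρ * (symS perm (sgnQ κ) (insert e Z) * y) := by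
                rw [← h4]; simp only [mul_assoc]
            _ = 0 := by rw [hy2 e he, mul_zero]
        have h6 : Al * perm ρ * y = 0 := by
          refine (smul_eq_zero.mp h5).resolve_left ?_
          have := fixF_card_pos (insert (ρ e) Z)
          exact_mod_cast this.ne'
        rw [h6, mul_zero, map_zero, map_zero, mul_zero, zero_smul]
      · rw [abs_zero]
        split_ifs
        · exact Nat.cast_nonneg _
        · exact le_refl _
    · obtain ⟨ρO, hρO, ρE, hρE, rfl⟩ := exists_split hρ hn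
      refine ⟨sgnQ κ ρO⁻¹ * (wd (b + 1) E' ρE : ℚ), ?_, fun _ => ⟨?_, ?_⟩⟩
      · intro h1
        have h2 : ρO = 1 := by
          ext a
          rw [Equiv.Perm.one_apply]
          by_cases ha : a ∈ O
          · have h3 : ρE a = a := (mem_fixF.mp hρE) a (disjoint_left.mp hOE ha)
            have h4 : (ρO * ρE) a = a := by rw [h1]; rfl
            rwa [Equiv.Perm.mul_apply, h3] at h4
          · exact (mem_fixF.mp hρO) a ha
        have h3 : ρE = 1 := by rwa [h2, one_mul] at h1
        rw [h2, h3, inv_one, map_one, one_mul, wd_one]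
        push_cast
        ring
      · have h1 : Al * perm ρO = sgnQ κ ρO⁻¹ • Al :=
          symS_mul_perm _ (fixF_mono subset_union_left hρO)
        have h2 : tens h ((O ∪ E') ∪ Z) (fun _ => q) * (Al * perm (ρO * ρE) * y) =
            sgnQ κ ρO⁻¹ • (tens h ((O ∪ E') ∪ Z) (fun _ => q) * Al * (perm ρE * y)) := by
          calc _ = tens h ((O ∪ E') ∪ Z) (fun _ => q) * ((Al * perm ρO) * (perm ρE * y)) := by
                rw [map_mul]; simp only [mul_assoc]
            _ = _ := by rw [h1, smul_mul_assoc, mul_smul_comm, mul_assoc]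
        rw [h2, map_smul, hΘ (perm ρE * y) fun o ho => mul_mem
          (perm_mem_away ((mem_fixF.mp hρE) o (disjoint_left.mp hOE ho)))
          (hy1 o (disjoint_left.mp hOT ho)), map_smul, map_smul, hy3 ρE hρE, smul_smul, smul_smul]
        congr 1
        ring
      · have h6 : |sgnQ κ ρO⁻¹| ≤ 1 := by
          rw [← sq_le_one_iff_abs_le_one, sgnQ_sq]
        have h7 : wd (b + 1) E' ρE = wd (b + 1) E' (ρO * ρE) := by
          unfold wd
          congr 1
          ext v
          rw [mem_fixSet, mem_fixSet]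
          refine and_congr_right fun hv => ?_
          have h8 : ∀ j, v ((ρO * ρE) j) = v (ρE j) := by
            intro j
            rw [Equiv.Perm.mul_apply]
            by_cases hj : ρE j ∈ O
            · have h9 : ∀ a ∈ O, v a = 0 := by
                intro a ha
                have := hv a
                rw [wt_notMem _ _ (disjoint_left.mp hOE ha)] at this
                omega
              rw [h9 _ hj, h9 _ (fixF_apply_mem hρO hj)]
            · rw [(mem_fixF.mp hρO) _ hj]
          exact ⟨fun h9 j => by rw [h8, h9], fun h9 j => by rw [← h8, h9]⟩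
        rw [if_pos, abs_mul, Nat.abs_cast, ← h7]
        · calc |sgnQ κ ρO⁻¹| * (wd (b + 1) E' ρE : ℚ) ≤ 1 * (wd (b + 1) E' ρE : ℚ) :=
              mul_le_mul_of_nonneg_right h6 (Nat.cast_nonneg _)
            _ = _ := one_mul _
        · intro a
          rw [Equiv.Perm.mul_apply]
          by_cases ha : a ∈ O
          · have h3 : ρE a = a := (mem_fixF.mp hρE) a (disjoint_left.mp hOE ha)
            rw [h3]
            exact ⟨fun _ => ha, fun _ => fixF_apply_mem hρO ha⟩
          · refine ⟨fun h7 => ?_, fun h7 => absurd h7 ha⟩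
            by_cases haE : a ∈ E'
            · have h8 : ρE a ∈ E' := fixF_apply_mem hρE haE
              have h9 : ρO (ρE a) = ρE a := (mem_fixF.mp hρO) _ (disjoint_right.mp hOE h8)
              rw [h9] at h7
              exact absurd h8 (disjoint_left.mp hOE h7)
            · have h8 : ρE a = a := (mem_fixF.mp hρE) a haE
              have h9 : ρO a = a := (mem_fixF.mp hρO) _ ha
              rw [h8, h9] at h7
              exact h7
  choose φ hφ using key
  refine ⟨r⁻¹ • (Φ ∘ₗ Θ ∘ₗ (LinearMap.mulLeft ℚ Al) ∘ₗ (LinearMap.mulRight ℚ y)), φ,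
    (hφ 1).1 rfl, ?_, fun ρ hρ => ((hφ ρ).2 hρ).2⟩
  intro ρ hρ
  rw [LinearMap.smul_apply, LinearMap.comp_apply, LinearMap.comp_apply, LinearMap.comp_apply,
    LinearMap.mulLeft_apply, LinearMap.mulRight_apply]
  have h4 : Al * (tens h ((O ∪ E') ∪ Z) (fun _ => q) * perm ρ * y) =
      tens h ((O ∪ E') ∪ Z) (fun _ => q) * (Al * perm ρ * y) := by
    have h5 : Al * tens h ((O ∪ E') ∪ Z) (fun _ => q) =
        tens h ((O ∪ E') ∪ Z) (fun _ => q) * Al := symS_comm_tens h _ hsub q
    calc _ = (Al * tens h ((O ∪ E') ∪ Z) (fun _ => q)) * perm ρ * y := by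
          simp only [mul_assoc]
      _ = _ := by rw [h5]; simp only [mul_assoc]
  rw [h4, ((hφ ρ).2 hρ).1, smul_smul]
  congr 1
  field_simp

end MPb197b4
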