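import Pool.Agent.Lib.MP_b197b4_nt.KTotal

/-!
# MP_b197b4_nt: the dimension of the span of the graphs of the permutations
-/

namespace MPb197b4

open Finset Module

set_option linter.unusedSectionVars false

variable {κ A E : Type*} [DecidableEq κ] [Fintype κ] [Ring A] [Algebra ℚ A] [Ring E] [Algebra ℚ E]
variable {tr : A →ₗ[ℚ] ℚ} {perm : Equiv.Perm κ →* E} {c : κ → A →ₐ[ℚ] E} {ptr : κ → E →ₗ[ℚ] E}

/-- a permutation with a stable set is a product -/
theorem exists_splitP (ρ : Equiv.Perm κ) (T : Finset κ) (hT : ∀ x, ρ x ∈ T ↔ x ∈ T) :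
    ∃ ρ1 ρ2 : Equiv.Perm κ, ρ = ρ1 * ρ2 ∧ (∀ x ∈ T, ρ1 x = ρ x) ∧ (∀ x, x ∉ T → ρ1 x = x) ∧
      (∀ x ∈ T, ρ2 x = x) ∧ (∀ x, x ∉ T → ρ2 x = ρ x) := by
  classical
  set ρ1 : Equiv.Perm κ := Equiv.Perm.ofSubtype (ρ.subtypePerm hT) with hρ1
  have h1 : ∀ x ∈ T, ρ1 x = ρ x := by
    intro x hx
    rw [hρ1, Equiv.Perm.ofSubtype_apply_of_mem (p := (· ∈ T)) _ hx]
    rfl
  have h2 : ∀ x, x ∉ T → ρ1 x = x := by
    intro x hx
    rw [hρ1, Equiv.Perm.ofSubtype_apply_of_not_mem (p := (· ∈ T)) _ hx]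
  refine ⟨ρ1, ρ1⁻¹ * ρ, by group, h1, h2, ?_, ?_⟩
  · intro x hx
    rw [Equiv.Perm.mul_apply, Equiv.Perm.inv_eq_iff_eq, h1 x hx]
  · intro x hx
    rw [Equiv.Perm.mul_apply, Equiv.Perm.inv_eq_iff_eq, h2 _ (fun h' => hx ((hT x).mp h'))]

/-- words on the two parts give words on the union -/
theorem fixSet_mul_le {b : Fin 3 → ℕ} {β : ℕ} (hb2 : b 2 = β) {Z : Finset κ} {g : κ → Fin 3}
    (hg : ∀ j ∈ Z, g j = 2) {ρ ρ1 ρ2 : Equiv.Perm κ} (hρ : ∀ j, g (ρ j) = g j)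
    (h1 : ∀ x ∈ low g, ρ1 x = ρ x) (h2 : ∀ x, x ∉ low g → ρ2 x = ρ x) :
    (fixSet b (low g) g ρ1).card *
      (fixSet ![β, 0, 0] ((low g)ᶜ \ Z) (gC ((low g)ᶜ \ Z)) ρ2).card ≤
      (fixSet b Zᶜ g ρ).card := by
  classical
  rw [← card_product]
  have hl : ∀ j, ρ j ∈ low g ↔ j ∈ low g := by
    intro j
    rw [mem_low, mem_low, hρ]
  have hZl : ∀ j ∈ Z, j ∉ low g := fun j hj h' => mem_low.mp h' (hg j hj)
  refine card_le_card_of_injOn (fun x => fun j => if j ∈ low g then x.1 j else x.2 j) ?_ ?_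
  · rintro ⟨v, w⟩ hx
    rw [mem_coe, mem_product, mem_fixSet, mem_fixSet] at hx
    obtain ⟨⟨hv, hv2⟩, hw, hw2⟩ := hx
    dsimp only at hv hv2 hw hw2
    rw [mem_coe, mem_fixSet]
    refine ⟨fun j => ?_, fun j => ?_⟩
    · dsimp only
      by_cases hj : j ∈ low g
      · rw [if_pos hj, wt_mem _ _ (mem_compl.mpr fun h' => hZl j h' hj)]
        have := hv j
        rwa [wt_mem _ _ hj] at this
      · rw [if_neg hj]
        have := hw j
        by_cases hjZ : j ∈ Z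
        · rw [wt_notMem _ _ (fun h' => (mem_sdiff.mp h').2 hjZ)] at this
          rw [wt_notMem _ _ (fun h' => (mem_compl.mp h') hjZ)]
          exact this
        · have hj' : j ∈ (low g)ᶜ \ Z := mem_sdiff.mpr ⟨mem_compl.mpr hj, hjZ⟩
          rw [wt_mem _ _ hj'] at this
          rw [wt_mem _ _ (mem_compl.mpr hjZ)]
          have h5 : g j = 2 := by
            rw [mem_low, not_not] at hj
            exact hj
          have h6 : gC ((low g)ᶜ \ Z) j = 0 := by unfold gC; rw [if_pos hj']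
          rw [h6] at this
          rw [h5, hb2]
          exact this
    · dsimp only
      by_cases hj : j ∈ low g
      · rw [if_pos hj, if_pos ((hl j).mpr hj), ← h1 j hj, hv2]
      · rw [if_neg hj, if_neg fun h' => hj ((hl j).mp h'), ← h2 j hj, hw2]
  · rintro ⟨v, w⟩ hx ⟨v', w'⟩ hx' hww
    rw [mem_coe, mem_product, mem_fixSet, mem_fixSet] at hx hx'
    obtain ⟨⟨hv, -⟩, hw, -⟩ := hx
    obtain ⟨⟨hv', -⟩, hw', -⟩ := hx'
    dsimp only at hv hw hv' hw'
    refine Prod.ext (funext fun j => ?_) (funext fun j => ?_)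
    · have h3 := congrFun hww j
      by_cases hj : j ∈ low g
      · simpa only [if_pos hj] using h3
      · have e1 := hv j
        have e2 := hv' j
        rw [wt_notMem _ _ hj] at e1 e2
        dsimp only
        omega
    · have h3 := congrFun hww j
      by_cases hj : j ∈ low g
      · have e1 := hw j
        have e2 := hw' j
        rw [wt_notMem _ _ (fun h' => (mem_compl.mp (mem_sdiff.mp h').1) hj)] at e1 e2
        dsimp only
        omega
      · simpa only [if_neg hj] using h3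

/-- the words with colours -/
theorem sum_fixSet_le (b : Fin 3 → ℕ) (Z : Finset κ) {ρ : Equiv.Perm κ} (hρ : ρ ∈ fixF Zᶜ) :
    ∑ g ∈ Fintype.piFinset (fun j => if j ∈ Z then ({2} : Finset (Fin 3)) else univ),
      (if ∀ j, g (ρ j) = g j then (fixSet b Zᶜ g ρ).card else 0) ≤
      (fixSet ![b 0 + b 1 + b 2, 0, 0] Zᶜ (gC Zᶜ) ρ).card := by
  classical
  rw [← sum_filter, ← card_sigma]
  set off : Fin 3 → ℕ := ![0, b 0, b 0 + b 1] with hoff
  have hoffb : ∀ a, off a + b a ≤ b 0 + b 1 + b 2 := by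
    intro a
    fin_cases a <;> simp [hoff]
    omega
  have hinj : ∀ a a' x x', x < b a → x' < b a' → off a + x = off a' + x' → a = a' ∧ x = x' := by
    intro a a' x x' hx hx' he
    fin_cases a <;> fin_cases a' <;> simp [hoff] at hx hx' he ⊢ <;> omega
  have hρZ : ∀ j, ρ j ∈ Z ↔ j ∈ Z := by
    intro j
    constructor
    · intro h'
      by_contra hj
      exact (mem_compl.mp (fixF_apply_mem hρ (mem_compl.mpr hj))) h'
    · intro h'
      rw [(mem_fixF.mp hρ) j (fun h'' => (mem_compl.mp h'') h')]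
      exact h'
  refine card_le_card_of_injOn (fun x => fun j => if j ∈ Z then 0 else off (x.1 j) + x.2 j) ?_ ?_
  · rintro ⟨g, w⟩ hx
    rw [mem_coe, mem_sigma, mem_filter, mem_fixSet] at hx
    obtain ⟨⟨-, hg⟩, hw, hw2⟩ := hx
    dsimp only at hg hw hw2
    rw [mem_coe, mem_fixSet]
    refine ⟨fun j => ?_, fun j => ?_⟩
    · dsimp only
      by_cases hj : j ∈ Z
      · rw [if_pos hj, wt_notMem _ _ (fun h' => (mem_compl.mp h') hj)]
        exact one_pos
      · have hj' := mem_compl.mpr hj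
        have e1 := hw j
        rw [wt_mem _ _ hj'] at e1
        have e2 := hoffb (g j)
        have e3 : gC Zᶜ j = 0 := by unfold gC; rw [if_pos hj']
        rw [if_neg hj, wt_mem _ _ hj', e3]
        show _ < b 0 + b 1 + b 2
        omega
    · dsimp only
      by_cases hj : j ∈ Z
      · rw [if_pos hj, if_pos ((hρZ j).mpr hj)]
      · rw [if_neg hj, if_neg (fun h' => hj ((hρZ j).mp h')), hg, hw2]
  · rintro ⟨g, w⟩ hx ⟨g', w'⟩ hx' hww
    rw [mem_coe, mem_sigma, mem_filter, Fintype.mem_piFinset, mem_fixSet] at hx hx'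
    obtain ⟨⟨hg, -⟩, hw, -⟩ := hx
    obtain ⟨⟨hg', -⟩, hw', -⟩ := hx'
    dsimp only at hg hw hg' hw'
    have key : ∀ j, g j = g' j ∧ w j = w' j := by
      intro j
      have h3 := congrFun hww j
      dsimp only at h3
      by_cases hj : j ∈ Z
      · have e1 := hg j
        have e2 := hg' j
        rw [if_pos hj, mem_singleton] at e1 e2
        have e3 := hw j
        have e4 := hw' j
        rw [wt_notMem _ _ (fun h' => (mem_compl.mp h') hj)] at e3 e4
        exact ⟨e1.trans e2.symm, by omega⟩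
      · rw [if_neg hj, if_neg hj] at h3
        have e3 := hw j
        have e4 := hw' j
        rw [wt_mem _ _ (mem_compl.mpr hj)] at e3 e4
        exact hinj _ _ _ _ e3 e4 h3
    have hgg : g = g' := funext fun j => (key j).1
    subst hgg
    have hww' : w = w' := funext fun j => (key j).2
    rw [hww']

/-- **The functional of a coloured word.** -/
theorem exists_wordL (h : IsPower tr perm c ptr) {q : Fin 3 → A}
    (hq : ∀ a, q a * q a = q a) (hq' : ∀ a a', a ≠ a' → q a * q a' = 0)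
    {β : ℕ} (htr2 : tr (q 2) = (β : ℚ)) {Z : Finset κ} (hZ : Z.card = β + 1)
    (hAlt : tens h Z (fun _ => q 2) * symS perm (sgnQ κ) Z ≠ 0)
    {b : Fin 3 → ℕ} (hb : ∀ a, a ≠ 2 → (tr (q a)) ^ 2 = ((b a : ℕ) : ℚ) ^ 2) (hb2 : b 2 = β + 2)
    {g : κ → Fin 3} (hg : ∀ j ∈ Z, g j = 2) :
    ∃ L : E →ₗ[ℚ] ℚ, L (perm 1) = ((∏ j ∈ Zᶜ, b (g j) : ℕ) : ℚ) ∧
      ∀ ρ ∈ fixF Zᶜ, |L (perm ρ)| ≤
        if ∀ j, g (ρ j) = g j then ((fixSet b Zᶜ g ρ).card : ℚ) else 0 := by
  classical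
  set C : Finset κ := (low g)ᶜ with hC
  have hCmem : ∀ j, j ∈ C ↔ g j = 2 := by
    intro j
    rw [hC, mem_compl, mem_low, not_not]
  have hZC : Z ⊆ C := fun j hj => (hCmem j).mpr (hg j hj)
  set C' : Finset κ := C \ Z with hC'
  have hCZ' : Disjoint C' Z := sdiff_disjoint
  have hins : C' ∪ Z = C := sdiff_union_of_subset hZC
  have hC'C : ∀ j ∈ C', j ∈ C := fun j hj => (mem_sdiff.mp hj).1
  have hTC : Disjoint (low g) C := disjoint_compl_right
  obtain ⟨Φ1, v, h1, h2, h3, h3'⟩ := exists_trace2 h hq (b := b) (g := g) (low g) C hTC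
    (fun j hj => hb _ (mem_low.mp hj))
  obtain ⟨Φ2, ψ, hψ1, hψ2, hψ3⟩ := exists_phantomK h (hq 2) htr2 hZ hCZ'
  have hu : low g ∪ C = univ := union_compl _
  rw [hu] at h1
  have htC : tens h C (fun j => q (g j)) = tens h (C' ∪ Z) (fun _ => q 2) := by
    rw [hins]
    exact tens_congr h fun j hj => by rw [(hCmem j).mp hj]
  set e0 : E := tens h Z (fun _ => q 2) * symS perm (sgnQ κ) Z with he0
  obtain ⟨ℓ, hℓ⟩ : ∃ ℓ : E →ₗ[ℚ] ℚ, ℓ e0 = 1 := by
    obtain ⟨f, hf⟩ : ∃ f : Module.Dual ℚ E, f e0 ≠ 0 := by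
      by_contra hcon
      push Not at hcon
      exact hAlt ((Module.forall_dual_apply_eq_zero_iff ℚ _).mp hcon)
    refine ⟨(f e0)⁻¹ • f, ?_⟩
    rw [LinearMap.smul_apply, smul_eq_mul, inv_mul_cancel₀ hf]
  -- the value at a product of two permutations
  have hval : ∀ a ∈ Good (low g) g, ∀ d ∈ fixF C',
      ℓ (Φ2 (Φ1 (eg h q g * perm (a * d)))) = v a * ψ d := by
    intro a ha d hd
    rw [map_mul perm, ← mul_assoc, h3' _ _ fun j hj => ?_]
    · unfold eg
      rw [h1 a ha, smul_mul_assoc, htC, map_smul, hψ1 d hd, map_smul, map_smul, hℓ,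
        smul_eq_mul, smul_eq_mul, mul_one]
    · refine (mem_fixF.mp hd) j fun hx' => ?_
      have : j ∈ C := hC'C j hx'
      rw [hC, mem_compl] at this
      exact this hj
  -- the functional up to sign
  set L0 : E →ₗ[ℚ] ℚ := ℓ ∘ₗ Φ2 ∘ₗ Φ1 ∘ₗ (LinearMap.mulRight ℚ (eg h q g)) ∘ₗ
    (LinearMap.mulLeft ℚ (eg h q g)) with hL0
  have hL0a : ∀ x, L0 x = ℓ (Φ2 (Φ1 (eg h q g * x * eg h q g))) := fun x => rfl
  have hgood : ∀ ρ : Equiv.Perm κ, (∀ j, g (ρ j) = g j) →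
      eg h q g * perm ρ * eg h q g = eg h q g * perm ρ := by
    intro ρ hρ
    have h8 : perm ρ * eg h q g = eg h q g * perm ρ := by
      rw [eg_mul_perm]
      congr 2
      funext j
      have := hρ (ρ.symm j)
      rw [Equiv.apply_symm_apply] at this
      exact this.symm
    rw [mul_assoc, h8, ← mul_assoc, eg_mul_self h hq]
  have hbad : ∀ ρ : Equiv.Perm κ, ¬ (∀ j, g (ρ j) = g j) →
      eg h q g * perm ρ * eg h q g = 0 := by
    intro ρ hρ
    rw [mul_assoc, eg_mul_perm, ← mul_assoc, eg_mul_ne h hq' ?_, zero_mul]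
    intro h'
    refine hρ fun j => ?_
    have := congrFun h' (ρ j)
    rw [Equiv.symm_apply_apply] at this
    exact this
  have hone : L0 (perm 1) = v 1 * ψ 1 := by
    rw [hL0a, hgood 1 (fun _ => rfl), ← mul_one (1 : Equiv.Perm κ)]
    exact hval 1 (one_mem _) 1 (mem_fixF.mpr fun _ _ => rfl)
  have hbd : ∀ ρ ∈ fixF Zᶜ, |L0 (perm ρ)| ≤
      if ∀ j, g (ρ j) = g j then ((fixSet b Zᶜ g ρ).card : ℚ) else 0 := by
    intro ρ hρ
    split_ifs with hgρ
    swap
    · rw [hL0a, hbad ρ hgρ, map_zero, map_zero, map_zero, abs_zero]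
    have hT : ∀ x, ρ x ∈ low g ↔ x ∈ low g := by
      intro x
      rw [mem_low, mem_low, hgρ]
    obtain ⟨ρ1, ρ2, e0', e1, e2, e3, e4⟩ := exists_splitP ρ (low g) hT
    have m1 : ρ1 ∈ Good (low g) g := by
      rw [mem_Good]
      refine ⟨e2, fun a => ?_⟩
      by_cases ha : a ∈ low g
      · rw [e1 a ha, hgρ]
      · rw [e2 a ha]
    have m2 : ρ2 ∈ fixF C' := by
      rw [mem_fixF]
      intro a ha
      by_cases ha' : a ∈ low g
      · exact e3 a ha'
      · rw [e4 a ha']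
        refine (mem_fixF.mp hρ) a fun h' => ha ?_
        exact mem_sdiff.mpr ⟨mem_compl.mpr ha', mem_compl.mp h'⟩
    rw [hL0a, hgood ρ hgρ, e0', hval ρ1 m1 ρ2 m2, abs_mul, ← e0']
    have f1 : |v ρ1| = ((fixSet b (low g) g ρ1).card : ℚ) := by
      rw [← abs_of_nonneg (Nat.cast_nonneg (α := ℚ) (fixSet b (low g) g ρ1).card)]
      exact (sq_eq_sq_iff_abs_eq_abs _ _).mp (h2 ρ1 m1)
    have f2 : |ψ ρ2| ≤ ((fixSet ![β + 2, 0, 0] C' (gC C') ρ2).card : ℚ) := by
      rw [← abs_of_nonneg (Nat.cast_nonneg (α := ℚ) (fixSet ![β + 2, 0, 0] C' (gC C') ρ2).card)]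
      exact sq_le_sq.mp (hψ2 ρ2 m2)
    have f3 := fixSet_mul_le (b := b) (β := β + 2) hb2 hg hgρ e1 e4
    rw [f1]
    calc ((fixSet b (low g) g ρ1).card : ℚ) * |ψ ρ2| ≤
        ((fixSet b (low g) g ρ1).card : ℚ) * ((fixSet ![β + 2, 0, 0] C' (gC C') ρ2).card : ℚ) :=
          mul_le_mul_of_nonneg_left f2 (Nat.cast_nonneg _)
      _ ≤ _ := by exact_mod_cast f3
  have habs : |v 1 * ψ 1| = ((∏ j ∈ Zᶜ, b (g j) : ℕ) : ℚ) := by
    have g1 : |v 1| = ((∏ j ∈ low g, b (g j) : ℕ) : ℚ) := by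
      rw [← abs_of_nonneg (Nat.cast_nonneg (α := ℚ) (∏ j ∈ low g, b (g j)))]
      refine (sq_eq_sq_iff_abs_eq_abs _ _).mp ?_
      rw [h3]
      push_cast
      rw [prod_pow]
    have g2 : |ψ 1| = ((∏ j ∈ C', b (g j) : ℕ) : ℚ) := by
      rw [hψ3, abs_of_nonneg (by positivity)]
      push_cast
      rw [← prod_const]
      refine prod_congr rfl fun j hj => ?_
      rw [(hCmem j).mp (hC'C j hj), hb2]
      push_cast
      rfl
    rw [abs_mul, g1, g2, ← Nat.cast_mul, ← prod_union (disjoint_of_subset_right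
      (fun j hj => hC'C j hj) hTC)]
    congr 2
    ext j
    rw [mem_union, mem_low, mem_sdiff, hCmem, mem_compl]
    constructor
    · rintro (h' | ⟨-, h'⟩)
      · exact fun h'' => h' (hg j h'')
      · exact h'
    · intro h'
      by_cases h'' : g j = 2
      · exact Or.inr ⟨h'', h'⟩
      · exact Or.inl h''
  rcases le_or_gt 0 (v 1 * ψ 1) with hs | hs
  · refine ⟨L0, ?_, hbd⟩
    rw [hone, ← habs, abs_of_nonneg hs]
  · refine ⟨-L0, ?_, fun ρ hρ => ?_⟩
    · rw [LinearMap.neg_apply, hone, ← habs, abs_of_neg hs]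
    · rw [LinearMap.neg_apply, abs_neg]
      exact hbd ρ hρ

/-- the span of the graphs of the permutations -/
noncomputable def permSpan (perm : Equiv.Perm κ →* E) : Submodule ℚ E :=
  Submodule.span ℚ (Set.range perm)

instance (perm : Equiv.Perm κ →* E) : FiniteDimensional ℚ (permSpan perm) :=
  FiniteDimensional.span_of_finite ℚ (Set.finite_range _)

theorem perm_mem_span (perm : Equiv.Perm κ →* E) (σ : Equiv.Perm κ) : perm σ ∈ permSpan perm :=
  Submodule.subset_span ⟨σ, rfl⟩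

/-- a functional with small values gives a lower bound -/
theorem span_bound {Z : Finset κ} {n : ℕ} (L : E →ₗ[ℚ] ℚ)
    (h1 : L (perm 1) = ((n ^ (Zᶜ).card : ℕ) : ℚ))
    (h2 : ∀ ρ ∈ fixF Zᶜ, |L (perm ρ)| ≤ ((fixSet ![n, 0, 0] Zᶜ (gC Zᶜ) ρ).card : ℚ)) :
    n ^ (2 * (Zᶜ).card) ≤ finrank ℚ (permSpan perm) * (Fintype.card κ + 1) ^ (n ^ 2) := by
  classical
  set U : Finset κ := Zᶜ with hU
  have hlow : low (gC U) = U := by
    ext j
    rw [mem_low]
    unfold gC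
    by_cases hj : j ∈ U <;> simp [hj]
  set Γ := Good (low (gC U)) (gC U) with hΓ
  have hΓf : ∀ ρ ∈ Γ, ρ ∈ fixF U := by
    intro ρ hρ
    rw [mem_fixF]
    intro a ha
    exact hρ.1 a (by rwa [hlow])
  let X : Γ → permSpan perm := fun ρ => ⟨perm ρ.1, perm_mem_span perm _⟩
  let L' : (Γ → ℚ) →ₗ[ℚ] permSpan perm := ∑ s : Γ, (LinearMap.proj s).smulRight (X s)
  let M : permSpan perm →ₗ[ℚ] (Γ → ℚ) := LinearMap.pi fun t =>
    L ∘ₗ (LinearMap.mulRight ℚ (perm (t.1)⁻¹)) ∘ₗ (permSpan perm).subtype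
  let G : Matrix Γ Γ ℚ := Matrix.of fun t s => L (perm (s.1 * t.1⁻¹))
  have hG : ∀ t s, G t s = L (perm (s.1 * t.1⁻¹)) := fun _ _ => rfl
  have hML : G.mulVecLin = M ∘ₗ L' := by
    refine LinearMap.ext fun x => funext fun t => ?_
    rw [Matrix.mulVecLin_apply, Matrix.mulVec, dotProduct]
    simp only [L', M, LinearMap.comp_apply, LinearMap.pi_apply, LinearMap.sum_apply,
      LinearMap.smulRight_apply, LinearMap.proj_apply, map_sum, map_smul]
    refine sum_congr rfl fun s _ => ?_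
    rw [smul_eq_mul, mul_comm]
    congr 1
    show _ = L (perm s.1 * perm (t.1)⁻¹)
    rw [← map_mul]
    exact hG t s
  have hrank : G.rank ≤ finrank ℚ (permSpan perm) := by
    rw [Matrix.rank, hML]
    calc finrank ℚ (LinearMap.range (M ∘ₗ L')) ≤ finrank ℚ (LinearMap.range M) := by
          refine Submodule.finrank_mono ?_
          exact LinearMap.range_comp_le_range L' M
      _ ≤ finrank ℚ (permSpan perm) := LinearMap.finrank_range_le M
  set R : Matrix Γ Γ ℝ := G.map (algebraMap ℚ ℝ) with hR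
  have hRr : R.rank = G.rank := rank_map' _ _
  have h7 := trace_sq_le R
  have h8 : R.trace = (Fintype.card Γ : ℝ) * ((L (perm 1) : ℚ) : ℝ) := by
    rw [Matrix.trace]
    have : ∀ t : Γ, R.diag t = ((L (perm 1) : ℚ) : ℝ) := by
      intro t
      rw [Matrix.diag_apply, hR, Matrix.map_apply, hG, mul_inv_cancel]
      rfl
    rw [sum_congr rfl fun t _ => this t, sum_const, card_univ, nsmul_eq_mul]
  have h9 : ∑ t, ∑ s, R t s ^ 2 = (Fintype.card Γ : ℝ) *
      ∑ ρ : Γ, ((L (perm ρ.1) : ℚ) : ℝ) ^ 2 := by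
    have : ∀ t : Γ, ∑ s, R t s ^ 2 = ∑ ρ : Γ, ((L (perm ρ.1) : ℚ) : ℝ) ^ 2 := by
      intro t
      refine Fintype.sum_equiv (Equiv.mulRight t⁻¹) _ _ fun s => ?_
      rw [hR, Matrix.map_apply, hG]
      rfl
    rw [sum_congr rfl fun t _ => this t, sum_const, card_univ, nsmul_eq_mul]
  have hb2 := burnside ![n, 0, 0] (gC U)
  have hK2 : (![n, 0, 0] : Fin 3 → ℕ) 0 * (![n, 0, 0] : Fin 3 → ℕ) 0 +
      (![n, 0, 0] : Fin 3 → ℕ) 1 * (![n, 0, 0] : Fin 3 → ℕ) 1 = n ^ 2 := by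
    simp [sq]
  rw [hK2] at hb2
  have h12 : ∑ ρ : Γ, ((L (perm ρ.1) : ℚ) : ℝ) ^ 2 ≤
      ((Fintype.card κ + 1 : ℕ) : ℝ) ^ (n ^ 2) * (Fintype.card Γ : ℝ) := by
    have h13 : ∀ ρ : Γ, ((L (perm ρ.1) : ℚ) : ℝ) ^ 2 ≤
        (((fixSet ![n, 0, 0] (low (gC U)) (gC U) ρ.1).card : ℕ) : ℝ) ^ 2 := by
      intro ρ
      have e1 := h2 ρ.1 (hΓf _ ρ.2)
      rw [hlow]
      have e2 : (L (perm ρ.1)) ^ 2 ≤ (((fixSet ![n, 0, 0] U (gC U) ρ.1).card : ℕ) : ℚ) ^ 2 := by
        rw [sq_le_sq, Nat.abs_cast]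
        exact e1
      exact_mod_cast e2
    refine (sum_le_sum fun ρ _ => h13 ρ).trans ?_
    exact_mod_cast hb2
  have hΓpos : 0 < (Fintype.card Γ : ℝ) := by
    exact_mod_cast Fintype.card_pos
  rw [h8, h9, hRr] at h7
  have h13 : ((L (perm 1) : ℚ) : ℝ) ^ 2 ≤ (finrank ℚ (permSpan perm) : ℝ) *
      ((Fintype.card κ + 1 : ℕ) : ℝ) ^ (n ^ 2) :=
    num_step hΓpos (Nat.cast_le.mpr hrank) h12 (Nat.cast_nonneg _)
      (Finset.sum_nonneg fun ρ _ => sq_nonneg _) h7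
  rw [h1] at h13
  have h14 : (((n ^ U.card : ℕ) : ℝ)) ^ 2 ≤ (finrank ℚ (permSpan perm) : ℝ) *
      ((Fintype.card κ + 1 : ℕ) : ℝ) ^ (n ^ 2) := by exact_mod_cast h13
  have h15 : (n ^ U.card) ^ 2 ≤ finrank ℚ (permSpan perm) * (Fintype.card κ + 1) ^ (n ^ 2) := by
    exact_mod_cast h14
  rwa [← pow_mul, mul_comm U.card 2] at h15

/-- **The dimension of the span of the graphs of the permutations.** -/
theorem perm_bound [Nontrivial E] (h : IsPower tr perm c ptr) {q : Fin 3 → A}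
    (hq : ∀ a, q a * q a = q a) (hq' : ∀ a a', a ≠ a' → q a * q a' = 0)
    {β : ℕ} (htr2 : tr (q 2) = (β : ℚ))
    (hAlt : ∀ Z : Finset κ, Z.card = β + 1 →
      tens h Z (fun _ => q 2) * symS perm (sgnQ κ) Z ≠ 0)
    {b0 b1 : ℕ} (hb0 : tr (q 0) ^ 2 = (b0 : ℚ) ^ 2) (hb1 : tr (q 1) ^ 2 = (b1 : ℚ) ^ 2) :
    (b0 + b1 + (β + 2)) ^ (2 * Fintype.card κ) ≤
      finrank ℚ (permSpan perm) * ((b0 + b1 + (β + 2)) ^ (2 * (β + 1)) *
        (Fintype.card κ + 1) ^ ((b0 + b1 + (β + 2)) ^ 2)) := by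
  classical
  set n := b0 + b1 + (β + 2) with hn
  rcases lt_or_ge (Fintype.card κ) (β + 1) with hlt | hge
  · have h1 : 1 ≤ finrank ℚ (permSpan perm) := by
      have : Nontrivial (permSpan perm) := by
        refine ⟨⟨perm 1, perm_mem_span perm 1⟩, 0, fun h' => ?_⟩
        have h'' : perm 1 = 0 := congrArg Subtype.val h'
        rw [map_one] at h''
        exact one_ne_zero h''
      exact Module.finrank_pos
    have h2 : 1 ≤ (Fintype.card κ + 1) ^ (n ^ 2) := Nat.pow_pos (Nat.succ_pos _)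
    calc n ^ (2 * Fintype.card κ) ≤ n ^ (2 * (β + 1)) :=
          Nat.pow_le_pow_right (by omega) (by omega)
      _ = 1 * (n ^ (2 * (β + 1)) * 1) := by rw [one_mul, mul_one]
      _ ≤ _ := Nat.mul_le_mul h1 (Nat.mul_le_mul_left _ h2)
  obtain ⟨Z, -, hZ⟩ := exists_subset_card_eq (s := (univ : Finset κ)) (n := β + 1)
    (by rw [card_univ]; exact hge)
  set b : Fin 3 → ℕ := ![b0, b1, β + 2] with hb
  have hb' : ∀ a, a ≠ 2 → (tr (q a)) ^ 2 = ((b a : ℕ) : ℚ) ^ 2 := by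
    intro a ha
    have ha' : a = 0 ∨ a = 1 := by omega
    rcases ha' with rfl | rfl
    · exact hb0
    · exact hb1
  have hbn : b 0 + b 1 + b 2 = n := by simp [hb, hn]
  set 𝒢 := Fintype.piFinset (fun j => if j ∈ Z then ({2} : Finset (Fin 3)) else univ) with h𝒢
  have h𝒢' : ∀ g ∈ 𝒢, ∀ j ∈ Z, g j = 2 := by
    intro g hg j hj
    have := Fintype.mem_piFinset.mp hg j
    rwa [if_pos hj, mem_singleton] at this
  have hex : ∀ g : κ → Fin 3, ∃ L : E →ₗ[ℚ] ℚ, g ∈ 𝒢 →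
      (L (perm 1) = ((∏ j ∈ Zᶜ, b (g j) : ℕ) : ℚ) ∧
      ∀ ρ ∈ fixF Zᶜ, |L (perm ρ)| ≤
        if ∀ j, g (ρ j) = g j then ((fixSet b Zᶜ g ρ).card : ℚ) else 0) := by
    intro g
    by_cases hg : g ∈ 𝒢
    · obtain ⟨L, hL⟩ := exists_wordL h hq hq' htr2 hZ (hAlt Z hZ) hb' (by simp [hb])
        (h𝒢' g hg)
      exact ⟨L, fun _ => hL⟩
    · exact ⟨0, fun h' => absurd h' hg⟩
  choose L hL using hex
  have hc : (Zᶜ).card + (β + 1) = Fintype.card κ := by
    rw [card_compl, hZ]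
    omega
  have h5 := span_bound (perm := perm) (Z := Z) (n := n) (∑ g ∈ 𝒢, L g) ?_ ?_
  · calc n ^ (2 * Fintype.card κ) = n ^ (2 * (β + 1)) * n ^ (2 * (Zᶜ).card) := by
          rw [← hc, ← pow_add]
          congr 1
          ring
      _ ≤ n ^ (2 * (β + 1)) * (finrank ℚ (permSpan perm) * (Fintype.card κ + 1) ^ (n ^ 2)) :=
          Nat.mul_le_mul_left _ h5
      _ = _ := by ring
  · rw [LinearMap.sum_apply, sum_congr rfl fun g hg => (hL g hg).1, ← Nat.cast_sum]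
    congr 1
    have h6 := prod_univ_sum (fun j => if j ∈ Z then ({2} : Finset (Fin 3)) else univ)
      (fun j a => if j ∈ Z then 1 else b a)
    have h7 : ∀ g ∈ 𝒢, ∏ j ∈ Zᶜ, b (g j) = ∏ j, (if j ∈ Z then 1 else b (g j)) := by
      intro g _
      rw [← prod_mul_prod_compl Z (fun j => if j ∈ Z then 1 else b (g j))]
      rw [prod_congr rfl fun j hj => if_pos hj, prod_const_one, one_mul]
      exact prod_congr rfl fun j hj => (if_neg (mem_compl.mp hj)).symm
    rw [sum_congr rfl h7, ← h6, ← prod_mul_prod_compl Z]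
    have h8 : ∏ j ∈ Z, ∑ a ∈ (if j ∈ Z then ({2} : Finset (Fin 3)) else univ),
        (if j ∈ Z then 1 else b a) = 1 := by
      refine prod_eq_one fun j hj => ?_
      rw [if_pos hj, sum_singleton, if_pos hj]
    have h9 : ∏ j ∈ Zᶜ, ∑ a ∈ (if j ∈ Z then ({2} : Finset (Fin 3)) else univ),
        (if j ∈ Z then 1 else b a) = n ^ (Zᶜ).card := by
      rw [← prod_const]
      refine prod_congr rfl fun j hj => ?_
      rw [if_neg (mem_compl.mp hj), sum_congr rfl fun a _ => if_neg (mem_compl.mp hj),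
        Fin.sum_univ_three, hbn]
    rw [h8, h9, one_mul]
  · intro ρ hρ
    rw [LinearMap.sum_apply]
    refine (abs_sum_le_sum_abs _ _).trans ?_
    refine (sum_le_sum fun g hg => (hL g hg).2 ρ hρ).trans ?_
    have h6 := sum_fixSet_le b Z hρ
    rw [hbn] at h6
    exact_mod_cast h6

end MPb197b4
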