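import Pool.Agent.Lib.MP_b197b4_nt.Tower

/-!
# MP_b197b4_nt: the quotient of a power by a polynomial in one correspondence
-/

namespace MPb197b4

open Finset Polynomial Module

universe v

variable {κ A : Type*} {E : Type v} [DecidableEq κ] [Fintype κ] [Ring A] [Algebra ℚ A] [Ring E]
  [Algebra ℚ E]
variable {tr : A →ₗ[ℚ] ℚ} {perm : Equiv.Perm κ →* E} {c : κ → A →ₐ[ℚ] E} {ptr : κ → E →ₗ[ℚ] E}

omit [Fintype κ] in
theorem tens_mul_c (h : IsPower tr perm c ptr) {T : Finset κ} {i : κ} (hi : i ∈ T) (y : κ → A)
    (x : A) : tens h T y * c i x = tens h T (Function.update y i (y i * x)) := by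
  have h1 : tens h (T.erase i) y = tens h (T.erase i) (Function.update y i (y i * x)) := by
    refine tens_congr h fun k hk => ?_
    rw [Function.update_of_ne (ne_of_mem_erase hk)]
  have h2 := tens_insert h (notMem_erase i T) y
  have h3 := tens_insert h (notMem_erase i T) (Function.update y i (y i * x))
  rw [insert_erase hi] at h2 h3
  rw [h2, h3, ← h1, Function.update_self, mul_assoc, ← tens_comm_at h (notMem_erase i T),
    ← mul_assoc, ← map_mul]

theorem tens_split (h : IsPower tr perm c ptr) (j : κ) (y : κ → A) :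
    tens h univ y = c j (y j) * tens h (univ.erase j) y := by
  have h2 := tens_insert h (notMem_erase j univ) y
  rwa [insert_erase (mem_univ j)] at h2

theorem tens_erase (h : IsPower tr perm c ptr) (j : κ) (y : κ → A) :
    tens h (univ.erase j) y = tens h univ (Function.update y j 1) := by
  rw [tens_split h j, Function.update_self, map_one, one_mul]
  refine tens_congr h fun k hk => ?_
  rw [Function.update_of_ne (ne_of_mem_erase hk)]

/-- the monomials in the correspondences `y j (F)` and in the permutations -/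
noncomputable def mon (h : IsPower tr perm c ptr) (F : A) (y : κ → ℚ[X]) (s : Equiv.Perm κ) : E :=
  tens h univ (fun j => aeval F (y j)) * perm s

theorem mon_mul (h : IsPower tr perm c ptr) (F : A) (y z : κ → ℚ[X]) (s u : Equiv.Perm κ) :
    mon h F y s * mon h F z u = mon h F (fun j => y j * z (s.symm j)) (s * u) := by
  unfold mon
  have h1 := conj_tens h s univ (fun j => aeval F (z j))
  have h2 : univ.map s.toEmbedding = univ := by simp
  rw [h2] at h1
  calc tens h univ (fun j => aeval F (y j)) * perm s *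
        (tens h univ (fun j => aeval F (z j)) * perm u)
      = tens h univ (fun j => aeval F (y j)) *
        (perm s * tens h univ (fun j => aeval F (z j))) * perm u := by simp only [mul_assoc]
    _ = (tens h univ (fun j => aeval F (y j)) *
        tens h univ (fun j => aeval F (z (s.symm j)))) * (perm s * perm u) := by
      rw [h1]; simp only [mul_assoc]
    _ = _ := by
      rw [tens_mul, ← map_mul perm]
      simp only [← map_mul]

omit [Fintype κ] in
theorem upd_aeval (F : A) (y : κ → ℚ[X]) (i : κ) (x : ℚ[X]) :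
    Function.update (fun k => aeval F (y k)) i (aeval F x) =
      fun k => aeval F (Function.update y i x k) := by
  funext k
  by_cases hk : k = i
  · subst hk; rw [Function.update_self, Function.update_self]
  · rw [Function.update_of_ne hk, Function.update_of_ne hk]

theorem ptr_mon_fixed (h : IsPower tr perm c ptr) (F : A) (y : κ → ℚ[X]) {s : Equiv.Perm κ}
    {j : κ} (hs : s j = j) :
    ptr j (mon h F y s) = tr (aeval F (y j)) • mon h F (Function.update y j 1) s := by
  have h1 := ptr_fixed h (notMem_erase j univ) (fun k => aeval F (y k)) hs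
  rw [insert_erase (mem_univ j)] at h1
  unfold mon
  rw [h1, tens_erase, ← upd_aeval, map_one]

theorem ptr_mon_moved (h : IsPower tr perm c ptr) (F : A) (y : κ → ℚ[X]) {s : Equiv.Perm κ}
    {j : κ} (hs : s j ≠ j) :
    ptr j (mon h F y s) =
      mon h F (Function.update (Function.update y (s j) (y (s j) * y j)) j 1)
        (Equiv.swap (s j) j * s) := by
  set i := s j with hi
  set ρ' := Equiv.swap i j * s with hρ'
  set Y : κ → A := fun k => aeval F (y k) with hY
  have h1 : perm s = perm (Equiv.swap i j) * perm ρ' := by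
    rw [← map_mul, hρ', ← mul_assoc, Equiv.swap_mul_self, one_mul]
  have h2 : ρ' j = j := by
    rw [hρ', Equiv.Perm.mul_apply, ← hi, Equiv.swap_apply_left]
  have h3 : c j (Y j) * perm (Equiv.swap i j) = perm (Equiv.swap i j) * c i (Y j) := by
    rw [h.conj, Equiv.swap_apply_left]
  have hT : tens h (univ.erase j) Y ∈ away perm c j := tens_mem_away h (notMem_erase j univ) Y
  have h4 : mon h F y s =
      tens h (univ.erase j) Y * perm (Equiv.swap i j) * (c i (Y j) * perm ρ') := by
    unfold mon
    rw [tens_split h j, tens_comm_at h (notMem_erase j univ), h1]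
    calc tens h (univ.erase j) Y * c j (Y j) * (perm (Equiv.swap i j) * perm ρ')
        = tens h (univ.erase j) Y * (c j (Y j) * perm (Equiv.swap i j)) * perm ρ' := by
          simp only [mul_assoc]
      _ = _ := by rw [h3]; simp only [mul_assoc]
  rw [h4, h.ptr_mul j _ _ hT _ (mul_mem (at_mem_away hs _) (perm_mem_away h2)),
    h.ptr_swap i j hs, mul_one, ← mul_assoc,
    tens_mul_c h (mem_erase.mpr ⟨hs, mem_univ i⟩), tens_erase]
  unfold mon
  congr 2
  rw [← upd_aeval, ← upd_aeval, map_mul, map_one]

/-- the span of the monomials -/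
def monS (h : IsPower tr perm c ptr) (F : A) : Submodule ℚ E :=
  Submodule.span ℚ {x | ∃ y s, x = mon h F y s}

/-- the span of the monomials which are trivial outside `T` and divisible by `f` somewhere
in `T` -/
def monJ (h : IsPower tr perm c ptr) (F : A) (f : ℚ[X]) (T : Finset κ) : Submodule ℚ E :=
  Submodule.span ℚ {x | ∃ y s, (∀ k, k ∉ T → y k = 1) ∧ (∀ k, k ∉ T → s k = k) ∧
    (∃ k ∈ T, f ∣ y k) ∧ x = mon h F y s}

theorem mon_mem (h : IsPower tr perm c ptr) (F : A) (y : κ → ℚ[X]) (s : Equiv.Perm κ) :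
    mon h F y s ∈ monS h F :=
  Submodule.subset_span ⟨y, s, rfl⟩

theorem monJ_le (h : IsPower tr perm c ptr) (F : A) (f : ℚ[X]) (T : Finset κ) :
    monJ h F f T ≤ monS h F := by
  refine Submodule.span_mono ?_
  rintro x ⟨y, s, _, _, _, rfl⟩
  exact ⟨y, s, rfl⟩

theorem monS_mul (h : IsPower tr perm c ptr) (F : A) {a b : E} (ha : a ∈ monS h F)
    (hb : b ∈ monS h F) : a * b ∈ monS h F := by
  refine Submodule.span_induction₂ (p := fun a b _ _ => a * b ∈ monS h F) ?_ ?_ ?_ ?_ ?_ ?_ ?_
    ha hb
  · rintro a b ⟨y, s, rfl⟩ ⟨z, u, rfl⟩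
    rw [mon_mul]
    exact mon_mem h F _ _
  · intro y _; rw [zero_mul]; exact zero_mem _
  · intro y _; rw [mul_zero]; exact zero_mem _
  · intro x y z _ _ _ h1 h2; rw [add_mul]; exact add_mem h1 h2
  · intro x y z _ _ _ h1 h2; rw [mul_add]; exact add_mem h1 h2
  · intro r x y _ _ h1; rw [smul_mul_assoc]; exact Submodule.smul_mem _ _ h1
  · intro r x y _ _ h1; rw [mul_smul_comm]; exact Submodule.smul_mem _ _ h1

theorem monS_mul_monJ (h : IsPower tr perm c ptr) (F : A) (f : ℚ[X]) {a b : E}
    (ha : a ∈ monS h F) (hb : b ∈ monJ h F f univ) : a * b ∈ monJ h F f univ := by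
  refine Submodule.span_induction₂ (p := fun a b _ _ => a * b ∈ monJ h F f univ) ?_ ?_ ?_ ?_ ?_
    ?_ ?_ ha hb
  · rintro a b ⟨y, s, rfl⟩ ⟨z, u, _, _, ⟨k, _, hk⟩, rfl⟩
    rw [mon_mul]
    refine Submodule.subset_span ⟨_, _, fun k hk => (hk (mem_univ k)).elim,
      fun k hk => (hk (mem_univ k)).elim, ⟨s k, mem_univ _, ?_⟩, rfl⟩
    rw [Equiv.symm_apply_apply]
    exact hk.mul_left _
  · intro y _; rw [zero_mul]; exact zero_mem _
  · intro y _; rw [mul_zero]; exact zero_mem _
  · intro x y z _ _ _ h1 h2; rw [add_mul]; exact add_mem h1 h2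
  · intro x y z _ _ _ h1 h2; rw [mul_add]; exact add_mem h1 h2
  · intro r x y _ _ h1; rw [smul_mul_assoc]; exact Submodule.smul_mem _ _ h1
  · intro r x y _ _ h1; rw [mul_smul_comm]; exact Submodule.smul_mem _ _ h1

theorem monJ_mul_monS (h : IsPower tr perm c ptr) (F : A) (f : ℚ[X]) {a b : E}
    (ha : a ∈ monJ h F f univ) (hb : b ∈ monS h F) : a * b ∈ monJ h F f univ := by
  refine Submodule.span_induction₂ (p := fun a b _ _ => a * b ∈ monJ h F f univ) ?_ ?_ ?_ ?_ ?_
    ?_ ?_ ha hb
  · rintro a b ⟨y, s, _, _, ⟨k, _, hk⟩, rfl⟩ ⟨z, u, rfl⟩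
    rw [mon_mul]
    refine Submodule.subset_span ⟨_, _, fun k hk => (hk (mem_univ k)).elim,
      fun k hk => (hk (mem_univ k)).elim, ⟨k, mem_univ _, ?_⟩, rfl⟩
    exact hk.mul_right _
  · intro y _; rw [zero_mul]; exact zero_mem _
  · intro y _; rw [mul_zero]; exact zero_mem _
  · intro x y z _ _ _ h1 h2; rw [add_mul]; exact add_mem h1 h2
  · intro x y z _ _ _ h1 h2; rw [mul_add]; exact add_mem h1 h2
  · intro r x y _ _ h1; rw [smul_mul_assoc]; exact Submodule.smul_mem _ _ h1
  · intro r x y _ _ h1; rw [mul_smul_comm]; exact Submodule.smul_mem _ _ h1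

theorem ptr_monS (h : IsPower tr perm c ptr) (F : A) (j : κ) {x : E} (hx : x ∈ monS h F) :
    ptr j x ∈ monS h F := by
  refine Submodule.span_induction (p := fun x _ => ptr j x ∈ monS h F) ?_ ?_ ?_ ?_ hx
  · rintro x ⟨y, s, rfl⟩
    by_cases hs : s j = j
    · rw [ptr_mon_fixed h F y hs]
      exact Submodule.smul_mem _ _ (mon_mem h F _ _)
    · rw [ptr_mon_moved h F y hs]
      exact mon_mem h F _ _
  · rw [map_zero]; exact zero_mem _
  · intro x y _ _ h1 h2; rw [map_add]; exact add_mem h1 h2
  · intro r x _ h1; rw [map_smul]; exact Submodule.smul_mem _ _ h1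

theorem ptr_monJ (h : IsPower tr perm c ptr) (F : A) (f : ℚ[X])
    (htr : ∀ p, tr (aeval F (f * p)) = 0) {j : κ} {T T' : Finset κ} (hT : T ⊆ insert j T')
    {x : E} (hx : x ∈ monJ h F f T) : ptr j x ∈ monJ h F f T' := by
  have hT1 : ∀ k, k ∉ T' → k ≠ j → k ∉ T := by
    intro k hk hkj hkT
    have := hT hkT
    rw [mem_insert] at this
    rcases this with h1 | h1
    · exact hkj h1
    · exact hk h1
  refine Submodule.span_induction (p := fun x _ => ptr j x ∈ monJ h F f T') ?_ ?_ ?_ ?_ hx
  · rintro x ⟨y, s, hy, hs1, ⟨k0, hk0, hf⟩, rfl⟩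
    have hk0' : k0 ≠ j → k0 ∈ T' := by
      intro hkj
      by_contra hcon
      exact hT1 k0 hcon hkj hk0
    by_cases hs : s j = j
    · rw [ptr_mon_fixed h F y hs]
      by_cases hkj : k0 = j
      · subst hkj
        obtain ⟨q, hq⟩ := hf
        rw [hq, htr, zero_smul]
        exact zero_mem _
      · refine Submodule.smul_mem _ _ (Submodule.subset_span ⟨_, _, ?_, ?_, ⟨k0, hk0' hkj, ?_⟩,
          rfl⟩)
        · intro k hk
          by_cases hkj' : k = j
          · subst hkj'; rw [Function.update_self]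
          · rw [Function.update_of_ne hkj']
            exact hy k (hT1 k hk hkj')
        · intro k hk
          by_cases hkj' : k = j
          · subst hkj'; exact hs
          · exact hs1 k (hT1 k hk hkj')
        · rw [Function.update_of_ne hkj]
          exact hf
    · have hiT : s j ∈ T' := by
        by_contra hcon
        have h1 := hs1 (s j) (hT1 (s j) hcon hs)
        exact hs (s.injective h1)
      rw [ptr_mon_moved h F y hs]
      refine Submodule.subset_span ⟨_, _, ?_, ?_, ?_, rfl⟩
      · intro k hk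
        by_cases hkj' : k = j
        · subst hkj'; rw [Function.update_self]
        · have hki : k ≠ s j := fun h' => hk (h' ▸ hiT)
          rw [Function.update_of_ne hkj', Function.update_of_ne hki]
          exact hy k (hT1 k hk hkj')
      · intro k hk
        rw [Equiv.Perm.mul_apply]
        by_cases hkj' : k = j
        · subst hkj'; rw [Equiv.swap_apply_left]
        · have hki : k ≠ s j := fun h' => hk (h' ▸ hiT)
          rw [hs1 k (hT1 k hk hkj'), Equiv.swap_apply_of_ne_of_ne hki hkj']
      · by_cases hkj : k0 = j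
        · subst hkj
          refine ⟨s k0, hiT, ?_⟩
          rw [Function.update_of_ne hs, Function.update_self]
          exact hf.mul_left _
        · by_cases hki : k0 = s j
          · subst hki
            refine ⟨s j, hiT, ?_⟩
            rw [Function.update_of_ne hs, Function.update_self]
            exact hf.mul_right _
          · refine ⟨k0, hk0' hkj, ?_⟩
            rw [Function.update_of_ne hkj, Function.update_of_ne hki]
            exact hf
  · rw [map_zero]; exact zero_mem _
  · intro x y _ _ h1 h2; rw [map_add]; exact add_mem h1 h2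
  · intro r x _ h1; rw [map_smul]; exact Submodule.smul_mem _ _ h1

omit [Fintype κ] in
theorem tens_one' (h : IsPower tr perm c ptr) (T : Finset κ) : tens h T (fun _ => 1) = 1 := by
  induction T using Finset.induction_on with
  | empty => rw [tens_empty]
  | insert i T hi ih => rw [tens_insert h hi, ih, map_one, mul_one]

theorem mon_one (h : IsPower tr perm c ptr) (F : A) (s : Equiv.Perm κ) :
    mon h F (fun _ => 1) s = perm s := by
  unfold mon
  simp only [map_one]
  rw [tens_one', one_mul]

theorem mon_single (h : IsPower tr perm c ptr) (F : A) (j : κ) (p : ℚ[X]) :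
    mon h F (Function.update (fun _ => 1) j p) 1 = c j (aeval F p) := by
  unfold mon
  rw [← upd_aeval]
  simp only [map_one]
  rw [mul_one, tens_split h j, Function.update_self]
  have h1 : tens h (univ.erase j) (Function.update (fun _ => 1) j (aeval F p)) =
      tens h (univ.erase j) (fun _ => 1) := by
    refine tens_congr h fun k hk => ?_
    rw [Function.update_of_ne (ne_of_mem_erase hk)]
  rw [h1, tens_one', mul_one]

theorem one_mem_monS (h : IsPower tr perm c ptr) (F : A) : (1 : E) ∈ monS h F := by
  have h1 := mon_mem h F (fun _ => 1) 1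
  rwa [mon_one, map_one] at h1

/-- the algebra spanned by the monomials -/
def algS (h : IsPower tr perm c ptr) (F : A) : Subalgebra ℚ E :=
  (monS h F).toSubalgebra (one_mem_monS h F) (fun _ _ ha hb => monS_mul h F ha hb)

theorem mem_algS (h : IsPower tr perm c ptr) (F : A) {x : E} : x ∈ algS h F ↔ x ∈ monS h F :=
  Iff.rfl

/-- the ideal spanned by the monomials divisible by `f` somewhere -/
def idJ (h : IsPower tr perm c ptr) (F : A) (f : ℚ[X]) : Ideal (algS h F) where
  carrier := {x | (x : E) ∈ monJ h F f univ}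
  add_mem' := by
    intro a b ha hb
    exact (monJ h F f univ).add_mem ha hb
  zero_mem' := zero_mem (monJ h F f univ)
  smul_mem' := by
    intro a b hb
    exact monS_mul_monJ h F f a.2 hb

theorem mem_idJ (h : IsPower tr perm c ptr) (F : A) (f : ℚ[X]) {x : algS h F} :
    x ∈ idJ h F f ↔ (x : E) ∈ monJ h F f univ :=
  Iff.rfl

instance idJ_twoSided (h : IsPower tr perm c ptr) (F : A) (f : ℚ[X]) :
    (idJ h F f).IsTwoSided where
  mul_mem_of_left := by
    intro a b ha
    exact monJ_mul_monS h F f ha b.2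

theorem monJ_single (h : IsPower tr perm c ptr) (F : A) (f : ℚ[X]) (j : κ) {x : E}
    (hx : x ∈ monJ h F f {j}) : ∃ q : ℚ[X], x = c j (aeval F (f * q)) := by
  refine Submodule.span_induction (p := fun x _ => ∃ q : ℚ[X], x = c j (aeval F (f * q)))
    ?_ ?_ ?_ ?_ hx
  · rintro x ⟨y, s, hy, hs, ⟨k0, hk0, hf⟩, rfl⟩
    rw [mem_singleton] at hk0
    subst hk0
    have hs1 : s = 1 := by
      ext k
      rw [Equiv.Perm.one_apply]
      by_cases hk : k = k0
      · subst hk
        by_contra hcon
        have h1 := hs (s k) (by rw [mem_singleton]; exact hcon)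
        exact hcon (s.injective h1)
      · exact hs k (by rw [mem_singleton]; exact hk)
    have hy1 : y = Function.update (fun _ => 1) k0 (y k0) := by
      funext k
      by_cases hk : k = k0
      · subst hk; rw [Function.update_self]
      · rw [Function.update_of_ne hk]
        exact hy k (by rw [mem_singleton]; exact hk)
    obtain ⟨q, hq⟩ := hf
    refine ⟨q, ?_⟩
    rw [hs1, hy1, mon_single, hq]
  · exact ⟨0, by rw [mul_zero, map_zero, map_zero]⟩
  · rintro x y _ _ ⟨q1, rfl⟩ ⟨q2, rfl⟩
    exact ⟨q1 + q2, by rw [mul_add, map_add, map_add]⟩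
  · rintro r x _ ⟨q, rfl⟩
    exact ⟨r • q, by rw [mul_smul_comm, map_smul, map_smul]⟩

/-- **Injectivity modulo `f`.** -/
theorem c_mem_monJ (h : IsPower tr perm c ptr) (F : A) (hF : ∀ p : ℚ[X], aeval F p = 0 → p = 0)
    (f : ℚ[X]) (htr : ∀ p, tr (aeval F (f * p)) = 0) (p1 : ℚ[X]) (hp1 : tr (aeval F p1) ≠ 0)
    (j : κ) (p : ℚ[X]) (hp : c j (aeval F p) ∈ monJ h F f univ) : f ∣ p := by
  have key : ∀ U : Finset κ, j ∉ U →
      mon h F (fun k => if k = j then p else if k ∈ U then p1 else 1) 1 ∈
        monJ h F f (insert j U) → c j (aeval F p) ∈ monJ h F f {j} := by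
    intro U
    induction U using Finset.induction_on with
    | empty =>
      intro _ h1
      have h2 : (fun k => if k = j then p else if k ∈ (∅ : Finset κ) then p1 else 1) =
          Function.update (fun _ => 1) j p := by
        funext k
        by_cases hk : k = j
        · subst hk; rw [Function.update_self, if_pos rfl]
        · rw [Function.update_of_ne hk, if_neg hk, if_neg (notMem_empty k)]
      rw [h2, mon_single, insert_empty_eq] at h1
      exact h1
    | insert i U hi ih =>
      intro hj h1
      rw [mem_insert, not_or] at hj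
      refine ih hj.2 ?_
      have h2 := ptr_monJ h F f htr (j := i) (T := insert j (insert i U)) (T' := insert j U)
        (by rw [Finset.insert_comm]) h1
      rw [ptr_mon_fixed h F _ (Equiv.Perm.one_apply i)] at h2
      have hij : i ≠ j := fun h' => hj.1 h'.symm
      rw [if_neg hij, if_pos (mem_insert_self i U)] at h2
      have h3 : Function.update
          (fun k => if k = j then p else if k ∈ insert i U then p1 else 1) i 1 =
          fun k => if k = j then p else if k ∈ U then p1 else 1 := by
        funext k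
        by_cases hk : k = i
        · subst hk
          rw [Function.update_self, if_neg hij, if_neg hi]
        · rw [Function.update_of_ne hk]
          have h4 : (k ∈ insert i U) = (k ∈ U) := by
            rw [mem_insert]
            exact propext ⟨fun h' => h'.resolve_left hk, Or.inr⟩
          simp only [h4]
      rw [h3] at h2
      have h5 := Submodule.smul_mem _ (tr (aeval F p1))⁻¹ h2
      rwa [smul_smul, inv_mul_cancel₀ hp1, one_smul] at h5
  have h1 : c j (aeval F p) * mon h F (fun k => if k = j then 1 else p1) 1 ∈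
      monJ h F f univ := monJ_mul_monS h F f hp (mon_mem h F _ _)
  have h2 : c j (aeval F p) * mon h F (fun k => if k = j then 1 else p1) 1 =
      mon h F (fun k => if k = j then p else if k ∈ univ.erase j then p1 else 1) 1 := by
    rw [← mon_single h F j p, mon_mul, mul_one]
    congr 1
    funext k
    have h3 : (1 : Equiv.Perm κ).symm k = k := rfl
    rw [h3]
    by_cases hk : k = j
    · subst hk; rw [Function.update_self, if_pos rfl, if_pos rfl, mul_one]
    · rw [Function.update_of_ne hk, if_neg hk, if_neg hk, if_pos (mem_erase.mpr ⟨hk, mem_univ k⟩),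
        one_mul]
  rw [h2] at h1
  have h3 := key (univ.erase j) (notMem_erase j univ)
    (by rw [insert_erase (mem_univ j)]; exact h1)
  obtain ⟨q, hq⟩ := monJ_single h F f j h3
  have h4 := h.inj j hq
  have h5 : p - f * q = 0 := hF _ (by rw [map_sub, h4, sub_self])
  exact ⟨q, sub_eq_zero.mp h5⟩

/-- the trace in the factor `j` on the algebra -/
def ptrS (h : IsPower tr perm c ptr) (F : A) (j : κ) : algS h F →ₗ[ℚ] algS h F where
  toFun x := ⟨ptr j x, ptr_monS h F j x.2⟩
  map_add' := by
    intro x y
    exact Subtype.ext (map_add (ptr j) (x : E) (y : E))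
  map_smul' := by
    intro r x
    exact Subtype.ext (map_smul (ptr j) r (x : E))

/-- the permutations in the algebra -/
def permS (h : IsPower tr perm c ptr) (F : A) : Equiv.Perm κ →* algS h F where
  toFun s := ⟨perm s, by rw [mem_algS, ← mon_one h F s]; exact mon_mem h F _ _⟩
  map_one' := Subtype.ext (map_one perm)
  map_mul' := by
    intro s t
    exact Subtype.ext (map_mul perm s t)

/-- the correspondences on one factor in the algebra -/
noncomputable def cQS (h : IsPower tr perm c ptr) (F : A) (j : κ) : ℚ[X] →ₐ[ℚ] algS h F :=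
  ((c j).comp (aeval F)).codRestrict (algS h F) (fun p => by
    rw [mem_algS, AlgHom.comp_apply, ← mon_single h F j p]
    exact mon_mem h F _ _)

theorem cQS_coe (h : IsPower tr perm c ptr) (F : A) (j : κ) (p : ℚ[X]) :
    (cQS h F j p : E) = c j (aeval F p) := rfl

/-- the quotient algebra -/
abbrev quotE (h : IsPower tr perm c ptr) (F : A) (f : ℚ[X]) : Type v := algS h F ⧸ idJ h F f

/-- the quotient map -/
noncomputable def mkE (h : IsPower tr perm c ptr) (F : A) (f : ℚ[X]) :
    algS h F →ₐ[ℚ] quotE h F f := Ideal.Quotient.mkₐ ℚ (idJ h F f)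

theorem mkE_surj (h : IsPower tr perm c ptr) (F : A) (f : ℚ[X]) :
    Function.Surjective (mkE h F f) := Ideal.Quotient.mkₐ_surjective ℚ (idJ h F f)

theorem mkE_eq_zero (h : IsPower tr perm c ptr) (F : A) (f : ℚ[X]) {x : algS h F} :
    mkE h F f x = 0 ↔ (x : E) ∈ monJ h F f univ := by
  unfold mkE
  rw [Ideal.Quotient.mkₐ_eq_mk, Ideal.Quotient.eq_zero_iff_mem, mem_idJ]

/-- a linear map on a quotient -/
noncomputable def descend {M N P : Type*} [AddCommGroup M] [Module ℚ M] [AddCommGroup N]
    [Module ℚ N] [AddCommGroup P] [Module ℚ P] (g : M →ₗ[ℚ] N) (hg : Function.Surjective g)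
    (φ : M →ₗ[ℚ] P) (hle : LinearMap.ker g ≤ LinearMap.ker φ) : N →ₗ[ℚ] P :=
  ((LinearMap.ker g).liftQ φ hle) ∘ₗ (g.quotKerEquivOfSurjective hg).symm.toLinearMap

theorem descend_apply {M N P : Type*} [AddCommGroup M] [Module ℚ M] [AddCommGroup N]
    [Module ℚ N] [AddCommGroup P] [Module ℚ P] (g : M →ₗ[ℚ] N) (hg : Function.Surjective g)
    (φ : M →ₗ[ℚ] P) (hle : LinearMap.ker g ≤ LinearMap.ker φ) (x : M) :
    descend g hg φ hle (g x) = φ x := by
  have h1 : (g.quotKerEquivOfSurjective hg) (Submodule.Quotient.mk x) = g x := rfl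
  unfold descend
  rw [LinearMap.comp_apply, ← h1, LinearEquiv.coe_coe, LinearEquiv.symm_apply_apply,
    Submodule.liftQ_apply]

theorem lift_away (h : IsPower tr perm c ptr) (F : A) (f : ℚ[X])
    (c' : κ → (ℚ[X] ⧸ Ideal.span {f}) →ₐ[ℚ] quotE h F f)
    (hc' : ∀ j p, c' j (Ideal.Quotient.mk _ p) = mkE h F f (cQS h F j p)) (j : κ)
    {a : quotE h F f}
    (ha : a ∈ away ((mkE h F f : algS h F →* quotE h F f).comp (permS h F)) c' j) :
    ∃ x : algS h F, (x : E) ∈ away perm c j ∧ mkE h F f x = a := by
  have h1 : away ((mkE h F f : algS h F →* quotE h F f).comp (permS h F)) c' j ≤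
      ((away perm c j).comap (algS h F).val).map (mkE h F f) := by
    refine Algebra.adjoin_le ?_
    rintro x (⟨i, b, hij, rfl⟩ | ⟨σ, hσ, rfl⟩)
    · obtain ⟨p, rfl⟩ := Ideal.Quotient.mk_surjective b
      rw [hc']
      exact ⟨cQS h F i p, at_mem_away hij (aeval F p), rfl⟩
    · exact ⟨permS h F σ, perm_mem_away hσ, rfl⟩
  obtain ⟨x, hx, hx'⟩ := h1 ha
  exact ⟨x, hx, hx'⟩

/-- **The quotient of a power by a polynomial `f` in a transcendental correspondence `F`** such
that the traces of all the multiples of `f` vanish. -/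
theorem exists_quotient (h : IsPower tr perm c ptr) (F : A)
    (hF : ∀ p : ℚ[X], aeval F p = 0 → p = 0) (f : ℚ[X])
    (htr : ∀ p, tr (aeval F (f * p)) = 0) (p1 : ℚ[X]) (hp1 : tr (aeval F p1) ≠ 0) :
    ∃ (E' : Type v) (_ : Ring E') (_ : Algebra ℚ E') (tr' : (ℚ[X] ⧸ Ideal.span {f}) →ₗ[ℚ] ℚ)
      (perm' : Equiv.Perm κ →* E') (c' : κ → (ℚ[X] ⧸ Ideal.span {f}) →ₐ[ℚ] E')
      (ptr' : κ → E' →ₗ[ℚ] E'), IsPower tr' perm' c' ptr' ∧
      (∀ p, tr' (Ideal.Quotient.mk _ p) = tr (aeval F p)) ∧
      finrank ℚ (Submodule.span ℚ (Set.range perm')) ≤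
        finrank ℚ (Submodule.span ℚ (Set.range perm)) := by
  have hker : ∀ j, LinearMap.ker (mkE h F f).toLinearMap ≤
      LinearMap.ker ((mkE h F f).toLinearMap ∘ₗ ptrS h F j) := by
    intro j x hx
    rw [LinearMap.mem_ker] at hx ⊢
    rw [AlgHom.toLinearMap_apply, mkE_eq_zero] at hx
    rw [LinearMap.comp_apply, AlgHom.toLinearMap_apply, mkE_eq_zero]
    exact ptr_monJ h F f htr (T := univ) (T' := univ) (subset_insert _ _) hx
  have hkc : ∀ j, ∀ a : ℚ[X], a ∈ Ideal.span {f} → ((mkE h F f).comp (cQS h F j)) a = 0 := by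
    intro j a ha
    rw [Ideal.mem_span_singleton] at ha
    rw [AlgHom.comp_apply, mkE_eq_zero, cQS_coe, ← mon_single h F j a]
    refine Submodule.subset_span ⟨_, _, fun k hk => (hk (mem_univ k)).elim,
      fun k hk => (hk (mem_univ k)).elim, ⟨j, mem_univ _, ?_⟩, rfl⟩
    rw [Function.update_self]
    exact ha
  have hkt : LinearMap.ker (Ideal.Quotient.mkₐ ℚ (Ideal.span {f})).toLinearMap ≤
      LinearMap.ker (tr ∘ₗ (aeval (R := ℚ) F).toLinearMap) := by
    intro x hx
    rw [LinearMap.mem_ker, AlgHom.toLinearMap_apply, Ideal.Quotient.mkₐ_eq_mk,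
      Ideal.Quotient.eq_zero_iff_mem, Ideal.mem_span_singleton] at hx
    obtain ⟨q, rfl⟩ := hx
    rw [LinearMap.mem_ker, LinearMap.comp_apply]
    exact htr q
  set tr' : (ℚ[X] ⧸ Ideal.span {f}) →ₗ[ℚ] ℚ := descend _
    (Ideal.Quotient.mkₐ_surjective ℚ (Ideal.span {f})) (tr ∘ₗ (aeval (R := ℚ) F).toLinearMap) hkt
    with htr'
  set perm' : Equiv.Perm κ →* quotE h F f :=
    (mkE h F f : algS h F →* quotE h F f).comp (permS h F) with hperm'
  set c' : κ → (ℚ[X] ⧸ Ideal.span {f}) →ₐ[ℚ] quotE h F f := fun j =>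
    Ideal.Quotient.liftₐ (Ideal.span {f}) ((mkE h F f).comp (cQS h F j)) (hkc j) with hc'
  set ptr' : κ → quotE h F f →ₗ[ℚ] quotE h F f := fun j =>
    descend (mkE h F f).toLinearMap (mkE_surj h F f) _ (hker j) with hptr'
  have e1 : ∀ p, tr' (Ideal.Quotient.mk _ p) = tr (aeval F p) := fun p =>
    descend_apply _ (Ideal.Quotient.mkₐ_surjective ℚ (Ideal.span {f})) _ hkt p
  have e2 : ∀ j p, c' j (Ideal.Quotient.mk _ p) = mkE h F f (cQS h F j p) := fun j p => rfl
  have e3 : ∀ j x, ptr' j (mkE h F f x) = mkE h F f (ptrS h F j x) := fun j x =>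
    descend_apply _ (mkE_surj h F f) _ (hker j) x
  have e4 : ∀ σ, perm' σ = mkE h F f (permS h F σ) := fun σ => rfl
  refine ⟨quotE h F f, inferInstance, inferInstance, tr', perm', c', ptr', ?_, e1, ?_⟩
  · constructor
    · intro i j hij x y
      obtain ⟨p, rfl⟩ := Ideal.Quotient.mk_surjective x
      obtain ⟨q, rfl⟩ := Ideal.Quotient.mk_surjective y
      rw [e2, e2, ← map_mul, ← map_mul]
      congr 1
      exact Subtype.ext (h.comm i j hij _ _)
    · intro σ j x
      obtain ⟨p, rfl⟩ := Ideal.Quotient.mk_surjective x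
      rw [e2, e2, e4, ← map_mul, ← map_mul]
      congr 1
      exact Subtype.ext (h.conj σ j _)
    · intro j x y hxy
      obtain ⟨p, rfl⟩ := Ideal.Quotient.mk_surjective x
      obtain ⟨q, rfl⟩ := Ideal.Quotient.mk_surjective y
      rw [e2, e2, ← sub_eq_zero, ← map_sub, ← map_sub, mkE_eq_zero, cQS_coe] at hxy
      have h1 := c_mem_monJ h F hF f htr p1 hp1 j (p - q) hxy
      rw [← sub_eq_zero, ← map_sub, Ideal.Quotient.eq_zero_iff_mem, Ideal.mem_span_singleton]
      exact h1
    · intro j x a ha b hb
      obtain ⟨x, rfl⟩ := mkE_surj h F f x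
      obtain ⟨a, ha', rfl⟩ := lift_away h F f c' e2 j ha
      obtain ⟨b, hb', rfl⟩ := lift_away h F f c' e2 j hb
      rw [← map_mul, ← map_mul, e3, e3, ← map_mul, ← map_mul]
      congr 1
      exact Subtype.ext (h.ptr_mul j x a ha' b hb')
    · intro j x
      obtain ⟨p, rfl⟩ := Ideal.Quotient.mk_surjective x
      rw [e2, e3, e1, ← AlgHom.commutes (mkE h F f)]
      congr 1
      exact Subtype.ext (h.ptr_at j _)
    · intro i j hij
      rw [e4, e3, ← map_one (mkE h F f)]
      congr 1
      exact Subtype.ext (h.ptr_swap i j hij)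
  · have h1 : Submodule.span ℚ (Set.range perm') =
        (Submodule.span ℚ (Set.range (permS h F))).map (mkE h F f).toLinearMap := by
      rw [Submodule.map_span, ← Set.range_comp]
      rfl
    have h2 : Submodule.span ℚ (Set.range perm) =
        (Submodule.span ℚ (Set.range (permS h F))).map (algS h F).val.toLinearMap := by
      rw [Submodule.map_span, ← Set.range_comp]
      rfl
    have h3 : FiniteDimensional ℚ (Submodule.span ℚ (Set.range (permS h F))) :=
      FiniteDimensional.span_of_finite ℚ (Set.finite_range _)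
    rw [h1, h2]
    refine (Submodule.finrank_map_le _ _).trans (le_of_eq ?_)
    exact (Submodule.equivMapOfInjective (algS h F).val.toLinearMap Subtype.val_injective
      _).finrank_eq

end MPb197b4
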