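import Pool.Agent.Lib.MP_b197b4_nt.Block

/-!
# MP_b197b4_nt: the dimension of the algebra of graph cycles
-/

namespace MPb197b4

open Finset Module

set_option linter.unusedSectionVars false

section comb

variable {κ : Type*} [DecidableEq κ] [Fintype κ]

/-- weight of a word in three letters -/
def wgt (b : Fin 3 → ℕ) (g : κ → Fin 3) : ℕ := ∏ j, b (g j)

/-- type of a word in three letters -/
def typ (g : κ → Fin 3) : Fin (Fintype.card κ + 1) × Fin (Fintype.card κ + 1) :=
  (⟨(univ.filter fun j => g j = 0).card, Nat.lt_succ_of_le (card_le_univ _)⟩,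
    ⟨(univ.filter fun j => g j = 1).card, Nat.lt_succ_of_le (card_le_univ _)⟩)

theorem typ_fiber {g f : κ → Fin 3} (h : typ g = typ f) (a : Fin 3) :
    (univ.filter fun j => f j = a).card = (univ.filter fun j => g j = a).card := by
  have h0 : (univ.filter fun j => g j = 0).card = (univ.filter fun j => f j = 0).card :=
    congrArg (fun x => x.1.val) h
  have h1 : (univ.filter fun j => g j = 1).card = (univ.filter fun j => f j = 1).card :=
    congrArg (fun x => x.2.val) h
  have hs : ∀ u : κ → Fin 3, (univ.filter fun j => u j = 0).card +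
      (univ.filter fun j => u j = 1).card + (univ.filter fun j => u j = 2).card =
        Fintype.card κ := by
    intro u
    have := card_eq_sum_card_fiberwise (f := u) (s := univ) (t := univ) (fun _ _ => mem_coe.mpr (mem_univ _))
    rw [card_univ, Fin.sum_univ_three] at this
    exact this.symm
  have hg := hs g
  have hf := hs f
  have ha : a = 0 ∨ a = 1 ∨ a = 2 := by omega
  rcases ha with rfl | rfl | rfl
  · exact h0.symm
  · exact h1.symm
  · omega

theorem exists_perm {g f : κ → Fin 3} (h : typ g = typ f) :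
    ∃ σ : Equiv.Perm κ, ∀ j, g (σ j) = f j := by
  have h4 : ∀ γ, Nonempty ({i // f i = γ} ≃ {i // g i = γ}) := by
    intro γ
    refine ⟨Fintype.equivOfCardEq ?_⟩
    rw [Fintype.card_subtype, Fintype.card_subtype, typ_fiber h γ]
  let e : ∀ γ, {i // f i = γ} ≃ {i // g i = γ} := fun γ => Classical.choice (h4 γ)
  exact ⟨Equiv.ofFiberEquiv (fun γ => e γ), fun i => Equiv.ofFiberEquiv_map _ i⟩

theorem wgt_eq {b : Fin 3 → ℕ} {g f : κ → Fin 3} (h : typ g = typ f) : wgt b g = wgt b f := by
  obtain ⟨σ, hσ⟩ := exists_perm h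
  unfold wgt
  rw [← Equiv.prod_comp σ (fun j => b (g j))]
  exact prod_congr rfl fun j _ => by rw [hσ]

theorem sum_wgt (b : Fin 3 → ℕ) :
    ∑ g : κ → Fin 3, wgt b g = (b 0 + b 1 + b 2) ^ Fintype.card κ := by
  unfold wgt
  rw [← Fin.sum_univ_three, ← card_univ, ← prod_const, prod_univ_sum, Fintype.piFinset_univ]

theorem wgt_sum_sq (b : Fin 3 → ℕ) :
    (b 0 + b 1 + b 2) ^ (2 * Fintype.card κ) ≤ (Fintype.card κ + 1) ^ 2 *
      ∑ p : (κ → Fin 3) × (κ → Fin 3), if typ p.1 = typ p.2 then wgt b p.1 ^ 2 else 0 := by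
  have h1 : ((∑ g : κ → Fin 3, wgt b g : ℕ) : ℚ) ^ 2 ≤
      (Fintype.card (Fin (Fintype.card κ + 1) × Fin (Fintype.card κ + 1)) : ℚ) *
        ∑ t : Fin (Fintype.card κ + 1) × Fin (Fintype.card κ + 1),
          (∑ g ∈ univ.filter (fun g : κ → Fin 3 => typ g = t), (wgt b g : ℚ)) ^ 2 := by
    push_cast
    rw [← sum_fiberwise (s := (univ : Finset (κ → Fin 3))) (g := typ) (f := fun g => (wgt b g : ℚ))]
    have h0 := sq_sum_le_card_mul_sum_sq
      (s := (univ : Finset (Fin (Fintype.card κ + 1) × Fin (Fintype.card κ + 1))))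
      (f := fun t => ∑ g ∈ univ.filter (fun g : κ → Fin 3 => typ g = t), (wgt b g : ℚ))
    rw [card_univ] at h0
    exact h0
  have h2 : ∑ t : Fin (Fintype.card κ + 1) × Fin (Fintype.card κ + 1),
      (∑ g ∈ univ.filter (fun g : κ → Fin 3 => typ g = t), (wgt b g : ℚ)) ^ 2 =
        ((∑ p : (κ → Fin 3) × (κ → Fin 3), if typ p.1 = typ p.2 then wgt b p.1 ^ 2 else 0 : ℕ) : ℚ) := by
    push_cast
    rw [Fintype.sum_prod_type (f := fun p : (κ → Fin 3) × (κ → Fin 3) =>
      if typ p.1 = typ p.2 then (wgt b p.1 : ℚ) ^ 2 else 0),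
      ← sum_fiberwise (s := (univ : Finset (κ → Fin 3))) (g := typ)
      (f := fun g => ∑ f : κ → Fin 3, if typ g = typ f then (wgt b g : ℚ) ^ 2 else 0)]
    refine sum_congr rfl fun t _ => ?_
    rw [sq, sum_mul_sum]
    refine sum_congr rfl fun g hg => ?_
    rw [mem_filter] at hg
    rw [sum_filter]
    refine sum_congr rfl fun f _ => ?_
    rw [hg.2]
    by_cases hf : typ f = t
    · rw [if_pos hf, if_pos hf.symm, wgt_eq (b := b) (hg.2.trans hf.symm), sq]
    · rw [if_neg hf, if_neg (fun h => hf h.symm)]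
  rw [h2, sum_wgt, Fintype.card_prod, Fintype.card_fin] at h1
  have h3 : (((b 0 + b 1 + b 2) ^ Fintype.card κ) ^ 2 : ℕ) ≤
      ((Fintype.card κ + 1) * (Fintype.card κ + 1)) *
      ∑ p : (κ → Fin 3) × (κ → Fin 3), if typ p.1 = typ p.2 then wgt b p.1 ^ 2 else 0 := by
    exact_mod_cast h1
  calc _ = ((b 0 + b 1 + b 2) ^ Fintype.card κ) ^ 2 := by rw [mul_comm, pow_mul]
    _ ≤ _ := h3
    _ = _ := by rw [← sq]

end comb

variable {κ A E : Type*} [DecidableEq κ] [Fintype κ] [Ring A] [Algebra ℚ A] [Ring E] [Algebra ℚ E]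
variable {tr : A →ₗ[ℚ] ℚ} {perm : Equiv.Perm κ →* E} {c : κ → A →ₐ[ℚ] E} {ptr : κ → E →ₗ[ℚ] E}

theorem eg_mul_self (h : IsPower tr perm c ptr) {q : Fin 3 → A} (hq : ∀ a, q a * q a = q a)
    (g : κ → Fin 3) : eg h q g * eg h q g = eg h q g := by
  unfold eg
  rw [tens_mul]
  exact tens_congr h fun j _ => hq _

theorem eg_mul_ne (h : IsPower tr perm c ptr) {q : Fin 3 → A}
    (hq : ∀ a a', a ≠ a' → q a * q a' = 0) {g f : κ → Fin 3} (hgf : g ≠ f) :
    eg h q g * eg h q f = 0 := by
  obtain ⟨j, hj⟩ := Function.ne_iff.mp hgf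
  unfold eg
  rw [tens_mul]
  exact tens_eq_zero h (mem_univ j) (hq _ _ hj)

theorem tens_mem (h : IsPower tr perm c ptr) (S : Subalgebra ℚ E) {y : κ → A} (T : Finset κ)
    (hy : ∀ j, c j (y j) ∈ S) : tens h T y ∈ S := by
  induction T using Finset.induction_on with
  | empty => rw [tens_empty]; exact one_mem _
  | insert i T hi ih => rw [tens_insert h hi]; exact mul_mem (hy i) ih

/-- the block `e_g S e_f` -/
noncomputable def blk (h : IsPower tr perm c ptr) (q : Fin 3 → A) (S : Subalgebra ℚ E)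
    (p : (κ → Fin 3) × (κ → Fin 3)) : Submodule ℚ E :=
  (Subalgebra.toSubmodule S).map
    ((LinearMap.mulLeft ℚ (eg h q p.1)) ∘ₗ (LinearMap.mulRight ℚ (eg h q p.2)))

theorem mem_blk (h : IsPower tr perm c ptr) (q : Fin 3 → A) (S : Subalgebra ℚ E)
    (p : (κ → Fin 3) × (κ → Fin 3)) (x : E) :
    x ∈ blk h q S p ↔ ∃ y ∈ S, eg h q p.1 * (y * eg h q p.2) = x := by
  unfold blk
  rw [Submodule.mem_map]
  rfl

/-- **The dimension of the algebra of graph cycles.** -/
theorem total_bound [Nontrivial E] (h : IsPower tr perm c ptr) {q : Fin 3 → A}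
    (hq : ∀ a, q a * q a = q a) (hq' : ∀ a a', a ≠ a' → q a * q a' = 0) (hq2 : q 2 ≠ 0)
    {b0 b1 : ℕ} (hb0 : tr (q 0) ^ 2 = (b0 : ℚ) ^ 2) (hb1 : tr (q 1) ^ 2 = (b1 : ℚ) ^ 2)
    (S : Subalgebra ℚ E) [FiniteDimensional ℚ S] (hS : ∀ σ, perm σ ∈ S)
    (hS' : ∀ j a, c j (q a) ∈ S) :
    (b0 + b1 + 1) ^ (2 * Fintype.card κ) ≤
      finrank ℚ S * (Fintype.card κ + 1) ^ (b0 * b0 + b1 * b1 + 2) := by
  classical
  set b : Fin 3 → ℕ := ![b0, b1, 1] with hb
  have hb' : ∀ a, a ≠ 2 → (tr (q a)) ^ 2 = ((b a : ℕ) : ℚ) ^ 2 := by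
    intro a ha
    have ha' : a = 0 ∨ a = 1 := by omega
    rcases ha' with rfl | rfl
    · exact hb0
    · exact hb1
  have hfin : ∀ p, FiniteDimensional ℚ (blk h q S p) := by
    intro p
    have : FiniteDimensional ℚ (Subalgebra.toSubmodule S) := ‹FiniteDimensional ℚ S›
    unfold blk
    infer_instance
  have hegS : ∀ g, eg h q g ∈ S := fun g => tens_mem h S univ fun j => hS' j _
  have hblkS : ∀ p x, x ∈ blk h q S p → x ∈ S := by
    intro p x hx
    obtain ⟨y, hy, rfl⟩ := (mem_blk h q S p x).mp hx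
    exact mul_mem (hegS _) (mul_mem hy (hegS _))
  -- the sum of the dimensions of the blocks
  have hsum : ∑ p, finrank ℚ (blk h q S p) ≤ finrank ℚ S := by
    have h1 : ∑ p, finrank ℚ (blk h q S p) = finrank ℚ (∀ p, blk h q S p) := by
      rw [Module.finrank_pi_fintype]
    rw [h1]
    let Λ : (∀ p, blk h q S p) →ₗ[ℚ] (Subalgebra.toSubmodule S) :=
      LinearMap.codRestrict (Subalgebra.toSubmodule S)
        (∑ p, (blk h q S p).subtype ∘ₗ LinearMap.proj p) (fun y => by
          rw [LinearMap.sum_apply]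
          exact sum_mem fun p _ => hblkS p _ (y p).2)
    have hΛ : Function.Injective Λ := by
      rw [← LinearMap.ker_eq_bot, LinearMap.ker_eq_bot']
      intro y hy
      have h2 : ∑ p, ((y p : blk h q S p) : E) = 0 := by
        have := congrArg (fun z : Subalgebra.toSubmodule S => (z : E)) hy
        simpa [Λ] using this
      funext p0
      apply Subtype.ext
      have h3 : ∀ p, eg h q p0.1 * ((y p : blk h q S p) : E) * eg h q p0.2 =
          if p = p0 then ((y p : blk h q S p) : E) else 0 := by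
        intro p
        obtain ⟨z, _, hz⟩ := (mem_blk h q S p _).mp (y p).2
        rw [← hz]
        by_cases hp : p = p0
        · subst hp
          rw [if_pos rfl]
          calc eg h q p.1 * (eg h q p.1 * (z * eg h q p.2)) * eg h q p.2
              = (eg h q p.1 * eg h q p.1) * z * (eg h q p.2 * eg h q p.2) := by
                simp only [mul_assoc]
            _ = _ := by rw [eg_mul_self h hq, eg_mul_self h hq, mul_assoc]
        · rw [if_neg hp]
          have : p.1 ≠ p0.1 ∨ p.2 ≠ p0.2 := by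
            by_contra hcon
            push Not at hcon
            exact hp (Prod.ext hcon.1 hcon.2)
          rcases this with h4 | h4
          · rw [← mul_assoc (eg h q p0.1), eg_mul_ne h hq' (fun h5 => h4 h5.symm), zero_mul,
              zero_mul]
          · rw [mul_assoc, mul_assoc, mul_assoc, eg_mul_ne h hq' h4, mul_zero, mul_zero, mul_zero]
      have h6 : eg h q p0.1 * (∑ p, ((y p : blk h q S p) : E)) * eg h q p0.2 = (y p0 : E) := by
        rw [mul_sum, sum_mul, sum_congr rfl fun p _ => h3 p, sum_ite_eq' univ p0, if_pos (mem_univ _)]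
      rw [← h6, h2, mul_zero, zero_mul]
      rfl
    exact LinearMap.finrank_le_finrank_of_injective hΛ
  -- each block
  set K := (Fintype.card κ + 1) ^ (b0 * b0 + b1 * b1) with hK
  have hblk : ∀ p : (κ → Fin 3) × (κ → Fin 3), (if typ p.1 = typ p.2 then wgt b p.1 ^ 2 else 0) ≤
      finrank ℚ (blk h q S p) * K := by
    rintro ⟨g, f⟩
    by_cases ht : typ g = typ f
    swap
    · rw [if_neg ht]; exact Nat.zero_le _
    rw [if_pos ht]
    obtain ⟨σ, hσ⟩ := exists_perm ht
    have hW : ∀ ρ ∈ Good (low g) g, eg h q g * perm ρ * perm σ ∈ blk h q S (g, f) := by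
      intro ρ hρ
      rw [mem_blk]
      refine ⟨perm ρ * perm σ, mul_mem (hS _) (hS _), ?_⟩
      have h7 : perm σ * eg h q f = eg h q g * perm σ := by
        rw [eg_mul_perm]
        congr 2
        funext j
        rw [← hσ, Equiv.apply_symm_apply]
      have h8 : perm ρ * eg h q g = eg h q g * perm ρ := by
        rw [eg_mul_perm]
        congr 2
        funext j
        have := hρ.2 (ρ.symm j)
        rw [Equiv.apply_symm_apply] at this
        exact this.symm
      calc eg h q g * (perm ρ * perm σ * eg h q f)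
          = eg h q g * (perm ρ * (perm σ * eg h q f)) := by simp only [mul_assoc]
        _ = eg h q g * (perm ρ * eg h q g * perm σ) := by rw [h7]; simp only [mul_assoc]
        _ = (eg h q g * eg h q g) * perm ρ * perm σ := by rw [h8]; simp only [mul_assoc]
        _ = _ := by rw [eg_mul_self h hq]
    have h9 := block_bound h hq hq2 hb' g σ (blk h q S (g, f)) hW
    have h10 : ∏ j ∈ low g, (b (g j)) ^ 2 = wgt b g ^ 2 := by
      unfold wgt
      rw [← prod_pow]
      refine prod_subset (subset_univ _) fun j _ hj => ?_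
      rw [mem_low, not_not] at hj
      rw [hj]
      simp [hb]
    rw [h10] at h9
    exact h9
  have h11 := wgt_sum_sq (κ := κ) b
  have h12 : b 0 + b 1 + b 2 = b0 + b1 + 1 := by simp [hb]
  rw [h12] at h11
  calc (b0 + b1 + 1) ^ (2 * Fintype.card κ) ≤ _ := h11
    _ ≤ (Fintype.card κ + 1) ^ 2 * ∑ p, finrank ℚ (blk h q S p) * K :=
        Nat.mul_le_mul_left _ (sum_le_sum fun p _ => hblk p)
    _ = (Fintype.card κ + 1) ^ 2 * ((∑ p, finrank ℚ (blk h q S p)) * K) := by rw [sum_mul]
    _ ≤ (Fintype.card κ + 1) ^ 2 * (finrank ℚ S * K) :=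
        Nat.mul_le_mul_left _ (Nat.mul_le_mul_right _ hsum)
    _ = _ := by rw [hK]; ring

end MPb197b4
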