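import Pool.Agent.Lib.MP_b197b4_nt.KFun
import Pool.Agent.Lib.MP_b197b4_nt.Block2
import Pool.Agent.Lib.MP_b197b4_nt.Sum

/-!
# MP_b197b4_nt: the dimension of the algebra of graph cycles when an exterior power is not zero
-/

namespace MPb197b4

open Finset Module

set_option linter.unusedSectionVars false

variable {κ A E : Type*} [DecidableEq κ] [Fintype κ] [Ring A] [Algebra ℚ A] [Ring E] [Algebra ℚ E]
variable {tr : A →ₗ[ℚ] ℚ} {perm : Equiv.Perm κ →* E} {c : κ → A →ₐ[ℚ] E} {ptr : κ → E →ₗ[ℚ] E}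

/-- the sum over the pairs (stable set, fixed word on the complement) -/
theorem sum_wd_le (b : ℕ) (C : Finset κ) (ρ : Equiv.Perm κ) :
    ∑ O ∈ C.powerset, (if ∀ a, ρ a ∈ O ↔ a ∈ O then wd (b + 1) (C \ O) ρ else 0) ≤
      (fixSet ![b + 2, 0, 0] C (gC C) ρ).card := by
  classical
  rw [← sum_filter]
  unfold wd
  rw [← card_sigma]
  refine card_le_card_of_injOn (fun x => fun j => if j ∈ x.1 then b + 1 else x.2 j) ?_ ?_
  · rintro ⟨O, v⟩ hx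
    rw [mem_coe, mem_sigma, mem_filter, mem_powerset, mem_fixSet] at hx
    obtain ⟨⟨hO, hst⟩, hv, hv2⟩ := hx
    dsimp only at hO hst hv hv2
    rw [mem_coe, mem_fixSet]
    refine ⟨fun j => ?_, fun j => ?_⟩
    · dsimp only
      by_cases hj : j ∈ C
      · have hb2 : (![b + 2, 0, 0] : Fin 3 → ℕ) (gC C j) = b + 2 := by simp [gC, hj]
        rw [wt_mem _ _ hj, hb2]
        by_cases hjO : j ∈ O
        · rw [if_pos hjO]; omega
        · rw [if_neg hjO]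
          have := hv j
          rw [wt_mem _ _ (mem_sdiff.mpr ⟨hj, hjO⟩)] at this
          omega
      · have hjO : j ∉ O := fun h' => hj (hO h')
        rw [wt_notMem _ _ hj, if_neg hjO]
        have := hv j
        rw [wt_notMem _ _ (fun h' => hj (mem_sdiff.mp h').1)] at this
        exact this
    · dsimp only
      by_cases hj : j ∈ O
      · rw [if_pos hj, if_pos ((hst j).mpr hj)]
      · rw [if_neg hj, if_neg fun h' => hj ((hst j).mp h'), hv2 j]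
  · rintro ⟨O, v⟩ hx ⟨O', v'⟩ hx' hww
    rw [mem_coe, mem_sigma, mem_filter, mem_powerset, mem_fixSet] at hx hx'
    obtain ⟨⟨hO, -⟩, hv, -⟩ := hx
    obtain ⟨⟨hO', -⟩, hv', -⟩ := hx'
    dsimp only at hO hO' hv hv' hww
    have hlt : ∀ (P : Finset κ) (w : κ → ℕ), (∀ j, w j < wt (fun _ => b + 1) (C \ P) (fun _ => 0) j) →
        ∀ j, w j < b + 1 := by
      intro P w hw j
      have := hw j
      unfold wt at this
      split_ifs at this <;> omega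
    have hOO : O = O' := by
      ext j
      have h1 := congrFun hww j
      by_cases hj : j ∈ O <;> by_cases hj' : j ∈ O'
      · exact ⟨fun _ => hj', fun _ => hj⟩
      · rw [if_pos hj, if_neg hj'] at h1
        have := hlt O' v' hv' j
        omega
      · rw [if_neg hj, if_pos hj'] at h1
        have := hlt O v hv j
        omega
      · exact ⟨fun h' => absurd h' hj, fun h' => absurd h' hj'⟩
    subst hOO
    have hvv : v = v' := by
      funext j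
      have h1 := congrFun hww j
      by_cases hj : j ∈ O
      · have h2 := hv j
        have h3 := hv' j
        rw [wt_notMem _ _ (fun h' => (mem_sdiff.mp h').2 hj)] at h2 h3
        omega
      · rwa [if_neg hj, if_neg hj] at h1
    rw [hvv]

/-- **The permutations on a tensor power of an idempotent of trace `b` whose exterior power
`b + 1` is not zero.** -/
theorem exists_phantomK (h : IsPower tr perm c ptr) {q : A} (hq : q * q = q) {b : ℕ}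
    (htr : tr q = (b : ℚ)) {Z : Finset κ} (hZ : Z.card = b + 1) {C : Finset κ}
    (hCZ : Disjoint C Z) :
    ∃ Φ : E →ₗ[ℚ] E, ∃ ψ : Equiv.Perm κ → ℚ,
      (∀ ρ ∈ fixF C, Φ (tens h (C ∪ Z) (fun _ => q) * perm ρ) =
        ψ ρ • (tens h Z (fun _ => q) * symS perm (sgnQ κ) Z)) ∧
      (∀ ρ ∈ fixF C, (ψ ρ) ^ 2 ≤ (((fixSet ![b + 2, 0, 0] C (gC C) ρ).card : ℕ) : ℚ) ^ 2) ∧
      ψ 1 = ((b + 2 : ℕ) : ℚ) ^ C.card := by
  classical
  have key : ∀ O : Finset κ, ∃ Φ : E →ₗ[ℚ] E, ∃ φ : Equiv.Perm κ → ℚ, O ⊆ C →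
      φ 1 = ((b + 1 : ℕ) : ℚ) ^ (C \ O).card ∧
      (∀ ρ ∈ fixF C, Φ (tens h (C ∪ Z) (fun _ => q) * perm ρ) =
        φ ρ • (tens h Z (fun _ => q) * symS perm (sgnQ κ) Z)) ∧
      (∀ ρ ∈ fixF C, |φ ρ| ≤
        if ∀ a, ρ a ∈ O ↔ a ∈ O then (wd (b + 1) (C \ O) ρ : ℚ) else 0) := by
    intro O
    by_cases hO : O ⊆ C
    swap
    · exact ⟨0, 0, fun h' => absurd h' hO⟩
    obtain ⟨Φ, φ, h1, h2, h3⟩ := exists_functionalK h hq htr hZ (O := O) (E' := C \ O)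
      disjoint_sdiff (disjoint_of_subset_left hO hCZ)
      (disjoint_of_subset_left sdiff_subset hCZ)
    rw [union_sdiff_of_subset hO] at h2 h3
    exact ⟨Φ, φ, fun _ => ⟨h1, h2, h3⟩⟩
  choose Φ φ hφ using key
  refine ⟨∑ O ∈ C.powerset, Φ O, fun ρ => ∑ O ∈ C.powerset, φ O ρ, ?_, ?_, ?_⟩
  · intro ρ hρ
    rw [LinearMap.sum_apply, sum_smul]
    exact sum_congr rfl fun O hO => (hφ O (mem_powerset.mp hO)).2.1 ρ hρ
  · intro ρ hρ
    rw [sq_le_sq, Nat.abs_cast]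
    refine (abs_sum_le_sum_abs _ _).trans ?_
    have h1 : ∑ O ∈ C.powerset, |φ O ρ| ≤
        ∑ O ∈ C.powerset, (if ∀ a, ρ a ∈ O ↔ a ∈ O then (wd (b + 1) (C \ O) ρ : ℚ) else 0) :=
      sum_le_sum fun O hO => (hφ O (mem_powerset.mp hO)).2.2 ρ hρ
    refine h1.trans ?_
    exact_mod_cast sum_wd_le b C ρ
  · dsimp only
    rw [sum_congr rfl fun O hO => (hφ O (mem_powerset.mp hO)).1]
    have h1 := sum_pow_mul_eq_add_pow (1 : ℚ) ((b + 1 : ℕ) : ℚ) C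
    have h2 : (1 : ℚ) + ((b + 1 : ℕ) : ℚ) = ((b + 2 : ℕ) : ℚ) := by push_cast; ring
    rw [h2] at h1
    rw [← h1]
    refine sum_congr rfl fun O hO => ?_
    rw [one_pow, one_mul, card_sdiff_of_subset (mem_powerset.mp hO)]

theorem block_boundK [Nontrivial E] (h : IsPower tr perm c ptr) {q : Fin 3 → A}
    (hq : ∀ a, q a * q a = q a) (hq2 : q 2 ≠ 0) {β : ℕ} (htr2 : tr (q 2) = (β : ℚ))
    (hAlt : ∀ Z : Finset κ, Z.card = β + 1 →
      tens h Z (fun _ => q 2) * symS perm (sgnQ κ) Z ≠ 0)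
    {b : Fin 3 → ℕ}
    (hb : ∀ a, a ≠ 2 → (tr (q a)) ^ 2 = ((b a : ℕ) : ℚ) ^ 2) (g : κ → Fin 3)
    (σ₀ : Equiv.Perm κ) (W : Submodule ℚ E) [FiniteDimensional ℚ W]
    (hW : ∀ ρ : Equiv.Perm κ, (∀ a, g (ρ a) = g a) → eg h q g * perm ρ * perm σ₀ ∈ W) :
    (∏ j ∈ low g, (b (g j)) ^ 2) * (β + 2) ^ (2 * ((low g)ᶜ).card) ≤
      finrank ℚ W * ((β + 2) ^ (2 * (β + 1)) *
        (Fintype.card κ + 1) ^ (b 0 * b 0 + b 1 * b 1 + (β + 2) * (β + 2))) := by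
  classical
  set C : Finset κ := (low g)ᶜ with hC
  rcases lt_or_ge C.card (β + 1) with hlt | hge
  · have h1 := block_bound h hq hq2 hb g σ₀ W fun ρ hρ => hW ρ hρ.2
    calc (∏ j ∈ low g, (b (g j)) ^ 2) * (β + 2) ^ (2 * C.card) ≤
          (finrank ℚ W * (Fintype.card κ + 1) ^ (b 0 * b 0 + b 1 * b 1)) *
            (β + 2) ^ (2 * (β + 1)) :=
          Nat.mul_le_mul h1 (Nat.pow_le_pow_right (by omega) (by omega))
      _ ≤ (finrank ℚ W * (Fintype.card κ + 1) ^ (b 0 * b 0 + b 1 * b 1 + (β + 2) * (β + 2))) *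
            (β + 2) ^ (2 * (β + 1)) :=
          Nat.mul_le_mul_right _ (Nat.mul_le_mul_left _
            (Nat.pow_le_pow_right (Nat.succ_pos _) (by omega)))
      _ = _ := by ring
  obtain ⟨Z, hZC, hZ⟩ := exists_subset_card_eq hge
  set C' : Finset κ := C \ Z with hC'
  have hCZ' : Disjoint C' Z := sdiff_disjoint
  have hins : C' ∪ Z = C := sdiff_union_of_subset hZC
  have hC'C : ∀ j ∈ C', j ∈ C := fun j hj => (mem_sdiff.mp hj).1
  have hCmem : ∀ j, j ∈ C ↔ g j = 2 := by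
    intro j
    rw [hC, mem_compl, mem_low, not_not]
  have hTC : Disjoint (low g) C := disjoint_compl_right
  obtain ⟨Φ1, v, h1, h2, h3, h3'⟩ := exists_trace2 h hq (b := b) (g := g) (low g) C hTC
    (fun j hj => hb _ (mem_low.mp hj))
  obtain ⟨Φ2, ψ, hψ1, hψ2, hψ3⟩ := exists_phantomK h (hq 2) htr2 hZ hCZ'
  have hu : low g ∪ C = univ := union_compl _
  rw [hu] at h1
  have htC : tens h C (fun j => q (g j)) = tens h (C' ∪ Z) (fun _ => q 2) := by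
    rw [hins]
    exact tens_congr h fun j hj => by rw [(hCmem j).mp hj]
  set e0 : E := tens h Z (fun _ => q 2) * symS perm (sgnQ κ) Z with he0
  have hcne : e0 ≠ 0 := hAlt Z hZ
  obtain ⟨ℓ, hℓ⟩ : ∃ ℓ : E →ₗ[ℚ] ℚ, ℓ e0 = 1 := by
    obtain ⟨f, hf⟩ : ∃ f : Module.Dual ℚ E, f e0 ≠ 0 := by
      by_contra hcon
      push Not at hcon
      exact hcne ((Module.forall_dual_apply_eq_zero_iff ℚ _).mp hcon)
    refine ⟨(f e0)⁻¹ • f, ?_⟩
    rw [LinearMap.smul_apply, smul_eq_mul, inv_mul_cancel₀ hf]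
  -- the second group
  have hlow : low (gC C') = C' := by
    ext j
    rw [mem_low]
    unfold gC
    by_cases hj : j ∈ C' <;> simp [hj]
  set Γ1 := Good (low g) g with hΓ1
  set Γ2 := Good (low (gC C')) (gC C') with hΓ2
  have hΓ2f : ∀ ρ ∈ Γ2, ρ ∈ fixF C' := by
    intro ρ hρ
    rw [mem_fixF]
    intro a ha
    exact hρ.1 a (by rwa [hlow])
  have hcomm : ∀ a ∈ Γ1, ∀ d ∈ Γ2, a * d = d * a := by
    intro a ha d hd
    refine (Equiv.Perm.Disjoint.commute (fun x => ?_)).eq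
    by_cases hx : x ∈ low g
    · right
      refine (mem_fixF.mp (hΓ2f d hd)) x fun hx' => ?_
      have : x ∈ C := hC'C x hx'
      rw [hC, mem_compl] at this
      exact this hx
    · left
      exact ha.1 x hx
  have hgood : ∀ a ∈ Γ1, ∀ d ∈ Γ2, ∀ x, g ((a * d) x) = g x := by
    intro a ha d hd x
    rw [Equiv.Perm.mul_apply, ha.2]
    by_cases hx : x ∈ C'
    · have h4 := fixF_apply_mem (hΓ2f d hd) hx
      rw [(hCmem _).mp (hC'C _ h4), (hCmem _).mp (hC'C _ hx)]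
    · rw [(mem_fixF.mp (hΓ2f d hd)) x hx]
  have hval : ∀ a ∈ Γ1, ∀ d ∈ Γ2, ℓ (Φ2 (Φ1 (eg h q g * perm (a * d)))) = v a * ψ d := by
    intro a ha d hd
    rw [map_mul perm, ← mul_assoc, h3' _ _ fun j hj => ?_]
    · unfold eg
      rw [h1 a ha, smul_mul_assoc, htC, map_smul, hψ1 d (hΓ2f d hd), map_smul, map_smul, hℓ,
        smul_eq_mul, smul_eq_mul, mul_one]
    · refine (mem_fixF.mp (hΓ2f d hd)) j fun hx' => ?_
      have : j ∈ C := hC'C j hx'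
      rw [hC, mem_compl] at this
      exact this hj
  let X : Γ1 × Γ2 → W := fun ρ => ⟨eg h q g * perm (ρ.1.1 * ρ.2.1) * perm σ₀,
    hW _ (hgood _ ρ.1.2 _ ρ.2.2)⟩
  let L : (Γ1 × Γ2 → ℚ) →ₗ[ℚ] W := ∑ s : Γ1 × Γ2, (LinearMap.proj s).smulRight (X s)
  let M : W →ₗ[ℚ] (Γ1 × Γ2 → ℚ) := LinearMap.pi fun t =>
    ℓ ∘ₗ Φ2 ∘ₗ Φ1 ∘ₗ (LinearMap.mulRight ℚ (perm σ₀⁻¹ * perm (t.1.1 * t.2.1)⁻¹)) ∘ₗ W.subtype
  let G : Matrix (Γ1 × Γ2) (Γ1 × Γ2) ℚ :=
    Matrix.of fun t s => v (s.1.1 * t.1.1⁻¹) * ψ (s.2.1 * t.2.1⁻¹)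
  have hG : ∀ t s, G t s = v (s.1.1 * t.1.1⁻¹) * ψ (s.2.1 * t.2.1⁻¹) := fun _ _ => rfl
  have hML : G.mulVecLin = M ∘ₗ L := by
    refine LinearMap.ext fun x => funext fun t => ?_
    rw [Matrix.mulVecLin_apply, Matrix.mulVec, dotProduct]
    simp only [L, M, LinearMap.comp_apply, LinearMap.pi_apply, LinearMap.sum_apply,
      LinearMap.smulRight_apply, LinearMap.proj_apply, map_sum, map_smul]
    refine sum_congr rfl fun s _ => ?_
    rw [smul_eq_mul, mul_comm]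
    congr 1
    have h4 : eg h q g * perm (s.1.1 * s.2.1) * perm σ₀ * (perm σ₀⁻¹ * perm (t.1.1 * t.2.1)⁻¹) =
        eg h q g * perm ((s.1.1 * t.1.1⁻¹) * (s.2.1 * t.2.1⁻¹)) := by
      simp only [mul_assoc, ← map_mul]
      congr 2
      have h5 := hcomm t.1.1⁻¹ (Γ1.inv_mem t.1.2) (s.2.1 * t.2.1⁻¹)
        (Γ2.mul_mem s.2.2 (Γ2.inv_mem t.2.2))
      rw [h5]
      group
    show _ = ℓ (Φ2 (Φ1 (eg h q g * perm (s.1.1 * s.2.1) * perm σ₀ *
      (perm σ₀⁻¹ * perm (t.1.1 * t.2.1)⁻¹))))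
    rw [h4, hval _ (Γ1.mul_mem s.1.2 (Γ1.inv_mem t.1.2)) _ (Γ2.mul_mem s.2.2 (Γ2.inv_mem t.2.2))]
    exact hG t s
  have hrank : G.rank ≤ finrank ℚ W := by
    rw [Matrix.rank, hML]
    calc finrank ℚ (LinearMap.range (M ∘ₗ L)) ≤ finrank ℚ (LinearMap.range M) := by
          refine Submodule.finrank_mono ?_
          exact LinearMap.range_comp_le_range L M
      _ ≤ finrank ℚ W := LinearMap.finrank_range_le M
  set R : Matrix (Γ1 × Γ2) (Γ1 × Γ2) ℝ := G.map (algebraMap ℚ ℝ) with hR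
  have hRr : R.rank = G.rank := rank_map' _ _
  have h7 := trace_sq_le R
  have h8 : R.trace = (Fintype.card (Γ1 × Γ2) : ℝ) * ((v 1 * ψ 1 : ℚ) : ℝ) := by
    rw [Matrix.trace]
    have : ∀ t : Γ1 × Γ2, R.diag t = ((v 1 * ψ 1 : ℚ) : ℝ) := by
      intro t
      rw [Matrix.diag_apply, hR, Matrix.map_apply, hG, mul_inv_cancel, mul_inv_cancel]
      rfl
    rw [sum_congr rfl fun t _ => this t, sum_const, card_univ, nsmul_eq_mul]
  have h9 : ∑ t, ∑ s, R t s ^ 2 = (Fintype.card (Γ1 × Γ2) : ℝ) *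
      ∑ ρ : Γ1 × Γ2, ((v ρ.1.1 * ψ ρ.2.1 : ℚ) : ℝ) ^ 2 := by
    have : ∀ t : Γ1 × Γ2, ∑ s, R t s ^ 2 = ∑ ρ : Γ1 × Γ2, ((v ρ.1.1 * ψ ρ.2.1 : ℚ) : ℝ) ^ 2 := by
      intro t
      refine Fintype.sum_equiv (Equiv.mulRight t⁻¹) _ _ fun s => ?_
      rw [hR, Matrix.map_apply, hG]
      rfl
    rw [sum_congr rfl fun t _ => this t, sum_const, card_univ, nsmul_eq_mul]
  -- Burnside
  have hb1 := burnside b g
  have hb2 := burnside ![β + 2, 0, 0] (gC C')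
  have hK2 : (![β + 2, 0, 0] : Fin 3 → ℕ) 0 * (![β + 2, 0, 0] : Fin 3 → ℕ) 0 +
      (![β + 2, 0, 0] : Fin 3 → ℕ) 1 * (![β + 2, 0, 0] : Fin 3 → ℕ) 1 = (β + 2) * (β + 2) := by
    simp
  rw [hK2] at hb2
  have h12 : ∑ ρ : Γ1 × Γ2, ((v ρ.1.1 * ψ ρ.2.1 : ℚ) : ℝ) ^ 2 ≤
      ((Fintype.card κ + 1 : ℕ) : ℝ) ^ (b 0 * b 0 + b 1 * b 1 + (β + 2) * (β + 2)) *
        (Fintype.card (Γ1 × Γ2) : ℝ) := by
    have h13 : ∀ ρ : Γ1 × Γ2, ((v ρ.1.1 * ψ ρ.2.1 : ℚ) : ℝ) ^ 2 ≤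
        (((fixSet b (low g) g ρ.1.1).card : ℕ) : ℝ) ^ 2 *
          (((fixSet ![β + 2, 0, 0] (low (gC C')) (gC C') ρ.2.1).card : ℕ) : ℝ) ^ 2 := by
      intro ρ
      have e1 := h2 ρ.1.1 ρ.1.2
      have e2 := hψ2 ρ.2.1 (hΓ2f _ ρ.2.2)
      rw [hlow]
      have e3 : (v ρ.1.1 * ψ ρ.2.1 : ℚ) ^ 2 ≤ (((fixSet b (low g) g ρ.1.1).card : ℕ) : ℚ) ^ 2 *
          (((fixSet ![β + 2, 0, 0] C' (gC C') ρ.2.1).card : ℕ) : ℚ) ^ 2 := by
        rw [mul_pow, e1]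
        exact mul_le_mul_of_nonneg_left e2 (sq_nonneg _)
      exact_mod_cast e3
    calc _ ≤ ∑ ρ : Γ1 × Γ2, (((fixSet b (low g) g ρ.1.1).card : ℕ) : ℝ) ^ 2 *
          (((fixSet ![β + 2, 0, 0] (low (gC C')) (gC C') ρ.2.1).card : ℕ) : ℝ) ^ 2 :=
          sum_le_sum fun ρ _ => h13 ρ
      _ = (∑ ρ : Γ1, (((fixSet b (low g) g ρ.1).card : ℕ) : ℝ) ^ 2) *
          ∑ ρ : Γ2, (((fixSet ![β + 2, 0, 0] (low (gC C')) (gC C') ρ.1).card : ℕ) : ℝ) ^ 2 := by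
          rw [sum_mul_sum, Fintype.sum_prod_type]
      _ ≤ (((Fintype.card κ + 1 : ℕ) : ℝ) ^ (b 0 * b 0 + b 1 * b 1) * (Fintype.card Γ1 : ℝ)) *
          (((Fintype.card κ + 1 : ℕ) : ℝ) ^ ((β + 2) * (β + 2)) * (Fintype.card Γ2 : ℝ)) := by
          refine mul_le_mul ?_ ?_ (sum_nonneg fun _ _ => sq_nonneg _) (by positivity)
          · exact_mod_cast hb1
          · exact_mod_cast hb2
      _ = _ := by
          rw [Fintype.card_prod]
          push_cast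
          ring
  have hΓpos : 0 < (Fintype.card (Γ1 × Γ2) : ℝ) := by
    exact_mod_cast Fintype.card_pos
  rw [h8, h9, hRr] at h7
  have h13 : ((v 1 * ψ 1 : ℚ) : ℝ) ^ 2 ≤ (finrank ℚ W : ℝ) *
      ((Fintype.card κ + 1 : ℕ) : ℝ) ^ (b 0 * b 0 + b 1 * b 1 + (β + 2) * (β + 2)) :=
    num_step hΓpos (Nat.cast_le.mpr hrank) h12 (Nat.cast_nonneg _)
      (Finset.sum_nonneg fun ρ _ => sq_nonneg _) h7
  have h16 : ((v 1 * ψ 1 : ℚ) : ℝ) ^ 2 =
      ((((∏ j ∈ low g, (b (g j)) ^ 2) * (β + 2) ^ (2 * C'.card) : ℕ)) : ℝ) := by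
    have e1 : (v 1 * ψ 1) ^ 2 =
        ((((∏ j ∈ low g, (b (g j)) ^ 2) * (β + 2) ^ (2 * C'.card) : ℕ)) : ℚ) := by
      rw [mul_pow, h3, hψ3, ← pow_mul, mul_comm C'.card 2]
      push_cast
      ring
    exact_mod_cast e1
  rw [h16] at h13
  have h17 : (∏ j ∈ low g, (b (g j)) ^ 2) * (β + 2) ^ (2 * C'.card) ≤
      finrank ℚ W * (Fintype.card κ + 1) ^ (b 0 * b 0 + b 1 * b 1 + (β + 2) * (β + 2)) := by
    exact_mod_cast h13
  have h18 : C.card = C'.card + (β + 1) := by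
    rw [← hins, card_union_of_disjoint hCZ', hZ]
  calc (∏ j ∈ low g, (b (g j)) ^ 2) * (β + 2) ^ (2 * C.card) =
        (β + 2) ^ (2 * (β + 1)) *
          ((∏ j ∈ low g, (b (g j)) ^ 2) * (β + 2) ^ (2 * C'.card)) := by
        rw [h18, mul_add 2, pow_add]; ring
    _ ≤ (β + 2) ^ (2 * (β + 1)) *
          (finrank ℚ W * (Fintype.card κ + 1) ^ (b 0 * b 0 + b 1 * b 1 + (β + 2) * (β + 2))) :=
        Nat.mul_le_mul_left _ h17
    _ = _ := by ring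

end MPb197b4
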