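import Pool.Agent.Lib.MP_b197b4_nt.Phantom2

/-!
# MP_b197b4_nt: the sign twist of a power
-/

namespace MPb197b4

open Finset

variable {κ A E : Type*} [DecidableEq κ] [Fintype κ] [Ring A] [Algebra ℚ A] [Ring E] [Algebra ℚ E]
variable {tr : A →ₗ[ℚ] ℚ} {perm : Equiv.Perm κ →* E} {c : κ → A →ₐ[ℚ] E} {ptr : κ → E →ₗ[ℚ] E}

theorem sgnQ_mul_self (σ : Equiv.Perm κ) : sgnQ κ σ * sgnQ κ σ = 1 := by
  rw [← sq, sgnQ_sq]

/-- the permutations with their signs -/
def twist (perm : Equiv.Perm κ →* E) : Equiv.Perm κ →* E where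
  toFun σ := sgnQ κ σ • perm σ
  map_one' := by rw [map_one, map_one, one_smul]
  map_mul' := by
    intro x y
    rw [map_mul, map_mul, smul_mul_smul_comm]

theorem twist_apply (perm : Equiv.Perm κ →* E) (σ : Equiv.Perm κ) :
    twist perm σ = sgnQ κ σ • perm σ := rfl

theorem twist_twist (perm : Equiv.Perm κ →* E) : twist (twist perm) = perm := by
  ext σ
  rw [twist_apply, twist_apply, smul_smul, sgnQ_mul_self, one_smul]

theorem away_twist_le (perm : Equiv.Perm κ →* E) (c : κ → A →ₐ[ℚ] E) (j : κ) :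
    away (twist perm) c j ≤ away perm c j := by
  refine Algebra.adjoin_le ?_
  rintro x (⟨i, a, hi, rfl⟩ | ⟨σ, hσ, rfl⟩)
  · exact at_mem_away hi a
  · rw [twist_apply]
    exact Subalgebra.smul_mem _ (perm_mem_away hσ) _

theorem away_twist (perm : Equiv.Perm κ →* E) (c : κ → A →ₐ[ℚ] E) (j : κ) :
    away (twist perm) c j = away perm c j := by
  refine le_antisymm (away_twist_le perm c j) ?_
  have h1 := away_twist_le (twist perm) c j
  rwa [twist_twist] at h1

theorem twist_isPower (h : IsPower tr perm c ptr) :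
    IsPower (-tr) (twist perm) c (fun j => -ptr j) where
  comm := h.comm
  conj := by
    intro σ j x
    rw [twist_apply, smul_mul_assoc, h.conj, mul_smul_comm]
  inj := h.inj
  ptr_mul := by
    intro j x a ha b hb
    rw [away_twist] at ha hb
    rw [LinearMap.neg_apply, LinearMap.neg_apply, h.ptr_mul j x a ha b hb, mul_neg, neg_mul]
  ptr_at := by
    intro j x
    rw [LinearMap.neg_apply, h.ptr_at, LinearMap.neg_apply, map_neg]
  ptr_swap := by
    intro i j hij
    rw [LinearMap.neg_apply, twist_apply, sgnQ_swap hij, neg_one_smul, map_neg, neg_neg,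
      h.ptr_swap i j hij]

theorem symS_twist (perm : Equiv.Perm κ →* E) (χ : Equiv.Perm κ →* ℚ) (U : Finset κ) :
    symS (twist perm) χ U = symS perm (χ * sgnQ κ) U := by
  unfold symS
  refine sum_congr rfl fun s _ => ?_
  rw [twist_apply, smul_smul, MonoidHom.mul_apply]

theorem symS_twist_sgn (perm : Equiv.Perm κ →* E) (U : Finset κ) :
    symS (twist perm) (sgnQ κ) U = symS perm 1 U := by
  rw [symS_twist]
  congr 1
  ext σ
  rw [MonoidHom.mul_apply, MonoidHom.one_apply, sgnQ_mul_self]

theorem symS_twist_one (perm : Equiv.Perm κ →* E) (U : Finset κ) :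
    symS (twist perm) 1 U = symS perm (sgnQ κ) U := by
  rw [symS_twist, one_mul]

theorem tens_twist (h : IsPower tr perm c ptr) (T : Finset κ) (y : κ → A) :
    tens (twist_isPower h) T y = tens h T y := rfl

theorem twist_mem (perm : Equiv.Perm κ →* E) {S : Subalgebra ℚ E} (hS : ∀ σ, perm σ ∈ S)
    (σ : Equiv.Perm κ) : twist perm σ ∈ S := by
  rw [twist_apply]
  exact S.smul_mem (hS σ) _

end MPb197b4
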