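import Pool.Agent.Lib.MP_b197b4_nt.Sum
import Pool.Agent.Lib.MP_b197b4_nt.KSum
import Pool.Agent.Lib.MP_b197b4_nt.KTwist

/-!
# MP_b197b4_nt: the dimension of the algebra of graph cycles when an exterior power of an
idempotent beyond its trace does not vanish
-/

namespace MPb197b4

open Finset Module

set_option linter.unusedSectionVars false

variable {κ A E : Type*} [DecidableEq κ] [Fintype κ] [Ring A] [Algebra ℚ A] [Ring E] [Algebra ℚ E]
variable {tr : A →ₗ[ℚ] ℚ} {perm : Equiv.Perm κ →* E} {c : κ → A →ₐ[ℚ] E} {ptr : κ → E →ₗ[ℚ] E}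

/-- moving the places of a tensor antisymmetrized on `Z` -/
theorem alt_transport (h : IsPower tr perm c ptr) (χ : Equiv.Perm κ →* ℚ) (q : A)
    {Z Z' : Finset κ} (hc : Z.card = Z'.card)
    (h0 : tens h Z (fun _ => q) * symS perm χ Z = 0) :
    tens h Z' (fun _ => q) * symS perm χ Z' = 0 := by
  classical
  obtain ⟨ρ, hρ⟩ : ∃ ρ : Equiv.Perm κ, Z.map ρ.toEmbedding = Z' := by
    have e1 : Fintype.card {x // x ∈ Z} = Fintype.card {x // x ∈ Z'} := by
      rw [Fintype.card_coe, Fintype.card_coe, hc]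
    let e : {x // x ∈ Z} ≃ {x // x ∈ Z'} := Fintype.equivOfCardEq e1
    refine ⟨e.extendSubtype, ?_⟩
    refine eq_of_subset_of_card_le ?_ (by rw [card_map, hc])
    intro x hx
    rw [mem_map] at hx
    obtain ⟨a, ha, rfl⟩ := hx
    exact e.extendSubtype_mem a ha
  have h1 : perm ρ * (tens h Z (fun _ => q) * symS perm χ Z) =
      tens h Z' (fun _ => q) * symS perm χ Z' * perm ρ := by
    rw [← mul_assoc, conj_tens, mul_assoc, conj_symS, hρ, mul_assoc]
  rw [h0, mul_zero] at h1
  have h2 : tens h Z' (fun _ => q) * symS perm χ Z' * perm ρ * perm ρ⁻¹ = 0 := by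
    rw [← h1, zero_mul]
  rwa [mul_assoc, ← map_mul, mul_inv_cancel, map_one, mul_one] at h2

/-- **The dimension of the algebra of graph cycles**, with a third idempotent of trace `β` whose
exterior power `β + 1` is not zero. -/
theorem total_boundK [Nontrivial E] (h : IsPower tr perm c ptr) {q : Fin 3 → A}
    (hq : ∀ a, q a * q a = q a) (hq' : ∀ a a', a ≠ a' → q a * q a' = 0) (hq2 : q 2 ≠ 0)
    {β : ℕ} (htr2 : tr (q 2) = (β : ℚ))
    (hAlt : ∀ Z : Finset κ, Z.card = β + 1 →
      tens h Z (fun _ => q 2) * symS perm (sgnQ κ) Z ≠ 0)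
    {b0 b1 : ℕ} (hb0 : tr (q 0) ^ 2 = (b0 : ℚ) ^ 2) (hb1 : tr (q 1) ^ 2 = (b1 : ℚ) ^ 2)
    (S : Subalgebra ℚ E) [FiniteDimensional ℚ S] (hS : ∀ σ, perm σ ∈ S)
    (hS' : ∀ j a, c j (q a) ∈ S) :
    (b0 + b1 + (β + 2)) ^ (2 * Fintype.card κ) ≤
      finrank ℚ S * ((β + 2) ^ (2 * (β + 1)) *
        (Fintype.card κ + 1) ^ (b0 * b0 + b1 * b1 + (β + 2) * (β + 2) + 2)) := by
  classical
  set b : Fin 3 → ℕ := ![b0, b1, β + 2] with hb
  have hb' : ∀ a, a ≠ 2 → (tr (q a)) ^ 2 = ((b a : ℕ) : ℚ) ^ 2 := by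
    intro a ha
    have ha' : a = 0 ∨ a = 1 := by omega
    rcases ha' with rfl | rfl
    · exact hb0
    · exact hb1
  have hfin : ∀ p, FiniteDimensional ℚ (blk h q S p) := by
    intro p
    have : FiniteDimensional ℚ (Subalgebra.toSubmodule S) := ‹FiniteDimensional ℚ S›
    unfold blk
    infer_instance
  have hegS : ∀ g, eg h q g ∈ S := fun g => tens_mem h S univ fun j => hS' j _
  have hblkS : ∀ p x, x ∈ blk h q S p → x ∈ S := by
    intro p x hx
    obtain ⟨y, hy, rfl⟩ := (mem_blk h q S p x).mp hx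
    exact mul_mem (hegS _) (mul_mem hy (hegS _))
  -- the sum of the dimensions of the blocks
  have hsum : ∑ p, finrank ℚ (blk h q S p) ≤ finrank ℚ S := by
    have h1 : ∑ p, finrank ℚ (blk h q S p) = finrank ℚ (∀ p, blk h q S p) := by
      rw [Module.finrank_pi_fintype]
    rw [h1]
    let Λ : (∀ p, blk h q S p) →ₗ[ℚ] (Subalgebra.toSubmodule S) :=
      LinearMap.codRestrict (Subalgebra.toSubmodule S)
        (∑ p, (blk h q S p).subtype ∘ₗ LinearMap.proj p) (fun y => by
          rw [LinearMap.sum_apply]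
          exact sum_mem fun p _ => hblkS p _ (y p).2)
    have hΛ : Function.Injective Λ := by
      rw [← LinearMap.ker_eq_bot, LinearMap.ker_eq_bot']
      intro y hy
      have h2 : ∑ p, ((y p : blk h q S p) : E) = 0 := by
        have := congrArg (fun z : Subalgebra.toSubmodule S => (z : E)) hy
        simpa [Λ] using this
      funext p0
      apply Subtype.ext
      have h3 : ∀ p, eg h q p0.1 * ((y p : blk h q S p) : E) * eg h q p0.2 =
          if p = p0 then ((y p : blk h q S p) : E) else 0 := by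
        intro p
        obtain ⟨z, _, hz⟩ := (mem_blk h q S p _).mp (y p).2
        rw [← hz]
        by_cases hp : p = p0
        · subst hp
          rw [if_pos rfl]
          calc eg h q p.1 * (eg h q p.1 * (z * eg h q p.2)) * eg h q p.2
              = (eg h q p.1 * eg h q p.1) * z * (eg h q p.2 * eg h q p.2) := by
                simp only [mul_assoc]
            _ = _ := by rw [eg_mul_self h hq, eg_mul_self h hq, mul_assoc]
        · rw [if_neg hp]
          have : p.1 ≠ p0.1 ∨ p.2 ≠ p0.2 := by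
            by_contra hcon
            push Not at hcon
            exact hp (Prod.ext hcon.1 hcon.2)
          rcases this with h4 | h4
          · rw [← mul_assoc (eg h q p0.1), eg_mul_ne h hq' (fun h5 => h4 h5.symm), zero_mul,
              zero_mul]
          · rw [mul_assoc, mul_assoc, mul_assoc, eg_mul_ne h hq' h4, mul_zero, mul_zero, mul_zero]
      have h6 : eg h q p0.1 * (∑ p, ((y p : blk h q S p) : E)) * eg h q p0.2 = (y p0 : E) := by
        rw [mul_sum, sum_mul, sum_congr rfl fun p _ => h3 p, sum_ite_eq' univ p0, if_pos (mem_univ _)]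
      rw [← h6, h2, mul_zero, zero_mul]
      rfl
    exact LinearMap.finrank_le_finrank_of_injective hΛ
  -- each block
  set K := (β + 2) ^ (2 * (β + 1)) *
    (Fintype.card κ + 1) ^ (b0 * b0 + b1 * b1 + (β + 2) * (β + 2)) with hK
  have hblk : ∀ p : (κ → Fin 3) × (κ → Fin 3), (if typ p.1 = typ p.2 then wgt b p.1 ^ 2 else 0) ≤
      finrank ℚ (blk h q S p) * K := by
    rintro ⟨g, f⟩
    by_cases ht : typ g = typ f
    swap
    · rw [if_neg ht]; exact Nat.zero_le _
    rw [if_pos ht]
    obtain ⟨σ, hσ⟩ := exists_perm ht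
    have hW : ∀ ρ : Equiv.Perm κ, (∀ a, g (ρ a) = g a) →
        eg h q g * perm ρ * perm σ ∈ blk h q S (g, f) := by
      intro ρ hρ
      rw [mem_blk]
      refine ⟨perm ρ * perm σ, mul_mem (hS _) (hS _), ?_⟩
      have h7 : perm σ * eg h q f = eg h q g * perm σ := by
        rw [eg_mul_perm]
        congr 2
        funext j
        rw [← hσ, Equiv.apply_symm_apply]
      have h8 : perm ρ * eg h q g = eg h q g * perm ρ := by
        rw [eg_mul_perm]
        congr 2
        funext j
        have := hρ (ρ.symm j)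
        rw [Equiv.apply_symm_apply] at this
        exact this.symm
      calc eg h q g * (perm ρ * perm σ * eg h q f)
          = eg h q g * (perm ρ * (perm σ * eg h q f)) := by simp only [mul_assoc]
        _ = eg h q g * (perm ρ * eg h q g * perm σ) := by rw [h7]; simp only [mul_assoc]
        _ = (eg h q g * eg h q g) * perm ρ * perm σ := by rw [h8]; simp only [mul_assoc]
        _ = _ := by rw [eg_mul_self h hq]
    have h9 := block_boundK h hq hq2 htr2 hAlt hb' g σ (blk h q S (g, f)) hW
    have h10 : (∏ j ∈ low g, (b (g j)) ^ 2) * (β + 2) ^ (2 * ((low g)ᶜ).card) = wgt b g ^ 2 := by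
      unfold wgt
      rw [← prod_pow, ← prod_mul_prod_compl (low g) (fun j => b (g j) ^ 2)]
      congr 1
      rw [pow_mul, ← prod_const]
      refine prod_congr rfl fun j hj => ?_
      rw [mem_compl, mem_low, not_not] at hj
      rw [hj]
      simp [hb]
    rw [h10] at h9
    exact h9
  have h11 := wgt_sum_sq (κ := κ) b
  have h12 : b 0 + b 1 + b 2 = b0 + b1 + (β + 2) := by simp [hb]
  rw [h12] at h11
  calc (b0 + b1 + (β + 2)) ^ (2 * Fintype.card κ) ≤ _ := h11
    _ ≤ (Fintype.card κ + 1) ^ 2 * ∑ p, finrank ℚ (blk h q S p) * K :=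
        Nat.mul_le_mul_left _ (sum_le_sum fun p _ => hblk p)
    _ = (Fintype.card κ + 1) ^ 2 * ((∑ p, finrank ℚ (blk h q S p)) * K) := by rw [sum_mul]
    _ ≤ (Fintype.card κ + 1) ^ 2 * (finrank ℚ S * K) :=
        Nat.mul_le_mul_left _ (Nat.mul_le_mul_right _ hsum)
    _ = _ := by rw [hK]; ring

end MPb197b4
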