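import Pool.Agent.Lib.MP_b197b4_nt.KWords

/-!
# MP_b197b4_nt: partial traces of antisymmetrizations of an idempotent of trace `b`
-/

namespace MPb197b4

open Finset

variable {κ A E : Type*} [DecidableEq κ] [Fintype κ] [Ring A] [Algebra ℚ A] [Ring E] [Algebra ℚ E]
variable {tr : A →ₗ[ℚ] ℚ} {perm : Equiv.Perm κ →* E} {c : κ → A →ₐ[ℚ] E} {ptr : κ → E →ₗ[ℚ] E}

omit [Fintype κ] in
theorem ptr_left (h : IsPower tr perm c ptr) {j : κ} {a : E} (ha : a ∈ away perm c j) (x : E) :
    ptr j (a * x) = a * ptr j x := by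
  have := h.ptr_mul j x a ha 1 (one_mem _)
  rwa [mul_one, mul_one] at this

omit [Fintype κ] in
theorem ptr_right (h : IsPower tr perm c ptr) {j : κ} {a : E} (ha : a ∈ away perm c j) (x : E) :
    ptr j (x * a) = ptr j x * a := by
  have := h.ptr_mul j x 1 (one_mem _) a ha
  rwa [one_mul, one_mul] at this

theorem sum_inv_fixF {M : Type*} [AddCommMonoid M] {U : Finset κ} (F : Equiv.Perm κ → M) :
    ∑ g ∈ fixF U, F g⁻¹ = ∑ g ∈ fixF U, F g :=
  sum_nbij' (fun g => g⁻¹) (fun g => g⁻¹) (fun _ h => fixF_inv h) (fun _ h => fixF_inv h)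
    (fun g _ => inv_inv g) (fun g _ => inv_inv g) (fun _ _ => rfl)

theorem sum_insert_fixF' {M : Type*} [AddCommMonoid M] {U : Finset κ} {e : κ} (he : e ∉ U)
    (F : Equiv.Perm κ → M) :
    ∑ g ∈ fixF (insert e U), F g =
      ∑ g ∈ fixF U, F g + ∑ a ∈ U, ∑ g ∈ fixF U, F (g * Equiv.swap a e) := by
  rw [← sum_inv_fixF, sum_insert_fixF he (fun g => F g⁻¹), sum_inv_fixF]
  congr 1
  refine sum_congr rfl fun a _ => ?_
  rw [← sum_inv_fixF (fun g => F (g * Equiv.swap a e))]
  refine sum_congr rfl fun g _ => ?_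
  rw [mul_inv_rev, Equiv.swap_inv]

theorem symS_insert' (χ : Equiv.Perm κ →* ℚ) {U : Finset κ} {e : κ} (he : e ∉ U) :
    symS perm χ (insert e U) =
      symS perm χ U * (1 + ∑ a ∈ U, χ (Equiv.swap a e) • perm (Equiv.swap a e)) := by
  unfold symS
  rw [sum_insert_fixF' he, mul_add, mul_one, mul_sum]
  congr 1
  refine sum_congr rfl fun a _ => ?_
  rw [sum_mul]
  refine sum_congr rfl fun g _ => ?_
  rw [smul_mul_smul_comm, ← map_mul, ← map_mul]

theorem symS_mul_symS (χ : Equiv.Perm κ →* ℚ) {U V : Finset κ} (hVU : V ⊆ U) :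
    symS perm χ U * symS perm χ V = ((fixF V).card : ℚ) • symS perm χ U := by
  have h1 : ∀ s ∈ fixF V, symS perm χ U * (χ s • perm s) = symS perm χ U := by
    intro s hs
    rw [mul_smul_comm, symS_mul_perm χ (fixF_mono hVU hs), smul_smul, ← map_mul, mul_inv_cancel,
      map_one, one_smul]
  have h2 : symS perm χ U * symS perm χ V = ∑ s ∈ fixF V, symS perm χ U * (χ s • perm s) := by
    conv_lhs => rw [symS.eq_def perm χ V]
    rw [mul_sum]
  rw [h2, sum_congr rfl h1, sum_const, ← Nat.cast_smul_eq_nsmul ℚ]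

theorem fixF_card_pos (V : Finset κ) : 0 < (fixF V).card :=
  card_pos.mpr ⟨1, mem_fixF.mpr fun _ _ => rfl⟩

/-- **The partial trace of an antisymmetrization**, idempotent of any trace. -/
theorem ptr_symS' (h : IsPower tr perm c ptr) {p : A} (hp : p * p = p) (χ : Equiv.Perm κ →* ℚ)
    {ε : ℚ} (hχ : ∀ a b : κ, a ≠ b → χ (Equiv.swap a b) = ε) {T U : Finset κ} {e : κ}
    (heT : e ∉ T) (hU : U ⊆ T) :
    ptr e (tens h (insert e T) (fun _ => p) * symS perm χ (insert e U)) =
      (tr p + ε * U.card) • (tens h T (fun _ => p) * symS perm χ U) := by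
  have heU : e ∉ U := fun h' => heT (hU h')
  rw [symS_insert χ heU, tens_insert h heT, tens_comm_at h heT]
  have h1 : tens h T (fun _ => p) * c e p *
      ((1 + ∑ a ∈ U, χ (Equiv.swap a e) • perm (Equiv.swap a e)) * symS perm χ U) =
      tens h T (fun _ => p) *
        (c e p * (1 + ∑ a ∈ U, χ (Equiv.swap a e) • perm (Equiv.swap a e))) * symS perm χ U := by
    simp only [mul_assoc]
  rw [h1, h.ptr_mul e _ _ (tens_mem_away h heT _) _ (symS_mem_away χ heU)]
  have h2 : ptr e (c e p * (1 + ∑ a ∈ U, χ (Equiv.swap a e) • perm (Equiv.swap a e))) =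
      tr p • (1 : E) + ∑ a ∈ U, ε • c a p := by
    rw [mul_add, mul_one, map_add, h.ptr_at, mul_sum, map_sum, Algebra.algebraMap_eq_smul_one]
    congr 1
    refine sum_congr rfl fun a ha => ?_
    have hae : a ≠ e := fun h' => heU (h' ▸ ha)
    have h3 : c e p * perm (Equiv.swap a e) = perm (Equiv.swap a e) * c a p := by
      rw [h.conj, Equiv.swap_apply_left]
    rw [hχ a e hae, mul_smul_comm, h3, map_smul]
    have h4 := h.ptr_mul e (perm (Equiv.swap a e)) 1 (one_mem _) (c a p) (at_mem_away hae p)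
    rw [one_mul, one_mul, h.ptr_swap a e hae, one_mul] at h4
    rw [h4]
  rw [h2, mul_add, mul_smul_comm, mul_one, add_mul, smul_mul_assoc, mul_sum, sum_mul, add_smul]
  congr 1
  have h5 : ∀ a ∈ U, tens h T (fun _ => p) * (ε • c a p) * symS perm χ U =
      ε • (tens h T (fun _ => p) * symS perm χ U) := by
    intro a ha
    rw [mul_smul_comm, smul_mul_assoc, tens_mul_at h (hU ha) hp]
  rw [sum_congr rfl h5, sum_const, ← Nat.cast_smul_eq_nsmul ℚ, smul_smul, mul_comm ε]

/-- Partial traces over places of a long antisymmetrization. -/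
theorem exists_ptrO (h : IsPower tr perm c ptr) {q : A} (hq : q * q = q) {b : ℕ}
    (htr : tr q = (b : ℚ)) {Z T : Finset κ} (hZ : b < Z.card) (hZT : Z ⊆ T) (O : Finset κ)
    (hOT : Disjoint O T) :
    ∃ Θ : E →ₗ[ℚ] E, ∃ r : ℚ, r ≠ 0 ∧ ∀ Y : E, (∀ o ∈ O, Y ∈ away perm c o) →
      Θ (tens h (O ∪ T) (fun _ => q) * symS perm (sgnQ κ) (O ∪ Z) * Y) =
        r • (tens h T (fun _ => q) * symS perm (sgnQ κ) Z * Y) := by
  induction O using Finset.induction_on with
  | empty =>
    refine ⟨LinearMap.id, 1, one_ne_zero, fun Y _ => ?_⟩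
    rw [LinearMap.id_apply, one_smul, empty_union, empty_union]
  | insert o O hoO ih =>
    rw [disjoint_insert_left] at hOT
    obtain ⟨Θ, r, hr, hΘ⟩ := ih hOT.2
    have hoT : o ∉ O ∪ T := by simp [hoO, hOT.1]
    refine ⟨Θ ∘ₗ ptr o, (tr q + (-1) * ((O ∪ Z).card : ℚ)) * r, mul_ne_zero ?_ hr, ?_⟩
    · have h1 : Z.card ≤ (O ∪ Z).card := card_le_card subset_union_right
      have h2 : b < (O ∪ Z).card := lt_of_lt_of_le hZ h1
      have h3 : (b : ℚ) < ((O ∪ Z).card : ℚ) := by exact_mod_cast h2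
      rw [htr]
      intro h4
      linarith
    · intro Y hY
      rw [LinearMap.comp_apply, insert_union, insert_union,
        ptr_right h (hY o (mem_insert_self _ _)),
        ptr_symS' h hq (sgnQ κ) (ε := -1) (fun _ _ hab => sgnQ_swap hab) hoT
          (union_subset_union_right hZT), smul_mul_assoc, map_smul,
        hΘ Y fun o' ho' => hY o' (mem_insert_of_mem ho'), smul_smul]

theorem swap_mul_mem_fixF {U : Finset κ} {e : κ} {g : Equiv.Perm κ}
    (hg : g ∈ fixF (insert e U)) : Equiv.swap (g e) e * g ∈ fixF U := by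
  rw [mem_fixF]
  intro a ha
  by_cases hae : a = e
  · subst hae
    rw [Equiv.Perm.mul_apply, Equiv.swap_apply_left]
  · have h2 : g a = a := (mem_fixF.mp hg) a (by simp [hae, ha])
    rw [Equiv.Perm.mul_apply, h2, Equiv.swap_apply_of_ne_of_ne _ hae]
    intro h3
    exact hae (g.injective (h2.trans h3))

theorem fixF_comm {U V : Finset κ} (hd : Disjoint U V) {g s : Equiv.Perm κ} (hg : g ∈ fixF U)
    (hs : s ∈ fixF V) : g * s = s * g := by
  refine (Equiv.Perm.Disjoint.commute (fun x => ?_)).eq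
  by_cases hx : x ∈ U
  · exact Or.inr ((mem_fixF.mp hs) x (disjoint_left.mp hd hx))
  · exact Or.inl ((mem_fixF.mp hg) x hx)

theorem symS_comm_cS (d : ℕ) {U V : Finset κ} (hd : Disjoint U V) (χ : Equiv.Perm κ →* ℚ) :
    symS (wAct κ d) χ V * cS κ d U = cS κ d U * symS (wAct κ d) χ V := by
  unfold symS cS
  rw [sum_mul_sum, sum_mul_sum, sum_comm]
  refine sum_congr rfl fun g hg => sum_congr rfl fun s hs => ?_
  rw [smul_mul_smul_comm, smul_mul_smul_comm, ← map_mul, ← map_mul, fixF_comm hd hg hs, mul_comm]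

theorem cS_comm_jm (d : ℕ) {U : Finset κ} {e : κ} (he : e ∉ U) :
    cS κ d U * (∑ a ∈ U, wAct κ d (Equiv.swap a e)) =
      (∑ a ∈ U, wAct κ d (Equiv.swap a e)) * cS κ d U := by
  unfold cS
  rw [sum_mul, mul_sum]
  refine sum_congr rfl fun g hg => ?_
  rw [smul_mul_assoc, mul_smul_comm]
  congr 1
  rw [mul_sum, sum_mul]
  refine sum_nbij' (fun a => g a) (fun a => g⁻¹ a) (fun a ha => fixF_apply_mem hg ha)
    (fun a ha => fixF_apply_mem (fixF_inv hg) ha) (fun a _ => g.symm_apply_apply a)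
    (fun a _ => g.apply_symm_apply a) ?_
  intro a _
  rw [← map_mul, ← map_mul, Equiv.mul_swap_eq_swap_mul, (mem_fixF.mp hg) e he]

/-- **The functional of the words.** -/
theorem exists_words (h : IsPower tr perm c ptr) {q : A} (hq : q * q = q) {b : ℕ}
    (htr : tr q = (b : ℚ)) {Z : Finset κ} (hZ : Z.card = b + 1) (E' : Finset κ)
    (hd : Disjoint E' Z) :
    ∃ Φ : E →ₗ[ℚ] E, ∃ τ : Equiv.Perm κ → ℚ,
      (∀ g ∈ fixF (E' ∪ Z), Φ (tens h (E' ∪ Z) (fun _ => q) * symS perm (sgnQ κ) Z * perm g) =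
        τ g • (tens h Z (fun _ => q) * symS perm (sgnQ κ) Z)) ∧
      ∑ g ∈ fixF (E' ∪ Z), τ g • wAct κ (b + 1) g⁻¹ =
        cS κ (b + 1) E' * symS (wAct κ (b + 1)) (sgnQ κ) Z := by
  induction E' using Finset.induction_on with
  | empty =>
    refine ⟨LinearMap.id, fun g => sgnQ κ g⁻¹, ?_, ?_⟩
    · intro g hg
      rw [empty_union] at hg ⊢
      rw [LinearMap.id_apply, mul_assoc, symS_mul_perm _ hg, mul_smul_comm]
    · rw [empty_union, cS_empty, one_mul]
      exact sum_inv_fixF (fun g => sgnQ κ g • wAct κ (b + 1) g)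
  | insert e E' heE ih =>
    rw [disjoint_insert_left] at hd
    obtain ⟨Φ, τ, h1, h2⟩ := ih hd.2
    have heT : e ∉ E' ∪ Z := by simp [heE, hd.1]
    refine ⟨Φ ∘ₗ ptr e, fun g => if g e = e then (b : ℚ) * τ g else τ (Equiv.swap (g e) e * g),
      ?_, ?_⟩
    · intro g hg
      rw [insert_union] at hg ⊢
      have hcomm : tens h (insert e (E' ∪ Z)) (fun _ => q) * symS perm (sgnQ κ) Z * perm g =
          symS perm (sgnQ κ) Z * (tens h (insert e (E' ∪ Z)) (fun _ => q) * perm g) := by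
        rw [← symS_comm_tens h (sgnQ κ) (subset_union_right.trans (subset_insert _ _)) q, mul_assoc]
      have hcomm' : symS perm (sgnQ κ) Z * tens h (E' ∪ Z) (fun _ => q) =
          tens h (E' ∪ Z) (fun _ => q) * symS perm (sgnQ κ) Z :=
        symS_comm_tens h (sgnQ κ) subset_union_right q
      rw [LinearMap.comp_apply, hcomm, ptr_left h (symS_mem_away (sgnQ κ) hd.1)]
      show _ = (if g e = e then (b : ℚ) * τ g else τ (Equiv.swap (g e) e * g)) • _
      by_cases hf : g e = e
      · have hg' : g ∈ fixF (E' ∪ Z) := by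
          rw [mem_fixF]
          intro a ha
          by_cases hae : a = e
          · rw [hae, hf]
          · exact (mem_fixF.mp hg) a (by simp only [mem_insert, hae, false_or]; exact ha)
        rw [if_pos hf, ptr_fixed h heT _ hf, mul_smul_comm, ← mul_assoc, hcomm', map_smul, h1 g hg',
          htr, smul_smul]
      · have hT : g e ∈ E' ∪ Z := by
          have := fixF_apply_mem hg (mem_insert_self _ _)
          rw [mem_insert] at this
          exact this.resolve_left hf
        rw [if_neg hf, ptr_moved h heT hf hT hq, ← mul_assoc, hcomm', h1 _ (swap_mul_mem_fixF hg)]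
    · rw [insert_union, sum_insert_fixF heT]
      have h3 : ∀ g ∈ fixF (E' ∪ Z), (if g e = e then (b : ℚ) * τ g else
          τ (Equiv.swap (g e) e * g)) • wAct κ (b + 1) g⁻¹ =
          (b : ℚ) • (τ g • wAct κ (b + 1) g⁻¹) := by
        intro g hg
        rw [if_pos ((mem_fixF.mp hg) e heT), smul_smul]
      have h4 : ∀ a ∈ E' ∪ Z, ∑ g ∈ fixF (E' ∪ Z), (if (Equiv.swap a e * g) e = e then
          (b : ℚ) * τ (Equiv.swap a e * g) else
          τ (Equiv.swap ((Equiv.swap a e * g) e) e * (Equiv.swap a e * g))) •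
            wAct κ (b + 1) (Equiv.swap a e * g)⁻¹ =
          (∑ g ∈ fixF (E' ∪ Z), τ g • wAct κ (b + 1) g⁻¹) * wAct κ (b + 1) (Equiv.swap a e) := by
        intro a ha
        have hae : a ≠ e := fun h' => heT (h' ▸ ha)
        rw [sum_mul]
        refine sum_congr rfl fun g hg => ?_
        have h5 : (Equiv.swap a e * g) e = a := by
          rw [Equiv.Perm.mul_apply, (mem_fixF.mp hg) e heT, Equiv.swap_apply_right]
        rw [h5, if_neg hae, ← mul_assoc, Equiv.swap_mul_self, one_mul, mul_inv_rev,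
          Equiv.swap_inv, map_mul, smul_mul_assoc]
      rw [sum_congr rfl h3, ← smul_sum, sum_congr rfl h4, ← mul_sum, h2, sum_union hd.2,
        cS_insert _ heE]
      -- the antisymmetrization of `insert e Z` is zero
      have h6 := symS_insert' (perm := wAct κ (b + 1)) (sgnQ κ) hd.1
      rw [symS_eq_zero (by rw [card_insert_of_notMem hd.1, hZ]; omega)] at h6
      have h7 : symS (wAct κ (b + 1)) (sgnQ κ) Z * ∑ a ∈ Z, wAct κ (b + 1) (Equiv.swap a e) =
          symS (wAct κ (b + 1)) (sgnQ κ) Z := by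
        have h8 : ∑ a ∈ Z, sgnQ κ (Equiv.swap a e) • wAct κ (b + 1) (Equiv.swap a e) =
            (-1 : ℚ) • ∑ a ∈ Z, wAct κ (b + 1) (Equiv.swap a e) := by
          rw [smul_sum]
          refine sum_congr rfl fun a ha => ?_
          rw [sgnQ_swap (fun h' : a = e => hd.1 (h' ▸ ha))]
        rw [h8, mul_add, mul_one, mul_smul_comm] at h6
        refine LinearMap.ext fun f => funext fun u => ?_
        have h11 : (0 : ℚ) = symS (wAct κ (b + 1)) (sgnQ κ) Z f u + (-1) *
            (symS (wAct κ (b + 1)) (sgnQ κ) Z * ∑ a ∈ Z, wAct κ (b + 1) (Equiv.swap a e)) f u :=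
          congrArg (fun Y : Module.End ℚ (WFun κ (b + 1)) => Y f u) h6
        linarith
      have h9 : cS κ (b + 1) E' * symS (wAct κ (b + 1)) (sgnQ κ) Z *
          ∑ a ∈ E', wAct κ (b + 1) (Equiv.swap a e) =
          (∑ a ∈ E', wAct κ (b + 1) (Equiv.swap a e)) *
            (cS κ (b + 1) E' * symS (wAct κ (b + 1)) (sgnQ κ) Z) := by
        have h10 : symS (wAct κ (b + 1)) (sgnQ κ) Z * ∑ a ∈ E', wAct κ (b + 1) (Equiv.swap a e) =
            (∑ a ∈ E', wAct κ (b + 1) (Equiv.swap a e)) * symS (wAct κ (b + 1)) (sgnQ κ) Z := by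
          unfold symS
          rw [sum_mul_sum, sum_mul_sum, sum_comm]
          refine sum_congr rfl fun a ha => sum_congr rfl fun s hs => ?_
          rw [smul_mul_assoc, mul_smul_comm, ← map_mul, ← map_mul]
          congr 2
          have haZ : a ∉ Z := disjoint_left.mp hd.2 ha
          rw [Equiv.mul_swap_eq_swap_mul, (mem_fixF.mp hs) a haZ, (mem_fixF.mp hs) e hd.1]
        rw [mul_assoc, h10, ← mul_assoc, cS_comm_jm _ heE, mul_assoc]
      rw [mul_add, h9, mul_assoc _ _ (∑ a ∈ Z, wAct κ (b + 1) (Equiv.swap a e)), h7, add_mul, add_mul,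
        smul_mul_assoc, one_mul, mul_assoc]
      push_cast
      rw [add_smul, one_smul, add_mul, smul_mul_assoc]
      abel

end MPb197b4
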