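import Pool.Agent.Lib.MP_b197b4_nt.Phantom2

/-!
# MP_b197b4_nt: permutations of words in `d` letters
-/

namespace MPb197b4

open Finset

variable {κ : Type*} [DecidableEq κ] [Fintype κ]

/-- the functions on words in `d` letters -/
abbrev WFun (κ : Type*) (d : ℕ) : Type _ := (κ → Fin d) → ℚ

/-- the action of the permutations on the functions on words -/
def wAct (κ : Type*) (d : ℕ) : Equiv.Perm κ →* Module.End ℚ (WFun κ d) where
  toFun g :=
    { toFun := fun f u => f (u ∘ g)
      map_add' := fun _ _ => rfl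
      map_smul' := fun _ _ => rfl }
  map_one' := rfl
  map_mul' := fun _ _ => rfl

omit [DecidableEq κ] [Fintype κ] in
theorem wAct_apply {d : ℕ} (g : Equiv.Perm κ) (f : WFun κ d) (u : κ → Fin d) :
    wAct κ d g f u = f (u ∘ g) := rfl

/-- an antisymmetrization of more than `d` places kills the words in `d` letters. -/
theorem symS_eq_zero {d : ℕ} {U : Finset κ} (hU : d < U.card) :
    symS (wAct κ d) (sgnQ κ) U = 0 := by
  refine LinearMap.ext fun f => funext fun u => ?_
  obtain ⟨a, ha, b, hb, hab, hu⟩ := exists_ne_map_eq_of_card_lt_of_maps_to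
    (s := U) (t := (univ : Finset (Fin d))) (f := u) (by rw [card_univ, Fintype.card_fin]; exact hU)
    (fun _ _ => mem_univ _)
  have h1 := perm_mul_symS (perm := wAct κ d) (sgnQ κ) (swap_mem_fixF ha hb)
  rw [Equiv.swap_inv, sgnQ_swap hab, neg_one_smul] at h1
  have h2 : (symS (wAct κ d) (sgnQ κ) U f) (u ∘ Equiv.swap a b) =
      -((symS (wAct κ d) (sgnQ κ) U f) u) := by
    have := congrArg (fun X : Module.End ℚ (WFun κ d) => X f u) h1
    exact this
  have h3 : u ∘ Equiv.swap a b = u := by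
    funext x
    rw [Function.comp_apply]
    rcases eq_or_ne x a with rfl | hxa
    · rw [Equiv.swap_apply_left, hu]
    · rcases eq_or_ne x b with rfl | hxb
      · rw [Equiv.swap_apply_right, hu]
      · rw [Equiv.swap_apply_of_ne_of_ne hxa hxb]
  rw [h3] at h2
  show (symS (wAct κ d) (sgnQ κ) U f) u = 0
  linarith

/-- the sum over the permutations of a set with one more element -/
theorem sum_insert_fixF {M : Type*} [AddCommMonoid M] {U : Finset κ} {e : κ} (he : e ∉ U)
    (F : Equiv.Perm κ → M) :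
    ∑ g ∈ fixF (insert e U), F g =
      ∑ g ∈ fixF U, F g + ∑ a ∈ U, ∑ g ∈ fixF U, F (Equiv.swap a e * g) := by
  have h1 : ∑ g ∈ fixF U, F g + ∑ a ∈ U, ∑ g ∈ fixF U, F (Equiv.swap a e * g) =
      ∑ a ∈ insert e U, ∑ g ∈ fixF U, F (Equiv.swap a e * g) := by
    rw [sum_insert he]
    congr 1
    refine sum_congr rfl fun g _ => ?_
    rw [Equiv.swap_self]
    rfl
  rw [h1, ← sum_product']
  symm
  refine sum_nbij' (fun x => Equiv.swap x.1 e * x.2) (fun s => (s e, Equiv.swap (s e) e * s))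
    ?_ ?_ ?_ ?_ ?_
  · rintro ⟨a, s⟩ hx
    rw [mem_product] at hx
    exact fixF_mul (swap_mem_fixF hx.1 (mem_insert_self _ _)) (fixF_mono (subset_insert _ _) hx.2)
  · intro s hs
    rw [mem_product]
    refine ⟨fixF_apply_mem hs (mem_insert_self _ _), ?_⟩
    rw [mem_fixF]
    intro a ha
    by_cases hae : a = e
    · subst hae
      rw [Equiv.Perm.mul_apply, Equiv.swap_apply_left]
    · have h2 : s a = a := (mem_fixF.mp hs) a (by simp [hae, ha])
      rw [Equiv.Perm.mul_apply, h2, Equiv.swap_apply_of_ne_of_ne _ hae]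
      intro h3
      exact hae (s.injective (h2.trans h3))
  · rintro ⟨a, s⟩ hx
    rw [mem_product] at hx
    have h2 : s e = e := (mem_fixF.mp hx.2) e he
    have h3 : (Equiv.swap a e * s) e = a := by
      rw [Equiv.Perm.mul_apply, h2, Equiv.swap_apply_right]
    dsimp only
    rw [h3, ← mul_assoc, Equiv.swap_mul_self, one_mul]
  · intro s _
    dsimp only
    rw [← mul_assoc, Equiv.swap_mul_self, one_mul]
  · rintro ⟨a, s⟩ _
    rfl

/-- the number of the words in `d` letters on the set `E'` which are fixed by `g` -/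
def wd (d : ℕ) (E' : Finset κ) (g : Equiv.Perm κ) : ℕ :=
  (fixSet (fun _ => d) E' (fun _ => 0) g).card

theorem wd_fixed (d : ℕ) {E' : Finset κ} {e : κ} (he : e ∉ E') {g : Equiv.Perm κ}
    (hg : g ∈ fixF E') : wd d (insert e E') g = d * wd d E' g :=
  fix_fixed (fun _ => d) (fun _ => 0) he ((mem_fixF.mp hg) e he)

theorem wd_moved (d : ℕ) {E' : Finset κ} {e a : κ} (he : e ∉ E') (ha : a ∈ E')
    {g : Equiv.Perm κ} (hg : g ∈ fixF E') :
    wd d (insert e E') (Equiv.swap a e * g) = wd d E' g := by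
  have h2 : g e = e := (mem_fixF.mp hg) e he
  have h3 : (Equiv.swap a e * g) e = a := by
    rw [Equiv.Perm.mul_apply, h2, Equiv.swap_apply_right]
  have hae : a ≠ e := fun h' => he (h' ▸ ha)
  have h4 := fix_moved (fun _ => d) (T := E') (fun _ => 0) (ρ := Equiv.swap a e * g) (j := e) he
    (by rw [h3]; exact hae) (by rw [h3]; exact ha) rfl
  rw [h3, ← mul_assoc, Equiv.swap_mul_self, one_mul] at h4
  exact h4

theorem wd_empty (d : ℕ) (g : Equiv.Perm κ) : wd d (∅ : Finset κ) g = 1 := fix_empty _ _ _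

/-- the central element -/
noncomputable def cS (κ : Type*) [DecidableEq κ] [Fintype κ] (d : ℕ) (E' : Finset κ) :
    Module.End ℚ (WFun κ d) := ∑ g ∈ fixF E', (wd d E' g : ℚ) • wAct κ d g

theorem fixF_empty : fixF (∅ : Finset κ) = {1} := by
  ext s
  rw [mem_fixF, mem_singleton]
  constructor
  · intro hs
    ext a
    exact hs a (notMem_empty a)
  · rintro rfl a _
    rfl

theorem cS_empty (d : ℕ) : cS κ d ∅ = 1 := by
  unfold cS
  rw [fixF_empty, sum_singleton, wd_empty, map_one]
  simp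

theorem cS_insert (d : ℕ) {E' : Finset κ} {e : κ} (he : e ∉ E') :
    cS κ d (insert e E') = ((d : ℚ) • (1 : Module.End ℚ (WFun κ d)) +
      ∑ a ∈ E', wAct κ d (Equiv.swap a e)) * cS κ d E' := by
  unfold cS
  rw [sum_insert_fixF he, add_mul, sum_mul, smul_mul_assoc, one_mul, smul_sum]
  congr 1
  · refine sum_congr rfl fun g hg => ?_
    rw [wd_fixed d he hg, smul_smul]
    push_cast
    rfl
  · refine sum_congr rfl fun a ha => ?_
    rw [mul_sum]
    refine sum_congr rfl fun g hg => ?_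
    rw [wd_moved d he ha hg, map_mul, mul_smul_comm]

/-- the stabilizer sums -/
theorem cS_injective (d : ℕ) (E' : Finset κ) (f : WFun κ d) (hf : cS κ d E' f = 0) : f = 0 := by
  classical
  -- the words on `E'`
  set Ws : Finset (κ → ℕ) := Fintype.piFinset fun j => range (wt (fun _ => d) E' (fun _ => 0) j)
    with hWs
  set St : (κ → ℕ) → Finset (Equiv.Perm κ) := fun v => (fixF E').filter fun g => v ∘ g = v with hSt
  have hSt_inv : ∀ v, ∀ g ∈ St v, g⁻¹ ∈ St v := by
    intro v g hg
    rw [hSt, mem_filter] at hg ⊢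
    refine ⟨fixF_inv hg.1, ?_⟩
    funext x
    have := congrFun hg.2 (g⁻¹ x)
    rw [Function.comp_apply] at this ⊢
    rw [← this]
    congr 1
    exact g.apply_symm_apply x
  have hSt_mul : ∀ v, ∀ g ∈ St v, ∀ h ∈ St v, g * h ∈ St v := by
    intro v g hg h hh
    rw [hSt, mem_filter] at hg hh ⊢
    refine ⟨fixF_mul hg.1 hh.1, ?_⟩
    rw [Equiv.Perm.coe_mul, ← Function.comp_assoc, hg.2, hh.2]
  have hSt_one : ∀ v, (1 : Equiv.Perm κ) ∈ St v := by
    intro v
    rw [hSt, mem_filter]
    refine ⟨mem_fixF.mpr fun _ _ => rfl, rfl⟩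
  let Sv : (κ → ℕ) → Module.End ℚ (WFun κ d) := fun v => ∑ g ∈ St v, wAct κ d g
  have hcS : cS κ d E' = ∑ v ∈ Ws, Sv v := by
    have h1 : ∀ g ∈ fixF E', (wd d E' g : ℚ) • wAct κ d g =
        ∑ v ∈ Ws, if v ∘ g = v then wAct κ d g else 0 := by
      intro g _
      rw [← sum_filter, sum_const, ← Nat.cast_smul_eq_nsmul ℚ]
      rfl
    unfold cS
    rw [sum_congr rfl h1, sum_comm]
    refine sum_congr rfl fun v _ => ?_
    rw [← sum_filter]
  -- the squares
  have hsq : ∀ v, (∑ u, (Sv v f u) ^ 2) = ((St v).card : ℚ) * ∑ u, f u * Sv v f u := by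
    intro v
    have hval : ∀ u, Sv v f u = ∑ g ∈ St v, f (u ∘ g) := by
      intro u
      simp only [Sv, LinearMap.sum_apply, Finset.sum_apply, wAct_apply]
    have h1 : ∀ g ∈ St v, ∑ u, f (u ∘ g) * Sv v f u = ∑ u, f u * Sv v f u := by
      intro g hg
      have h2 : ∀ u, Sv v f (u ∘ ⇑(g⁻¹ : Equiv.Perm κ)) = Sv v f u := by
        intro u
        rw [hval, hval]
        refine sum_nbij' (fun h => g⁻¹ * h) (fun h => g * h) (fun h hh => hSt_mul v _ (hSt_inv v g hg) h hh)
          (fun h hh => hSt_mul v g hg h hh) (fun h _ => by group) (fun h _ => by group) ?_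
        intro h _
        rfl
      refine Fintype.sum_equiv (Equiv.arrowCongr g.symm (Equiv.refl (Fin d))) _ _ fun u => ?_
      have h3 : (Equiv.arrowCongr g.symm (Equiv.refl (Fin d))) u = u ∘ g := rfl
      rw [h3]
      congr 1
      have h4 := h2 (u ∘ g)
      have h5 : (u ∘ ⇑g) ∘ ⇑(g⁻¹ : Equiv.Perm κ) = u := by
        funext x
        exact congrArg u (g.apply_symm_apply x)
      rw [h5] at h4
      exact h4
    calc (∑ u, (Sv v f u) ^ 2) = ∑ u, (∑ g ∈ St v, f (u ∘ g)) * Sv v f u := by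
          refine sum_congr rfl fun u _ => ?_
          rw [sq]
          nth_rewrite 1 [hval u]
          rfl
      _ = ∑ g ∈ St v, ∑ u, f (u ∘ g) * Sv v f u := by
          rw [sum_comm]
          exact sum_congr rfl fun u _ => sum_mul _ _ _
      _ = ∑ g ∈ St v, ∑ u, f u * Sv v f u := sum_congr rfl h1
      _ = _ := by rw [sum_const, nsmul_eq_mul]
  have hcard : ∀ v, (0 : ℚ) < ((St v).card : ℚ) := by
    intro v
    have : 0 < (St v).card := card_pos.mpr ⟨1, hSt_one v⟩
    exact_mod_cast this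
  have hnn : ∀ v ∈ Ws, 0 ≤ ∑ u, f u * Sv v f u := by
    intro v _
    have h1 := hsq v
    have h2 : (0 : ℚ) ≤ ∑ u, (Sv v f u) ^ 2 := sum_nonneg fun _ _ => sq_nonneg _
    rw [h1] at h2
    exact nonneg_of_mul_nonneg_right h2 (hcard v)
  have hsum : ∑ v ∈ Ws, ∑ u, f u * Sv v f u = 0 := by
    rw [sum_comm]
    have h1 : ∀ u, ∑ v ∈ Ws, f u * Sv v f u = f u * (cS κ d E' f) u := by
      intro u
      rw [hcS, LinearMap.sum_apply, Finset.sum_apply, mul_sum]
    rw [sum_congr rfl fun u _ => h1 u, hf]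
    simp
  have hzero : ∀ v ∈ Ws, ∀ u, Sv v f u = 0 := by
    intro v hv u
    have h1 := (sum_eq_zero_iff_of_nonneg hnn).mp hsum v hv
    have h2 := hsq v
    rw [h1, mul_zero] at h2
    have h3 := (sum_eq_zero_iff_of_nonneg (fun u _ => sq_nonneg (Sv v f u))).mp h2 u (mem_univ u)
    exact pow_eq_zero_iff (n := 2) (by norm_num) |>.mp h3
  funext u
  -- the word of `u` on `E'`
  set v : κ → ℕ := fun j => if j ∈ E' then (u j : ℕ) else 0 with hv
  have hvW : v ∈ Ws := by
    rw [hWs, Fintype.mem_piFinset]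
    intro j
    rw [mem_range, hv]
    by_cases hj : j ∈ E'
    · rw [wt_mem _ _ hj]
      simp [hj]
    · rw [wt_notMem _ _ hj]
      simp [hj]
  have h1 := hzero v hvW u
  have h2 : ∀ g ∈ St v, f (u ∘ g) = f u := by
    intro g hg
    congr 1
    funext x
    rw [hSt, mem_filter] at hg
    rw [Function.comp_apply]
    by_cases hx : x ∈ E'
    · have h3 := congrFun hg.2 x
      have h4 : g x ∈ E' := fixF_apply_mem hg.1 hx
      rw [Function.comp_apply, hv] at h3
      simp only [hx, h4, if_true] at h3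
      exact Fin.ext h3
    · rw [(mem_fixF.mp hg.1) x hx]
  have h3 : Sv v f u = ((St v).card : ℚ) * f u := by
    have hval : Sv v f u = ∑ g ∈ St v, f (u ∘ g) := by
      simp only [Sv, LinearMap.sum_apply, Finset.sum_apply, wAct_apply]
    rw [hval, sum_congr rfl h2, sum_const, nsmul_eq_mul]
  rw [h3] at h1
  exact (mul_eq_zero.mp h1).resolve_left (hcard v).ne'

end MPb197b4
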