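import Pool.Agent.Lib.MP_b197b4_nt.Main
import Pool.Agent.Lib.MP_b197b4_nt.KTotal

/-!
# MP_b197b4_nt: sums and alternating sums of permutations
-/

namespace MPb197b4

open Polynomial Finset Module

variable {q : ℕ} {X : Variety q}

/-- the alternating sum of the permutations of the factors in `Z` -/
noncomputable def Power.alt {k : ℕ} (W : Power X k) (Z : Finset (Fin k)) : W.E :=
  ∑ s ∈ fixF Z, ((Equiv.Perm.sign s : ℤ) : ℚ) • W.perm s

/-- the sum of the permutations of the factors in `Z` -/
noncomputable def Power.sym {k : ℕ} (W : Power X k) (Z : Finset (Fin k)) : W.E :=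
  ∑ s ∈ fixF Z, W.perm s

theorem alt_eq {k : ℕ} (W : Power X k) (Z : Finset (Fin k)) :
    W.alt Z = symS W.perm (sgnQ (Fin k)) Z := rfl

theorem sym_eq {k : ℕ} (W : Power X k) (Z : Finset (Fin k)) :
    W.sym Z = symS W.perm 1 Z := by
  unfold Power.sym symS
  refine sum_congr rfl fun s _ => ?_
  rw [MonoidHom.one_apply, one_smul]

end MPb197b4
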