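import Pool.Agent.Lib.MP_b197b4_nt.Defs
import Pool.Agent.Lib.MP_b197b4_nt.Idem
import Pool.Agent.Lib.MP_b197b4_nt.EigB

/-!
# MP_b197b4_nt: traces of the projections, and the vanishing of rational motivic cohomology
-/

namespace MPb197b4

open Polynomial Finset Module

namespace Variety

variable {q : ℕ} (X : Variety q)

/-- product of the characteristic polynomials in even degrees -/
noncomputable def Qp : ℚ[X] := ∏ i ∈ (range (2 * X.d + 1)).filter Even, X.P i

/-- product of the characteristic polynomials in odd degrees -/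
noncomputable def Qm : ℚ[X] := ∏ i ∈ (range (2 * X.d + 1)).filter (fun i => ¬ Even i), X.P i

theorem betti_eq : X.betti = X.bp + X.bm :=
  (sum_filter_add_sum_filter_not _ _ _).symm

theorem P_ne (i : ℕ) : X.P i ≠ 0 := by
  intro h
  have h1 := X.charpoly_F i
  rw [h, Polynomial.map_zero] at h1
  exact (LinearMap.charpoly_monic _).ne_zero h1

theorem Qp_ne : X.Qp ≠ 0 := prod_ne_zero_iff.mpr fun i _ => X.P_ne i

theorem Qm_ne : X.Qm ≠ 0 := prod_ne_zero_iff.mpr fun i _ => X.P_ne i

theorem coprime_P (hq : 2 ≤ q) {i j : ℕ} (hij : i ≠ j) : IsCoprime (X.P i) (X.P j) := by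
  refine (Polynomial.isCoprime_iff_aeval_ne_zero_of_isAlgClosed ℚ ℂ (X.P i) (X.P j)).mpr fun α => ?_
  by_contra hcon
  push Not at hcon
  have h1 := X.weight i α hcon.1
  have h2 := X.weight j α hcon.2
  rw [h1] at h2
  have h3 : (1 : ℝ) < Real.sqrt q := by
    rw [Real.lt_sqrt (by norm_num)]
    have : (2 : ℝ) ≤ q := by exact_mod_cast hq
    linarith
  exact hij (pow_right_injective₀ (by linarith) h3.ne' h2)

theorem coprime_pm (hq : 2 ≤ q) : IsCoprime X.Qp X.Qm := by
  refine IsCoprime.prod_left fun i hi => IsCoprime.prod_right fun j hj => X.coprime_P hq ?_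
  rintro rfl
  exact (mem_filter.mp hj).2 (mem_filter.mp hi).2

theorem one_dvd_Qp : (Polynomial.X - 1 : ℚ[X]) ∣ X.Qp := by
  rw [← X.P_zero]
  exact dvd_prod_of_mem _ (mem_filter.mpr ⟨mem_range.mpr (by omega), by simp⟩)

theorem finrank_zero : finrank X.L (X.H 0) = 1 := by
  have h1 := congrArg natDegree (X.charpoly_F 0)
  rw [LinearMap.charpoly_natDegree, X.P_zero, Polynomial.map_sub, Polynomial.map_X,
    Polynomial.map_one, ← Polynomial.C_1, Polynomial.natDegree_X_sub_C] at h1
  exact h1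

/-- the trace of an element which acts as one or zero -/
theorem tr_of {x : X.E} {p : ℕ → Prop} [DecidablePred p]
    (h1 : ∀ i ∈ range (2 * X.d + 1), p i → X.act i x = 1)
    (h0 : ∀ i ∈ range (2 * X.d + 1), ¬ p i → X.act i x = 0) :
    X.tr x = ∑ i ∈ (range (2 * X.d + 1)).filter p, (-1) ^ i * (finrank X.L (X.H i) : ℚ) := by
  have h2 : ((X.tr x : ℚ) : X.L) =
      ((∑ i ∈ (range (2 * X.d + 1)).filter p, (-1) ^ i * (finrank X.L (X.H i) : ℚ) : ℚ) : X.L) := by
    rw [X.trace_eq, sum_filter]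
    push_cast
    refine sum_congr rfl fun i hi => ?_
    by_cases hp : p i
    · rw [h1 i hi hp, if_pos hp, LinearMap.trace_one]
      push_cast
      rfl
    · rw [h0 i hi hp, if_neg hp, map_zero, mul_zero, Rat.cast_zero]
  exact Rat.cast_injective h2

theorem tr_zero {x : X.E} (h : ∀ i ∈ range (2 * X.d + 1), X.act i x = 0) : X.tr x = 0 := by
  have h1 : ((X.tr x : ℚ) : X.L) = ((0 : ℚ) : X.L) := by
    rw [X.trace_eq, Rat.cast_zero]
    exact sum_eq_zero fun i hi => by rw [h i hi, map_zero, mul_zero]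
  exact Rat.cast_injective h1

theorem tr_plus (hq : 2 ≤ q) {w : ℚ[X]} (h : Fit X.F X.Qp w) :
    X.tr (aeval X.F w) = X.bp := by
  rw [X.tr_of (p := Even) (fun i hi hp => h.act_one (X.act i) (X.charpoly_F i)
      (dvd_prod_of_mem _ (mem_filter.mpr ⟨hi, hp⟩)))
    (fun i hi hp => h.act_zero (X.act i) (X.charpoly_F i)
      (IsCoprime.prod_right fun j hj => X.coprime_P hq (by
        rintro rfl
        exact hp (mem_filter.mp hj).2)))]
  unfold bp
  push_cast
  refine sum_congr rfl fun i hi => ?_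
  rw [(mem_filter.mp hi).2.neg_one_pow, one_mul]

theorem tr_minus (hq : 2 ≤ q) {w : ℚ[X]} (h : Fit X.F X.Qm w) :
    X.tr (aeval X.F w) = - X.bm := by
  rw [X.tr_of (p := fun i => ¬ Even i) (fun i hi hp => h.act_one (X.act i) (X.charpoly_F i)
      (dvd_prod_of_mem _ (mem_filter.mpr ⟨hi, hp⟩)))
    (fun i hi hp => h.act_zero (X.act i) (X.charpoly_F i)
      (IsCoprime.prod_right fun j hj => X.coprime_P hq (by
        rintro rfl
        exact hp (mem_filter.mp hj).2)))]
  unfold bm
  push_cast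
  rw [← sum_neg_distrib]
  refine sum_congr rfl fun i hi => ?_
  rw [(Nat.not_even_iff_odd.mp (mem_filter.mp hi).2).neg_one_pow, neg_one_mul]

theorem tr_one (hq : 2 ≤ q) {w : ℚ[X]} (h : Fit X.F (Polynomial.X - 1) w) :
    X.tr (aeval X.F w) = 1 := by
  rw [X.tr_of (p := fun i => i = 0) (fun i hi hp => by
      subst hp
      exact h.act_one (X.act 0) (X.charpoly_F 0) (by rw [X.P_zero]))
    (fun i hi hp => h.act_zero (X.act i) (X.charpoly_F i)
      (by rw [← X.P_zero]; exact X.coprime_P hq hp))]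
  have : (range (2 * X.d + 1)).filter (fun i => i = 0) = {0} := by
    ext i
    simp only [mem_filter, mem_range, mem_singleton]
    omega
  rw [this, sum_singleton, X.finrank_zero]
  norm_num

/-- the value at one of a polynomial which gives the projection to the part `F = 1` -/
theorem eval_one {w : ℚ[X]} (h : Fit X.F (Polynomial.X - 1) w) : w.eval 1 = 1 := by
  have h1 : X.act 0 (aeval X.F w) = 1 :=
    h.act_one (X.act 0) (X.charpoly_F 0) (by rw [X.P_zero])
  have h2 : X.act 0 X.F = 1 := by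
    have h3 := LinearMap.aeval_self_charpoly (X.act 0 X.F)
    rw [X.charpoly_F 0, X.P_zero, Polynomial.map_sub, Polynomial.map_X, Polynomial.map_one,
      map_sub, Polynomial.aeval_X, map_one, sub_eq_zero] at h3
    exact h3
  rw [map_aeval' (L := X.L), h2, ← map_one (algebraMap X.L (Module.End X.L (X.H 0))),
    Polynomial.aeval_algebraMap_apply, ← map_one (algebraMap ℚ X.L),
    Polynomial.aeval_map_algebraMap, Polynomial.aeval_algebraMap_apply] at h1
  have : Nontrivial (X.H 0) := Module.nontrivial_of_finrank_pos (R := X.L)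
    (by rw [X.finrank_zero]; exact one_pos)
  have h4 := (algebraMap X.L (Module.End X.L (X.H 0))).injective h1
  have h5 := (algebraMap ℚ X.L).injective h4
  simpa using h5

instance : Nontrivial X.E := by
  refine ⟨X.e, 0, fun h => ?_⟩
  have := X.tr_e
  rw [h, map_zero] at this
  exact zero_ne_one this

end Variety

open Variety

variable {q : ℕ} {X : Variety q}

/-- **Vanishing.** If no factor has phantoms, then the rational motivic cohomology vanishes. -/
theorem vanishing {r : ℕ} (hq : 2 ≤ q) (X : Fin r → Variety q) (C : Cohomology X)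
    (h : ∀ j, (∃ P : ℚ[X], P ≠ 0 ∧ aeval (X j).F P = 0 ∧
      ∀ α : ℂ, aeval α P = 0 → 1 ≤ ‖α‖ ∧ (‖α‖ = 1 → α = 1)) ∧
      ∃ w : ℚ[X], w.eval 1 = 1 ∧ aeval (X j).F w = (X j).e)
    (m : ℕ) (i : ℤ) (hmi : (m, i) ≠ (0, 2 * ∑ j, ((X j).d : ℤ))) : Subsingleton (C.V m i) := by
  choose hP w hw1 hw using h
  choose P hP0 hPF hroot using hP
  have hv : ∀ j (p : ℚ[X]), aeval (C.act m i j (X j).F) p = C.act m i j (aeval (X j).F p) :=
    fun j p => Polynomial.aeval_algHom_apply _ _ _
  refine EigB.subsingleton (K := ℚ) (fun j => C.act m i j (X j).F) ?_ P w hP0 ?_ hroot hw1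
    (c := ((q : ℚ) ^ m)⁻¹) ?_ (C.frob m i) ?_
  · intro a b
    by_cases hab : a = b
    · subst hab; exact Commute.refl _
    · exact C.act_comm m i a b hab _ _
  · intro j
    rw [hv, hPF, map_zero]
  · rw [eq_ratCast, Rat.cast_inv, Rat.cast_pow, Rat.cast_natCast, norm_inv, norm_pow,
      Complex.norm_natCast]
    exact inv_le_one_of_one_le₀ (one_le_pow₀ (by exact_mod_cast (by omega : 1 ≤ q)))
  · rw [← C.point m i hmi]
    congr 2
    funext j
    rw [hv, hw]

end MPb197b4
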