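import Pool.Agent.Lib.MP_b197b4_nt.Tower
import Pool.Agent.Lib.MP_b197b4_nt.Fix

/-!
# MP_b197b4_nt: the permutations on a tensor power of an idempotent of trace zero
-/

namespace MPb197b4

open Finset

variable {κ A E : Type*} [DecidableEq κ] [Fintype κ] [Ring A] [Algebra ℚ A] [Ring E] [Algebra ℚ E]
variable {tr : A →ₗ[ℚ] ℚ} {perm : Equiv.Perm κ →* E} {c : κ → A →ₐ[ℚ] E} {ptr : κ → E →ₗ[ℚ] E}

/-- the permutations which fix the points outside `U` -/
def fixF (U : Finset κ) : Finset (Equiv.Perm κ) := univ.filter fun s => ∀ a, a ∉ U → s a = a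

theorem mem_fixF {U : Finset κ} {s : Equiv.Perm κ} : s ∈ fixF U ↔ ∀ a, a ∉ U → s a = a := by
  simp [fixF]

theorem fixF_mul {U : Finset κ} {s t : Equiv.Perm κ} (hs : s ∈ fixF U) (ht : t ∈ fixF U) :
    s * t ∈ fixF U := by
  rw [mem_fixF] at *
  intro a ha
  rw [Equiv.Perm.mul_apply, ht a ha, hs a ha]

theorem fixF_inv {U : Finset κ} {s : Equiv.Perm κ} (hs : s ∈ fixF U) : s⁻¹ ∈ fixF U := by
  rw [mem_fixF] at *
  intro a ha
  rw [Equiv.Perm.inv_eq_iff_eq, hs a ha]

theorem fixF_mono {U V : Finset κ} (h : U ⊆ V) {s : Equiv.Perm κ} (hs : s ∈ fixF U) :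
    s ∈ fixF V := by
  rw [mem_fixF] at *
  exact fun a ha => hs a fun h' => ha (h h')

theorem swap_mem_fixF {U : Finset κ} {a b : κ} (ha : a ∈ U) (hb : b ∈ U) :
    Equiv.swap a b ∈ fixF U := by
  rw [mem_fixF]
  intro x hx
  exact Equiv.swap_apply_of_ne_of_ne (fun h => hx (h ▸ ha)) (fun h => hx (h ▸ hb))

theorem fixF_apply_mem {U : Finset κ} {s : Equiv.Perm κ} (hs : s ∈ fixF U) {a : κ} (ha : a ∈ U) :
    s a ∈ U := by
  by_contra hcon
  have h1 : s (s a) = s a := (mem_fixF.mp hs) _ hcon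
  have h2 : s a = a := s.injective h1
  rw [h2] at hcon
  exact hcon ha

/-- the sum of the permutations which fix the points outside `U`, with the signs `χ` -/
noncomputable def symS (perm : Equiv.Perm κ →* E) (χ : Equiv.Perm κ →* ℚ) (U : Finset κ) : E :=
  ∑ s ∈ fixF U, χ s • perm s

theorem perm_mul_symS (χ : Equiv.Perm κ →* ℚ) {U : Finset κ} {τ : Equiv.Perm κ}
    (hτ : τ ∈ fixF U) : perm τ * symS perm χ U = χ τ⁻¹ • symS perm χ U := by
  unfold symS
  rw [mul_sum, smul_sum]
  refine sum_nbij' (fun s => τ * s) (fun s => τ⁻¹ * s) (fun s hs => fixF_mul hτ hs)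
    (fun s hs => fixF_mul (fixF_inv hτ) hs) (fun s _ => by group) (fun s _ => by group) ?_
  intro s _
  rw [mul_smul_comm, ← map_mul, smul_smul, ← map_mul]
  congr 2
  group

theorem symS_mul_perm (χ : Equiv.Perm κ →* ℚ) {U : Finset κ} {τ : Equiv.Perm κ}
    (hτ : τ ∈ fixF U) : symS perm χ U * perm τ = χ τ⁻¹ • symS perm χ U := by
  unfold symS
  rw [sum_mul, smul_sum]
  refine sum_nbij' (fun s => s * τ) (fun s => s * τ⁻¹) (fun s hs => fixF_mul hs hτ)
    (fun s hs => fixF_mul hs (fixF_inv hτ)) (fun s _ => by group) (fun s _ => by group) ?_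
  intro s _
  rw [smul_mul_assoc, ← map_mul, smul_smul, mul_comm (χ τ⁻¹), ← map_mul]
  congr 2
  group

theorem symS_insert (χ : Equiv.Perm κ →* ℚ) {U : Finset κ} {e : κ} (he : e ∉ U) :
    symS perm χ (insert e U) =
      (1 + ∑ a ∈ U, χ (Equiv.swap a e) • perm (Equiv.swap a e)) * symS perm χ U := by
  have h1 : (1 : E) + ∑ a ∈ U, χ (Equiv.swap a e) • perm (Equiv.swap a e) =
      ∑ a ∈ insert e U, χ (Equiv.swap a e) • perm (Equiv.swap a e) := by
    rw [sum_insert he, Equiv.swap_self]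
    congr 1
    have : (Equiv.refl κ : Equiv.Perm κ) = 1 := rfl
    rw [this, map_one, map_one, one_smul]
  rw [h1]
  unfold symS
  rw [sum_mul_sum, ← sum_product']
  symm
  refine sum_nbij' (fun x => Equiv.swap x.1 e * x.2) (fun s => (s e, Equiv.swap (s e) e * s))
    ?_ ?_ ?_ ?_ ?_
  · rintro ⟨a, s⟩ hx
    rw [mem_product] at hx
    exact fixF_mul (swap_mem_fixF hx.1 (mem_insert_self _ _)) (fixF_mono (subset_insert _ _) hx.2)
  · intro s hs
    rw [mem_product]
    refine ⟨fixF_apply_mem hs (mem_insert_self _ _), ?_⟩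
    rw [mem_fixF]
    intro a ha
    by_cases hae : a = e
    · subst hae
      rw [Equiv.Perm.mul_apply, Equiv.swap_apply_left]
    · have h2 : s a = a := (mem_fixF.mp hs) a (by simp [hae, ha])
      rw [Equiv.Perm.mul_apply, h2, Equiv.swap_apply_of_ne_of_ne _ hae]
      intro h3
      exact hae (s.injective (h2.trans h3))
  · rintro ⟨a, s⟩ hx
    rw [mem_product] at hx
    have h2 : s e = e := (mem_fixF.mp hx.2) e he
    have h3 : (Equiv.swap a e * s) e = a := by
      rw [Equiv.Perm.mul_apply, h2, Equiv.swap_apply_right]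
    dsimp only
    rw [h3, ← mul_assoc, Equiv.swap_mul_self, one_mul]
  · intro s _
    dsimp only
    rw [← mul_assoc, Equiv.swap_mul_self, one_mul]
  · rintro ⟨a, s⟩ _
    dsimp only
    rw [smul_mul_smul_comm, ← map_mul, ← map_mul]

theorem symS_singleton (χ : Equiv.Perm κ →* ℚ) (o : κ) : symS perm χ {o} = 1 := by
  have h1 : fixF ({o} : Finset κ) = {1} := by
    ext s
    rw [mem_fixF, mem_singleton]
    constructor
    · intro hs
      ext a
      rw [Equiv.Perm.one_apply]
      by_cases ha : a = o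
      · subst ha
        have := fixF_apply_mem (U := {a}) (mem_fixF.mpr hs) (mem_singleton_self a)
        exact mem_singleton.mp this
      · exact hs a (by simpa using ha)
    · rintro rfl a _
      rfl
  unfold symS
  rw [h1, sum_singleton, map_one, map_one, one_smul]

theorem symS_mem_away (χ : Equiv.Perm κ →* ℚ) {U : Finset κ} {e : κ} (he : e ∉ U) :
    symS perm χ U ∈ away perm c e := by
  unfold symS
  exact sum_mem fun s hs => Subalgebra.smul_mem _ (perm_mem_away ((mem_fixF.mp hs) e he)) _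

theorem symS_comm_at (h : IsPower tr perm c ptr) (χ : Equiv.Perm κ →* ℚ) {U : Finset κ} {e : κ}
    (he : e ∉ U) (x : A) : symS perm χ U * c e x = c e x * symS perm χ U := by
  unfold symS
  rw [mul_sum, sum_mul]
  refine sum_congr rfl fun s hs => ?_
  rw [smul_mul_assoc, h.conj, (mem_fixF.mp hs) e he, mul_smul_comm]

theorem map_fixF {U T : Finset κ} (hU : U ⊆ T) {s : Equiv.Perm κ} (hs : s ∈ fixF U) :
    T.map s.toEmbedding = T := by
  have hs' := fixF_mono hU hs
  refine eq_of_subset_of_card_le ?_ (by rw [card_map])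
  intro x hx
  rw [mem_map] at hx
  obtain ⟨a, ha, rfl⟩ := hx
  exact fixF_apply_mem hs' ha

theorem perm_comm_tens (h : IsPower tr perm c ptr) {U T : Finset κ} (hU : U ⊆ T)
    {s : Equiv.Perm κ} (hs : s ∈ fixF U) (p : A) :
    perm s * tens h T (fun _ => p) = tens h T (fun _ => p) * perm s := by
  rw [conj_tens, map_fixF hU hs]

theorem symS_comm_tens (h : IsPower tr perm c ptr) (χ : Equiv.Perm κ →* ℚ) {U T : Finset κ}
    (hU : U ⊆ T) (p : A) :
    symS perm χ U * tens h T (fun _ => p) = tens h T (fun _ => p) * symS perm χ U := by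
  unfold symS
  rw [mul_sum, sum_mul]
  refine sum_congr rfl fun s hs => ?_
  rw [smul_mul_assoc, perm_comm_tens h hU hs, mul_smul_comm]

/-- **The partial trace of a (signed) symmetrization.** -/
theorem ptr_symS (h : IsPower tr perm c ptr) {p : A} (hp : p * p = p) (htr : tr p = 0)
    (χ : Equiv.Perm κ →* ℚ) {ε : ℚ} (hχ : ∀ a b : κ, a ≠ b → χ (Equiv.swap a b) = ε)
    {T U : Finset κ} {e : κ} (heT : e ∉ T) (hU : U ⊆ T) {X : E} (hX1 : X ∈ away perm c e)
    (hX2 : X * c e p = c e p * X) (hX3 : X * tens h T (fun _ => p) = tens h T (fun _ => p) * X) :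
    ptr e (tens h (insert e T) (fun _ => p) * X * symS perm χ (insert e U)) =
      (ε * U.card) • (tens h T (fun _ => p) * X * symS perm χ U) := by
  have heU : e ∉ U := fun h' => heT (hU h')
  rw [symS_insert χ heU, tens_insert h heT, tens_comm_at h heT]
  have h1 : tens h T (fun _ => p) * c e p * X *
      ((1 + ∑ a ∈ U, χ (Equiv.swap a e) • perm (Equiv.swap a e)) * symS perm χ U) =
      (tens h T (fun _ => p) * X) *
        (c e p * (1 + ∑ a ∈ U, χ (Equiv.swap a e) • perm (Equiv.swap a e))) * symS perm χ U := by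
    calc _ = tens h T (fun _ => p) * (c e p * X) *
          (1 + ∑ a ∈ U, χ (Equiv.swap a e) • perm (Equiv.swap a e)) * symS perm χ U := by
          simp only [mul_assoc]
      _ = _ := by rw [← hX2]; simp only [mul_assoc]
  rw [h1, h.ptr_mul e _ _ (mul_mem (tens_mem_away h heT _) hX1) _ (symS_mem_away χ heU)]
  have h2 : ptr e (c e p * (1 + ∑ a ∈ U, χ (Equiv.swap a e) • perm (Equiv.swap a e))) =
      ∑ a ∈ U, ε • c a p := by
    rw [mul_add, mul_one, map_add, h.ptr_at, htr, map_zero, zero_add, mul_sum, map_sum]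
    refine sum_congr rfl fun a ha => ?_
    have hae : a ≠ e := fun h' => heU (h' ▸ ha)
    have h3 : c e p * perm (Equiv.swap a e) = perm (Equiv.swap a e) * c a p := by
      rw [h.conj, Equiv.swap_apply_left]
    rw [hχ a e hae, mul_smul_comm, h3, map_smul]
    have h4 := h.ptr_mul e (perm (Equiv.swap a e)) 1 (one_mem _) (c a p) (at_mem_away hae p)
    rw [one_mul, one_mul, h.ptr_swap a e hae, one_mul] at h4
    rw [h4]
  rw [h2, mul_sum, sum_mul]
  have h5 : ∀ a ∈ U, tens h T (fun _ => p) * X * (ε • c a p) * symS perm χ U =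
      ε • (tens h T (fun _ => p) * X * symS perm χ U) := by
    intro a ha
    rw [mul_smul_comm, smul_mul_assoc, ← hX3, mul_assoc X, tens_mul_at h (hU ha) hp]
  rw [sum_congr rfl h5, sum_const, ← Nat.cast_smul_eq_nsmul ℚ, smul_smul, mul_comm ε]

/-- Iteration. -/
theorem exists_ptr (h : IsPower tr perm c ptr) {p : A} (hp : p * p = p) (htr : tr p = 0)
    (χ : Equiv.Perm κ →* ℚ) {ε : ℚ} (hε : ε ≠ 0)
    (hχ : ∀ a b : κ, a ≠ b → χ (Equiv.swap a b) = ε) {o : κ} (W V : Finset κ) (hVW : V ⊆ W)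
    (hoW : o ∈ W) (S : Finset κ) (hSW : Disjoint S W) (χ' : Equiv.Perm κ →* ℚ) :
    ∃ Θ : E →ₗ[ℚ] E, ∃ r : ℚ, r ≠ 0 ∧
      Θ (tens h (S ∪ W) (fun _ => p) * symS perm χ' V * symS perm χ (insert o S)) =
        r • (tens h W (fun _ => p) * symS perm χ' V) := by
  induction S using Finset.induction_on with
  | empty =>
    refine ⟨LinearMap.id, 1, one_ne_zero, ?_⟩
    rw [LinearMap.id_apply, one_smul, empty_union, insert_empty_eq, symS_singleton, mul_one]
  | insert e S heS ih =>
    rw [disjoint_insert_left] at hSW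
    obtain ⟨Θ, r, hr, hΘ⟩ := ih hSW.2
    have heV : e ∉ V := fun h' => hSW.1 (hVW h')
    have heT : e ∉ S ∪ W := by simp [heS, hSW.1]
    have hoe : o ≠ e := fun h' => hSW.1 (h' ▸ hoW)
    have h1 := ptr_symS h hp htr χ hχ (T := S ∪ W) (U := insert o S) (e := e) heT
      (by
        intro x hx
        rw [mem_insert] at hx
        rcases hx with rfl | hx
        · exact mem_union_right _ hoW
        · exact mem_union_left _ hx)
      (symS_mem_away χ' heV) (symS_comm_at h χ' heV p)
      (symS_comm_tens h χ' (hVW.trans subset_union_right) p)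
    refine ⟨Θ ∘ₗ ptr e, (ε * ((insert o S).card : ℚ)) * r, ?_, ?_⟩
    · refine mul_ne_zero (mul_ne_zero hε ?_) hr
      have : 0 < (insert o S).card := card_pos.mpr ⟨o, mem_insert_self _ _⟩
      exact_mod_cast this.ne'
    · rw [LinearMap.comp_apply, insert_union, Finset.insert_comm, h1, map_smul, hΘ, smul_smul]

end MPb197b4
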