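import Pool.Agent.Lib.MP_b197b4_nt.Gen

/-!
# MP_b197b4_nt: the main theorem for schemes
-/

set_option autoImplicit false

namespace Pool.Agent.Lib.MP_b197b4_nt

open CategoryTheory AlgebraicGeometry TopologicalSpace

/-- An arithmetic scheme: a separated scheme of finite type over `Spec ℤ`. -/
def Arithmetic (X : Scheme.{0}) : Prop :=
  ∃ π : X ⟶ Spec (CommRingCat.of ℤ), IsSeparated π ∧ LocallyOfFiniteType π ∧ QuasiCompact π

/-- `i` is a closed immersion and `j` an open immersion onto the complement of its image. -/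
def ClosedOpen {X Z U : Scheme.{0}} (i : Z ⟶ X) (j : U ⟶ X) : Prop :=
  IsClosedImmersion i ∧ IsOpenImmersion j ∧ Set.range j = (Set.range i)ᶜ

theorem Arithmetic.closed {X Z : Scheme.{0}} (hX : Arithmetic X) (i : Z ⟶ X)
    [IsClosedImmersion i] : Arithmetic Z := by
  obtain ⟨π, h1, h2, h3⟩ := hX
  exact ⟨i ≫ π, inferInstance, inferInstance, inferInstance⟩

theorem arithmetic_spec (R : Type) [CommRing R] [Algebra.FiniteType ℤ R] :
    Arithmetic (Spec (CommRingCat.of R)) := by
  refine ⟨Spec.map (CommRingCat.ofHom (algebraMap ℤ R)), inferInstance, ?_, inferInstance⟩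
  rw [HasRingHomProperty.Spec_iff (P := @LocallyOfFiniteType)]
  rw [CommRingCat.hom_ofHom, RingHom.finiteType_algebraMap]
  infer_instance

theorem finiteType_of_affine {Y : Scheme.{0}} (hY : Arithmetic Y) {U : Y.Opens}
    (hU : IsAffineOpen U) : Algebra.FiniteType ℤ Γ(Y, U) := by
  obtain ⟨π, h1, h2, h3⟩ := hY
  have h4 : LocallyOfFiniteType (hU.fromSpec ≫ π) := inferInstance
  rw [← Spec.map_preimage (hU.fromSpec ≫ π),
    HasRingHomProperty.Spec_iff (P := @LocallyOfFiniteType)] at h4
  have h5 : (Spec.preimage (hU.fromSpec ≫ π)).hom = algebraMap ℤ Γ(Y, U) := RingHom.ext_int _ _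
  rw [h5, RingHom.finiteType_algebraMap] at h4
  exact h4

theorem isEmpty_spec (R : Type) [CommRing R] [Subsingleton R] :
    IsEmpty (Spec (CommRingCat.of R)) :=
  inferInstanceAs (IsEmpty (PrimeSpectrum R))

theorem finiteType_quot {R : Type} [CommRing R] [Algebra.FiniteType ℤ R] (I : Ideal R) :
    Algebra.FiniteType ℤ (R ⧸ I) :=
  Algebra.FiniteType.of_surjective
    ({ Ideal.Quotient.mk I with commutes' := fun n => by simp } : R →ₐ[ℤ] R ⧸ I)
    Ideal.Quotient.mk_surjective

theorem finiteType_int {R : Type} [CommRing R] {f : ℤ →+* R} (h : f.FiniteType) :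
    @Algebra.FiniteType ℤ R _ _ (Ring.toIntAlgebra _) := by
  have h5 : Ring.toIntAlgebra R = f.toAlgebra := Subsingleton.elim _ _
  rw [h5]
  exact h

theorem finiteType_away {R : Type} [CommRing R] [Algebra.FiniteType ℤ R] (f : R) :
    @Algebra.FiniteType ℤ (Localization.Away f) _ _ (Ring.toIntAlgebra _) := by
  have h1 : (algebraMap ℤ R).FiniteType := RingHom.finiteType_algebraMap.2 inferInstance
  have h2 : (algebraMap R (Localization.Away f)).FiniteType :=
    RingHom.finiteType_algebraMap.2 (IsLocalization.finiteType_of_monoid_fg (Submonoid.powers f) _)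
  exact finiteType_int (h2.comp h1)

theorem finiteType_mvPolynomial (n : ℕ) :
    @Algebra.FiniteType ℤ (MvPolynomial (Fin n) ℤ) _ _ (Ring.toIntAlgebra _) :=
  finiteType_int (f := algebraMap ℤ (MvPolynomial (Fin n) ℤ))
    (RingHom.finiteType_algebraMap.2 inferInstance)

theorem isClosedImmersion_quot {R : Type} [CommRing R] (f : R) :
    IsClosedImmersion (Spec.map (CommRingCat.ofHom (Ideal.Quotient.mk (Ideal.span {f})))) :=
  IsClosedImmersion.spec_of_quotient_mk (R := .of R) _

theorem range_away {R : Type} [CommRing R] (f : R) :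
    Set.range (Spec.map (CommRingCat.ofHom (algebraMap R (Localization.Away f)))) =
      (Set.range (Spec.map (CommRingCat.ofHom (Ideal.Quotient.mk (Ideal.span {f})))))ᶜ := by
  have h1 := PrimeSpectrum.localization_away_comap_range (Localization.Away f) f
  have h2 := range_comap_of_surjective _ (Ideal.Quotient.mk (Ideal.span {f}))
    Ideal.Quotient.mk_surjective
  rw [Ideal.mk_ker, PrimeSpectrum.zeroLocus_span] at h2
  refine h1.trans ?_
  change _ = (Set.range (PrimeSpectrum.comap (Ideal.Quotient.mk (Ideal.span {f}))))ᶜ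
  rw [h2, PrimeSpectrum.basicOpen_eq_zeroLocus_compl]

section

variable (C : Scheme.{0} → Prop) (h0 : ∀ X : Scheme.{0}, IsEmpty X → C X)
    (hloc : ∀ (X Z U : Scheme.{0}) (i : Z ⟶ X) (j : U ⟶ X) [IsClosedImmersion i]
      [IsOpenImmersion j], Arithmetic X → Set.range j = (Set.range i)ᶜ → C Z → C U → C X)

include h0 hloc

theorem of_iso {X Y : Scheme.{0}} (e : X ≅ Y) (hY : Arithmetic Y) (h : C X) : C Y := by
  refine hloc Y X ∅ e.hom (Scheme.emptyTo Y) hY ?_ h (h0 _ inferInstance)
  have h1 : Set.range e.hom = Set.univ := Set.range_eq_univ.2 (Scheme.homeoOfIso e).surjective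
  rw [Set.range_eq_empty, h1, Set.compl_univ]

theorem of_ring {R S : Type} [CommRing R] [CommRing S] (e : R ≃+* S) [Algebra.FiniteType ℤ S]
    (h : C (Spec (CommRingCat.of R))) : C (Spec (CommRingCat.of S)) :=
  of_iso C h0 hloc (Scheme.Spec.mapIso (e.symm.toCommRingCatIso).op) (arithmetic_spec S) h

/-- The affine case. -/
theorem main_affine (A : Type) [CommRing A] [Algebra.FiniteType ℤ A]
    (hreal : ∀ (n : ℕ) (S : Set (Fin 3 → Fin n ⊕ Fin 5)), IsDomain (RealRing n S) →
      ArithSmooth (RealRing n S) →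
      (∃ (I : Ideal A) (h : A ⧸ I), Nonempty (RealRing n S ≃+* Localization.Away h)) →
      C (Spec (CommRingCat.of (RealRing n S)))) :
    C (Spec (CommRingCat.of A)) := by
  refine main (fun R _ => Algebra.FiniteType ℤ R → C (Spec (CommRingCat.of R)))
    (fun R S _ _ e hR hS => ?_) (fun _ => h0 _ (isEmpty_spec _)) (fun R _ f hZ hU hR => ?_) A
    (fun n S h1 h2 h3 _ => hreal n S h1 h2 h3) inferInstance
  · have : Algebra.FiniteType ℤ R := Algebra.FiniteType.equiv hS
      (AlgEquiv.ofRingEquiv (f := e.symm) fun n => by simp)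
    exact of_ring C h0 hloc e (hR this)
  · have := isClosedImmersion_quot f
    exact hloc (Spec (CommRingCat.of R)) (Spec (CommRingCat.of (R ⧸ Ideal.span {f})))
      (Spec (CommRingCat.of (Localization.Away f)))
      (Spec.map (CommRingCat.ofHom (Ideal.Quotient.mk (Ideal.span {f}))))
      (Spec.map (CommRingCat.ofHom (algebraMap R (Localization.Away f)))) (arithmetic_spec R)
      (range_away f) (hZ (finiteType_quot _)) (hU (finiteType_away f))

theorem glue_induct (X : Scheme.{0})
    (haff : ∀ (A : Type) [CommRing A], Algebra.FiniteType ℤ A →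
      (∃ j : Spec (CommRingCat.of A) ⟶ X, IsImmersion j) → C (Spec (CommRingCat.of A))) (n : ℕ) :
    ∀ (Y : Scheme.{0}) (j : Y ⟶ X) [IsImmersion j] (U : Fin n → Y.Opens), Arithmetic Y →
      (∀ i, IsAffineOpen (U i)) → (∀ y : Y, ∃ i, y ∈ U i) → C Y := by
  induction n with
  | zero =>
    intro Y j _ U hY hU hc
    exact h0 Y ⟨fun y => (hc y).elim fun i _ => i.elim0⟩
  | succ n ih =>
    intro Y j _ U hY hU hc
    let T : Closeds Y := ⟨((U 0 : Y.Opens) : Set Y)ᶜ, (U 0).2.isClosed_compl⟩
    let I := Scheme.IdealSheafData.vanishingIdeal T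
    have hr : Set.range I.subschemeι = ((U 0 : Y.Opens) : Set Y)ᶜ := by
      rw [Scheme.IdealSheafData.range_subschemeι]
      simp [I, T]
    refine hloc Y I.subscheme (Spec Γ(Y, U 0)) I.subschemeι (hU 0).fromSpec hY ?_ ?_ ?_
    · rw [hr, compl_compl, (hU 0).range_fromSpec]
    · refine ih I.subscheme (I.subschemeι ≫ j) (fun i => I.subschemeι ⁻¹ᵁ (U i.succ))
        (hY.closed I.subschemeι) (fun i => (hU i.succ).preimage I.subschemeι) fun z => ?_
      obtain ⟨i, hi⟩ := hc (I.subschemeι z)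
      refine Fin.cases (fun hi => ?_) (fun i hi => ⟨i, hi⟩) i hi
      have : I.subschemeι z ∈ ((U 0 : Y.Opens) : Set Y)ᶜ := by
        rw [← hr]
        exact ⟨z, rfl⟩
      exact (this hi).elim
    · exact haff Γ(Y, U 0) (finiteType_of_affine hY (hU 0)) ⟨(hU 0).fromSpec ≫ j, inferInstance⟩

/-- Gluing from affine schemes. -/
theorem glue_affine (X : Scheme.{0}) (hX : Arithmetic X)
    (haff : ∀ (A : Type) [CommRing A], Algebra.FiniteType ℤ A →
      (∃ j : Spec (CommRingCat.of A) ⟶ X, IsImmersion j) → C (Spec (CommRingCat.of A))) :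
    C X := by
  have hc : CompactSpace X := by
    obtain ⟨π, _, _, _⟩ := hX
    exact QuasiCompact.compactSpace_of_compactSpace π
  obtain ⟨s, hs⟩ := isCompact_univ.elim_finite_subcover
    (fun U : X.affineOpens => ((U : X.Opens) : Set X)) (fun U => (U : X.Opens).2) fun x _ => by
      obtain ⟨_, ⟨U, hU, rfl⟩, hx, -⟩ := X.isBasis_affineOpens.exists_subset_of_mem_open
        (Set.mem_univ x) isOpen_univ
      exact Set.mem_iUnion.2 ⟨⟨U, hU⟩, hx⟩
  obtain ⟨n, ⟨e⟩⟩ := Finite.exists_equiv_fin s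
  refine glue_induct C h0 hloc X haff n X (𝟙 X) (fun i => ((e.symm i : X.affineOpens) : X.Opens))
    hX (fun i => (e.symm i : X.affineOpens).2) fun x => ?_
  obtain ⟨U, hU⟩ := Set.mem_iUnion.1 (hs (Set.mem_univ x))
  obtain ⟨hUs, hx⟩ := Set.mem_iUnion.1 hU
  exact ⟨e ⟨U, hUs⟩, by simpa using hx⟩

/-- The main theorem for schemes. -/
theorem main_scheme (X : Scheme.{0}) (hX : Arithmetic X)
    (hreal : ∀ (n : ℕ) (S : Set (Fin 3 → Fin n ⊕ Fin 5)), IsDomain (RealRing n S) →
      ArithSmooth (RealRing n S) →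
      (∃ j : Spec (CommRingCat.of (RealRing n S)) ⟶ X, IsImmersion j) →
      C (Spec (CommRingCat.of (RealRing n S)))) : C X := by
  refine glue_affine C h0 hloc X hX fun A _ hA hj => ?_
  obtain ⟨j, hj⟩ := hj
  refine main_affine C h0 hloc A fun m S h1 h2 h3 => hreal m S h1 h2 ?_
  obtain ⟨I, h, ⟨e⟩⟩ := h3
  have e1 : IsClosedImmersion (Spec.map (CommRingCat.ofHom (Ideal.Quotient.mk I))) :=
    IsClosedImmersion.spec_of_quotient_mk (R := .of A) _
  exact ⟨Spec.map e.symm.toCommRingCatIso.hom ≫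
    Spec.map (CommRingCat.ofHom (algebraMap (A ⧸ I) (Localization.Away h))) ≫
    Spec.map (CommRingCat.ofHom (Ideal.Quotient.mk I)) ≫ j, inferInstance⟩

end

end Pool.Agent.Lib.MP_b197b4_nt
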