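import Pool.Agent.Lib.MP_b197b4_nt.Sch

/-!
# MP_b197b4_nt: realization spaces as schemes
-/

set_option autoImplicit false

namespace Pool.Agent.Lib.MP_b197b4_nt

open CategoryTheory AlgebraicGeometry

open Classical in
/-- The product of the determinants of the triples which are not in `S`. -/
noncomputable def independentProd (n : ℕ) (S : Set (Fin 3 → Fin n ⊕ Fin 5)) :
    Coord n ⧸ collinearIdeal n S :=
  ∏ t ∈ Finset.univ.filter (fun t => t ∉ S),
    Ideal.Quotient.mk (collinearIdeal n S) (tripleDet (generic n) t)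

/-- The realization space: the locally closed subscheme of the affine space of dimension `2 n` over
`ℤ` on which the determinants of the triples in `S` vanish and all others are invertible. -/
noncomputable def realSpace (n : ℕ) (S : Set (Fin 3 → Fin n ⊕ Fin 5)) : Scheme.{0} :=
  Spec (CommRingCat.of (Localization.Away (independentProd n S)))

/-- Smooth over `Spec ℤ` or over the spectrum of a field with `p` elements. -/
def SmoothArith (Y : Scheme.{0}) : Prop :=
  (∃ f : Y ⟶ Spec (CommRingCat.of ℤ), Smooth f) ∨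
    ∃ p : ℕ, p.Prime ∧ ∃ f : Y ⟶ Spec (CommRingCat.of (ZMod p)), Smooth f

theorem smoothArith_spec {R : Type} [CommRing R] (h : ArithSmooth R) :
    SmoothArith (Spec (CommRingCat.of R)) := by
  rcases h with h | ⟨p, hp, hA, h⟩
  · left
    refine ⟨Spec.map (CommRingCat.ofHom (algebraMap ℤ R)), ?_⟩
    rw [HasRingHomProperty.Spec_iff (P := @Smooth), CommRingCat.hom_ofHom,
      RingHom.smooth_algebraMap]
    exact h
  · right
    refine ⟨p, hp, Spec.map (CommRingCat.ofHom (algebraMap (ZMod p) R)), ?_⟩
    rw [HasRingHomProperty.Spec_iff (P := @Smooth), CommRingCat.hom_ofHom,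
      RingHom.smooth_algebraMap]
    exact h

/-- The main theorem with realization spaces. -/
theorem main_space (C : Scheme.{0} → Prop) (h0 : ∀ X : Scheme.{0}, IsEmpty X → C X)
    (hloc : ∀ (X Z U : Scheme.{0}) (i : Z ⟶ X) (j : U ⟶ X),
      Arithmetic X → ClosedOpen i j → C Z → C U → C X)
    (X : Scheme.{0}) (hX : Arithmetic X)
    (hreal : ∀ (n : ℕ) (S : Set (Fin 3 → Fin n ⊕ Fin 5)), IsIntegral (realSpace n S) →
      SmoothArith (realSpace n S) → (∃ j : realSpace n S ⟶ X, IsImmersion j) →
      C (realSpace n S)) : C X := by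
  refine main_scheme C h0 (fun X Z U i j _ _ h1 h2 h3 h4 =>
    hloc X Z U i j h1 ⟨inferInstance, inferInstance, h2⟩ h3 h4) X hX fun n S h1 h2 h3 => ?_
  have h4 : IsIntegral (Spec (CommRingCat.of (RealRing n S))) :=
    @instIsIntegralSpecOfIsDomainCarrier (CommRingCat.of (RealRing n S)) h1
  exact hreal n S h4 (smoothArith_spec h2) h3

end Pool.Agent.Lib.MP_b197b4_nt
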