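import Pool.Agent.Lib.MP_b197b4_nt.Two
import Pool.Agent.Lib.MP_b197b4_nt.Space

/-!
# MP_b197b4_nt: closed subschemes of `(ℙ¹ - {0, 1, ∞})ᵏ` defined by equations between units
-/

set_option autoImplicit false

namespace Pool.Agent.Lib.MP_b197b4_nt

open MvPolynomial

/-- The ring of functions of `(ℙ¹ - {0, 1, ∞})ᵏ` over `ℤ`. -/
abbrev Tripod (k : ℕ) : Type :=
  Localization.Away (∏ i : Fin k, (X i * (1 - X i)) : MvPolynomial (Fin k) ℤ)

/-- The ideal generated by the elements `u - 1`, `u` in a set of units. -/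
noncomputable def unitIdeal (k : ℕ) (U : Set (Tripod k)ˣ) : Ideal (Tripod k) :=
  Ideal.span {a | ∃ u ∈ U, a = (u : Tripod k) - 1}

section

variable {k : ℕ}

/-- The coordinate functions. -/
noncomputable def tx (i : Fin k) : Tripod k := algebraMap (MvPolynomial (Fin k) ℤ) (Tripod k) (X i)

theorem isUnit_tx (i : Fin k) : IsUnit (tx i * (1 - tx i)) := by
  have h := IsLocalization.Away.algebraMap_isUnit (S := Tripod k)
    (∏ i : Fin k, (X i * (1 - X i)) : MvPolynomial (Fin k) ℤ)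
  rw [map_prod] at h
  have h2 := isUnit_of_dvd_unit (Finset.dvd_prod_of_mem _ (Finset.mem_univ i)) h
  rw [map_mul, map_sub, map_one] at h2
  exact h2

theorem isUnit_tx0 (i : Fin k) : IsUnit (tx i) := isUnit_of_mul_isUnit_left (isUnit_tx i)

theorem isUnit_tx1 (i : Fin k) : IsUnit (1 - tx i) := isUnit_of_mul_isUnit_right (isUnit_tx i)

/-- Homomorphisms to a field. -/
theorem exists_hom {K : Type} [Field K] (y : Fin k → K) (h0 : ∀ i, y i ≠ 0) (h1 : ∀ i, y i ≠ 1) :
    ∃ φ : Tripod k →+* K, ∀ i, φ (tx i) = y i := by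
  have hu : IsUnit (eval₂Hom (Int.castRingHom K) y
      (∏ i : Fin k, (X i * (1 - X i)) : MvPolynomial (Fin k) ℤ)) := by
    rw [map_prod, isUnit_iff_ne_zero, Finset.prod_ne_zero_iff]
    intro i _
    simp only [map_mul, map_sub, map_one, eval₂Hom_X']
    exact mul_ne_zero (h0 i) (sub_ne_zero.2 (h1 i).symm)
  exact ⟨IsLocalization.Away.lift _ hu, fun i => by
    rw [tx, IsLocalization.Away.lift_eq, eval₂Hom_X']⟩

/-- The image of a homomorphism from `Tripod k` is contained in a subring as soon as the images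
of the coordinate functions, their inverses and the inverses of `1 - x` are. -/
theorem range_le {Q : Type} [CommRing Q] (ψ : Tripod k →+* Q) (hψ : Function.Surjective ψ)
    {B : Type} [CommRing B] (g : B →+* Q) (u v : Fin k → Bˣ) (hu : ∀ i, g (u i) = ψ (tx i))
    (hv : ∀ i, g (v i) = 1 - ψ (tx i)) : Function.Surjective g := by
  intro q
  obtain ⟨a, rfl⟩ := hψ q
  have hp : ∀ p : MvPolynomial (Fin k) ℤ,
      ∃ b, g b = ψ (algebraMap (MvPolynomial (Fin k) ℤ) (Tripod k) p) := by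
    intro p
    induction p using MvPolynomial.induction_on with
    | C a => exact ⟨a, by
        rw [show (C a : MvPolynomial (Fin k) ℤ) = ((a : ℤ) : MvPolynomial (Fin k) ℤ) from by simp,
          map_intCast, map_intCast, map_intCast]⟩
    | add p q hp hq =>
      obtain ⟨b, hb⟩ := hp
      obtain ⟨c, hc⟩ := hq
      exact ⟨b + c, by rw [map_add, map_add, map_add, hb, hc]⟩
    | mul_X p i hp =>
      obtain ⟨b, hb⟩ := hp
      exact ⟨b * u i, by rw [map_mul, map_mul, map_mul, hb, hu]; rfl⟩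
  obtain ⟨m, p, hm⟩ := IsLocalization.Away.surj
    (∏ i : Fin k, (X i * (1 - X i)) : MvPolynomial (Fin k) ℤ) a
  obtain ⟨b, hb⟩ := hp p
  have hw : g (∏ i, ((u i : B) * v i)) = ψ (algebraMap (MvPolynomial (Fin k) ℤ) (Tripod k)
      (∏ i : Fin k, (X i * (1 - X i)))) := by
    rw [map_prod, map_prod, map_prod]
    refine Finset.prod_congr rfl fun i _ => ?_
    rw [map_mul, hu, hv, map_mul, map_mul, map_sub, map_sub, map_one, map_one]
    rfl
  have hwu : IsUnit (∏ i, ((u i : B) * v i)) :=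
    Finset.prod_induction _ IsUnit (fun a b => IsUnit.mul) isUnit_one
      fun i _ => (u i).isUnit.mul (v i).isUnit
  obtain ⟨w, hw'⟩ := hwu
  refine ⟨b * (↑w⁻¹ : B) ^ m, ?_⟩
  have h1 : g (w : B) = ψ (algebraMap (MvPolynomial (Fin k) ℤ) (Tripod k)
      (∏ i : Fin k, (X i * (1 - X i)))) := by rw [hw', hw]
  have h2 : g ((w : B) * (↑w⁻¹ : B)) = 1 := by rw [Units.mul_inv, map_one]
  rw [map_mul, h1] at h2
  rw [map_mul, map_pow, hb, ← hm, map_mul, map_pow, mul_assoc, ← mul_pow, h2, one_pow, mul_one]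

end

/-- Quotients of nonzero elements of a finite set. -/
theorem exists_ratios {K : Type} [Field K] (L : Set K) (hL : L.Finite) :
    ∃ (k : ℕ) (y : Fin k → K), (∀ i, y i ≠ 0) ∧ (∀ i, y i ≠ 1) ∧
      (∀ a ∈ L, ∀ c ∈ L ∪ {1}, a ≠ 0 → c ≠ 0 → a ≠ c → ∃ i, y i = a / c) ∧
      (∀ i, ∃ a ∈ L, ∃ c ∈ L ∪ {1}, a ≠ 0 ∧ c ≠ 0 ∧ y i = a / c) := by
  classical
  have hfin : ({y | y ≠ 1 ∧ ∃ a ∈ L, ∃ c ∈ L ∪ {1}, a ≠ 0 ∧ c ≠ 0 ∧ y = a / c} : Set K).Finite := by
    refine (hL.image2 (fun a c => a / c) (hL.union (Set.finite_singleton (1 : K)))).subset ?_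
    rintro y ⟨_, a, ha, c, hc, _, _, rfl⟩
    exact ⟨a, ha, c, hc, rfl⟩
  have : Finite ({y | y ≠ 1 ∧ ∃ a ∈ L, ∃ c ∈ L ∪ {1}, a ≠ 0 ∧ c ≠ 0 ∧ y = a / c} : Set K) := hfin
  obtain ⟨k, ⟨e⟩⟩ := Finite.exists_equiv_fin
    ({y | y ≠ 1 ∧ ∃ a ∈ L, ∃ c ∈ L ∪ {1}, a ≠ 0 ∧ c ≠ 0 ∧ y = a / c} : Set K)
  refine ⟨k, fun i => (e.symm i : K), fun i => ?_, fun i => (e.symm i).2.1,
    fun a ha c hc h1 h2 h3 => ⟨e ⟨a / c, ?_, a, ha, c, hc, h1, h2, rfl⟩, by simp⟩, fun i => ?_⟩
  · obtain ⟨_, a, ha, c, hc, h1, h2, h3⟩ := (e.symm i).2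
    change (e.symm i : K) ≠ 0
    rw [h3]
    exact div_ne_zero h1 h2
  · intro h
    exact h3 ((div_eq_one_iff_eq h2).1 h)
  · obtain ⟨_, a, ha, c, hc, h1, h2, h3⟩ := (e.symm i).2
    exact ⟨a, ha, c, hc, h1, h2, h3⟩

section

variable {k : ℕ} {K : Type} [Field K] (φ : Tripod k →+* K)

/-- The units which are mapped to `1`. -/
def oneUnits : Set (Tripod k)ˣ := {u | φ u = 1}

theorem mk_eq_of {u v : (Tripod k)ˣ} (h : φ u = φ v) :
    Ideal.Quotient.mk (unitIdeal k (oneUnits φ)) (u : Tripod k) =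
      Ideal.Quotient.mk (unitIdeal k (oneUnits φ)) (v : Tripod k) := by
  have h1 : Ideal.Quotient.mk (unitIdeal k (oneUnits φ)) ((u * v⁻¹ : (Tripod k)ˣ) : Tripod k) = 1 := by
    rw [← map_one (Ideal.Quotient.mk (unitIdeal k (oneUnits φ))), Ideal.Quotient.mk_eq_mk_iff_sub_mem]
    refine Ideal.subset_span ⟨u * v⁻¹, ?_, rfl⟩
    change φ ((u * v⁻¹ : (Tripod k)ˣ) : Tripod k) = 1
    rw [Units.val_mul, map_mul, h, ← map_mul, Units.mul_inv, map_one]
  have h2 : (u : Tripod k) = ((u * v⁻¹ : (Tripod k)ˣ) : Tripod k) * v := by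
    rw [Units.val_mul, mul_assoc, Units.inv_mul, mul_one]
  rw [h2, map_mul, h1, one_mul]

theorem unitIdeal_le : unitIdeal k (oneUnits φ) ≤ RingHom.ker φ := by
  refine Ideal.span_le.2 ?_
  rintro _ ⟨u, hu, rfl⟩
  change φ ((u : Tripod k) - 1) = 0
  rw [map_sub, map_one, sub_eq_zero]
  exact hu

end

/-- **Every finitely generated domain has an open piece which is defined by equations between
units of `(ℙ¹ - {0, 1, ∞})ᵏ`.** -/
theorem exists_stein (B : Type) [CommRing B] [IsDomain B] [Algebra.FiniteType ℤ B] :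
    ∃ F : B, F ≠ 0 ∧ ∃ (k : ℕ) (U : Set (Tripod k)ˣ),
      Nonempty (Localization.Away F ≃+* (Tripod k ⧸ unitIdeal k U)) := by
  classical
  obtain ⟨L, hf, hg, hL⟩ := exists_finite_set B
  let K := FractionRing B
  let ι : B →+* K := algebraMap B K
  have hι : Function.Injective ι := IsFractionRing.injective B K
  have hι0 {a : B} (ha : a ≠ 0) : ι a ≠ 0 := (map_ne_zero_iff ι hι).2 ha
  obtain ⟨k, y, hy0, hy1, hyr, hyn⟩ := exists_ratios (ι '' L) (hf.image _)
  obtain ⟨φ, hφ⟩ := exists_hom y hy0 hy1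
  let π : Tripod k →+* Tripod k ⧸ unitIdeal k (oneUnits φ) := Ideal.Quotient.mk _
  have hπs : Function.Surjective π := Ideal.Quotient.mk_surjective
  let φ' : (Tripod k ⧸ unitIdeal k (oneUnits φ)) →+* K :=
    Ideal.Quotient.lift _ φ fun a ha => unitIdeal_le φ ha
  have hφ' (a : Tripod k) : φ' (π a) = φ a := Ideal.Quotient.lift_mk _ _ _
  have hunit : ∀ a ∈ L, a ≠ 0 → ∃ u : (Tripod k)ˣ, φ u = ι a := by
    intro a ha h0
    by_cases h1 : a = 1
    · exact ⟨1, by rw [h1, Units.val_one, map_one, map_one]⟩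
    · obtain ⟨i, hi⟩ := hyr (ι a) ⟨a, ha, rfl⟩ 1 (Or.inr rfl) (hι0 h0) one_ne_zero
        (fun h => h1 (hι (by rw [h, map_one])))
      exact ⟨(isUnit_tx0 i).unit, by rw [IsUnit.unit_spec, hφ, hi, div_one]⟩
  choose! w hw using hunit
  set h : B → Tripod k ⧸ unitIdeal k (oneUnits φ) := fun a =>
    if a ∈ L ∧ a ≠ 0 then π (w a) else 0 with hh
  have hval : ∀ a ∈ L, a ≠ 0 → ∀ u : (Tripod k)ˣ, φ u = ι a → h a = π u := by
    intro a ha h0 u hu
    rw [hh]
    simp only [ha, ne_eq, h0, not_false_eq_true, and_self, if_true]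
    exact mk_eq_of φ (by rw [hw a ha h0, hu])
  have hzero : h 0 = 0 := by rw [hh]; simp
  have hph : PHom L h := by
    refine ⟨fun _ => hzero, fun h1 => ?_, fun a ha b hb hab => ?_, fun a ha b hb hab => ?_⟩
    · rw [hval 1 h1 one_ne_zero 1 (by rw [Units.val_one, map_one, map_one]), Units.val_one, map_one]
    · rcases eq_or_ne a 0 with rfl | ha0
      · rw [zero_add, hzero, zero_add]
      rcases eq_or_ne b 0 with rfl | hb0
      · rw [add_zero, hzero, add_zero]
      rcases eq_or_ne (a + b) 0 with hc0 | hc0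
      · have hb1 : b = -a := (neg_eq_of_add_eq_zero_right hc0).symm
        rw [hc0, hzero, hval a ha ha0 (w a) (hw a ha ha0), hval b hb hb0 (-w a) (by
          rw [Units.val_neg, map_neg, hw a ha ha0, hb1, map_neg]), Units.val_neg, map_neg,
          add_neg_cancel]
      · obtain ⟨i, hi⟩ := hyr (ι a) ⟨a, ha, rfl⟩ (ι (a + b)) (Or.inl ⟨_, hab, rfl⟩) (hι0 ha0)
          (hι0 hc0) (fun h => hb0 (by
            have := hι h
            exact left_eq_add.1 this))
        have e1 : h a = π (((isUnit_tx0 i).unit * w (a + b) : (Tripod k)ˣ) : Tripod k) := by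
          refine hval a ha ha0 _ ?_
          rw [Units.val_mul, map_mul, IsUnit.unit_spec, hφ, hw _ hab hc0, hi,
            div_mul_cancel₀ _ (hι0 hc0)]
        have e2 : h b = π (((isUnit_tx1 i).unit * w (a + b) : (Tripod k)ˣ) : Tripod k) := by
          refine hval b hb hb0 _ ?_
          rw [Units.val_mul, map_mul, IsUnit.unit_spec, map_sub, map_one, hφ, hw _ hab hc0, hi,
            sub_mul, one_mul, div_mul_cancel₀ _ (hι0 hc0), map_add, add_sub_cancel_left]
        rw [e1, e2, hval (a + b) hab hc0 (w (a + b)) (hw _ hab hc0), ← map_add, Units.val_mul,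
          Units.val_mul, IsUnit.unit_spec, IsUnit.unit_spec]
        congr 1
        ring
    · rcases eq_or_ne a 0 with rfl | ha0
      · rw [zero_mul, hzero, zero_mul]
      rcases eq_or_ne b 0 with rfl | hb0
      · rw [mul_zero, hzero, mul_zero]
      rw [hval (a * b) hab (mul_ne_zero ha0 hb0) (w a * w b) (by
        rw [Units.val_mul, map_mul, hw a ha ha0, hw b hb hb0, map_mul]), Units.val_mul, map_mul,
        hval a ha ha0 (w a) (hw a ha ha0), hval b hb hb0 (w b) (hw b hb hb0)]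
  obtain ⟨g, hg'⟩ := hL _ h hph
  have hgw : ∀ a ∈ L, ∀ u : (Tripod k)ˣ, φ u = ι a → g a = π u := by
    intro a ha u hu
    have h0 : a ≠ 0 := by
      rintro rfl
      rw [map_zero] at hu
      exact (u.isUnit.map φ).ne_zero hu
    rw [hg' a ha, hval a ha h0 u hu]
  have hgι : φ'.comp g = ι := by
    refine RingHom.eq_of_eqOn_set_dense hg fun a ha => ?_
    rcases eq_or_ne a 0 with rfl | ha0
    · rw [map_zero, map_zero]
    · rw [RingHom.comp_apply, hgw a ha (w a) (hw a ha ha0), hφ', hw a ha ha0]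
  have hc : ∀ i, ∃ a c : B, ∃ u v : (Tripod k)ˣ, a ≠ c ∧ φ u = ι a ∧ φ v = ι c ∧ g a = π u ∧
      g c = π v ∧ y i * ι c = ι a := by
    intro i
    obtain ⟨_, ⟨a, ha, rfl⟩, c', hc', ha0, hc0, hyi⟩ := hyn i
    have ha0' : a ≠ 0 := fun h => ha0 (by rw [h, map_zero])
    rcases hc' with ⟨c, hc, rfl⟩ | rfl
    · have hc0' : c ≠ 0 := fun h => hc0 (by rw [h, map_zero])
      refine ⟨a, c, w a, w c, fun h => hy1 i ?_, hw a ha ha0', hw c hc hc0',
        hgw a ha _ (hw a ha ha0'), hgw c hc _ (hw c hc hc0'), ?_⟩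
      · rw [hyi, h, div_self hc0]
      · rw [hyi, div_mul_cancel₀ _ hc0]
    · refine ⟨a, 1, w a, 1, fun h => hy1 i ?_, hw a ha ha0', by simp,
        hgw a ha _ (hw a ha ha0'), by simp, ?_⟩
      · rw [hyi, h, map_one, div_one]
      · rw [hyi, map_one, mul_one, div_one]
  choose a c u v hac hua hvc hga hgc hyc using hc
  have ha0 (i : Fin k) : a i ≠ 0 := fun h => (u i).isUnit.map φ |>.ne_zero (by
    rw [hua, h, map_zero])
  have hc0 (i : Fin k) : c i ≠ 0 := fun h => (v i).isUnit.map φ |>.ne_zero (by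
    rw [hvc, h, map_zero])
  have hxq (i : Fin k) : π (tx i) * g (c i) = g (a i) := by
    rw [hgc, hga, ← map_mul]
    have := mk_eq_of φ (u := (isUnit_tx0 i).unit * v i) (v := u i) (by
      rw [Units.val_mul, IsUnit.unit_spec, map_mul, hφ, hvc, hua, hyc])
    rw [Units.val_mul, IsUnit.unit_spec] at this
    exact this
  have hxq1 (i : Fin k) : (1 - π (tx i)) * g (c i) = g (c i - a i) := by
    rw [sub_mul, one_mul, hxq, map_sub]
  have hgu (i : Fin k) : IsUnit (g (a i)) := by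
    rw [hga]
    exact (u i).isUnit.map π
  have hgv (i : Fin k) : IsUnit (g (c i)) := by
    rw [hgc]
    exact (v i).isUnit.map π
  have hgd (i : Fin k) : IsUnit (g (c i - a i)) := by
    rw [← hxq1, ← map_one π, ← map_sub]
    exact ((isUnit_tx1 i).map π).mul (hgv i)
  set F : B := ∏ i, (a i * c i * (c i - a i)) with hF
  have hF0 : F ≠ 0 := Finset.prod_ne_zero_iff.2 fun i _ =>
    mul_ne_zero (mul_ne_zero (ha0 i) (hc0 i)) (sub_ne_zero.2 (hac i).symm)
  have hgF : IsUnit (g F) := by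
    rw [hF, map_prod]
    refine Finset.prod_induction _ IsUnit (fun a b => IsUnit.mul) isUnit_one fun i _ => ?_
    rw [map_mul, map_mul]
    exact ((hgu i).mul (hgv i)).mul (hgd i)
  let G : Localization.Away F →+* Tripod k ⧸ unitIdeal k (oneUnits φ) :=
    IsLocalization.Away.lift F hgF
  have hG (b : B) : G (algebraMap B _ b) = g b := IsLocalization.Away.lift_eq _ _ _
  have hdvd (i : Fin k) : a i * c i * (c i - a i) ∣ F := Finset.dvd_prod_of_mem _ (Finset.mem_univ i)
  have hFu : IsUnit (algebraMap B (Localization.Away F) F) :=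
    IsLocalization.Away.algebraMap_isUnit F
  have hi3 (i : Fin k) : IsUnit (algebraMap B (Localization.Away F) (a i * c i * (c i - a i))) :=
    isUnit_of_dvd_unit (map_dvd _ (hdvd i)) hFu
  have hia (i : Fin k) : IsUnit (algebraMap B (Localization.Away F) (a i)) := by
    have := hi3 i
    rw [map_mul, map_mul] at this
    exact isUnit_of_mul_isUnit_left (isUnit_of_mul_isUnit_left this)
  have hic (i : Fin k) : IsUnit (algebraMap B (Localization.Away F) (c i)) := by
    have := hi3 i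
    rw [map_mul, map_mul] at this
    exact isUnit_of_mul_isUnit_right (isUnit_of_mul_isUnit_left this)
  have hid (i : Fin k) : IsUnit (algebraMap B (Localization.Away F) (c i - a i)) := by
    have := hi3 i
    rw [map_mul] at this
    exact isUnit_of_mul_isUnit_right this
  have hinj : Function.Injective G := by
    rw [injective_iff_map_eq_zero]
    intro x hx
    obtain ⟨m, b, hb⟩ := IsLocalization.Away.surj F x
    have h1 : g b = 0 := by
      rw [← hG, ← hb, map_mul, hx, zero_mul]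
    have h2 : ι b = 0 := by
      rw [← hgι, RingHom.comp_apply, h1, map_zero]
    have h3 : b = 0 := hι (by rw [h2, map_zero])
    rw [h3, map_zero] at hb
    exact ((hFu.pow m).mul_left_eq_zero).1 hb
  have hsurj : Function.Surjective G := by
    refine range_le π hπs G (fun i => (hia i).unit * (hic i).unit⁻¹)
      (fun i => (hid i).unit * (hic i).unit⁻¹) (fun i => ?_) fun i => ?_
    · refine (hgv i).mul_left_injective ?_
      change _ * g (c i) = _ * g (c i)
      rw [hxq, ← hG, ← map_mul, Units.val_mul, mul_assoc]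
      have : ((hic i).unit⁻¹ : (Localization.Away F)ˣ) * algebraMap B (Localization.Away F) (c i) =
        1 := (hic i).val_inv_mul
      rw [this, mul_one, IsUnit.unit_spec, hG]
    · refine (hgv i).mul_left_injective ?_
      change _ * g (c i) = _ * g (c i)
      rw [hxq1, ← hG (c i), ← map_mul, Units.val_mul, mul_assoc]
      have : ((hic i).unit⁻¹ : (Localization.Away F)ˣ) * algebraMap B (Localization.Away F) (c i) =
        1 := (hic i).val_inv_mul
      rw [this, mul_one, IsUnit.unit_spec, hG]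
  exact ⟨F, hF0, k, oneUnits φ, ⟨RingEquiv.ofBijective G ⟨hinj, hsurj⟩⟩⟩

end Pool.Agent.Lib.MP_b197b4_nt
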