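import Pool.Agent.Lib.MP_b197b4_nt.Kimura
import Pool.Agent.Lib.MP_b197b4_nt.KPerm
import Pool.Agent.Lib.MP_b197b4_nt.KQuot

/-!
# MP_b197b4_nt: the permutations of the factors of one power decide
-/

namespace MPb197b4

open Polynomial Finset Module

section bound

variable {κ A E : Type*} [DecidableEq κ] [Fintype κ] [Ring A] [Algebra ℚ A] [Ring E] [Algebra ℚ E]
variable {tr : A →ₗ[ℚ] ℚ} {perm : Equiv.Perm κ →* E} {c : κ → A →ₐ[ℚ] E} {ptr : κ → E →ₗ[ℚ] E}

/-- three orthogonal idempotents, the last of trace zero -/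
theorem phantom_boundT [Nonempty κ] (h : IsPower tr perm c ptr) {q0 q1 q2 : A}
    (h0 : q0 * q0 = q0) (h1 : q1 * q1 = q1) (h2 : q2 * q2 = q2)
    (h01 : q0 * q1 = 0) (h10 : q1 * q0 = 0) (h02 : q0 * q2 = 0) (h20 : q2 * q0 = 0)
    (h12 : q1 * q2 = 0) (h21 : q2 * q1 = 0) (hne : q2 ≠ 0) (ht2 : tr q2 = 0)
    {b0 b1 : ℕ} (ht0 : tr q0 ^ 2 = (b0 : ℚ) ^ 2) (ht1 : tr q1 ^ 2 = (b1 : ℚ) ^ 2) :
    (b0 + b1 + 2) ^ (2 * Fintype.card κ) ≤ finrank ℚ (permSpan perm) *
      ((b0 + b1 + 2) ^ 2 * (Fintype.card κ + 1) ^ ((b0 + b1 + 2) ^ 2)) := by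
  have hntA : Nontrivial A := ⟨q2, 0, hne⟩
  have hnt : Nontrivial E := (h.inj (Classical.arbitrary κ)).nontrivial
  exact perm_bound h (q := ![q0, q1, q2])
    (by
      intro a
      fin_cases a
      · exact h0
      · exact h1
      · exact h2)
    (by
      intro a a' haa
      fin_cases a <;> fin_cases a' <;> first | exact absurd rfl haa | assumption)
    (β := 0) (by show tr q2 = _; rw [ht2, Nat.cast_zero])
    (by
      intro Z hZ
      obtain ⟨z, rfl⟩ := card_eq_one.mp hZ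
      show tens h {z} (fun _ => q2) * symS perm (sgnQ κ) {z} ≠ 0
      rw [symS_singleton, mul_one, ← insert_empty_eq z, tens_insert h (notMem_empty z),
        tens_empty, mul_one]
      intro h'
      exact hne (h.inj z (by rw [h', map_zero])))
    ht0 ht1

/-- two orthogonal idempotents, the first with an exterior power which is not zero -/
theorem kimura_boundT [Nontrivial E] (h : IsPower tr perm c ptr) {u v : A} (hu : u * u = u)
    (hv : v * v = v) (huv : u * v = 0) (hvu : v * u = 0) {β b1 : ℕ} (htu : tr u = (β : ℚ))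
    (htv : tr v ^ 2 = (b1 : ℚ) ^ 2) {Z : Finset κ}
    (hZ : Z.card = β + 1) (hne : tens h Z (fun _ => u) * symS perm (sgnQ κ) Z ≠ 0) :
    (β + b1 + 2) ^ (2 * Fintype.card κ) ≤ finrank ℚ (permSpan perm) *
      ((β + b1 + 2) ^ (2 * (β + b1 + 1)) * (Fintype.card κ + 1) ^ ((β + b1 + 2) ^ 2)) := by
  have h1 := perm_bound h (q := ![0, v, u])
    (by
      intro a
      fin_cases a
      · exact mul_zero 0
      · exact hv
      · exact hu)
    (by
      intro a a' haa
      fin_cases a <;> fin_cases a' <;>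
        first | exact absurd rfl haa | exact zero_mul _ | exact mul_zero _ | assumption)
    (β := β) htu
    (fun Z' hZ' h0 => hne (alt_transport h (sgnQ κ) u (hZ'.trans hZ.symm) h0))
    (b0 := 0) (b1 := b1) (by simp) htv
  have e1 : 0 + b1 + (β + 2) = β + b1 + 2 := by ring
  rw [e1] at h1
  exact h1.trans (Nat.mul_le_mul_left _ (Nat.mul_le_mul_right _
    (Nat.pow_le_pow_right (by omega) (by omega))))

end bound

variable {q : ℕ} {X : Variety q}

theorem act_of_dvd {i : ℕ} {r : ℚ[X]} (h : X.P i ∣ r) : X.act i (aeval X.F r) = 0 := by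
  obtain ⟨s, rfl⟩ := h
  have hCH : X.act i (aeval X.F (X.P i)) = 0 := by
    rw [map_aeval' (L := X.L), ← X.charpoly_F i]
    exact LinearMap.aeval_self_charpoly _
  rw [map_mul, map_mul, hCH, zero_mul]

theorem act_of_dvd_sub {i : ℕ} {r : ℚ[X]} (h : X.P i ∣ r - 1) : X.act i (aeval X.F r) = 1 := by
  have h1 := act_of_dvd h
  rw [map_sub, map_sub, map_one, map_one, sub_eq_zero] at h1
  exact h1

theorem coprime_X (hq : 2 ≤ q) (i : ℕ) : IsCoprime (X.P i) Polynomial.X := by
  refine (Polynomial.isCoprime_iff_aeval_ne_zero_of_isAlgClosed ℚ ℂ (X.P i) Polynomial.X).mpr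
    fun α => ?_
  by_contra hcon
  push Not at hcon
  have h1 := X.weight i α hcon.1
  have h2 := hcon.2
  rw [Polynomial.aeval_X] at h2
  rw [h2, norm_zero] at h1
  have h3 : (0 : ℝ) < Real.sqrt q := Real.sqrt_pos.mpr (by exact_mod_cast (by omega : 0 < q))
  exact absurd h1.symm (pow_pos h3 i).ne'

/-- **Transcendental Frobenius.** -/
theorem transcendental_boundT (hq : 2 ≤ q) {k : ℕ} (hk : 1 ≤ k) (W : Power X k)
    (hF : ∀ p : ℚ[X], aeval X.F p = 0 → p = 0) :
    (X.betti + 2) ^ (2 * k) ≤ finrank ℚ (permSpan W.perm) *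
      ((X.betti + 2) ^ 2 * (k + 1) ^ ((X.betti + 2) ^ 2)) := by
  have hev : ∀ i ∈ range (2 * X.d + 1), Even i → X.P i ∣ X.Qp := fun i hi hei =>
    dvd_prod_of_mem _ (mem_filter.mpr ⟨hi, hei⟩)
  have hod : ∀ i ∈ range (2 * X.d + 1), ¬ Even i → X.P i ∣ X.Qm := fun i hi hei =>
    dvd_prod_of_mem _ (mem_filter.mpr ⟨hi, hei⟩)
  have hpX : IsCoprime X.Qp Polynomial.X := IsCoprime.prod_left fun i _ => coprime_X hq i
  have hmX : IsCoprime X.Qm Polynomial.X := IsCoprime.prod_left fun i _ => coprime_X hq i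
  have hpm := X.coprime_pm hq
  set f : ℚ[X] := X.Qp * X.Qm * Polynomial.X with hf
  obtain ⟨a, b, hab⟩ := hpm.mul_right hpX
  obtain ⟨c, d, hcd⟩ := hpm.symm.mul_right hmX
  obtain ⟨e, g, heg⟩ := hpX.symm.mul_right hmX.symm
  set wp : ℚ[X] := b * (X.Qm * Polynomial.X) with hwp
  set wm : ℚ[X] := d * (X.Qp * Polynomial.X) with hwm
  set w2 : ℚ[X] := g * (X.Qp * X.Qm) with hw2
  have hwp1 : wp - 1 = -a * X.Qp := by rw [← hab]; ring
  have hwm1 : wm - 1 = -c * X.Qm := by rw [← hcd]; ring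
  have hw21 : w2 - 1 = -e * Polynomial.X := by rw [← heg]; ring
  have tp : X.tr (aeval X.F wp) = X.bp := by
    rw [X.tr_of (p := Even)
      (fun i hi hp => act_of_dvd_sub (by rw [hwp1]; exact (hev i hi hp).mul_left _))
      (fun i hi hp => act_of_dvd ((hod i hi hp).mul_right _ |>.mul_left _))]
    unfold Variety.bp
    push_cast
    refine sum_congr rfl fun i hi => ?_
    rw [(mem_filter.mp hi).2.neg_one_pow, one_mul]
  have tm : X.tr (aeval X.F wm) = - X.bm := by
    rw [X.tr_of (p := fun i => ¬ Even i)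
      (fun i hi hp => act_of_dvd_sub (by rw [hwm1]; exact (hod i hi hp).mul_left _))
      (fun i hi hp => act_of_dvd ((hev i hi (not_not.mp hp)).mul_right _ |>.mul_left _))]
    unfold Variety.bm
    push_cast
    rw [← sum_neg_distrib]
    refine sum_congr rfl fun i hi => ?_
    rw [(Nat.not_even_iff_odd.mp (mem_filter.mp hi).2).neg_one_pow, neg_one_mul]
  have t2 : X.tr (aeval X.F w2) = 0 := by
    refine X.tr_zero fun i hi => act_of_dvd (Dvd.dvd.mul_left ?_ _)
    by_cases hp : Even i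
    · exact (hev i hi hp).mul_right _
    · exact (hod i hi hp).mul_left _
  have hbp : 1 ≤ X.bp := by
    unfold Variety.bp
    calc 1 = finrank X.L (X.H 0) := X.finrank_zero.symm
      _ ≤ _ := single_le_sum (f := fun i => finrank X.L (X.H i)) (fun _ _ => Nat.zero_le _)
        (mem_filter.mpr ⟨mem_range.mpr (by omega), by simp⟩)
  obtain ⟨E', i1, i2, tr', perm', c', ptr', h', htr', hfin⟩ := exists_quotient W.isPower X.F hF f
    (by
      intro p
      refine X.tr_zero fun i hi => act_of_dvd (Dvd.dvd.mul_right ?_ _)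
      rw [hf]
      refine Dvd.dvd.mul_right ?_ _
      by_cases hp : Even i
      · exact (hev i hi hp).mul_right _
      · exact (hod i hi hp).mul_left _) wp (by
      rw [tp]
      exact_mod_cast (by omega : X.bp ≠ 0))
  have hne : Nonempty (Fin k) := ⟨⟨0, hk⟩⟩
  set mk := Ideal.Quotient.mk (Ideal.span {f}) with hmk
  have hz : ∀ p p' : ℚ[X], f ∣ p - p' → mk p = mk p' := by
    intro p p' hd
    exact Ideal.Quotient.eq.mpr (Ideal.mem_span_singleton.mpr hd)
  have hz0 : ∀ p : ℚ[X], f ∣ p → mk p = 0 := by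
    intro p hd
    exact Ideal.Quotient.eq_zero_iff_mem.mpr (Ideal.mem_span_singleton.mpr hd)
  have key := phantom_boundT h' (q0 := mk wp) (q1 := mk wm) (q2 := mk w2) (b0 := X.bp) (b1 := X.bm)
    (by rw [← map_mul]; exact hz _ _ ⟨-a * b, by
          have : wp * wp - wp = wp * (wp - 1) := by ring
          rw [this, hwp1]; rw [hwp, hf]; ring⟩)
    (by rw [← map_mul]; exact hz _ _ ⟨-c * d, by
          have : wm * wm - wm = wm * (wm - 1) := by ring
          rw [this, hwm1]; rw [hwm, hf]; ring⟩)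
    (by rw [← map_mul]; exact hz _ _ ⟨-e * g, by
          have : w2 * w2 - w2 = w2 * (w2 - 1) := by ring
          rw [this, hw21]; rw [hw2, hf]; ring⟩)
    (by rw [← map_mul]; exact hz0 _ ⟨b * d * Polynomial.X, by rw [hwp, hwm, hf]; ring⟩)
    (by rw [← map_mul]; exact hz0 _ ⟨b * d * Polynomial.X, by rw [hwp, hwm, hf]; ring⟩)
    (by rw [← map_mul]; exact hz0 _ ⟨b * g * X.Qm, by rw [hwp, hw2, hf]; ring⟩)
    (by rw [← map_mul]; exact hz0 _ ⟨b * g * X.Qm, by rw [hwp, hw2, hf]; ring⟩)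
    (by rw [← map_mul]; exact hz0 _ ⟨d * g * X.Qp, by rw [hwm, hw2, hf]; ring⟩)
    (by rw [← map_mul]; exact hz0 _ ⟨d * g * X.Qp, by rw [hwm, hw2, hf]; ring⟩)
    (by
      intro h0
      have h1 : f ∣ w2 := Ideal.mem_span_singleton.mp (Ideal.Quotient.eq_zero_iff_mem.mp h0)
      have h2 : w2.eval 0 = 0 := by
        obtain ⟨s, hs⟩ := h1
        rw [hs, hf, Polynomial.eval_mul, Polynomial.eval_mul, Polynomial.eval_X, mul_zero, zero_mul]
      have h3 : w2.eval 0 = 1 := by
        have h4 := congrArg (Polynomial.eval 0) heg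
        rw [Polynomial.eval_add, Polynomial.eval_one, Polynomial.eval_mul, Polynomial.eval_X,
          mul_zero, zero_add] at h4
        exact h4
      rw [h2] at h3
      exact zero_ne_one h3)
    (by rw [htr', t2]) (by rw [htr', tp]) (by rw [htr', tm, neg_sq])
  rw [Fintype.card_fin, ← X.betti_eq] at key
  exact key.trans (Nat.mul_le_mul_right _ hfin)

/-- a triple of orthogonal idempotents gives the bound -/
theorem big_of_tripleT {k : ℕ} (hk : 1 ≤ k) (W : Power X k)
    {q0 q1 q2 : X.E} (h0 : q0 * q0 = q0) (h1 : q1 * q1 = q1) (h2 : q2 * q2 = q2)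
    (h01 : q0 * q1 = 0) (h10 : q1 * q0 = 0) (h02 : q0 * q2 = 0) (h20 : q2 * q0 = 0)
    (h12 : q1 * q2 = 0) (h21 : q2 * q1 = 0) (hne : q2 ≠ 0) (ht2 : X.tr q2 = 0)
    (ht0 : X.tr q0 = X.bp) (ht1 : X.tr q1 = - X.bm) :
    (X.betti + 2) ^ (2 * k) ≤ finrank ℚ (permSpan W.perm) *
      ((X.betti + 2) ^ 2 * (k + 1) ^ ((X.betti + 2) ^ 2)) := by
  have : Nonempty (Fin k) := ⟨⟨0, hk⟩⟩
  have h := phantom_boundT W.isPower h0 h1 h2 h01 h10 h02 h20 h12 h21 hne ht2
    (b0 := X.bp) (b1 := X.bm) (by rw [ht0]) (by rw [ht1, neg_sq])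
  rwa [Fintype.card_fin, ← X.betti_eq] at h

/-- **No phantoms**, permutations only. -/
theorem no_phantomsT (hq : 2 ≤ q) {k : ℕ} (hk : 1 ≤ k) (W : Power X k)
    (hb : finrank ℚ (permSpan W.perm) * ((X.betti + 2) ^ 2 * (k + 1) ^ ((X.betti + 2) ^ 2)) <
      (X.betti + 2) ^ (2 * k)) :
    IsIntegral ℚ X.F ∧ (∃ P : ℚ[X], P ≠ 0 ∧ aeval X.F P = 0 ∧
      ∀ α : ℂ, aeval α P = 0 → 1 ≤ ‖α‖ ∧ (‖α‖ = 1 → α = 1)) ∧
      (∃ w : ℚ[X], w.eval 1 = 1 ∧ aeval X.F w = X.e) ∧
      ∀ wp wm : ℚ[X], Fit X.F X.Qp wp → Fit X.F X.Qm wm →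
        aeval X.F wp + aeval X.F wm = 1 := by
  have hint : IsIntegral ℚ X.F := by
    by_contra hnot
    refine absurd (transcendental_boundT hq hk W fun p hp => ?_) (not_le.mpr hb)
    by_contra hp0
    exact hnot (IsAlgebraic.isIntegral ⟨p, hp0, hp⟩)
  obtain ⟨w1, h1⟩ := exists_fit hint (Polynomial.X - 1)
  obtain ⟨wp0, hp0⟩ := exists_fit hint X.Qp
  obtain ⟨wm0, hm0⟩ := exists_fit hint X.Qm
  have comm : ∀ p p' : ℚ[X], aeval X.F p * aeval X.F p' = aeval X.F p' * aeval X.F p := by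
    intro p p'
    rw [← map_mul, mul_comm, map_mul]
  -- the second phantom is zero
  have key2 : ∀ wp wm : ℚ[X], Fit X.F X.Qp wp → Fit X.F X.Qm wm →
      1 - aeval X.F wp - aeval X.F wm = 0 := by
    intro wp wm hp hm
    set up := aeval X.F wp with hup
    set um := aeval X.F wm with hum
    have hpm : up * um = 0 := hp.mul_eq_zero hm (X.coprime_pm hq)
    have hmp : um * up = 0 := hm.mul_eq_zero hp (X.coprime_pm hq).symm
    have hpp : up * up = up := hp.idem
    have hmm : um * um = um := hm.idem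
    by_contra hne
    refine absurd (big_of_tripleT hk W (q0 := up) (q1 := um) (q2 := 1 - up - um)
      hpp hmm ?_ hpm hmp ?_ ?_ ?_ ?_ hne ?_ (X.tr_plus hq hp) (X.tr_minus hq hm))
      (not_le.mpr hb)
    · simp only [mul_sub, sub_mul, hpp, hmm, hpm, hmp, one_mul, mul_one]; abel
    · simp only [mul_sub, hpp, hpm, mul_one]; abel
    · simp only [sub_mul, hpp, hmp, one_mul]; abel
    · simp only [mul_sub, hmm, hmp, mul_one]; abel
    · simp only [sub_mul, hmm, hpm, one_mul]; abel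
    · refine X.tr_zero fun i hi => ?_
      by_cases hei : Even i
      · rw [map_sub, map_sub, map_one, hup, hum, hp.act_one (X.act i) (X.charpoly_F i)
          (dvd_prod_of_mem _ (mem_filter.mpr ⟨hi, hei⟩)),
          hm.act_zero (X.act i) (X.charpoly_F i) (IsCoprime.prod_right fun j hj =>
            X.coprime_P hq (by rintro rfl; exact (mem_filter.mp hj).2 hei)), sub_self, sub_zero]
      · rw [map_sub, map_sub, map_one, hup, hum, hm.act_one (X.act i) (X.charpoly_F i)
          (dvd_prod_of_mem _ (mem_filter.mpr ⟨hi, hei⟩)),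
          hp.act_zero (X.act i) (X.charpoly_F i) (IsCoprime.prod_right fun j hj =>
            X.coprime_P hq (by rintro rfl; exact hei (mem_filter.mp hj).2)), sub_zero, sub_self]
  set up := aeval X.F wp0 with hup
  set um := aeval X.F wm0 with hum
  set u1 := aeval X.F w1 with hu1
  have hpm : up * um = 0 := hp0.mul_eq_zero hm0 (X.coprime_pm hq)
  have hmp : um * up = 0 := hm0.mul_eq_zero hp0 (X.coprime_pm hq).symm
  have h1p : u1 * up = u1 := h1.mul_eq_self hp0 X.one_dvd_Qp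
  have hp1 : up * u1 = u1 := by rw [hup, hu1, comm]; exact h1p
  have h1e : u1 * X.e = X.e := h1.mul_fixed (by
    rw [map_sub, Polynomial.aeval_X, map_one, sub_mul, X.F_e, one_mul, sub_self])
  have hce : ∀ p : ℚ[X], Commute X.e (aeval X.F p) := by
    intro p
    induction p using Polynomial.induction_on' with
    | add p p' hp hp' => rw [map_add]; exact hp.add_right hp'
    | monomial n a =>
      rw [Polynomial.aeval_monomial]
      exact Commute.mul_right (Algebra.commute_algebraMap_right a X.e)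
        ((show Commute X.e X.F from X.e_F.trans X.F_e.symm).pow_right n)
  have he1 : X.e * u1 = X.e := by rw [(hce w1).eq]; exact h1e
  have hee := X.e_e
  have hpp : up * up = up := hp0.idem
  have hmm : um * um = um := hm0.idem
  have h11 : u1 * u1 = u1 := h1.idem
  have h1m : u1 * um = 0 := by rw [← h1p, mul_assoc, hpm, mul_zero]
  have hm1 : um * u1 = 0 := by rw [← hp1, ← mul_assoc, hmp, zero_mul]
  have hpe : up * X.e = X.e := by rw [← h1e, ← mul_assoc, hp1]
  have hep : X.e * up = X.e := by rw [← he1, mul_assoc, h1p]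
  have hme : um * X.e = 0 := by rw [← h1e, ← mul_assoc, hm1, zero_mul]
  have hem : X.e * um = 0 := by rw [← he1, mul_assoc, h1m, mul_zero]
  -- the first phantom is zero
  have key1 : u1 - X.e = 0 := by
    by_contra hne
    refine absurd (big_of_tripleT hk W (q0 := up - (u1 - X.e)) (q1 := um) (q2 := u1 - X.e)
      ?_ hmm ?_ ?_ ?_ ?_ ?_ ?_ ?_ hne ?_ ?_ (X.tr_minus hq hm0)) (not_le.mpr hb)
    · simp only [mul_sub, sub_mul, hpp, hp1, hpe, h1p, hep, h11, h1e, he1, hee]; abel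
    · simp only [mul_sub, sub_mul, h11, h1e, he1, hee]; abel
    · simp only [sub_mul, hpm, h1m, hem]; abel
    · simp only [mul_sub, hmp, hm1, hme]; abel
    · simp only [mul_sub, sub_mul, hp1, hpe, h11, h1e, he1, hee]; abel
    · simp only [mul_sub, sub_mul, h1p, hep, h11, h1e, he1, hee]; abel
    · simp only [mul_sub, hm1, hme]; abel
    · simp only [sub_mul, h1m, hem]; abel
    · rw [map_sub, X.tr_one hq h1, X.tr_e, sub_self]
    · rw [map_sub, map_sub, X.tr_plus hq hp0, X.tr_one hq h1, X.tr_e]; ring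
  refine ⟨hint, ?_, ⟨w1, X.eval_one h1, sub_eq_zero.mp key1⟩, fun wp wm hp hm => ?_⟩
  swap
  · have := key2 wp wm hp hm
    rw [sub_sub, sub_eq_zero] at this
    exact this.symm
  obtain ⟨N, hN⟩ := hp0.nil
  obtain ⟨M, hM⟩ := hm0.nil
  refine ⟨X.Qp ^ N * X.Qm ^ M, mul_ne_zero (pow_ne_zero _ X.Qp_ne) (pow_ne_zero _ X.Qm_ne), ?_, ?_⟩
  · have h2 : (1 : X.E) = up + um := by
      have := key2 wp0 wm0 hp0 hm0
      rw [sub_sub, sub_eq_zero] at this
      exact this
    calc aeval X.F (X.Qp ^ N * X.Qm ^ M) = aeval X.F (X.Qp ^ N * X.Qm ^ M) * (up + um) := by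
          rw [← h2, mul_one]
      _ = aeval X.F (X.Qm ^ M) * (aeval X.F (X.Qp ^ N) * up) +
          aeval X.F (X.Qp ^ N) * (aeval X.F (X.Qm ^ M) * um) := by
          rw [mul_add, map_mul, ← mul_assoc, ← mul_assoc, comm (X.Qp ^ N) (X.Qm ^ M)]
      _ = 0 := by rw [hN, hM, mul_zero, mul_zero, add_zero]
  · intro α hα
    have h2 : ∃ i, aeval α (X.P i) = 0 := by
      rw [map_mul, map_pow, map_pow] at hα
      rcases mul_eq_zero.mp hα with h3 | h3
      · have h4 : aeval α X.Qp = 0 := by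
          by_contra h5
          exact pow_ne_zero N h5 h3
        unfold Variety.Qp at h4
        rw [map_prod, prod_eq_zero_iff] at h4
        obtain ⟨i, _, hi⟩ := h4
        exact ⟨i, hi⟩
      · have h4 : aeval α X.Qm = 0 := by
          by_contra h5
          exact pow_ne_zero M h5 h3
        unfold Variety.Qm at h4
        rw [map_prod, prod_eq_zero_iff] at h4
        obtain ⟨i, _, hi⟩ := h4
        exact ⟨i, hi⟩
    obtain ⟨i, hi⟩ := h2
    have h3 := X.weight i α hi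
    have h4 : (1 : ℝ) < Real.sqrt q := by
      rw [Real.lt_sqrt (by norm_num)]
      have : (2 : ℝ) ≤ q := by exact_mod_cast hq
      linarith
    refine ⟨by rw [h3]; exact one_le_pow₀ h4.le, fun h5 => ?_⟩
    rw [h3] at h5
    have h6 : i = 0 := by
      by_contra h7
      exact absurd h5 (one_lt_pow₀ h4 h7).ne'
    rw [h6, X.P_zero, map_sub, Polynomial.aeval_X, map_one, sub_eq_zero] at hi
    exact hi

/-- **The permutations on one power decide Kimura finiteness.** -/
theorem kimuraT (hq : 2 ≤ q) {k : ℕ} (hk : 1 ≤ k) (W : Power X k)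
    (hb : finrank ℚ (permSpan W.perm) *
      ((X.betti + 2) ^ (2 * (X.betti + 1)) * (k + 1) ^ ((X.betti + 2) ^ 2)) <
      (X.betti + 2) ^ (2 * k)) :
    X.betti + 2 ≤ k ∧ ∃ u v : X.E, u * u = u ∧ v * v = v ∧ u * v = 0 ∧ v * u = 0 ∧ u + v = 1 ∧
      (∀ i ∈ range (2 * X.d + 1), Even i → X.act i u = 1 ∧ X.act i v = 0) ∧
      (∀ i ∈ range (2 * X.d + 1), ¬ Even i → X.act i u = 0 ∧ X.act i v = 1) ∧
      (∀ Z : Finset (Fin k), Z.card = X.bp + 1 → tens W.isPower Z (fun _ => u) * W.alt Z = 0) ∧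
      (∀ Z : Finset (Fin k), Z.card = X.bm + 1 → tens W.isPower Z (fun _ => v) * W.sym Z = 0) := by
  have hnt : Nontrivial W.E := (W.isPower.inj ⟨0, hk⟩).nontrivial
  have hpos : 1 ≤ finrank ℚ (permSpan W.perm) := by
    have : Nontrivial (permSpan W.perm) := by
      refine ⟨⟨W.perm 1, perm_mem_span W.perm 1⟩, 0, fun h' => ?_⟩
      have h'' : W.perm 1 = 0 := congrArg Subtype.val h'
      rw [map_one] at h''
      exact one_ne_zero h''
    exact Module.finrank_pos
  have hb' : finrank ℚ (permSpan W.perm) * ((X.betti + 2) ^ 2 * (k + 1) ^ ((X.betti + 2) ^ 2)) <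
      (X.betti + 2) ^ (2 * k) :=
    (Nat.mul_le_mul_left _ (Nat.mul_le_mul_right _
      (Nat.pow_le_pow_right (by omega) (by omega)))).trans_lt hb
  have hkN : X.betti + 2 ≤ k := by
    by_contra hcon
    have h1 : (X.betti + 2) ^ (2 * k) ≤ (X.betti + 2) ^ (2 * (X.betti + 1)) :=
      Nat.pow_le_pow_right (by omega) (by omega)
    have h2 : 1 ≤ (k + 1) ^ ((X.betti + 2) ^ 2) := Nat.pow_pos (Nat.succ_pos k)
    have h3 := Nat.mul_le_mul hpos (Nat.mul_le_mul (le_refl ((X.betti + 2) ^ (2 * (X.betti + 1)))) h2)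
    omega
  obtain ⟨hint, -, -, hsum⟩ := no_phantomsT hq hk W hb'
  obtain ⟨wp, hp⟩ := exists_fit hint X.Qp
  obtain ⟨wm, hm⟩ := exists_fit hint X.Qm
  have hpm : aeval X.F wp * aeval X.F wm = 0 := hp.mul_eq_zero hm (X.coprime_pm hq)
  have hmp : aeval X.F wm * aeval X.F wp = 0 := hm.mul_eq_zero hp (X.coprime_pm hq).symm
  have hN := X.betti_eq
  refine ⟨hkN, aeval X.F wp, aeval X.F wm, hp.idem, hm.idem, hpm, hmp, hsum wp wm hp hm,
    ?_, ?_, ?_, ?_⟩
  · intro i hi hei
    exact ⟨hp.act_one (X.act i) (X.charpoly_F i) (dvd_prod_of_mem _ (mem_filter.mpr ⟨hi, hei⟩)),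
      hm.act_zero (X.act i) (X.charpoly_F i) (IsCoprime.prod_right fun j hj =>
        X.coprime_P hq (by rintro rfl; exact (mem_filter.mp hj).2 hei))⟩
  · intro i hi hei
    exact ⟨hp.act_zero (X.act i) (X.charpoly_F i) (IsCoprime.prod_right fun j hj =>
        X.coprime_P hq (by rintro rfl; exact hei (mem_filter.mp hj).2)),
      hm.act_one (X.act i) (X.charpoly_F i) (dvd_prod_of_mem _ (mem_filter.mpr ⟨hi, hei⟩))⟩
  · intro Z hZ
    by_contra hne
    have h1 := kimura_boundT W.isPower hp.idem hm.idem hpm hmp (X.tr_plus hq hp) (b1 := X.bm)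
      (by rw [X.tr_minus hq hm, neg_sq]) hZ hne
    rw [Fintype.card_fin, ← hN] at h1
    exact absurd h1 (not_le.mpr hb)
  · intro Z hZ
    by_contra hne
    have h0 : tens (twist_isPower W.isPower) Z (fun _ => aeval X.F wm) *
        symS (twist W.perm) (sgnQ (Fin k)) Z ≠ 0 := by
      rw [tens_twist, symS_twist_sgn, ← sym_eq]
      exact hne
    have h1 := kimura_boundT (twist_isPower W.isPower) hm.idem hp.idem hmp hpm
      (β := X.bm) (b1 := X.bp)
      (by rw [LinearMap.neg_apply, X.tr_minus hq hm, neg_neg])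
      (by rw [LinearMap.neg_apply, neg_sq, X.tr_plus hq hp]) hZ h0
    rw [Fintype.card_fin, add_comm X.bm X.bp, ← hN] at h1
    have h2 : finrank ℚ (permSpan (twist W.perm)) ≤ finrank ℚ (permSpan W.perm) := by
      refine Submodule.finrank_mono (Submodule.span_le.mpr ?_)
      rintro _ ⟨σ, rfl⟩
      rw [twist_apply]
      exact Submodule.smul_mem _ _ (perm_mem_span W.perm σ)
    exact absurd (h1.trans (Nat.mul_le_mul_right _ h2)) (not_le.mpr hb)

/-- **The permutations on one power decide all products.** -/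
theorem dichotomyT {r : ℕ} (hq : 2 ≤ q) (X : Fin r → Variety q) (W : ∀ j k, Power (X j) k)
    (C : Cohomology X) :
    (∃ j, ∀ k, 1 ≤ k → ((X j).betti + 2) ^ (2 * k) ≤ finrank ℚ (permSpan (W j k).perm) *
      (((X j).betti + 2) ^ 2 * (k + 1) ^ (((X j).betti + 2) ^ 2))) ∨
    ((∀ i : ℤ, i ≤ 2 * ∑ j, ((X j).d : ℤ) → AddGroup.FG (C.A 0 i)) ∧
      (∀ i : ℤ, i < 2 * ∑ j, ((X j).d : ℤ) → Finite (C.A 0 i)) ∧
      ∀ m : ℕ, 1 ≤ m → ∀ i : ℤ, i ≤ 2 * (∑ j, ((X j).d : ℤ) + (m : ℤ)) → Finite (C.A m i)) := by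
  rw [or_iff_not_imp_left]
  intro hcon
  push Not at hcon
  have h : ∀ j, (∃ P : ℚ[X], P ≠ 0 ∧ aeval (X j).F P = 0 ∧
      ∀ α : ℂ, aeval α P = 0 → 1 ≤ ‖α‖ ∧ (‖α‖ = 1 → α = 1)) ∧
      ∃ w : ℚ[X], w.eval 1 = 1 ∧ aeval (X j).F w = (X j).e := by
    intro j
    obtain ⟨k, hk, hb⟩ := hcon j
    have := no_phantomsT hq hk (W j k) hb
    exact ⟨this.2.1, this.2.2.1⟩
  have hfin : ∀ (m : ℕ) (i : ℤ), (m, i) ≠ (0, 2 * ∑ j, ((X j).d : ℤ)) →
      i ≤ 2 * (∑ j, ((X j).d : ℤ) + (m : ℤ)) → Finite (C.A m i) := by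
    intro m i hmi hi
    obtain ⟨T, hT, hTf, ⟨e⟩⟩ := C.split m i hmi hi
    have hV := vanishing hq X C h m i hmi
    exact Finite.of_equiv _ e.symm.toEquiv
  have h2 : ∀ i : ℤ, i < 2 * ∑ j, ((X j).d : ℤ) → Finite (C.A 0 i) := by
    intro i hi
    refine hfin 0 i (fun h3 => ?_) (by push_cast; linarith)
    exact absurd (congrArg Prod.snd h3) hi.ne
  refine ⟨?_, h2, ?_⟩
  · intro i hi
    rcases hi.eq_or_lt with h3 | h3
    · rw [h3]; exact C.top
    · have := h2 i h3
      infer_instance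
  · intro m hm i hi
    refine hfin m i (fun h3 => ?_) hi
    have := congrArg Prod.fst h3
    simp only at this
    omega

end MPb197b4
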