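import Pool.Agent.Lib.MP_b197b4_nt.Base

/-!
# MP_b197b4_nt: partial traces of permutations and idempotents on a power of a variety
-/

namespace MPb197b4

open Finset

variable {κ A E : Type*} [DecidableEq κ] [Ring A] [Algebra ℚ A] [Ring E] [Algebra ℚ E]

variable {tr : A →ₗ[ℚ] ℚ} {perm : Equiv.Perm κ →* E} {c : κ → A →ₐ[ℚ] E} {ptr : κ → E →ₗ[ℚ] E}

omit [DecidableEq κ] in
theorem at_mem_away {i j : κ} (h : i ≠ j) (a : A) : c i a ∈ away perm c j :=
  Algebra.subset_adjoin (Or.inl ⟨i, a, h, rfl⟩)

omit [DecidableEq κ] in
theorem perm_mem_away {σ : Equiv.Perm κ} {j : κ} (h : σ j = j) : perm σ ∈ away perm c j :=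
  Algebra.subset_adjoin (Or.inr ⟨σ, h, rfl⟩)

theorem pw (h : IsPower tr perm c ptr) (T : Finset κ) (y : κ → A) :
    (T : Set κ).Pairwise (Function.onFun Commute fun j => c j (y j)) :=
  fun i _ j _ hij => h.comm i j hij _ _

/-- The correspondence `y j` on the factor `j`, for `j` in the finite set `T`. -/
def tens (h : IsPower tr perm c ptr) (T : Finset κ) (y : κ → A) : E :=
  T.noncommProd (fun j => c j (y j)) (pw h T y)

theorem tens_empty (h : IsPower tr perm c ptr) (y : κ → A) : tens h ∅ y = 1 :=
  Finset.noncommProd_empty _ _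

theorem tens_insert (h : IsPower tr perm c ptr) {j : κ} {T : Finset κ} (hj : j ∉ T) (y : κ → A) :
    tens h (insert j T) y = c j (y j) * tens h T y := by
  exact Finset.noncommProd_insert_of_notMem _ _ _ _ hj

theorem tens_comm_at (h : IsPower tr perm c ptr) {j : κ} {T : Finset κ} (hj : j ∉ T) (y : κ → A)
    (x : A) : c j x * tens h T y = tens h T y * c j x := by
  induction T using Finset.induction_on with
  | empty => simp [tens_empty]
  | insert i T hi ih =>
    have hij : j ≠ i := fun h' => hj (by simp [h'])
    rw [tens_insert h hi, ← mul_assoc, h.comm j i hij, mul_assoc, ih (fun h' => hj (by simp [h'])),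
      mul_assoc]

theorem tens_mul (h : IsPower tr perm c ptr) (T : Finset κ) (y z : κ → A) :
    tens h T y * tens h T z = tens h T (fun j => y j * z j) := by
  induction T using Finset.induction_on with
  | empty => simp [tens_empty]
  | insert i T hi ih =>
    rw [tens_insert h hi, tens_insert h hi, tens_insert h hi, ← ih, map_mul]
    calc c i (y i) * tens h T y * (c i (z i) * tens h T z)
        = c i (y i) * (tens h T y * c i (z i)) * tens h T z := by simp only [mul_assoc]
      _ = c i (y i) * (c i (z i) * tens h T y) * tens h T z := by rw [tens_comm_at h hi]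
      _ = _ := by simp only [mul_assoc]

theorem tens_congr (h : IsPower tr perm c ptr) {T : Finset κ} {y z : κ → A}
    (hyz : ∀ j ∈ T, y j = z j) : tens h T y = tens h T z := by
  induction T using Finset.induction_on with
  | empty => simp [tens_empty]
  | insert i T hi ih =>
    rw [tens_insert h hi, tens_insert h hi, hyz i (mem_insert_self _ _),
      ih fun j hj => hyz j (mem_insert_of_mem hj)]

theorem tens_eq_zero (h : IsPower tr perm c ptr) {T : Finset κ} {y : κ → A} {j : κ} (hj : j ∈ T)
    (hy : y j = 0) : tens h T y = 0 := by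
  rw [← insert_erase hj, tens_insert h (notMem_erase _ _), hy, map_zero, zero_mul]

theorem tens_mem_away (h : IsPower tr perm c ptr) {j : κ} {T : Finset κ} (hj : j ∉ T) (y : κ → A) :
    tens h T y ∈ away perm c j := by
  induction T using Finset.induction_on with
  | empty => rw [tens_empty]; exact one_mem _
  | insert i T hi ih =>
    rw [tens_insert h hi]
    exact mul_mem (at_mem_away (fun h' => hj (by simp [h'])) _) (ih fun h' => hj (by simp [h']))

theorem conj_tens (h : IsPower tr perm c ptr) (σ : Equiv.Perm κ) (T : Finset κ) (y : κ → A) :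
    perm σ * tens h T y = tens h (T.map σ.toEmbedding) (fun j => y (σ.symm j)) * perm σ := by
  induction T using Finset.induction_on with
  | empty => simp [tens_empty]
  | insert i T hi ih =>
    have hi' : σ i ∉ T.map σ.toEmbedding := by simpa using hi
    rw [tens_insert h hi, ← mul_assoc, h.conj, mul_assoc, ih, map_insert,
      tens_insert h (by simpa using hi), ← mul_assoc]
    simp

/-- absorption of an idempotent -/
theorem tens_mul_at (h : IsPower tr perm c ptr) {T : Finset κ} {y : κ → A} {j : κ} (hj : j ∈ T)
    {x : A} (hx : y j * x = y j) : tens h T y * c j x = tens h T y := by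
  rw [← insert_erase hj, tens_insert h (notMem_erase _ _), mul_assoc,
    ← tens_comm_at h (notMem_erase _ _), ← mul_assoc, ← map_mul, hx]

theorem at_mul_tens (h : IsPower tr perm c ptr) {T : Finset κ} {y : κ → A} {j : κ} (hj : j ∈ T)
    {x : A} (hx : x * y j = y j) : c j x * tens h T y = tens h T y := by
  rw [← insert_erase hj, tens_insert h (notMem_erase _ _), ← mul_assoc, ← map_mul, hx]

/-- **The partial trace of an idempotent tensor times a permutation, fixed point.** -/
theorem ptr_fixed (h : IsPower tr perm c ptr) {T : Finset κ} {j : κ} (hj : j ∉ T) (y : κ → A)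
    {ρ : Equiv.Perm κ} (hρ : ρ j = j) :
    ptr j (tens h (insert j T) y * perm ρ) = tr (y j) • (tens h T y * perm ρ) := by
  rw [tens_insert h hj, tens_comm_at h hj, h.ptr_mul j _ _ (tens_mem_away h hj y) _
    (perm_mem_away hρ), h.ptr_at, ← Algebra.commutes, mul_assoc, Algebra.smul_def]

/-- **The partial trace of an idempotent tensor times a permutation, moved point.** -/
theorem ptr_moved (h : IsPower tr perm c ptr) {T : Finset κ} {j : κ} (hj : j ∉ T) {y : κ → A}
    {ρ : Equiv.Perm κ} (hρ : ρ j ≠ j) (hT : ρ j ∈ T) (hy : y (ρ j) * y j = y (ρ j)) :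
    ptr j (tens h (insert j T) y * perm ρ) = tens h T y * perm (Equiv.swap (ρ j) j * ρ) := by
  set i := ρ j with hi
  set ρ' := Equiv.swap i j * ρ with hρ'
  have h1 : perm ρ = perm (Equiv.swap i j) * perm ρ' := by
    rw [← map_mul, hρ', ← mul_assoc, Equiv.swap_mul_self, one_mul]
  have h2 : ρ' j = j := by
    rw [hρ', Equiv.Perm.mul_apply, ← hi, Equiv.swap_apply_left]
  have h3 : c j (y j) * perm (Equiv.swap i j) = perm (Equiv.swap i j) * c i (y j) := by
    rw [h.conj, Equiv.swap_apply_left]
  have h4 : tens h (insert j T) y * perm ρ =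
      tens h T y * perm (Equiv.swap i j) * (c i (y j) * perm ρ') := by
    rw [tens_insert h hj, tens_comm_at h hj, h1]
    calc tens h T y * c j (y j) * (perm (Equiv.swap i j) * perm ρ')
        = tens h T y * (c j (y j) * perm (Equiv.swap i j)) * perm ρ' := by simp only [mul_assoc]
      _ = _ := by rw [h3]; simp only [mul_assoc]
  rw [h4, h.ptr_mul j _ _ (tens_mem_away h hj y) _ (mul_mem (at_mem_away hρ _)
    (perm_mem_away h2)), h.ptr_swap i j hρ, mul_one, ← mul_assoc, tens_mul_at h hT hy]

/-- An idempotent `p ≠ 0` has tensor powers `≠ 0`. -/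
theorem tens_ne_zero [Nontrivial E] (h : IsPower tr perm c ptr) {p : A} (hp : p * p = p)
    (hp0 : p ≠ 0) (T : Finset κ) : tens h T (fun _ => p) ≠ 0 := by
  induction T using Finset.induction_on with
  | empty => rw [tens_empty]; exact one_ne_zero
  | insert j T hj ih =>
    rcases T.eq_empty_or_nonempty with rfl | ⟨i, hi⟩
    · rw [tens_insert h hj, tens_empty, mul_one]
      intro h0
      exact hp0 (h.inj j (by rw [h0, map_zero]))
    · intro h0
      have hij : i ≠ j := fun h' => hj (h' ▸ hi)
      apply ih
      have h1 := ptr_moved h (T := T) hj (y := fun _ => p) (ρ := Equiv.swap i j)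
        (by rw [Equiv.swap_apply_right]; exact hij) (by rw [Equiv.swap_apply_right]; exact hi) hp
      rw [h0, zero_mul, map_zero, Equiv.swap_apply_right, Equiv.swap_mul_self, map_one, mul_one] at h1
      exact h1.symm

end MPb197b4
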