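import Pool.Agent.Lib.MP_b197b4_nt.Tower
import Pool.Agent.Lib.MP_b197b4_nt.Fix

/-!
# MP_b197b4_nt: the iterated partial trace
-/

namespace MPb197b4

open Finset

variable {κ A E : Type*} [DecidableEq κ] [Fintype κ] [Ring A] [Algebra ℚ A] [Ring E] [Algebra ℚ E]
variable {tr : A →ₗ[ℚ] ℚ} {perm : Equiv.Perm κ →* E} {c : κ → A →ₐ[ℚ] E} {ptr : κ → E →ₗ[ℚ] E}

/-- The permutations which fix the points outside `T` and preserve `g`. -/
def Good (T : Finset κ) (g : κ → Fin 3) : Subgroup (Equiv.Perm κ) where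
  carrier := {ρ | (∀ a, a ∉ T → ρ a = a) ∧ ∀ a, g (ρ a) = g a}
  one_mem' := ⟨fun _ _ => rfl, fun _ => rfl⟩
  mul_mem' := fun {ρ τ} h1 h2 => ⟨fun a ha => by
    rw [Equiv.Perm.mul_apply, h2.1 a ha, h1.1 a ha], fun a => by
    rw [Equiv.Perm.mul_apply, h1.2, h2.2]⟩
  inv_mem' := fun {ρ} h => ⟨fun a ha => by
    rw [Equiv.Perm.inv_eq_iff_eq, h.1 a ha], fun a => by
    have h1 := h.2 (ρ⁻¹ a)
    rw [show ρ (ρ⁻¹ a) = a from ρ.apply_symm_apply a] at h1
    exact h1.symm⟩

omit [DecidableEq κ] [Fintype κ] in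
theorem mem_Good {T : Finset κ} {g : κ → Fin 3} {ρ : Equiv.Perm κ} :
    ρ ∈ Good T g ↔ (∀ a, a ∉ T → ρ a = a) ∧ ∀ a, g (ρ a) = g a := Iff.rfl

omit [Fintype κ] in
theorem good_swap {T : Finset κ} {g : κ → Fin 3} {j : κ} (hj : j ∉ T) {ρ : Equiv.Perm κ}
    (hρ : ρ ∈ Good (insert j T) g) : Equiv.swap (ρ j) j * ρ ∈ Good T g := by
  rw [mem_Good] at hρ ⊢
  refine ⟨fun a ha => ?_, fun a => ?_⟩
  · by_cases haj : a = j
    · subst haj
      rw [Equiv.Perm.mul_apply, Equiv.swap_apply_left]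
    · have h1 : ρ a = a := hρ.1 a (by simp [haj, ha])
      rw [Equiv.Perm.mul_apply, h1, Equiv.swap_apply_of_ne_of_ne _ haj]
      intro h2
      exact haj (ρ.injective (h1.trans h2))
  · rw [Equiv.Perm.mul_apply, ← hρ.2 a]
    rcases eq_or_ne (ρ a) (ρ j) with h | h
    · rw [h, Equiv.swap_apply_left, hρ.2 j]
    · rcases eq_or_ne (ρ a) j with h' | h'
      · rw [h', Equiv.swap_apply_right, hρ.2 j]
      · rw [Equiv.swap_apply_of_ne_of_ne h h']

/-- **The iterated partial trace.** -/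
theorem exists_trace (h : IsPower tr perm c ptr) {q : Fin 3 → A} (hq : ∀ a, q a * q a = q a)
    {b : Fin 3 → ℕ} {g : κ → Fin 3} (T C : Finset κ) (hTC : Disjoint T C)
    (hb : ∀ j ∈ T, (tr (q (g j))) ^ 2 = ((b (g j) : ℕ) : ℚ) ^ 2) :
    ∃ Φ : E →ₗ[ℚ] E, ∃ v : Equiv.Perm κ → ℚ,
      (∀ ρ ∈ Good T g, Φ (tens h (T ∪ C) (fun j => q (g j)) * perm ρ) =
        v ρ • tens h C (fun j => q (g j))) ∧
      (∀ ρ ∈ Good T g, (v ρ) ^ 2 = (((fixSet b T g ρ).card : ℕ) : ℚ) ^ 2) ∧
      (v 1) ^ 2 = ∏ j ∈ T, ((b (g j) : ℕ) : ℚ) ^ 2 := by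
  induction T using Finset.induction_on with
  | empty =>
    refine ⟨LinearMap.id, fun _ => 1, ?_, ?_, ?_⟩
    · intro ρ hρ
      have : ρ = 1 := by
        ext a
        exact hρ.1 a (notMem_empty a)
      rw [this, map_one, mul_one, empty_union, one_smul]
      rfl
    · intro ρ _
      rw [fix_empty]
      norm_num
    · simp
  | insert j T hj ih =>
    rw [disjoint_insert_left] at hTC
    obtain ⟨Φ, v, h1, h2, h3⟩ := ih hTC.2 fun i hi => hb i (mem_insert_of_mem hi)
    refine ⟨Φ ∘ₗ ptr j, fun ρ => if ρ j = j then tr (q (g j)) * v ρ else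
      v (Equiv.swap (ρ j) j * ρ), ?_, ?_, ?_⟩
    · intro ρ hρ
      have hj' : j ∉ T ∪ C := by simp [hj, hTC.1]
      rw [insert_union, LinearMap.comp_apply]
      show _ = (if ρ j = j then tr (q (g j)) * v ρ else v (Equiv.swap (ρ j) j * ρ)) • _
      by_cases hf : ρ j = j
      · rw [if_pos hf, ptr_fixed h hj' _ hf, map_smul, mul_smul]
        congr 1
        apply h1
        refine ⟨fun a ha => ?_, hρ.2⟩
        by_cases haj : a = j
        · rw [haj, hf]
        · exact hρ.1 a (by simp [haj, ha])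
      · have hT : ρ j ∈ T := by
          by_contra hcon
          have h4 : ρ (ρ j) = ρ j := by
            apply hρ.1
            simp [hf, hcon]
          exact hf (ρ.injective h4)
        rw [if_neg hf, ptr_moved h hj' hf (mem_union_left _ hT) (by rw [hρ.2 j, hq]),
          h1 _ (good_swap hj hρ)]
    · intro ρ hρ
      dsimp only
      by_cases hf : ρ j = j
      · have hρ' : ρ ∈ Good T g := by
          refine ⟨fun a ha => ?_, hρ.2⟩
          by_cases haj : a = j
          · rw [haj, hf]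
          · exact hρ.1 a (by simp [haj, ha])
        rw [if_pos hf, mul_pow, hb j (mem_insert_self _ _), h2 ρ hρ', fix_fixed b g hj hf]
        push_cast
        ring
      · have hT : ρ j ∈ T := by
          by_contra hcon
          have h4 : ρ (ρ j) = ρ j := by
            apply hρ.1
            simp [hf, hcon]
          exact hf (ρ.injective h4)
        rw [if_neg hf, h2 _ (good_swap hj hρ), fix_moved b g hj hf hT (hρ.2 j)]
    · dsimp only
      rw [prod_insert hj, Equiv.Perm.one_apply, if_pos rfl, mul_pow, hb j (mem_insert_self _ _), h3]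

end MPb197b4
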