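import Pool.Agent.Lib.MP_b197b4_nt.Conf

/-!
# MP_b197b4_nt: every finitely generated commutative ring is the ring of coordinates of a plane
configuration of points, with determinants as relations (continued)
-/

set_option autoImplicit false

namespace Pool.Agent.Lib.MP_b197b4_nt

open MvPolynomial

/-- Labels of the points which belong to a set of ring elements. -/
abbrev Lab (L : Type) : Type := L ⊕ L ⊕ L ⊕ L ⊕ (L × L) ⊕ (L × L)

section lab

variable {B : Type} [CommRing B] (L : Set B)

abbrev lP (a : L) : Lab L := .inl a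
abbrev lD (a : L) : Lab L := .inr (.inl a)
abbrev lY (a : L) : Lab L := .inr (.inr (.inl a))
abbrev lE (a : L) : Lab L := .inr (.inr (.inr (.inl a)))
abbrev lA (a b : L) : Lab L := .inr (.inr (.inr (.inr (.inl (a, b)))))
abbrev lM (a b : L) : Lab L := .inr (.inr (.inr (.inr (.inr (a, b)))))

/-- The points `(a, 0)`, `(a, a)`, `(0, a)`, `(1, a)`, `(a, a + b)`, `(a, a * b)`. -/
def std : Lab L → Fin 2 → B
  | .inl a => ![a, 0]
  | .inr (.inl a) => ![a, a]
  | .inr (.inr (.inl a)) => ![0, a]
  | .inr (.inr (.inr (.inl a))) => ![1, a]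
  | .inr (.inr (.inr (.inr (.inl (a, b))))) => ![a, a + b]
  | .inr (.inr (.inr (.inr (.inr (a, b))))) => ![a, a * b]

end lab

section forced

variable {R : Type} [CommRing R] {ι : Type} (c : ι → Fin 2 → R)

theorem det_xaxis (i : ι) : tripleDet c ![.inl i, .inr 0, .inr 2] = - c i 1 := by
  rw [tripleDet_eq]; simp [point, fixedPoint]

theorem det_yaxis (i : ι) : tripleDet c ![.inl i, .inr 1, .inr 2] = c i 0 := by
  rw [tripleDet_eq]; simp [point, fixedPoint]

theorem det_diag (i : ι) : tripleDet c ![.inl i, .inr 4, .inr 2] = c i 0 - c i 1 := by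
  rw [tripleDet_eq]; simp [point, fixedPoint]

theorem det_vert (i j : ι) : tripleDet c ![.inl i, .inr 1, .inl j] = c i 0 - c j 0 := by
  rw [tripleDet_eq]; simp [point, fixedPoint]

theorem det_hor (i j : ι) : tripleDet c ![.inl i, .inr 0, .inl j] = c j 1 - c i 1 := by
  rw [tripleDet_eq]; simp [point, fixedPoint]; ring

theorem det_vertU (i : ι) : tripleDet c ![.inl i, .inr 1, .inr 3] = c i 0 - 1 := by
  rw [tripleDet_eq]; simp [point, fixedPoint]

theorem det_slope (i j : ι) :
    tripleDet c ![.inl i, .inr 4, .inl j] = c i 0 - c i 1 + c j 1 - c j 0 := by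
  rw [tripleDet_eq]; simp [point, fixedPoint]

theorem det_line (i j : ι) :
    tripleDet c ![.inl i, .inr 2, .inl j] = c i 1 * c j 0 - c i 0 * c j 1 := by
  rw [tripleDet_eq]; simp [point, fixedPoint]; ring

end forced

section main

variable {B : Type} [CommRing B] (L : Set B)

/-- A configuration which has the collinearities of the standard one is its image. -/
theorem std_univ (hL : ∀ (R : Type) [CommRing R] (h : B → R), PHom L h →
      ∃ f : B →+* R, ∀ a ∈ L, f a = h a)
    (R : Type) [CommRing R] (c : Lab L → Fin 2 → R)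
    (hc : ∀ t, tripleDet (std L) t = 0 → tripleDet c t = 0) :
    ∃ f : B →+* R, ∀ i j, f (std L i j) = c i j := by
  classical
  set h : B → R := fun b => if hb : b ∈ L then c (lP L ⟨b, hb⟩) 0 else 0 with hh
  have hP (a : L) : h a = c (lP L a) 0 := by
    rw [hh]; simp
  have P1 (a : L) : c (lP L a) 1 = 0 := by
    have := hc ![.inl (lP L a), .inr 0, .inr 2] (by rw [det_xaxis]; simp [std])
    rw [det_xaxis] at this
    exact neg_eq_zero.1 this
  have D0 (a : L) : c (lD L a) 0 = h a := by
    have := hc ![.inl (lD L a), .inr 1, .inl (lP L a)] (by rw [det_vert]; simp [std])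
    rw [det_vert] at this
    rw [hP, sub_eq_zero.1 this]
  have D1 (a : L) : c (lD L a) 1 = h a := by
    have := hc ![.inl (lD L a), .inr 4, .inr 2] (by rw [det_diag]; simp [std])
    rw [det_diag] at this
    rw [← D0, sub_eq_zero.1 this]
  have Y0 (a : L) : c (lY L a) 0 = 0 := by
    have := hc ![.inl (lY L a), .inr 1, .inr 2] (by rw [det_yaxis]; simp [std])
    rw [det_yaxis] at this
    exact this
  have Y1 (a : L) : c (lY L a) 1 = h a := by
    have := hc ![.inl (lY L a), .inr 0, .inl (lD L a)] (by rw [det_hor]; simp [std])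
    rw [det_hor] at this
    rw [← D1, sub_eq_zero.1 this]
  have E0 (a : L) : c (lE L a) 0 = 1 := by
    have := hc ![.inl (lE L a), .inr 1, .inr 3] (by rw [det_vertU]; simp [std])
    rw [det_vertU] at this
    exact sub_eq_zero.1 this
  have E1 (a : L) : c (lE L a) 1 = h a := by
    have := hc ![.inl (lE L a), .inr 0, .inl (lD L a)] (by rw [det_hor]; simp [std])
    rw [det_hor] at this
    rw [← D1, sub_eq_zero.1 this]
  have A0 (a b : L) : c (lA L a b) 0 = h a := by
    have := hc ![.inl (lA L a b), .inr 1, .inl (lP L a)] (by rw [det_vert]; simp [std])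
    rw [det_vert] at this
    rw [hP, sub_eq_zero.1 this]
  have A1 (a b : L) : c (lA L a b) 1 = h a + h b := by
    have := hc ![.inl (lA L a b), .inr 4, .inl (lY L b)] (by rw [det_slope]; simp [std])
    rw [det_slope, A0, Y0, Y1] at this
    linear_combination -this
  have M0 (a b : L) : c (lM L a b) 0 = h a := by
    have := hc ![.inl (lM L a b), .inr 1, .inl (lP L a)] (by rw [det_vert]; simp [std])
    rw [det_vert] at this
    rw [hP, sub_eq_zero.1 this]
  have M1 (a b : L) : c (lM L a b) 1 = h a * h b := by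
    have := hc ![.inl (lM L a b), .inr 2, .inl (lE L b)] (by rw [det_line]; simp [std])
    rw [det_line, M0, E0, E1] at this
    linear_combination this
  have hph : PHom L h := by
    refine ⟨fun h0 => ?_, fun h1 => ?_, fun a ha b hb hab => ?_, fun a ha b hb hab => ?_⟩
    · have := hc ![.inl (lP L ⟨0, h0⟩), .inr 1, .inr 2] (by rw [det_yaxis]; simp [std])
      rw [det_yaxis] at this
      rw [← this, ← hP]
    · have := hc ![.inl (lP L ⟨1, h1⟩), .inr 1, .inr 3] (by rw [det_vertU]; simp [std])
      rw [det_vertU] at this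
      rw [← sub_eq_zero.1 this, ← hP]
    · have := hc ![.inl (lY L ⟨a + b, hab⟩), .inr 0, .inl (lA L ⟨a, ha⟩ ⟨b, hb⟩)]
        (by rw [det_hor]; simp [std])
      rw [det_hor, Y1, A1] at this
      exact (sub_eq_zero.1 this).symm
    · have := hc ![.inl (lY L ⟨a * b, hab⟩), .inr 0, .inl (lM L ⟨a, ha⟩ ⟨b, hb⟩)]
        (by rw [det_hor]; simp [std])
      rw [det_hor, Y1, M1] at this
      exact (sub_eq_zero.1 this).symm
  obtain ⟨f, hf⟩ := hL R h hph
  refine ⟨f, fun i j => ?_⟩
  have hf' (a : L) : f a = h a := hf a a.2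
  rcases i with a | a | a | a | ⟨a, b⟩ | ⟨a, b⟩
  · fin_cases j
    · exact (hf' a).trans (hP a)
    · exact (map_zero f).trans (P1 a).symm
  · fin_cases j
    · exact (hf' a).trans (D0 a).symm
    · exact (hf' a).trans (D1 a).symm
  · fin_cases j
    · exact (map_zero f).trans (Y0 a).symm
    · exact (hf' a).trans (Y1 a).symm
  · fin_cases j
    · exact (map_one f).trans (E0 a).symm
    · exact (hf' a).trans (E1 a).symm
  · fin_cases j
    · exact (hf' a).trans (A0 a b).symm
    · exact (map_add f _ _).trans (by rw [hf', hf']; exact (A1 a b).symm)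
  · fin_cases j
    · exact (hf' a).trans (M0 a b).symm
    · exact (map_mul f _ _).trans (by rw [hf', hf']; exact (M1 a b).symm)

end main

theorem tripleDet_comp {R : Type} [CommRing R] {ι ι' : Type} (e : ι' → ι) (c : ι → Fin 2 → R)
    (t : Fin 3 → ι' ⊕ Fin 5) :
    tripleDet (fun i => c (e i)) t = tripleDet c (fun a => Sum.map e id (t a)) := by
  unfold tripleDet
  congr 1
  ext a b
  simp only [Matrix.of_apply]
  rcases t a with i | k <;> rfl

/-- **Every finitely generated commutative ring is the coordinate ring of a plane configuration.** -/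
theorem exists_config (B : Type) [CommRing B] [Algebra.FiniteType ℤ B] :
    ∃ (n : ℕ) (c : Fin n → Fin 2 → B),
      Subring.closure (Set.range fun x : Fin n × Fin 2 => c x.1 x.2) = ⊤ ∧
      ∀ (R : Type) [CommRing R] (c' : Fin n → Fin 2 → R),
        (∀ t, tripleDet c t = 0 → tripleDet c' t = 0) →
        ∃ f : B →+* R, ∀ i j, f (c i j) = c' i j := by
  obtain ⟨L, hf, hg, hL⟩ := exists_finite_set B
  have : Finite L := hf
  obtain ⟨n, ⟨e⟩⟩ := Finite.exists_equiv_fin (Lab L)
  refine ⟨n, fun i => std L (e.symm i), ?_, fun R _ c' hc' => ?_⟩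
  · rw [eq_top_iff, ← hg]
    refine Subring.closure_mono fun a ha => ?_
    refine ⟨(e (lP L ⟨a, ha⟩), 0), ?_⟩
    simp [std]
  · obtain ⟨f, hf⟩ := std_univ L hL R (fun i => c' (e i)) fun t ht => by
      rw [tripleDet_comp]
      refine hc' _ ?_
      rw [tripleDet_comp]
      convert ht using 2
      ext a
      rcases t a with i | k <;> simp
    refine ⟨f, fun i j => ?_⟩
    rw [hf]
    simp

end Pool.Agent.Lib.MP_b197b4_nt
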